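import Pool.Agent.H82.Basic

set_option autoImplicit false

open Set Topology

namespace Pool.Agent.H82

/-- scaling of a set by `c ^ i` -/
def Gs (c : ℂ) (i : ℕ) (X : Set ℂ) : Set ℂ := (fun w => c ^ i * w) '' X

section
variable {c : ℂ} (hc : c ≠ 0)

theorem Gs_mono {i : ℕ} {X Y : Set ℂ} (h : X ⊆ Y) : Gs c i X ⊆ Gs c i Y := image_mono h

theorem Gs_add (i j : ℕ) (X : Set ℂ) : Gs c (i + j) X = Gs c i (Gs c j X) := by
  simp only [Gs, image_image]
  apply image_congr
  intro w _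
  ring

theorem Gs_zero (X : Set ℂ) : Gs c 0 X = X := by simp [Gs]

theorem Gs_one (X : Set ℂ) : Gs c 1 X = (fun w => c * w) '' X := by simp [Gs]

include hc in
theorem Gs_eq (i : ℕ) (X : Set ℂ) : Gs c i X = Homeomorph.mulLeft₀ (c ^ i) (pow_ne_zero i hc) '' X := rfl

include hc in
theorem Gs_interior (i : ℕ) (X : Set ℂ) : interior (Gs c i X) = Gs c i (interior X) := by
  rw [Gs_eq hc, Gs_eq hc, Homeomorph.image_interior]

include hc in
theorem Gs_closure (i : ℕ) (X : Set ℂ) : closure (Gs c i X) = Gs c i (closure X) := by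
  rw [Gs_eq hc, Gs_eq hc, Homeomorph.image_closure]

include hc in
theorem Gs_inj (i : ℕ) : Function.Injective (fun w => c ^ i * w) :=
  (Homeomorph.mulLeft₀ (c ^ i) (pow_ne_zero i hc)).injective

include hc in
theorem Gs_tile (i : ℕ) {X : Set ℂ} (h : IsCompact X ∧ IsConnected X ∧ closure (interior X) = X) :
    IsCompact (Gs c i X) ∧ IsConnected (Gs c i X) ∧ closure (interior (Gs c i X)) = Gs c i X := by
  have hcont : Continuous (fun w : ℂ => c ^ i * w) := by fun_prop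
  refine ⟨h.1.image hcont, h.2.1.image _ hcont.continuousOn, ?_⟩
  rw [Gs_interior hc, Gs_closure hc, h.2.2]

include hc in
theorem Gs_disjoint (i : ℕ) {X Y : Set ℂ} (h : Disjoint X Y) : Disjoint (Gs c i X) (Gs c i Y) :=
  (disjoint_image_iff (Gs_inj hc i)).2 h

end

theorem assemble (c : ℂ) (hc : 1 < ‖c‖) (k : ℕ) (hk : 0 < k) (T0 : Set ℂ)
    (I : ℕ → Set Z2) (Q : ℕ → Z2 → Set ℂ)
    (h0 : IsCompact T0 ∧ IsConnected T0 ∧ closure (interior T0) = T0)
    (h0i : (0 : ℂ) ∈ interior T0)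
    (hQ : ∀ n, ∀ v ∈ I n, IsCompact (Q n v) ∧ IsConnected (Q n v) ∧
      closure (interior (Q n v)) = Q n v)
    (F1 : (fun w => c * w) '' T0 = T0 ∪ ⋃ v ∈ I 0, Q 0 v)
    (F2 : ∀ n, ∀ v ∈ I n, ∃ S ⊆ I (n + 1), Q n v = ⋃ u ∈ S, Q (n + 1) u)
    (F2' : ∀ n, ∀ u ∈ I (n + 1), ∃ v ∈ I n, Q (n + 1) u ⊆ Q n v)
    (F3 : ∀ n, ∀ v ∈ I n, ∀ v' ∈ I n, v ≠ v' → Disjoint (interior (Q n v)) (interior (Q n v')))
    (F4 : ∀ v ∈ I 0, Disjoint (interior T0) (interior (Q 0 v)))
    (F5 : ∃ F : Finset (Set ℂ), ∀ n, ∀ v ∈ I n, ∃ P ∈ F, ∃ z : ℂ,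
      (fun w => c ^ (k * n) * w) '' Q n v = (fun w => w + z) '' P) :
    ∃ T : Set (Set ℂ),
        (∀ t ∈ T, IsCompact t ∧ IsConnected t ∧ closure (interior t) = t) ∧
        ⋃₀ T = Set.univ ∧
        (∀ t ∈ T, ∀ s ∈ T, t ≠ s → Disjoint (interior t) (interior s)) ∧
        (∃ F : Finset (Set ℂ), ∀ t ∈ T, ∃ P ∈ F, ∃ z : ℂ, t = (fun w => w + z) '' P) ∧
        (∀ t ∈ T, ∃ S ⊆ T, (fun w => c * w) '' t = ⋃₀ S) := by
  have hc0 : c ≠ 0 := by
    rintro rfl
    rw [norm_zero] at hc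
    linarith
  set T : Set (Set ℂ) := {t | t = T0 ∨ ∃ n v s, v ∈ I n ∧ s < k ∧ t = Gs c (k * n + s) (Q n v)}
    with hT
  have hTmem : ∀ n v s, v ∈ I n → s < k → Gs c (k * n + s) (Q n v) ∈ T := by
    intro n v s hv hs
    exact Or.inr ⟨n, v, s, hv, hs, rfl⟩
  have hF1 : Gs c 1 T0 = T0 ∪ ⋃ v ∈ I 0, Q 0 v := by rw [Gs_one]; exact F1
  have hsub1 : T0 ⊆ Gs c 1 T0 := by rw [hF1]; exact subset_union_left
  have hQsub1 : ∀ v ∈ I 0, Q 0 v ⊆ Gs c 1 T0 := by
    intro v hv
    rw [hF1]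
    exact subset_union_of_subset_right (subset_biUnion_of_mem (u := fun v => Q 0 v) hv) _
  have hsucc : ∀ i, Gs c i T0 ⊆ Gs c (i + 1) T0 := by
    intro i
    rw [Gs_add]
    exact Gs_mono hsub1
  have hmono : ∀ i j, i ≤ j → Gs c i T0 ⊆ Gs c j T0 := by
    intro i j hij
    induction j, hij using Nat.le_induction with
    | base => exact Subset.rfl
    | succ j _ ih => exact ih.trans (hsucc j)
  -- refinement of level 0 tiles
  have href : ∀ n, ∀ v ∈ I 0, Q 0 v ⊆ ⋃ u ∈ I n, Q n u := by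
    intro n
    induction n with
    | zero =>
      intro v hv
      exact subset_biUnion_of_mem (u := fun v => Q 0 v) hv
    | succ n ih =>
      intro v hv z hz
      have := ih v hv hz
      simp only [mem_iUnion, exists_prop] at this ⊢
      obtain ⟨u, hu, hzu⟩ := this
      obtain ⟨S, hS, hQS⟩ := F2 n u hu
      rw [hQS] at hzu
      simp only [mem_iUnion, exists_prop] at hzu
      obtain ⟨w, hw, hzw⟩ := hzu
      exact ⟨w, hS hw, hzw⟩
  have hanc : ∀ n, ∀ u ∈ I n, ∃ v ∈ I 0, Q n u ⊆ Q 0 v := by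
    intro n
    induction n with
    | zero => intro u hu; exact ⟨u, hu, Subset.rfl⟩
    | succ n ih =>
      intro u hu
      obtain ⟨v, hv, h1⟩ := F2' n u hu
      obtain ⟨v0, hv0, h2⟩ := ih v hv
      exact ⟨v0, hv0, h1.trans h2⟩
  have hkey : ∀ i j, i < j → ∀ n v n' v', v ∈ I n → v' ∈ I n' →
      Disjoint (interior (Gs c i (Q n v))) (interior (Gs c j (Q n' v'))) := by
    intro i j hij n v n' v' hv hv'
    obtain ⟨v0, hv0, h1⟩ := hanc n v hv
    obtain ⟨v0', hv0', h2⟩ := hanc n' v' hv'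
    have h3 : Gs c i (Q n v) ⊆ Gs c j T0 := by
      refine (Gs_mono (h1.trans (hQsub1 v0 hv0))).trans ?_
      rw [← Gs_add]
      exact hmono _ _ hij
    have h4 : Gs c j (Q n' v') ⊆ Gs c j (Q 0 v0') := Gs_mono h2
    refine Disjoint.mono (interior_mono h3) (interior_mono h4) ?_
    rw [Gs_interior hc0, Gs_interior hc0]
    exact Gs_disjoint hc0 _ (F4 v0' hv0')
  have hkey0 : ∀ j n' v', v' ∈ I n' → Disjoint (interior T0) (interior (Gs c j (Q n' v'))) := by
    intro j n' v' hv'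
    obtain ⟨v0', hv0', h2⟩ := hanc n' v' hv'
    have h3 : T0 ⊆ Gs c j T0 := by
      have := hmono 0 j (Nat.zero_le _)
      rwa [Gs_zero] at this
    have h4 : Gs c j (Q n' v') ⊆ Gs c j (Q 0 v0') := Gs_mono h2
    refine Disjoint.mono (interior_mono h3) (interior_mono h4) ?_
    rw [Gs_interior hc0, Gs_interior hc0]
    exact Gs_disjoint hc0 _ (F4 v0' hv0')
  refine ⟨T, ?_, ?_, ?_, ?_, ?_⟩
  · rintro t (rfl | ⟨n, v, s, hv, -, rfl⟩)
    · exact h0
    · exact Gs_tile hc0 _ (hQ n v hv)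
  · -- cover
    have h1 : ∀ N, ∀ v ∈ I 0, Gs c N (Q 0 v) ⊆ ⋃₀ T := by
      intro N v hv z hz
      have h2 := Gs_mono (c := c) (i := N) (href (N / k) v hv) hz
      obtain ⟨w, hw, hwz⟩ := h2
      simp only [mem_iUnion, exists_prop] at hw
      obtain ⟨u, hu, hwu⟩ := hw
      refine ⟨_, hTmem (N / k) u (N % k) hu (Nat.mod_lt _ hk), ?_⟩
      rw [Nat.div_add_mod]
      exact ⟨w, hwu, hwz⟩
    have h2 : ∀ N, Gs c N T0 ⊆ ⋃₀ T := by
      intro N
      induction N with
      | zero =>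
        rw [Gs_zero]
        exact subset_sUnion_of_mem (Or.inl rfl)
      | succ N ih =>
        rw [Gs_add, hF1]
        rintro _ ⟨w, hw, rfl⟩
        rcases hw with hw | hw
        · exact ih ⟨w, hw, rfl⟩
        · simp only [mem_iUnion, exists_prop] at hw
          obtain ⟨v, hv, hwv⟩ := hw
          exact h1 N v hv ⟨w, hwv, rfl⟩
    rw [eq_univ_iff_forall]
    intro z
    obtain ⟨ε, hε, hb⟩ := Metric.isOpen_iff.1 isOpen_interior 0 h0i
    obtain ⟨N, hN⟩ := pow_unbounded_of_one_lt (‖z‖ / ε) hc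
    apply h2 N
    refine ⟨z / c ^ N, interior_subset (hb ?_), ?_⟩
    · rw [Metric.mem_ball, dist_zero_right, norm_div, norm_pow]
      rw [div_lt_iff₀ hε] at hN
      rw [div_lt_iff₀ (by positivity)]
      linarith
    · simp only
      field_simp
  · -- disjointness
    rintro t (rfl | ⟨n, v, s, hv, hs, rfl⟩) t' (rfl | ⟨n', v', s', hv', hs', rfl⟩) hne
    · exact absurd rfl hne
    · exact hkey0 _ _ _ hv'
    · exact (hkey0 _ _ _ hv).symm
    · rcases lt_trichotomy (k * n + s) (k * n' + s') with h | h | h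
      · exact hkey _ _ h _ _ _ _ hv hv'
      · have hn : n = n' := by
          have e1 : (k * n + s) / k = n := by
            rw [Nat.mul_add_div hk, Nat.div_eq_of_lt hs, add_zero]
          have e2 : (k * n' + s') / k = n' := by
            rw [Nat.mul_add_div hk, Nat.div_eq_of_lt hs', add_zero]
          rw [← e1, ← e2, h]
        subst hn
        have hs2 : s = s' := by omega
        subst hs2
        have hvv : v ≠ v' := by
          rintro rfl
          exact hne rfl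
        rw [Gs_interior hc0, Gs_interior hc0]
        exact Gs_disjoint hc0 _ (F3 n v hv v' hv' hvv)
      · exact (hkey _ _ h _ _ _ _ hv' hv).symm
  · -- finitely many shapes
    classical
    obtain ⟨F, hF⟩ := F5
    refine ⟨insert T0 ((F ×ˢ Finset.range k).image (fun p => Gs c p.2 p.1)), ?_⟩
    rintro t (rfl | ⟨n, v, s, hv, hs, rfl⟩)
    · exact ⟨t, Finset.mem_insert_self _ _, 0, by simp⟩
    · obtain ⟨P, hP, z, hz⟩ := hF n v hv
      refine ⟨Gs c s P, ?_, c ^ s * z, ?_⟩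
      · apply Finset.mem_insert_of_mem
        rw [Finset.mem_image]
        exact ⟨(P, s), Finset.mem_product.2 ⟨hP, Finset.mem_range.2 hs⟩, rfl⟩
      · have h1 : Gs c (k * n + s) (Q n v) = Gs c s (Gs c (k * n) (Q n v)) := by
          rw [add_comm, Gs_add]
        rw [h1]
        have h2 : Gs c (k * n) (Q n v) = (fun w => w + z) '' P := hz
        rw [h2]
        simp only [Gs, image_image]
        apply image_congr
        intro w _
        ring
  · -- self-similarity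
    rintro t (rfl | ⟨n, v, s, hv, hs, rfl⟩)
    · refine ⟨{t} ∪ {x | ∃ v ∈ I 0, x = Q 0 v}, ?_, ?_⟩
      · rintro x (hx | ⟨v, hv, rfl⟩)
        · rw [mem_singleton_iff] at hx
          subst hx
          exact Or.inl rfl
        · have := hTmem 0 v 0 hv hk
          rwa [mul_zero, add_zero, Gs_zero] at this
      · rw [F1, sUnion_union, sUnion_singleton]
        congr 1
        ext z
        simp only [mem_iUnion, exists_prop, mem_sUnion, mem_ofPred_eq]
        constructor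
        · rintro ⟨v, hv, hz⟩; exact ⟨_, ⟨v, hv, rfl⟩, hz⟩
        · rintro ⟨x, ⟨v, hv, rfl⟩, hz⟩; exact ⟨v, hv, hz⟩
    · have h1 : (fun w => c * w) '' Gs c (k * n + s) (Q n v) = Gs c (k * n + s + 1) (Q n v) := by
        rw [← Gs_one, ← Gs_add, add_comm 1]
      rw [h1]
      by_cases hs1 : s + 1 < k
      · refine ⟨{Gs c (k * n + (s + 1)) (Q n v)}, ?_, ?_⟩
        · rw [singleton_subset_iff]
          exact hTmem n v (s + 1) hv hs1
        · rw [sUnion_singleton, add_assoc]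
      · have hk1 : s + 1 = k := by omega
        obtain ⟨S, hS, hQS⟩ := F2 n v hv
        refine ⟨{x | ∃ u ∈ S, x = Gs c (k * (n + 1) + 0) (Q (n + 1) u)}, ?_, ?_⟩
        · rintro x ⟨u, hu, rfl⟩
          exact hTmem (n + 1) u 0 (hS hu) hk
        · have h2 : k * n + s + 1 = k * (n + 1) + 0 := by
            rw [add_assoc, hk1]; ring
          rw [h2, hQS]
          ext z
          simp only [Gs, mem_image, mem_iUnion, exists_prop, mem_sUnion, mem_ofPred_eq]
          constructor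
          · rintro ⟨w, ⟨u, hu, hw⟩, hz⟩
            exact ⟨_, ⟨u, hu, rfl⟩, ⟨w, hw, hz⟩⟩
          · rintro ⟨x, ⟨u, hu, rfl⟩, ⟨w, hw, hz⟩⟩
            exact ⟨w, ⟨u, hu, hw⟩, hz⟩

end Pool.Agent.H82
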