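import Mathlib

set_option autoImplicit false

namespace Pool.Agent.H82

/-! Basic objects: the square lattice, integer vectors, rounding, lattice lifts. -/

abbrev Z2 := ℤ × ℤ

/-- inclusion of the square lattice in `ℂ` -/
noncomputable def tc (u : Z2) : ℂ := ⟨(u.1 : ℝ), (u.2 : ℝ)⟩

/-- the `ℓ¹` norm -/
def n1 (u : Z2) : ℕ := u.1.natAbs + u.2.natAbs

/-- integer vector as a real vector -/
def ic {d : ℕ} (a : Fin d → ℤ) : Fin d → ℝ := fun i => (a i : ℝ)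

/-- coordinatewise rounding -/
noncomputable def rnd {d : ℕ} (t : Fin d → ℝ) : Fin d → ℤ := fun i => round (t i)

/-- Lattice lift of multiplication by `c`. -/
structure Lift (c : ℂ) where
  d : ℕ
  M : (Fin d → ℝ) →ₗ[ℝ] (Fin d → ℝ)
  Mi : (Fin d → ℤ) → (Fin d → ℤ)
  Mi_spec : ∀ a, M (ic a) = ic (Mi a)
  pr : (Fin d → ℝ) →ₗ[ℝ] ℂ
  em : ℂ →ₗ[ℝ] (Fin d → ℝ)
  pr_em : ∀ z, pr (em z) = z
  pr_M : ∀ t, pr (M t) = c * pr t
  M_em : ∀ z, M (em z) = em (c * z)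
  contr : ∀ ε : ℝ, 0 < ε → ∃ k₀ : ℕ, ∀ k ≥ k₀, ∀ t, pr t = 0 →
    ‖(M ^ k) t‖ ≤ ε * ‖c‖ ^ k * ‖t‖

theorem tc_add (u v : Z2) : tc (u + v) = tc u + tc v := by
  apply Complex.ext <;> simp [tc]

theorem tc_sub (u v : Z2) : tc (u - v) = tc u - tc v := by
  apply Complex.ext <;> simp [tc]

theorem tc_neg (u : Z2) : tc (-u) = - tc u := by
  apply Complex.ext <;> simp [tc]

@[simp] theorem tc_zero : tc 0 = 0 := by
  apply Complex.ext <;> simp [tc]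

theorem n1_cast (u : Z2) : (n1 u : ℝ) = |(u.1 : ℝ)| + |(u.2 : ℝ)| := by
  simp [n1, Nat.cast_natAbs]

theorem norm_tc_le (u : Z2) : ‖tc u‖ ≤ n1 u := by
  rw [n1_cast]
  exact Complex.norm_le_abs_re_add_abs_im _

theorem n1_le (u : Z2) : (n1 u : ℝ) ≤ 3 / 2 * ‖tc u‖ := by
  rw [n1_cast]
  have h : ‖tc u‖ ^ 2 = (u.1 : ℝ) ^ 2 + (u.2 : ℝ) ^ 2 := by
    rw [Complex.sq_norm, Complex.normSq_apply]; simp [tc]; ring
  have h1 : |(u.1 : ℝ)| ^ 2 = (u.1 : ℝ) ^ 2 := sq_abs _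
  have h2 : |(u.2 : ℝ)| ^ 2 = (u.2 : ℝ) ^ 2 := sq_abs _
  have h3 : 0 ≤ |(u.1 : ℝ)| := abs_nonneg _
  have h4 : 0 ≤ |(u.2 : ℝ)| := abs_nonneg _
  have h5 : 0 ≤ ‖tc u‖ := norm_nonneg _
  nlinarith [sq_nonneg (|(u.1 : ℝ)| - |(u.2 : ℝ)|)]

theorem n1_add_le (u v : Z2) : n1 (u + v) ≤ n1 u + n1 v := by
  have h1 := Int.natAbs_add_le u.1 v.1
  have h2 := Int.natAbs_add_le u.2 v.2
  simp only [n1, Prod.fst_add, Prod.snd_add]
  omega

theorem n1_neg (u : Z2) : n1 (-u) = n1 u := by simp [n1]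

theorem n1_sub_comm (u v : Z2) : n1 (u - v) = n1 (v - u) := by
  rw [← n1_neg, neg_sub]

theorem n1_sub_le (u v w : Z2) : n1 (u - w) ≤ n1 (u - v) + n1 (v - w) := by
  have := n1_add_le (u - v) (v - w)
  simpa using this

@[simp] theorem n1_zero : n1 0 = 0 := by simp [n1]

theorem n1_eq_zero {u : Z2} : n1 u = 0 ↔ u = 0 := by
  simp [n1, Prod.ext_iff]

theorem ic_add {d : ℕ} (a b : Fin d → ℤ) : ic (a + b) = ic a + ic b := by
  ext i; simp [ic]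

theorem ic_sub {d : ℕ} (a b : Fin d → ℤ) : ic (a - b) = ic a - ic b := by
  ext i; simp [ic]

theorem ic_neg {d : ℕ} (a : Fin d → ℤ) : ic (-a) = - ic a := by
  ext i; simp [ic]

@[simp] theorem ic_zero {d : ℕ} : ic (0 : Fin d → ℤ) = 0 := by
  ext i; simp [ic]

theorem ic_inj {d : ℕ} {a b : Fin d → ℤ} (h : ic a = ic b) : a = b := by
  ext i
  have := congrFun h i
  simpa [ic] using this

theorem rnd_add_ic {d : ℕ} (t : Fin d → ℝ) (a : Fin d → ℤ) : rnd (t + ic a) = rnd t + a := by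
  ext i; simp [rnd, ic]

theorem rnd_ic {d : ℕ} (a : Fin d → ℤ) : rnd (ic a) = a := by
  ext i; simp [rnd, ic]

theorem norm_rnd_sub {d : ℕ} (t : Fin d → ℝ) : ‖ic (rnd t) - t‖ ≤ 1 / 2 := by
  rw [pi_norm_le_iff_of_nonneg (by norm_num)]
  intro i
  have := abs_sub_round (t i)
  rw [Real.norm_eq_abs]
  change |(round (t i) : ℝ) - t i| ≤ 1 / 2
  rw [abs_sub_comm]
  exact this

/-- adjacency in the square lattice -/
def adj (u v : Z2) : Prop := n1 (u - v) = 1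

theorem adj_symm {u v : Z2} (h : adj u v) : adj v u := by
  unfold adj at *; rw [n1_sub_comm]; exact h

end Pool.Agent.H82
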