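import Pool.Agent.H82.Basic

set_option autoImplicit false

namespace Pool.Agent.H82

open Classical in
/-- greedy breadth-first ownership: which centre a site is attached to -/
noncomputable def own (Al Ce : Set Z2) : ℕ → Z2 → Option Z2
  | 0, u => if u ∈ Al ∧ u ∈ Ce then some u else none
  | j + 1, u => (own Al Ce j u).or (if u ∈ Al then
      ((own Al Ce j (u + (1, 0))).or ((own Al Ce j (u - (1, 0))).or
        ((own Al Ce j (u + (0, 1))).or (own Al Ce j (u - (0, 1)))))) else none)

theorem adj_cases {u v : Z2} (h : adj u v) :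
    v = u + (1, 0) ∨ v = u - (1, 0) ∨ v = u + (0, 1) ∨ v = u - (0, 1) := by
  obtain ⟨a, b⟩ := u
  obtain ⟨a', b'⟩ := v
  simp only [adj, n1, Prod.fst_sub, Prod.snd_sub, Prod.mk_add_mk, Prod.mk_sub_mk, Prod.mk.injEq] at *
  omega

theorem adj_e1 (u : Z2) : adj u (u + (1, 0)) := by
  simp [adj, n1]

theorem adj_e1' (u : Z2) : adj u (u - (1, 0)) := by
  simp [adj, n1]

theorem adj_e2 (u : Z2) : adj u (u + (0, 1)) := by
  simp [adj, n1]

theorem adj_e2' (u : Z2) : adj u (u - (0, 1)) := by
  simp [adj, n1]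

theorem nbr {u w : Z2} {k : ℕ} (h : n1 (u - w) = k + 1) :
    ∃ u', adj u u' ∧ n1 (u' - w) = k := by
  obtain ⟨a, b⟩ := u
  obtain ⟨a', b'⟩ := w
  simp only [n1, Prod.fst_sub, Prod.snd_sub] at h
  by_cases h1 : a < a'
  · refine ⟨(a + 1, b), ?_, ?_⟩ <;> simp only [adj, n1, Prod.fst_sub, Prod.snd_sub] <;> omega
  by_cases h2 : a' < a
  · refine ⟨(a - 1, b), ?_, ?_⟩ <;> simp only [adj, n1, Prod.fst_sub, Prod.snd_sub] <;> omega
  by_cases h3 : b < b'
  · refine ⟨(a, b + 1), ?_, ?_⟩ <;> simp only [adj, n1, Prod.fst_sub, Prod.snd_sub] <;> omega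
  · refine ⟨(a, b - 1), ?_, ?_⟩ <;> simp only [adj, n1, Prod.fst_sub, Prod.snd_sub] <;> omega

section
variable {Al Ce : Set Z2}

theorem own_step {j : ℕ} {u w : Z2} (h : own Al Ce (j + 1) u = some w) :
    own Al Ce j u = some w ∨ (own Al Ce j u = none ∧ u ∈ Al ∧
      ∃ u', adj u u' ∧ own Al Ce j u' = some w) := by
  rw [own] at h
  cases h0 : own Al Ce j u with
  | some x => left; rw [h0] at h; simpa using h
  | none =>
    right
    rw [h0, Option.none_or] at h
    by_cases hu : u ∈ Al
    · rw [if_pos hu] at h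
      refine ⟨rfl, hu, ?_⟩
      cases h1 : own Al Ce j (u + (1, 0)) with
      | some x => exact ⟨_, adj_e1 u, by rw [h1] at h ⊢; simpa using h⟩
      | none =>
        rw [h1, Option.none_or] at h
        cases h2 : own Al Ce j (u - (1, 0)) with
        | some x => exact ⟨_, adj_e1' u, by rw [h2] at h ⊢; simpa using h⟩
        | none =>
          rw [h2, Option.none_or] at h
          cases h3 : own Al Ce j (u + (0, 1)) with
          | some x => exact ⟨_, adj_e2 u, by rw [h3] at h ⊢; simpa using h⟩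
          | none =>
            rw [h3, Option.none_or] at h
            exact ⟨_, adj_e2' u, h⟩
    · rw [if_neg hu] at h
      exact absurd h (by simp)

theorem own_mono_succ {j : ℕ} {u w : Z2} (h : own Al Ce j u = some w) :
    own Al Ce (j + 1) u = some w := by
  rw [own, h]; rfl

theorem own_mono {j B : ℕ} (hjB : j ≤ B) {u w : Z2} (h : own Al Ce j u = some w) :
    own Al Ce B u = some w := by
  induction B, hjB using Nat.le_induction with
  | base => exact h
  | succ n _ ih => exact own_mono_succ ih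

theorem own_zero {u w : Z2} (h : own Al Ce 0 u = some w) : w = u ∧ u ∈ Al ∧ u ∈ Ce := by
  rw [own] at h
  split_ifs at h with h1
  exact ⟨by simpa using h.symm, h1.1, h1.2⟩

theorem own_center {u : Z2} (h1 : u ∈ Al) (h2 : u ∈ Ce) (B : ℕ) : own Al Ce B u = some u := by
  apply own_mono (Nat.zero_le B)
  rw [own, if_pos ⟨h1, h2⟩]

theorem own_al {j : ℕ} {u w : Z2} (h : own Al Ce j u = some w) : u ∈ Al := by
  induction j with
  | zero => exact (own_zero h).2.1
  | succ j ih =>
    rcases own_step h with h1 | h1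
    · exact ih h1
    · exact h1.2.1

theorem own_ce {j : ℕ} {u w : Z2} (h : own Al Ce j u = some w) : w ∈ Al ∧ w ∈ Ce := by
  induction j generalizing u with
  | zero =>
    obtain ⟨rfl, h1, h2⟩ := own_zero h
    exact ⟨h1, h2⟩
  | succ j ih =>
    rcases own_step h with h1 | ⟨_, _, u', _, h1⟩
    · exact ih h1
    · exact ih h1

theorem own_dist {j : ℕ} {u w : Z2} (h : own Al Ce j u = some w) : n1 (u - w) ≤ j := by
  induction j generalizing u with
  | zero =>
    obtain ⟨rfl, -, -⟩ := own_zero h
    simp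
  | succ j ih =>
    rcases own_step h with h1 | ⟨_, _, u', h2, h1⟩
    · exact (ih h1).trans (Nat.le_succ j)
    · have h3 := ih h1
      have h4 := n1_sub_le u u' w
      unfold adj at h2
      omega

theorem own_conn {j B : ℕ} (hjB : j ≤ B) {u w : Z2} (h : own Al Ce j u = some w) :
    Relation.ReflTransGen (fun a b => adj a b ∧ own Al Ce B a = some w ∧ own Al Ce B b = some w)
      u w := by
  induction j generalizing u with
  | zero =>
    obtain ⟨rfl, -, -⟩ := own_zero h
    exact Relation.ReflTransGen.refl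
  | succ j ih =>
    rcases own_step h with h1 | ⟨_, _, u', h2, h1⟩
    · exact ih (by omega) h1
    · exact Relation.ReflTransGen.head ⟨h2, own_mono hjB h, own_mono (by omega) h1⟩
        (ih (by omega) h1)

/-- paths with length inside a set of sites -/
inductive Pth (P : Z2 → Prop) : ℕ → Z2 → Z2 → Prop
  | refl {a : Z2} : P a → Pth P 0 a a
  | step {l : ℕ} {a a' b : Z2} : P a → adj a a' → Pth P l a' b → Pth P (l + 1) a b

theorem Pth.mono {P P' : Z2 → Prop} (h : ∀ a, P a → P' a) {l : ℕ} {a b : Z2} (hp : Pth P l a b) :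
    Pth P' l a b := by
  induction hp with
  | refl h1 => exact Pth.refl (h _ h1)
  | step h1 h2 _ ih => exact Pth.step (h _ h1) h2 ih

theorem Pth.dist {P : Z2 → Prop} {l : ℕ} {a b : Z2} (hp : Pth P l a b) : n1 (a - b) ≤ l := by
  induction hp with
  | refl h1 => simp
  | @step l a a' b h1 h2 _ ih =>
    have := n1_sub_le a a' b
    unfold adj at h2
    omega

theorem Pth.right {P : Z2 → Prop} {l : ℕ} {a b : Z2} (hp : Pth P l a b) : P b := by
  induction hp with
  | refl h1 => exact h1
  | step _ _ _ ih => exact ih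

theorem Pth.left {P : Z2 → Prop} {l : ℕ} {a b : Z2} (hp : Pth P l a b) : P a := by
  cases hp with
  | refl h1 => exact h1
  | step h1 _ _ => exact h1

theorem own_path {j B : ℕ} (hjB : j ≤ B) {u w : Z2} (h : own Al Ce j u = some w) :
    ∃ l ≤ j, Pth (fun a => own Al Ce B a = some w) l u w := by
  induction j generalizing u with
  | zero =>
    have h1 := h
    obtain ⟨rfl, -, -⟩ := own_zero h1
    exact ⟨0, le_rfl, Pth.refl (own_mono hjB h)⟩
  | succ j ih =>
    rcases own_step h with h1 | ⟨_, _, u', h2, h1⟩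
    · obtain ⟨l, hl, hp⟩ := ih (by omega) h1
      exact ⟨l, by omega, hp⟩
    · obtain ⟨l, hl, hp⟩ := ih (by omega) h1
      exact ⟨l + 1, by omega, Pth.step (own_mono hjB h) h2 hp⟩

/-- sites that reach a centre by an allowed path of length `l` -/
inductive Rch (Al Ce : Set Z2) : ℕ → Z2 → Prop
  | base {u : Z2} : u ∈ Al → u ∈ Ce → Rch Al Ce 0 u
  | step {l : ℕ} {u u' : Z2} : Rch Al Ce l u' → adj u u' → u ∈ Al → Rch Al Ce (l + 1) u

theorem Rch.own {l : ℕ} {u : Z2} (h : Rch Al Ce l u) : ∃ w, own Al Ce l u = some w := by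
  induction h with
  | base h1 h2 => exact ⟨_, own_center h1 h2 0⟩
  | @step l u u' _ h2 h3 ih =>
    obtain ⟨w, hw⟩ := ih
    rw [H82.own, if_pos h3]
    cases h0 : H82.own Al Ce l u with
    | some x => exact ⟨x, rfl⟩
    | none =>
      rw [Option.none_or]
      cases h1 : H82.own Al Ce l (u + (1, 0)) with
      | some x => exact ⟨x, rfl⟩
      | none =>
        rw [Option.none_or]
        cases h2' : H82.own Al Ce l (u - (1, 0)) with
        | some x => exact ⟨x, rfl⟩
        | none =>
          rw [Option.none_or]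
          cases h3' : H82.own Al Ce l (u + (0, 1)) with
          | some x => exact ⟨x, rfl⟩
          | none =>
            rw [Option.none_or]
            rcases adj_cases h2 with h | h | h | h
            · rw [h, h1] at hw; exact absurd hw (by simp)
            · rw [h, h2'] at hw; exact absurd hw (by simp)
            · rw [h, h3'] at hw; exact absurd hw (by simp)
            · rw [h] at hw; exact ⟨w, hw⟩

/-- a site reached by a short path is owned by a near centre -/
theorem Rch.own_le {l B : ℕ} (hlB : l ≤ B) {u : Z2} (h : Rch Al Ce l u) :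
    ∃ w, H82.own Al Ce B u = some w ∧ n1 (u - w) ≤ l := by
  obtain ⟨w, hw⟩ := h.own
  exact ⟨w, own_mono hlB hw, own_dist hw⟩

theorem Rch.al {l : ℕ} {u : Z2} (h : Rch Al Ce l u) : u ∈ Al := by
  cases h with
  | base h _ => exact h
  | step _ _ h => exact h

/-- extend a path inside an allowed ball -/
theorem Rch.ball {l s : ℕ} {u' : Z2} (h : Rch Al Ce l u')
    (hal : ∀ a, n1 (a - u') ≤ s → a ∈ Al) :
    ∀ t ≤ s, ∀ u, n1 (u - u') = t → Rch Al Ce (l + t) u := by
  intro t
  induction t with
  | zero =>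
    intro _ u hu
    have : u = u' := by
      have := n1_eq_zero.1 hu
      exact sub_eq_zero.1 this
    rw [this]; exact h
  | succ t ih =>
    intro ht u hu
    obtain ⟨u'', h1, h2⟩ := nbr hu
    exact Rch.step (ih (by omega) u'' h2) h1 (hal u (by omega))

theorem Rch.ball' {l s : ℕ} {u u' : Z2} (h : Rch Al Ce l u')
    (hal : ∀ a, n1 (a - u') ≤ s → a ∈ Al) (hu : n1 (u - u') ≤ s) :
    Rch Al Ce (l + n1 (u - u')) u := h.ball hal _ hu u rfl

end

/-- translation equivariance and locality of ownership -/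
theorem own_equiv {Al Ce Al' Ce' : Set Z2} (s : Z2) :
    ∀ (j : ℕ) (u : Z2),
      (∀ a, n1 (a - u) ≤ j → ((a ∈ Al ↔ a + s ∈ Al') ∧ (a ∈ Ce ↔ a + s ∈ Ce'))) →
      own Al' Ce' j (u + s) = (own Al Ce j u).map (fun w => w + s) := by
  intro j
  induction j with
  | zero =>
    intro u h
    obtain ⟨h1, h2⟩ := h u (by simp)
    rw [own, own]
    by_cases hh : u ∈ Al ∧ u ∈ Ce
    · rw [if_pos hh, if_pos ⟨h1.1 hh.1, h2.1 hh.2⟩]; rfl
    · rw [if_neg hh, if_neg (fun hh' => hh ⟨h1.2 hh'.1, h2.2 hh'.2⟩)]; rfl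
  | succ j ih =>
    intro u h
    have e0 := ih u (fun a ha => h a (by omega))
    have hn : ∀ u', adj u u' → ∀ a, n1 (a - u') ≤ j → n1 (a - u) ≤ j + 1 := by
      intro u' hu' a ha
      have h1 := n1_sub_le a u' u
      have h2 := adj_symm hu'
      unfold adj at h2
      omega
    have e1 := ih (u + (1, 0)) (fun a ha => h a (hn _ (adj_e1 u) a ha))
    have e2 := ih (u - (1, 0)) (fun a ha => h a (hn _ (adj_e1' u) a ha))
    have e3 := ih (u + (0, 1)) (fun a ha => h a (hn _ (adj_e2 u) a ha))
    have e4 := ih (u - (0, 1)) (fun a ha => h a (hn _ (adj_e2' u) a ha))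
    have r1 : u + s + (1, 0) = u + (1, 0) + s := by abel
    have r2 : u + s - (1, 0) = u - (1, 0) + s := by abel
    have r3 : u + s + (0, 1) = u + (0, 1) + s := by abel
    have r4 : u + s - (0, 1) = u - (0, 1) + s := by abel
    rw [own, own, r1, r2, r3, r4, e0, e1, e2, e3, e4]
    have hal := (h u (by simp)).1
    by_cases hu : u ∈ Al
    · rw [if_pos hu, if_pos (hal.1 hu)]
      simp only [Option.map_or]
    · rw [if_neg hu, if_neg (fun h' => hu (hal.2 h'))]
      simp only [Option.map_or, Option.map_none]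

end Pool.Agent.H82
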