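import Pool.Agent.H82.Cover

set_option autoImplicit false

open Set

namespace Pool.Agent.H82

theorem ic_ball_finite (d : ℕ) (K : ℝ) : {a : Fin d → ℤ | ‖ic a‖ ≤ K}.Finite := by
  have h : (Set.univ.pi (fun _ : Fin d => Set.Icc (-⌈K⌉) ⌈K⌉)).Finite :=
    Set.Finite.pi (fun _ => Set.finite_Icc _ _)
  apply h.subset
  intro a ha i _
  have h1 := norm_le_pi_norm (ic a) i
  rw [mem_ofPred_eq] at ha
  have h2 : |(a i : ℝ)| ≤ K := by
    have : ‖ic a i‖ = |(a i : ℝ)| := rfl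
    rw [← this]; exact h1.trans ha
  rw [abs_le] at h2
  rw [mem_Icc]
  constructor
  · have : (-(⌈K⌉ : ℤ) : ℝ) ≤ a i := by linarith [Int.le_ceil K]
    exact_mod_cast this
  · have : (a i : ℝ) ≤ ⌈K⌉ := by linarith [Int.le_ceil K]
    exact_mod_cast this

namespace Two
variable {c : ℂ} {F : Lift c} {T : Two F}

/-- one directional translation equivalence of obstacle-free patterns -/
def half (T : Two F) (σ : Side F T.CM) (Y : Set Z2) (n n' : ℕ) (t : Z2) (τ : Fin F.d → ℤ) (z : ℂ)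
    (R : ℝ) : Prop :=
  ∀ w, ‖σ.ν * F.pr (ic (T.E.X n w)) - z‖ ≤ R →
    T.E.X n' (w + t) = T.E.X n w + τ ∧ (w ∈ T.E.HE.W 0 Y n ↔ w + t ∈ T.E.HE.W 0 Y n')

def nearP (T : Two F) (σ : Side F T.CM) (Y : Set Z2) (n n' : ℕ) (τ : Fin F.d → ℤ) (z : ℂ)
    (R : ℝ) : Prop :=
  ∃ t τ₁, σ.op τ₁ = τ ∧ half T σ Y n n' t τ₁ z R ∧
    half T σ Y n' n (-t) (-τ₁) (z + F.pr (ic τ)) R

def farP (T : Two F) (σ : Side F T.CM) (Y : Set Z2) (n n' : ℕ) (τ : Fin F.d → ℤ) (z : ℂ)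
    (R : ℝ) : Prop :=
  (∀ w ∈ T.E.HE.W 0 Y n, R < ‖σ.ν * F.pr (ic (T.E.X n w)) - z‖) ∧
  (∀ w ∈ T.E.HE.W 0 Y n', R < ‖σ.ν * F.pr (ic (T.E.X n' w)) - (z + F.pr (ic τ))‖)

def NEs (T : Two F) (σ : Side F T.CM) (Y : Set Z2) (n n' : ℕ) (τ : Fin F.d → ℤ) (z : ℂ)
    (R : ℝ) : Prop := farP T σ Y n n' τ z R ∨ nearP T σ Y n n' τ z R

def NE (T : Two F) (n n' : ℕ) (τ : Fin F.d → ℤ) (z : ℂ) (R : ℝ) : Prop :=
  NEs T T.sI T.D0 n n' τ z R ∧ NEs T T.sO T.D0ᶜ n n' τ z R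

noncomputable def R0 (T : Two F) : ℝ := ‖c‖ * T.E.r * (2 + 3 * T.E.B)

theorem EB_ge : 1200 ≤ (T.E.B : ℝ) := by
  have h1 := T.E.hB
  rw [← T.E.m_eq] at h1
  have := T.E.m1000
  linarith

/-- parents of sites near a point are near the contracted point -/
theorem parent_near (σ : Side F T.CM) {n : ℕ} {v w : Z2} (hch : T.E.HE.ch n v w) {z z' : ℂ}
    {R R' : ℝ} (hw : ‖σ.ν * F.pr (ic (T.E.X (n + 1) w)) - z'‖ ≤ R')
    (hz : ‖z' - T.E.mu * z‖ + R' ≤ T.E.m * (R - T.R0)) (a : Z2) (ha : n1 (a - v) ≤ 2 * T.E.B) :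
    ‖σ.ν * F.pr (ic (T.E.X n a)) - z‖ ≤ R := by
  have hr := T.E.rpos
  have hm := T.E.m1000
  have hc := T.hc
  have h1 := T.E.HE_child_dist hch
  have hBE := T.hBE
  have hν := σ.hν2
  have e1 : T.E.mu * (σ.ν * F.pr (ic (T.E.X n v)) - z) =
      (σ.ν * F.pr (ic (T.E.X (n + 1) w)) - z') -
      (σ.ν * (F.pr (ic (T.E.X (n + 1) w)) - T.E.mu * F.pr (ic (T.E.X n v)))) +
      (z' - T.E.mu * z) := by ring
  have h2 : T.E.m * ‖σ.ν * F.pr (ic (T.E.X n v)) - z‖ ≤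
      R' + ‖c‖ * (101 / 100 * T.E.r * T.E.B) + ‖z' - T.E.mu * z‖ := by
    rw [← T.E.norm_mu, ← norm_mul, e1]
    refine (norm_add_le _ _).trans ?_
    have h3 := norm_sub_le (σ.ν * F.pr (ic (T.E.X (n + 1) w)) - z')
      (σ.ν * (F.pr (ic (T.E.X (n + 1) w)) - T.E.mu * F.pr (ic (T.E.X n v))))
    have h4 : ‖σ.ν * (F.pr (ic (T.E.X (n + 1) w)) - T.E.mu * F.pr (ic (T.E.X n v)))‖ ≤
        ‖c‖ * (101 / 100 * T.E.r * T.E.B) := by
      rw [norm_mul]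
      exact mul_le_mul hν h1 (norm_nonneg _) (norm_nonneg _)
    linarith
  have h5 : ‖c‖ * (101 / 100 * T.E.r * T.E.B) ≤ T.E.m * (132 / 100 * ‖c‖ * T.E.r) := by
    have h6 := mul_le_mul_of_nonneg_left hBE (show 0 ≤ ‖c‖ * T.E.r by positivity)
    have h7 : 0 ≤ ‖c‖ * T.E.r * T.E.m := by positivity
    nlinarith
  have h6 : T.E.m * ‖σ.ν * F.pr (ic (T.E.X n v)) - z‖ ≤
      T.E.m * (R - T.R0 + 132 / 100 * ‖c‖ * T.E.r) := by linarith
  have h7 := le_of_mul_le_mul_left h6 (by linarith)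
  have h8 : ‖σ.ν * (F.pr (ic (T.E.X n a)) - F.pr (ic (T.E.X n v)))‖ ≤
      ‖c‖ * (101 / 100 * T.E.r * (2 * T.E.B)) := by
    rw [norm_mul]
    apply mul_le_mul hν _ (norm_nonneg _) (norm_nonneg _)
    refine (X_up n a v).trans ?_
    apply mul_le_mul_of_nonneg_left _ (by linarith)
    exact_mod_cast ha
  have e2 : σ.ν * F.pr (ic (T.E.X n a)) - z = (σ.ν * F.pr (ic (T.E.X n v)) - z) +
      σ.ν * (F.pr (ic (T.E.X n a)) - F.pr (ic (T.E.X n v))) := by ring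
  rw [e2]
  refine (norm_add_le _ _).trans ?_
  have h9 : T.R0 = ‖c‖ * T.E.r * (2 + 3 * T.E.B) := rfl
  have h10 : 0 ≤ ‖c‖ * T.E.r := by positivity
  have h11 : 0 ≤ ‖c‖ * T.E.r * T.E.B := by positivity
  linarith

theorem half_step (σ : Side F T.CM) (Y : Set Z2) {n n' : ℕ} {t : Z2} {τ : Fin F.d → ℤ} {z z' : ℂ}
    {R R' : ℝ} (h : half T σ Y n n' t τ z R) (hz : ‖z' - T.E.mu * z‖ + R' ≤ T.E.m * (R - T.R0)) :
    half T σ Y (n + 1) (n' + 1) (T.E.g τ) (T.E.A τ) z' R' := by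
  intro w hw
  obtain ⟨v, hv⟩ := T.E.HE_parent n w
  have hd := T.E.HE_ch_dist hv
  have hnear := parent_near σ hv hw hz
  have H : Cf.LocHyp T.E (T.E.lev (Cf.emp F) n) (T.E.lev (Cf.emp F) n') ∅ ∅ v t τ (2 * T.E.B) := by
    refine ⟨T.E.e_mem n v, ?_, ?_⟩
    · intro a ha
      refine ⟨(h a (hnear a ha)).1, ?_⟩
      rw [T.E.e_univ, T.E.e_univ]
      exact ⟨fun _ => mem_univ _, fun _ => mem_univ _⟩
    · intro b _
      exact ⟨fun hb => absurd hb (notMem_empty _), fun hb => absurd hb (notMem_empty _)⟩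
  have i1 := T.E.emp_ok.inv n
  have i2 := T.E.emp_ok.inv n'
  have r1 := T.E.emp_ok.rel n
  have r2 := T.E.emp_ok.rel n'
  have h0 : n1 (v - v) ≤ 2 * T.E.B := by rw [sub_self, n1_zero]; exact Nat.zero_le _
  have hy : T.E.X (n' + 1) (w + T.E.g τ) = T.E.X (n + 1) w + T.E.A τ :=
    H.y_shift i1 i2 r1 r2 (by omega)
  have ho := H.own_shift i1 i2 r1 r2 (u := w) (by omega)
  have hc : T.cE n' (v + t) = T.cE n v + T.E.g τ :=
    Cf.cen_shift (C := T.E) (fun a ha => (H.hE a ha).1) v h0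
  have hch : T.E.HE.ch n' (v + t) (w + T.E.g τ) := by
    rw [T.E.HE_ch_iff]
    have h1 := (T.E.HE_ch_iff n v w).1 hv
    change own (T.E.Al (T.E.lev (Cf.emp F) n') ∅) (T.E.Cen (T.E.lev (Cf.emp F) n')) T.E.B
      (w + T.E.g τ) = some (T.cE n' (v + t))
    rw [hc, ho, h1]
    rfl
  refine ⟨hy, ?_⟩
  rw [T.E.W_succ Y n hv, T.E.W_succ Y n' hch]
  exact (h v (hnear v h0)).2

theorem NEs_step (σ : Side F T.CM) (Y : Set Z2) {n n' : ℕ} {τ : Fin F.d → ℤ} {z z' : ℂ}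
    {R R' : ℝ} (h : NEs T σ Y n n' τ z R) (hz : ‖z' - T.E.mu * z‖ + R' ≤ T.E.m * (R - T.R0)) :
    NEs T σ Y (n + 1) (n' + 1) (T.E.A τ) z' R' := by
  have hz2 : ‖(z' + F.pr (ic (T.E.A τ))) - T.E.mu * (z + F.pr (ic τ))‖ + R' ≤
      T.E.m * (R - T.R0) := by
    have : (z' + F.pr (ic (T.E.A τ))) - T.E.mu * (z + F.pr (ic τ)) = z' - T.E.mu * z := by
      rw [T.E.pr_A]; ring
    rw [this]; exact hz
  rcases h with ⟨h1, h2⟩ | ⟨t, τ₁, h1, h2, h3⟩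
  · left
    refine ⟨?_, ?_⟩
    · intro w hw
      by_contra hcon
      push Not at hcon
      obtain ⟨v, hv⟩ := T.E.HE_parent n w
      have h3 := parent_near σ hv hcon hz v (by rw [sub_self, n1_zero]; exact Nat.zero_le _)
      exact absurd (h1 v ((T.E.W_succ Y n hv).1 hw)) (not_lt.2 h3)
    · intro w hw
      by_contra hcon
      push Not at hcon
      obtain ⟨v, hv⟩ := T.E.HE_parent n' w
      have h3 := parent_near σ hv hcon hz2 v (by rw [sub_self, n1_zero]; exact Nat.zero_le _)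
      exact absurd (h2 v ((T.E.W_succ Y n' hv).1 hw)) (not_lt.2 h3)
  · right
    refine ⟨T.E.g τ₁, T.E.A τ₁, ?_, half_step σ Y h2 hz, ?_⟩
    · rw [← side_A, h1]
    · have h4 := half_step σ Y h3 hz2
      rwa [T.E.g_neg, T.E.A_neg] at h4

theorem NEs_obs (σ : Side F T.CM) (Y : Set Z2) {n n' : ℕ} {τ : Fin F.d → ℤ} {z : ℂ}
    {R : ℝ} (h : NEs T σ Y n n' τ z R) (b : Fin F.d → ℤ) (hb : ‖F.pr (ic b) - z‖ ≤ R) :
    b ∈ T.obs σ Y n ↔ b + τ ∈ T.obs σ Y n' := by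
  rcases h with ⟨h1, h2⟩ | ⟨t, τ₁, h1, h2, h3⟩
  · constructor
    · rintro ⟨w, hw, rfl⟩
      rw [side_pr] at hb
      exact absurd (h1 w hw) (not_lt.2 hb)
    · rintro ⟨w, hw, hw2⟩
      have h3 := h2 w hw
      rw [← side_pr, ← hw2, ic_add, map_add, add_sub_add_right_eq_sub] at h3
      exact absurd h3 (not_lt.2 hb)
  · constructor
    · rintro ⟨w, hw, rfl⟩
      rw [side_pr] at hb
      obtain ⟨h4, h5⟩ := h2 w hb
      exact ⟨w + t, h5.1 hw, by rw [h4, side_add, h1]⟩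
    · rintro ⟨w, hw, hw2⟩
      have h6 : ‖σ.ν * F.pr (ic (T.E.X n' w)) - (z + F.pr (ic τ))‖ ≤ R := by
        rw [← side_pr, ← hw2, ic_add, map_add, add_sub_add_right_eq_sub]
        exact hb
      obtain ⟨h4, h5⟩ := h3 w h6
      refine ⟨w + -t, h5.1 hw, ?_⟩
      rw [h4, ← sub_eq_add_neg, side_sub, h1, ← hw2]
      abel

theorem ne_ax : T.R.NEax T.NF T.NE T.R0 := by
  refine ⟨?_, ?_⟩
  · rintro n n' τ z R ⟨h1, h2⟩ b hb
    constructor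
    · rintro (h | h)
      · exact Or.inl ((NEs_obs _ _ h1 b hb).1 h)
      · exact Or.inr ((NEs_obs _ _ h2 b hb).1 h)
    · rintro (h | h)
      · exact Or.inl ((NEs_obs _ _ h1 b hb).2 h)
      · exact Or.inr ((NEs_obs _ _ h2 b hb).2 h)
  · rintro n n' τ z R z' R' ⟨h1, h2⟩ hz
    rw [T.muR, T.mR] at hz
    rw [T.AR]
    exact ⟨NEs_step _ _ h1 hz, NEs_step _ _ h2 hz⟩

/-! ### finite codes -/

/-- chart part of the code -/
def codeR (T : Two F) (R : ℕ) (n : ℕ) (v : Z2) : Set (Z2 × (Fin F.d → ℤ) × Prop) :=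
  {p | n1 p.1 ≤ R ∧ p.2.1 = (T.LR n).x (v + p.1) - (T.LR n).x v ∧
    p.2.2 = (v + p.1 ∈ (T.LR n).I)}

open Classical in
/-- obstacle part of the code -/
noncomputable def codeS (T : Two F) (σ : Side F T.CM) (Y : Set Z2) (ρ : ℕ) (RN : ℝ) (n : ℕ) (v : Z2) :
    Set ((Fin F.d → ℤ) × Z2 × (Fin F.d → ℤ) × Prop) :=
  if h : ∃ w, w ∈ T.E.HE.W 0 Y n ∧ ‖σ.ν * F.pr (ic (T.E.X n w)) - T.pR n v‖ ≤ RN then
    {p | n1 p.2.1 ≤ ρ ∧ p.1 = σ.op (T.E.X n h.choose) - (T.LR n).x v ∧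
      p.2.2.1 = T.E.X n (h.choose + p.2.1) - T.E.X n h.choose ∧
      p.2.2.2 = (h.choose + p.2.1 ∈ T.E.HE.W 0 Y n)}
  else ∅

theorem codeS_far {σ : Side F T.CM} {Y : Set Z2} {ρ : ℕ} {RN : ℝ} {n : ℕ} {v : Z2}
    (h : ¬ ∃ w, w ∈ T.E.HE.W 0 Y n ∧ ‖σ.ν * F.pr (ic (T.E.X n w)) - T.pR n v‖ ≤ RN) :
    codeS T σ Y ρ RN n v = ∅ := by rw [codeS, dif_neg h]

theorem codeS_near {σ : Side F T.CM} {Y : Set Z2} {ρ : ℕ} {RN : ℝ} {n : ℕ} {v : Z2}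
    (h : ∃ w, w ∈ T.E.HE.W 0 Y n ∧ ‖σ.ν * F.pr (ic (T.E.X n w)) - T.pR n v‖ ≤ RN) :
    ∃ w, w ∈ T.E.HE.W 0 Y n ∧ ‖σ.ν * F.pr (ic (T.E.X n w)) - T.pR n v‖ ≤ RN ∧
    codeS T σ Y ρ RN n v = {p | n1 p.2.1 ≤ ρ ∧ p.1 = σ.op (T.E.X n w) - (T.LR n).x v ∧
      p.2.2.1 = T.E.X n (w + p.2.1) - T.E.X n w ∧
      p.2.2.2 = (w + p.2.1 ∈ T.E.HE.W 0 Y n)} := by
  refine ⟨h.choose, h.choose_spec.1, h.choose_spec.2, ?_⟩
  rw [codeS, dif_pos h]

theorem half_of_pattern (σ : Side F T.CM) (Y : Set Z2) {n n' : ℕ} {w w' : Z2} {z : ℂ} {RN : ℝ} {ρ : ℕ}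
    (hρ : 2 * RN ≤ 66 / 100 * T.E.r * ρ)
    (hz : ‖σ.ν * F.pr (ic (T.E.X n w)) - z‖ ≤ RN)
    (hp : ∀ j, n1 j ≤ ρ → T.E.X n (w + j) - T.E.X n w = T.E.X n' (w' + j) - T.E.X n' w' ∧
      (w + j ∈ T.E.HE.W 0 Y n ↔ w' + j ∈ T.E.HE.W 0 Y n')) :
    half T σ Y n n' (w' - w) (T.E.X n' w' - T.E.X n w) z RN := by
  intro a ha
  have hr := T.E.rpos
  have h1 : ‖σ.ν * (F.pr (ic (T.E.X n a)) - F.pr (ic (T.E.X n w)))‖ ≤ 2 * RN := by
    have e : σ.ν * (F.pr (ic (T.E.X n a)) - F.pr (ic (T.E.X n w))) =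
        (σ.ν * F.pr (ic (T.E.X n a)) - z) - (σ.ν * F.pr (ic (T.E.X n w)) - z) := by ring
    rw [e]
    have := norm_sub_le (σ.ν * F.pr (ic (T.E.X n a)) - z) (σ.ν * F.pr (ic (T.E.X n w)) - z)
    linarith
  rw [norm_mul] at h1
  have h2 := X_low (T := T) n a w
  have h3 : 1 * ‖F.pr (ic (T.E.X n a)) - F.pr (ic (T.E.X n w))‖ ≤
      ‖σ.ν‖ * ‖F.pr (ic (T.E.X n a)) - F.pr (ic (T.E.X n w))‖ :=
    mul_le_mul_of_nonneg_right σ.hν1 (norm_nonneg _)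
  have h4 : n1 (a - w) ≤ ρ := by
    have h5 : (66 / 100 * T.E.r) * n1 (a - w) ≤ (66 / 100 * T.E.r) * ρ := by linarith
    have h6 := le_of_mul_le_mul_left h5 (by linarith)
    exact_mod_cast h6
  obtain ⟨h7, h8⟩ := hp (a - w) h4
  have e1 : w + (a - w) = a := by abel
  have e2 : w' + (a - w) = a + (w' - w) := by abel
  rw [e1, e2] at h7 h8
  refine ⟨?_, h8⟩
  have : T.E.X n' (a + (w' - w)) = (T.E.X n' (a + (w' - w)) - T.E.X n' w') + T.E.X n' w' := by abel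
  rw [this, ← h7]
  abel

theorem NEs_of_code (σ : Side F T.CM) (Y : Set Z2) {n n' : ℕ} {v v' : Z2} {RN : ℝ} {ρ : ℕ}
    (hρ : 2 * RN ≤ 66 / 100 * T.E.r * ρ)
    (h : codeS T σ Y ρ RN n v = codeS T σ Y ρ RN n' v') :
    NEs T σ Y n n' ((T.LR n').x v' - (T.LR n).x v) (T.pR n v) RN := by
  have hzτ : T.pR n v + F.pr (ic ((T.LR n').x v' - (T.LR n).x v)) = T.pR n' v' := by
    rw [ic_sub, map_sub]
    change T.pR n v + (T.pR n' v' - T.pR n v) = _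
    ring
  by_cases h1 : ∃ w, w ∈ T.E.HE.W 0 Y n ∧ ‖σ.ν * F.pr (ic (T.E.X n w)) - T.pR n v‖ ≤ RN
  · obtain ⟨w, hw, hw2, hw3⟩ := codeS_near (ρ := ρ) h1
    by_cases h2 : ∃ w, w ∈ T.E.HE.W 0 Y n' ∧ ‖σ.ν * F.pr (ic (T.E.X n' w)) - T.pR n' v'‖ ≤ RN
    · obtain ⟨w', hw', hw2', hw3'⟩ := codeS_near (ρ := ρ) h2
      rw [hw3, hw3'] at h
      right
      have key : ∀ j, n1 j ≤ ρ →
          σ.op (T.E.X n w) - (T.LR n).x v = σ.op (T.E.X n' w') - (T.LR n').x v' ∧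
          T.E.X n (w + j) - T.E.X n w = T.E.X n' (w' + j) - T.E.X n' w' ∧
          (w + j ∈ T.E.HE.W 0 Y n ↔ w' + j ∈ T.E.HE.W 0 Y n') := by
        intro j hj
        have h3 : (⟨σ.op (T.E.X n w) - (T.LR n).x v, j, T.E.X n (w + j) - T.E.X n w,
            (w + j ∈ T.E.HE.W 0 Y n)⟩ : (Fin F.d → ℤ) × Z2 × (Fin F.d → ℤ) × Prop) ∈
            {p : (Fin F.d → ℤ) × Z2 × (Fin F.d → ℤ) × Prop | n1 p.2.1 ≤ ρ ∧
              p.1 = σ.op (T.E.X n w) - (T.LR n).x v ∧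
              p.2.2.1 = T.E.X n (w + p.2.1) - T.E.X n w ∧
              p.2.2.2 = (w + p.2.1 ∈ T.E.HE.W 0 Y n)} := ⟨hj, rfl, rfl, rfl⟩
        rw [h] at h3
        obtain ⟨-, h4, h5, h6⟩ := h3
        exact ⟨h4, h5, iff_of_eq h6⟩
      have h0 := (key 0 (by simp)).1
      refine ⟨w' - w, T.E.X n' w' - T.E.X n w, ?_, ?_, ?_⟩
      · rw [side_sub]
        have : σ.op (T.E.X n' w') = (σ.op (T.E.X n w) - (T.LR n).x v) + (T.LR n').x v' := by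
          rw [h0]; abel
        rw [this]; abel
      · exact half_of_pattern σ Y hρ hw2 (fun j hj => (key j hj).2)
      · rw [hzτ, neg_sub, neg_sub]
        exact half_of_pattern σ Y hρ hw2' (fun j hj => ⟨((key j hj).2.1).symm, (key j hj).2.2.symm⟩)
    · exfalso
      rw [hw3, codeS_far h2] at h
      have h3 : (⟨σ.op (T.E.X n w) - (T.LR n).x v, 0, T.E.X n (w + 0) - T.E.X n w,
            (w + 0 ∈ T.E.HE.W 0 Y n)⟩ : (Fin F.d → ℤ) × Z2 × (Fin F.d → ℤ) × Prop) ∈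
            {p : (Fin F.d → ℤ) × Z2 × (Fin F.d → ℤ) × Prop | n1 p.2.1 ≤ ρ ∧
              p.1 = σ.op (T.E.X n w) - (T.LR n).x v ∧
              p.2.2.1 = T.E.X n (w + p.2.1) - T.E.X n w ∧
              p.2.2.2 = (w + p.2.1 ∈ T.E.HE.W 0 Y n)} := ⟨by simp, rfl, rfl, rfl⟩
      rw [h] at h3
      exact h3
  · by_cases h2 : ∃ w, w ∈ T.E.HE.W 0 Y n' ∧ ‖σ.ν * F.pr (ic (T.E.X n' w)) - T.pR n' v'‖ ≤ RN
    · exfalso
      obtain ⟨w', hw', hw2', hw3'⟩ := codeS_near (ρ := ρ) h2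
      rw [hw3', codeS_far h1] at h
      have h3 : (⟨σ.op (T.E.X n' w') - (T.LR n').x v', 0, T.E.X n' (w' + 0) - T.E.X n' w',
            (w' + 0 ∈ T.E.HE.W 0 Y n')⟩ : (Fin F.d → ℤ) × Z2 × (Fin F.d → ℤ) × Prop) ∈
            {p : (Fin F.d → ℤ) × Z2 × (Fin F.d → ℤ) × Prop | n1 p.2.1 ≤ ρ ∧
              p.1 = σ.op (T.E.X n' w') - (T.LR n').x v' ∧
              p.2.2.1 = T.E.X n' (w' + p.2.1) - T.E.X n' w' ∧
              p.2.2.2 = (w' + p.2.1 ∈ T.E.HE.W 0 Y n')} := ⟨by simp, rfl, rfl, rfl⟩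
      rw [← h] at h3
      exact h3
    · left
      refine ⟨?_, ?_⟩
      · intro w hw
        by_contra hcon
        exact h1 ⟨w, hw, not_lt.1 hcon⟩
      · intro w hw
        rw [hzτ]
        by_contra hcon
        exact h2 ⟨w, hw, not_lt.1 hcon⟩

/-- universe for the obstacle part -/
theorem codeS_univ (σ : Side F T.CM) (Y : Set Z2) (hobs : ∀ n b, b ∈ T.obs σ Y n → b ∈ T.NF n)
    (ρ : ℕ) (RN : ℝ) :
    ∃ U : Set ((Fin F.d → ℤ) × Z2 × (Fin F.d → ℤ) × Prop), U.Finite ∧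
      ∀ n v, v ∈ (T.LR n).I → codeS T σ Y ρ RN n v ⊆ U := by
  have hS' : 0 ≤ T.R.S' := by
    have := T.R.hS2
    have := T.R.Co1
    have := T.R.C0n
    linarith
  refine ⟨{a | ‖ic a‖ ≤ T.R.Ce * RN + T.R.S' * RN} ×ˢ ({j : Z2 | n1 (j - 0) ≤ ρ} ×ˢ
    ({a | ‖ic a‖ ≤ (T.E.Ce * (T.E.r + 2 * T.E.Cp) + T.E.S) * ρ} ×ˢ (univ : Set Prop))), ?_, ?_⟩
  · exact (ic_ball_finite _ _).prod ((n1_ball_finite 0 ρ).prod ((ic_ball_finite _ _).prod finite_univ))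
  · intro n v hv
    by_cases h : ∃ w, w ∈ T.E.HE.W 0 Y n ∧ ‖σ.ν * F.pr (ic (T.E.X n w)) - T.pR n v‖ ≤ RN
    · obtain ⟨w, hw, hw2, hw3⟩ := codeS_near (ρ := ρ) h
      rw [hw3]
      rintro ⟨δ, j, a, b⟩ ⟨h1, h2, h3, -⟩
      simp only at h1 h2 h3
      refine ⟨?_, ?_, ?_, mem_univ _⟩
      · simp only [mem_ofPred_eq]
        have hb : σ.op (T.E.X n w) ∈ T.NF n := hobs n _ ⟨w, hw, rfl⟩
        have h4 := (invR (T := T) n).co v hv _ hb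
        change _ ≤ T.R.S' * ‖T.pR n v - F.pr (ic (σ.op (T.E.X n w)))‖ at h4
        rw [side_pr, norm_sub_rev] at h4
        rw [h2, ic_sub, F.decomp (ic (σ.op (T.E.X n w)) - ic ((T.LR n).x v))]
        refine (norm_add_le _ _).trans ?_
        have h5 := T.R.hCe (F.pr (ic (σ.op (T.E.X n w)) - ic ((T.LR n).x v)))
        have h6 : ‖F.pr (ic (σ.op (T.E.X n w)) - ic ((T.LR n).x v))‖ ≤ RN := by
          rw [map_sub, side_pr]
          exact hw2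
        have h7 : ‖F.om (ic (σ.op (T.E.X n w)) - ic ((T.LR n).x v))‖ ≤ T.R.S' * RN := by
          rw [← norm_neg, ← map_neg, neg_sub]
          rw [norm_sub_rev] at h4
          refine h4.trans ?_
          apply mul_le_mul_of_nonneg_left _ hS'
          rw [norm_sub_rev]
          exact hw2
        have h8 := mul_le_mul_of_nonneg_left h6 (show 0 ≤ T.R.Ce by linarith [T.R.Ce1])
        linarith
      · simp only [mem_ofPred_eq, sub_zero]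
        exact h1
      · simp only [mem_ofPred_eq]
        rw [h3, ic_sub]
        have h4 := (T.E.emp_ok.inv n).ic_bd (w + j) w
        change ‖ic (T.E.X n (w + j)) - ic (T.E.X n w)‖ ≤ _ at h4
        rw [add_sub_cancel_left] at h4
        refine h4.trans ?_
        have h5 : (n1 j : ℝ) ≤ ρ := by exact_mod_cast h1
        apply mul_le_mul_of_nonneg_left h5
        have := ES (T := T)
        have := T.E.Ce1
        have := T.E.Cp1
        have := T.E.rpos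
        positivity
    · rw [codeS_far h]
      exact empty_subset _

theorem codeR_univ (R : ℕ) :
    ∃ U : Set (Z2 × (Fin F.d → ℤ) × Prop), U.Finite ∧ ∀ n v, codeR T R n v ⊆ U := by
  refine ⟨{j : Z2 | n1 (j - 0) ≤ R} ×ˢ
    ({a | ‖ic a‖ ≤ (T.R.Ce * (T.R.r + 2 * T.R.Cp) + T.R.S) * R} ×ˢ (univ : Set Prop)), ?_, ?_⟩
  · exact (n1_ball_finite 0 R).prod ((ic_ball_finite _ _).prod finite_univ)
  · rintro n v ⟨j, a, b⟩ ⟨h1, h2, -⟩
    simp only at h1 h2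
    refine ⟨?_, ?_, mem_univ _⟩
    · simp only [mem_ofPred_eq, sub_zero]
      exact h1
    · simp only [mem_ofPred_eq]
      rw [h2, ic_sub]
      have h4 := (invR (T := T) n).ic_bd (v + j) v
      rw [add_sub_cancel_left] at h4
      refine h4.trans ?_
      have h5 : (n1 j : ℝ) ≤ R := by exact_mod_cast h1
      apply mul_le_mul_of_nonneg_left h5
      have h6 : 0 ≤ T.R.S := by
        rw [T.R.hS]
        have := T.R.Co1
        have := T.R.hLw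
        have := T.R.rpos
        have := T.R.Cp1
        positivity
      have := T.R.Ce1
      have := T.R.Cp1
      have := T.R.rpos
      positivity

theorem ring_shapes : ∃ Fs : Finset (Set ℂ), ∀ n, ∀ v ∈ (T.LR n).I, ∃ P ∈ Fs, ∃ z : ℂ,
      (fun w => c ^ (T.R.k * n) * w) '' T.HR.Q n {v} = (fun w => w + z) '' P := by
  -- radii
  set R : ℕ := 2 * T.R.B + ⌈T.R0⌉₊ with hR
  set RN : ℝ := T.R.r * R + T.R.c1 + T.R0 with hRN
  have hr := T.E.rpos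
  obtain ⟨ρ, hρ⟩ : ∃ ρ : ℕ, 2 * RN ≤ 66 / 100 * T.E.r * ρ := by
    obtain ⟨ρ, hρ⟩ := exists_nat_ge (2 * RN / (66 / 100 * T.E.r))
    refine ⟨ρ, ?_⟩
    rw [div_le_iff₀ (by linarith)] at hρ
    linarith
  obtain ⟨U1, hU1, hU1'⟩ := codeR_univ (T := T) R
  obtain ⟨U2, hU2, hU2'⟩ := codeS_univ T.sI T.D0 (fun n b h => Or.inl h) ρ RN
  obtain ⟨U3, hU3, hU3'⟩ := codeS_univ T.sO T.D0ᶜ (fun n b h => Or.inr h) ρ RN
  have hR0 : T.R0 ≤ R := by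
    have h1 := Nat.le_ceil T.R0
    have h2 : ((⌈T.R0⌉₊ : ℕ) : ℝ) ≤ R := by exact_mod_cast Nat.le_add_left _ _
    linarith
  apply Cf.finite_shapes nf_ok ne_ax hR0 (Nat.le_add_right _ _)
    (fun n v => (codeR T R n v, codeS T T.sI T.D0 ρ RN n v, codeS T T.sO T.D0ᶜ ρ RN n v))
  · have hfin := hU1.finite_subsets.prod (hU2.finite_subsets.prod hU3.finite_subsets)
    apply hfin.subset
    rintro _ ⟨n, v, hv, rfl⟩
    exact ⟨hU1' n v, hU2' n v hv, hU3' n v hv⟩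
  · intro n v n' v' hv hv' hcode
    have e1 : codeR T R n v = codeR T R n' v' := congrArg Prod.fst hcode
    have e2 : codeS T T.sI T.D0 ρ RN n v = codeS T T.sI T.D0 ρ RN n' v' :=
      congrArg (fun p => p.2.1) hcode
    have e3 : codeS T T.sO T.D0ᶜ ρ RN n v = codeS T T.sO T.D0ᶜ ρ RN n' v' :=
      congrArg (fun p => p.2.2) hcode
    refine ⟨hv, ?_, NEs_of_code _ _ hρ e2, NEs_of_code _ _ hρ e3⟩
    intro w hw
    have h3 : (⟨w - v, (T.LR n).x (v + (w - v)) - (T.LR n).x v, (v + (w - v) ∈ (T.LR n).I)⟩ :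
        Z2 × (Fin F.d → ℤ) × Prop) ∈ codeR T R n v := ⟨hw, rfl, rfl⟩
    rw [e1] at h3
    obtain ⟨-, h4, h5⟩ := h3
    simp only at h4 h5
    have a1 : v + (w - v) = w := by abel
    have a2 : v' + (w - v) = w + (v' - v) := by abel
    rw [a1, a2] at h4 h5
    refine ⟨?_, iff_of_eq h5⟩
    change (T.LR n').x (w + (v' - v)) = (T.LR n).x w + ((T.LR n').x v' - (T.LR n).x v)
    have : (T.LR n').x (w + (v' - v)) = ((T.LR n').x (w + (v' - v)) - (T.LR n').x v') + (T.LR n').x v' := by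
      abel
    rw [this, ← h4]
    abel

end Two

end Pool.Agent.H82
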