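import Pool.Agent.H82.Disc

set_option autoImplicit false

open Set

namespace Pool.Agent.H82
namespace Two
variable {c : ℂ} {F : Lift c} {T : Two F}

/-- the ring system -/
noncomputable def HR (T : Two F) : HS := T.R.hs nf_ok

/-- the central tile -/
noncomputable def Tst (T : Two F) : Set ℂ := T.E.HE.Q 0 T.D0

theorem HE_fat : T.E.HE.Fat := Cf.hs_fat _
theorem HR_fat : T.HR.Fat := Cf.hs_fat _

theorem HR_I (n : ℕ) : T.HR.I n = (T.LR n).I := rfl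

theorem HR_q (n : ℕ) (v : Z2) : T.HR.q n v = T.pR n v / T.E.mu ^ n := by
  change T.R.q T.NF n v = _
  rw [Cf.q, T.muR]
  rfl

theorem pR_eq (n : ℕ) (v : Z2) : T.pR n v = T.E.mu ^ n * T.HR.q n v := by
  rw [HR_q]
  have := T.E.mu_ne
  field_simp

theorem sE : T.E.HE.s = T.E.m⁻¹ := rfl
theorem sR : T.HR.s = T.E.m⁻¹ := by
  change T.R.m⁻¹ = _
  rw [T.mR]

theorem KE : T.E.HE.K = T.E.kap + T.E.r := rfl

theorem KE_le : T.E.HE.K ≤ 24 / 10 * T.E.r := by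
  rw [KE]
  have := T.E.kapE T.hBE
  linarith

/-- every point is in a level zero limit set of the obstacle-free system -/
theorem E_cover (z : ℂ) : ∃ v, z ∈ T.E.HE.Q 0 {v} := by
  obtain ⟨v, -, hv⟩ := HS.exists_mem_Q (H := T.E.HE) (X := univ) (z := z) (K' := T.E.HE.K3) T.E.HE.hK3'
    (by
      intro N
      obtain ⟨w, hw⟩ := HE_fat.P6 N z
      obtain ⟨v, hv⟩ := T.E.HE_anc N w
      exact ⟨v, mem_univ v, w, hv, hw⟩)
  exact ⟨v, hv⟩

theorem R_cover {z : ℂ} {K' : ℝ} (hK' : 0 ≤ K')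
    (h : ∀ N, ∃ w ∈ (T.LR N).I, ‖z - T.HR.q N w‖ ≤ K' * (T.E.m⁻¹) ^ N) :
    ∃ v ∈ (T.LR 0).I, z ∈ T.HR.Q 0 {v} := by
  apply HS.exists_mem_Q (H := T.HR) hK'
  intro N
  obtain ⟨w, hw, h1⟩ := h N
  obtain ⟨v, hv, h2⟩ := HS.Desc.anc (H := T.HR) hw 0 (Nat.zero_le _)
  refine ⟨v, hv, w, h2, ?_⟩
  rw [sR]
  exact h1

/-- further size condition on the disc -/
structure Big (g : T.Geo) : Prop where
  hgap : 3 * g.Wd + 2 * ‖c‖ * T.E.r + (T.R.c1 + (101 / 100 * T.s + 2) * T.E.r) ≤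
    (‖c‖ - 1) / 2 * (T.E.r * T.RD)
  hWdK : 3 * ‖c‖ * T.E.r ≤ g.Wd
  hL : 2 * T.Φ ≤ T.L0
  hRDΦ : 7 * T.Φ ≤ T.RD

variable {g : T.Geo}

theorem spow_le_one (n : ℕ) : (T.E.m⁻¹) ^ n ≤ 1 := by
  apply pow_le_one₀ (inv_nonneg.2 T.E.mpos.le)
  have := T.E.m1000
  rw [inv_le_one₀ T.E.mpos]
  linarith

theorem spow_pos (n : ℕ) : 0 < (T.E.m⁻¹) ^ n := pow_pos (inv_pos.2 T.E.mpos) n

theorem spow_half (n : ℕ) : 2 * (T.E.m⁻¹) ^ (n + 1) ≤ (T.E.m⁻¹) ^ n := by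
  have h := Cf.spow_succ_m (C := T.E) n
  have := T.E.m1000
  have := spow_pos (T := T) (n + 1)
  nlinarith

theorem mpow_one (n : ℕ) : 1 ≤ T.E.m ^ n := one_le_pow₀ (by linarith [T.E.m1000])

theorem Wd_nonneg (hb : Big g) : 0 ≤ g.Wd := by
  have := hb.hWdK
  have := T.E.rpos
  have : 0 ≤ 3 * ‖c‖ * T.E.r := by positivity
  linarith

theorem pr_sI (a : Fin F.d → ℤ) : F.pr (ic (T.sI.op a)) = F.pr (ic a) := rfl
theorem pr_sO (a : Fin F.d → ℤ) : F.pr (ic (T.sO.op a)) = c * F.pr (ic a) := side_pr T.sO a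

theorem nf_split (n : ℕ) (b : Fin F.d → ℤ) (h : b ∈ T.NF n) :
    b ∈ T.obs T.sI T.D0 n ∨ b ∈ T.obs T.sO T.D0ᶜ n := h

theorem nf_split' (n : ℕ) (b : Fin F.d → ℤ) (h : b ∈ T.NF n) :
    b ∈ T.obs T.sO T.D0ᶜ n ∨ b ∈ T.obs T.sI T.D0 n := Or.symm h

/-- far obstacles, inner zone -/
theorem far_in (hb : Big g) (n : ℕ) (z : ℂ) (hz : ‖z‖ ≤ (1 + ‖c‖) / 2 * (T.E.r * T.RD) + 3 * g.Wd)
    {b : Fin F.d → ℤ} (hbO : b ∈ T.obs T.sO T.D0ᶜ n) :
    T.R.c1 + (101 / 100 * T.s + 2) * T.E.r ≤ ‖T.E.mu ^ n * z - F.pr (ic b)‖ := by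
  obtain ⟨w, hw, rfl⟩ := hbO
  rw [pr_sO, T.E.pr_X]
  have h1 := q_out hw
  have e : T.E.mu ^ n * z - c * (T.E.mu ^ n * T.E.HE.q n w) = T.E.mu ^ n * (z - c * T.E.HE.q n w) := by
    ring
  rw [e, norm_mul, norm_pow, T.E.norm_mu]
  have h2 := norm_sub_norm_le (c * T.E.HE.q n w) z
  rw [norm_mul, norm_sub_rev] at h2
  have hc := T.hc
  have h3 : ‖c‖ * (T.E.r * T.RD - 2 * T.E.r) ≤ ‖c‖ * ‖T.E.HE.q n w‖ :=
    mul_le_mul_of_nonneg_left h1 (by linarith)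
  have h4 := hb.hgap
  have hr := T.E.rpos
  have h5 : T.R.c1 + (101 / 100 * T.s + 2) * T.E.r ≤ ‖z - c * T.E.HE.q n w‖ := by linarith
  have h6 := mpow_one (T := T) n
  have h7 := norm_nonneg (z - c * T.E.HE.q n w)
  nlinarith

/-- far obstacles, outer zone -/
theorem far_out (hb : Big g) (n : ℕ) (z : ℂ) (hz : (1 + ‖c‖) / 2 * (T.E.r * T.RD) - 3 * g.Wd ≤ ‖z‖)
    {b : Fin F.d → ℤ} (hbO : b ∈ T.obs T.sI T.D0 n) :
    T.R.c1 + (101 / 100 * T.s + 2) * T.E.r ≤ ‖T.E.mu ^ n * z - F.pr (ic b)‖ := by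
  obtain ⟨w, hw, rfl⟩ := hbO
  rw [pr_sI, T.E.pr_X]
  have h1 := q_in hw
  have e : T.E.mu ^ n * z - T.E.mu ^ n * T.E.HE.q n w = T.E.mu ^ n * (z - T.E.HE.q n w) := by
    ring
  rw [e, norm_mul, norm_pow, T.E.norm_mu]
  have h2 := norm_sub_norm_le z (T.E.HE.q n w)
  have hc := T.hc
  have h4 := hb.hgap
  have hr := T.E.rpos
  have h8 : 2 * T.E.r ≤ 2 * ‖c‖ * T.E.r := by nlinarith
  have h5 : T.R.c1 + (101 / 100 * T.s + 2) * T.E.r ≤ ‖z - T.E.HE.q n w‖ := by linarith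
  have h6 := mpow_one (T := T) n
  have h7 := norm_nonneg (z - T.E.HE.q n w)
  nlinarith

/-- inner zone -/
def ZI (g : T.Geo) (n : ℕ) (z : ℂ) : Prop :=
  ‖z‖ ≤ (1 + ‖c‖) / 2 * (T.E.r * T.RD) + 2 * g.Wd * (T.E.m⁻¹) ^ n

/-- outer zone -/
def ZO (g : T.Geo) (n : ℕ) (z : ℂ) : Prop :=
  (1 + ‖c‖) / 2 * (T.E.r * T.RD) - 2 * g.Wd * (T.E.m⁻¹) ^ n ≤ ‖z‖

theorem c2_le : T.R.c1 + (101 / 100 * T.s + 1) * T.E.r ≤ T.R.c1 + (101 / 100 * T.s + 2) * T.E.r := by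
  have := T.E.rpos
  linarith

theorem c2_le' : T.R.c1 + T.E.r ≤ T.R.c1 + (101 / 100 * T.s + 2) * T.E.r := by
  have := T.E.rpos
  have h : (0 : ℝ) ≤ T.s := Nat.cast_nonneg _
  have : 0 ≤ T.s * T.E.r := by positivity
  linarith

theorem zone_in (hb : Big g) : Zone g T.sI T.sO T.D0ᶜ (ZI g) := by
  have hW := Wd_nonneg hb
  have hst : ∀ n z z', ZI g (n + 1) z → ‖z' - z‖ ≤ g.Wd * (T.E.m⁻¹) ^ n →
      ‖z'‖ ≤ (1 + ‖c‖) / 2 * (T.E.r * T.RD) + 2 * g.Wd * (T.E.m⁻¹) ^ n := by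
    intro n z z' h1 h2
    unfold ZI at h1
    have h3 := spow_half (T := T) n
    have h4 := norm_le_norm_add_norm_sub' z' z
    have h5 := mul_le_mul_of_nonneg_left h3 hW
    linarith
  refine ⟨hst, ?_, ?_⟩
  · intro n z z' h1 h2 b hbO
    have h3 := hst n z z' h1 h2
    have h4 := spow_le_one (T := T) n
    have h5 := mul_le_mul_of_nonneg_left h4 hW
    exact c2_le.trans (far_in hb (n + 1) z' (by linarith) hbO)
  · intro z h1 b hbO
    unfold ZI at h1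
    rw [pow_zero, mul_one] at h1
    have h2 := far_in hb 0 z (by linarith) hbO
    rw [pow_zero, one_mul] at h2
    exact c2_le'.trans h2

theorem zone_out (hb : Big g) : Zone g T.sO T.sI T.D0 (ZO g) := by
  have hW := Wd_nonneg hb
  have hst : ∀ n z z', ZO g (n + 1) z → ‖z' - z‖ ≤ g.Wd * (T.E.m⁻¹) ^ n →
      (1 + ‖c‖) / 2 * (T.E.r * T.RD) - 2 * g.Wd * (T.E.m⁻¹) ^ n ≤ ‖z'‖ := by
    intro n z z' h1 h2
    unfold ZO at h1
    have h3 := spow_half (T := T) n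
    have h4 := norm_le_norm_add_norm_sub z' z
    have h5 := mul_le_mul_of_nonneg_left h3 hW
    linarith
  refine ⟨hst, ?_, ?_⟩
  · intro n z z' h1 h2 b hbO
    have h3 := hst n z z' h1 h2
    have h4 := spow_le_one (T := T) n
    have h5 := mul_le_mul_of_nonneg_left h4 hW
    exact c2_le.trans (far_out hb (n + 1) z' (by linarith) hbO)
  · intro z h1 b hbO
    unfold ZO at h1
    rw [pow_zero, mul_one] at h1
    have h2 := far_out hb 0 z (by linarith) hbO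
    rw [pow_zero, one_mul] at h2
    exact c2_le'.trans h2

/-- ring sites near good obstacle-free sites -/
theorem ring_near (g : T.Geo) (σ σ' : Side F T.CM) {Y Y' : Set Z2}
    (hNF : ∀ n b, b ∈ T.NF n → b ∈ T.obs σ Y n ∨ b ∈ T.obs σ' Y' n) (hb : Base0 T Y)
    {Zn : ℕ → ℂ → Prop} (hZ : Zone g σ σ' Y' Zn) (n : ℕ) (w : Z2) (hw : w ∉ T.E.HE.W 0 Y n)
    (hz : ∀ z, ‖z - σ.ν * T.E.HE.q n w‖ ≤ g.Wd * (T.E.m⁻¹) ^ n → Zn n z) :
    ∃ v ∈ (T.LR n).I, ‖T.HR.q n v - σ.ν * T.E.HE.q n w‖ ≤ (g.Wd + T.E.r) * (T.E.m⁻¹) ^ n := by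
  obtain ⟨L, hL, q', hs, hpath⟩ := exists_safe g hb n hw
  have hr := T.E.rpos
  have hsn := spow_pos (T := T) n
  have h1 : ‖σ.ν * T.E.HE.q n q' - σ.ν * T.E.HE.q n w‖ ≤ g.Wd * (T.E.m⁻¹) ^ n := by
    rw [← mul_sub, norm_mul]
    have h1 := qE_dist (T := T) n q' w
    have h2 : (n1 (q' - w) : ℝ) ≤ g.LM := by
      rw [n1_sub_comm]
      exact_mod_cast hpath.dist.trans hL
    have h3 : 101 / 100 * T.E.r * n1 (q' - w) * (T.E.m⁻¹) ^ n ≤
        101 / 100 * T.E.r * g.LM * (T.E.m⁻¹) ^ n := by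
      apply mul_le_mul_of_nonneg_right _ hsn.le
      exact mul_le_mul_of_nonneg_left h2 (by linarith)
    calc ‖σ.ν‖ * ‖T.E.HE.q n q' - T.E.HE.q n w‖ ≤
          ‖c‖ * (101 / 100 * T.E.r * g.LM * (T.E.m⁻¹) ^ n) :=
          mul_le_mul σ.hν2 (h1.trans h3) (norm_nonneg _) (norm_nonneg _)
      _ = (‖c‖ * (101 / 100) * T.E.r * g.LM) * (T.E.m⁻¹) ^ n := by ring
      _ ≤ _ := mul_le_mul_of_nonneg_right g.hWd' hsn.le
  obtain ⟨v, hv⟩ := (invR (T := T) n).cover (σ.ν * F.pr (ic (T.E.X n q')))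
  change ‖_ - T.pR n v‖ ≤ _ at hv
  rw [T.hr] at hv
  refine ⟨v, must g σ σ' hNF hb hZ n q' hs (hz _ h1) v (by rw [norm_sub_rev]; exact hv), ?_⟩
  have e : T.HR.q n v - σ.ν * T.E.HE.q n w =
      -((σ.ν * F.pr (ic (T.E.X n q')) - T.pR n v) / T.E.mu ^ n) +
      (σ.ν * T.E.HE.q n q' - σ.ν * T.E.HE.q n w) := by
    rw [HR_q, T.E.pr_X]
    have := T.E.mu_ne
    field_simp
    ring
  rw [e]
  refine (norm_add_le _ _).trans ?_
  rw [norm_neg, norm_div, norm_pow, T.E.norm_mu, div_eq_mul_inv, ← inv_pow]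
  have := mul_le_mul_of_nonneg_right hv hsn.le
  linarith

/-- points outside the central tile but inside its image are covered by ring limit sets -/
theorem cover_ring (hb : Big g) {z z1 : ℂ} (hz : z ∉ T.Tst) (hz1 : z1 ∈ T.Tst) (hzz : z = c * z1) :
    ∃ v ∈ (T.LR 0).I, z ∈ T.HR.Q 0 {v} := by
  have hW := Wd_nonneg hb
  have hr := T.E.rpos
  have hK := KE_le (T := T)
  have hWK := hb.hWdK
  have hc := T.hc
  have hKc : ‖c‖ * T.E.HE.K ≤ g.Wd := by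
    have h1 := mul_le_mul_of_nonneg_left hK (show 0 ≤ ‖c‖ by linarith)
    have h2 : 0 ≤ ‖c‖ * T.E.r := by positivity
    linarith
  have hK1 : T.E.HE.K ≤ g.Wd := by
    have := HS.hK0 (H := T.E.HE)
    nlinarith
  apply R_cover (K' := 2 * g.Wd + T.E.r) (by linarith)
  intro N
  have hsN := spow_pos (T := T) N
  by_cases hcase : ‖z‖ ≤ (1 + ‖c‖) / 2 * (T.E.r * T.RD)
  · -- inner zone
    obtain ⟨v0, hv0⟩ := E_cover (T := T) z
    have hv0D : v0 ∉ T.D0 := fun h => hz (HS.Q_mono (singleton_subset_iff.2 h) hv0)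
    obtain ⟨w, ⟨v1, hv1, hd⟩, hw⟩ := hv0 N (Nat.zero_le _)
    rw [mem_singleton_iff] at hv1
    subst hv1
    have hwY : w ∉ T.E.HE.W 0 T.D0 N := by
      rintro ⟨v2, hv2, hd2⟩
      exact hv0D (hd.uniq hd2 ▸ hv2)
    rw [sE] at hw
    obtain ⟨v, hv, h1⟩ := ring_near g T.sI T.sO nf_split (base_out hb.hL) (zone_in hb) N w hwY (by
      intro z' hz'
      change ‖z'‖ ≤ (1 + ‖c‖) / 2 * (T.E.r * T.RD) + 2 * g.Wd * (T.E.m⁻¹) ^ N
      have e : T.sI.ν * T.E.HE.q N w = T.E.HE.q N w := by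
        change 1 * _ = _
        rw [one_mul]
      rw [e] at hz'
      have h2 : z' = z + ((z' - T.E.HE.q N w) - (z - T.E.HE.q N w)) := by ring
      rw [h2]
      have h3 := norm_add_le z ((z' - T.E.HE.q N w) - (z - T.E.HE.q N w))
      have h4 := norm_sub_le (z' - T.E.HE.q N w) (z - T.E.HE.q N w)
      have h5 := mul_le_mul_of_nonneg_right hK1 hsN.le
      linarith)
    refine ⟨v, hv, ?_⟩
    have e : T.sI.ν * T.E.HE.q N w = T.E.HE.q N w := by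
      change 1 * _ = _
      rw [one_mul]
    rw [e] at h1
    have h2 : z - T.HR.q N v = (z - T.E.HE.q N w) - (T.HR.q N v - T.E.HE.q N w) := by ring
    rw [h2]
    have h3 := norm_sub_le (z - T.E.HE.q N w) (T.HR.q N v - T.E.HE.q N w)
    have h5 := mul_le_mul_of_nonneg_right hK1 hsN.le
    linarith
  · -- outer zone
    push Not at hcase
    obtain ⟨w, hwD, hw⟩ := hz1 N (Nat.zero_le _)
    rw [sE] at hw
    have hwY : w ∉ T.E.HE.W 0 T.D0ᶜ N := by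
      rw [T.E.W_compl]
      exact not_not.2 hwD
    have e : T.sO.ν * T.E.HE.q N w = c * T.E.HE.q N w := rfl
    have hw' : ‖z - c * T.E.HE.q N w‖ ≤ g.Wd * (T.E.m⁻¹) ^ N := by
      rw [hzz, ← mul_sub, norm_mul]
      have h2 := mul_le_mul_of_nonneg_left hw (show 0 ≤ ‖c‖ by linarith)
      have h3 := mul_le_mul_of_nonneg_right hKc hsN.le
      linarith
    obtain ⟨v, hv, h1⟩ := ring_near g T.sO T.sI nf_split' (base_in hb.hL hb.hRDΦ) (zone_out hb) N w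
      hwY (by
      intro z' hz'
      change (1 + ‖c‖) / 2 * (T.E.r * T.RD) - 2 * g.Wd * (T.E.m⁻¹) ^ N ≤ ‖z'‖
      rw [e] at hz'
      have h2 : z = z' - ((z' - c * T.E.HE.q N w) - (z - c * T.E.HE.q N w)) := by ring
      rw [h2] at hcase
      have h3 := norm_sub_le z' ((z' - c * T.E.HE.q N w) - (z - c * T.E.HE.q N w))
      have h4 := norm_sub_le (z' - c * T.E.HE.q N w) (z - c * T.E.HE.q N w)
      linarith)
    refine ⟨v, hv, ?_⟩
    rw [e] at h1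
    have h2 : z - T.HR.q N v = (z - c * T.E.HE.q N w) - (T.HR.q N v - c * T.E.HE.q N w) := by ring
    rw [h2]
    have h3 := norm_sub_le (z - c * T.E.HE.q N w) (T.HR.q N v - c * T.E.HE.q N w)
    linarith

/-- ring limit sets lie in the image of the central tile -/
theorem ring_sub {v : Z2} {z : ℂ} (hz : z ∈ T.HR.Q 0 {v}) (hv : v ∈ (T.LR 0).I) :
    z / c ∈ T.Tst := by
  have hc := T.hc
  have hc0 : c ≠ 0 := by
    intro h
    rw [h, norm_zero] at hc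
    linarith
  have hr := T.E.rpos
  have hKp := HS.hK0 (H := T.HR)
  apply HS.mem_Q_of_frequent (K' := (T.HR.K + ‖c‖ * T.E.r) / ‖c‖) (by positivity)
  intro N _
  refine ⟨N, le_rfl, ?_⟩
  obtain ⟨w, ⟨v1, hv1, hd⟩, hw⟩ := hz N (Nat.zero_le _)
  rw [mem_singleton_iff] at hv1
  subst hv1
  have hwI : w ∈ (T.LR N).I := hd.mem (H := T.HR) hv
  rw [sR] at hw
  obtain ⟨w', hw'⟩ := (T.E.emp_ok.inv N).cover (T.pR N w / c)
  change ‖_ - F.pr (ic (T.E.X N w'))‖ ≤ _ at hw'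
  have h1 : ‖T.pR N w - c * F.pr (ic (T.E.X N w'))‖ ≤ ‖c‖ * T.E.r := by
    have e : T.pR N w - c * F.pr (ic (T.E.X N w')) = c * (T.pR N w / c - F.pr (ic (T.E.X N w'))) := by
      field_simp
    rw [e, norm_mul]
    exact mul_le_mul_of_nonneg_left hw' (norm_nonneg _)
  have hwD : w' ∈ T.E.HE.W 0 T.D0 N := by
    by_contra hcon
    have h2 : T.sO.op (T.E.X N w') ∈ T.NF N :=
      Or.inr ⟨w', (T.E.W_compl T.D0 N w').2 hcon, rfl⟩
    have h3 := (invR (T := T) N).cl w hwI _ h2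
    change T.R.c1 ≤ ‖T.pR N w - F.pr (ic (T.sO.op (T.E.X N w')))‖ at h3
    rw [pr_sO] at h3
    have h4 := T.tc1
    linarith
  refine ⟨w', hwD, ?_⟩
  rw [sE]
  have hsN := spow_pos (T := T) N
  have e : z / c - T.E.HE.q N w' = ((z - T.HR.q N w) +
      (T.pR N w - c * F.pr (ic (T.E.X N w'))) / T.E.mu ^ N) / c := by
    rw [HR_q, T.E.HE_q]
    have := T.E.mu_ne
    field_simp
    ring
  rw [e, norm_div, div_mul_eq_mul_div]
  apply div_le_div_of_nonneg_right _ (norm_nonneg _)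
  refine (norm_add_le _ _).trans ?_
  rw [norm_div, norm_pow, T.E.norm_mu, div_eq_mul_inv, ← inv_pow]
  have := mul_le_mul_of_nonneg_right h1 hsN.le
  linarith

theorem Tst_bound {z : ℂ} (hz : z ∈ T.Tst) : ‖z‖ ≤ T.E.r * T.RD + 3 * T.E.r := by
  obtain ⟨w, ⟨v, hv, hd⟩, hw⟩ := hz 0 le_rfl
  have := hd.eq_self
  subst this
  rw [pow_zero, mul_one] at hw
  have h1 := T.E.q0_near w
  have hv' : ‖tc w‖ ≤ T.RD := hv
  have hr := T.E.rpos
  have hCp := T.E.hr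
  have hK := KE_le (T := T)
  have h4 : ‖(T.E.r : ℂ) * tc w‖ ≤ T.E.r * T.RD := by
    rw [norm_mul, Complex.norm_real, Real.norm_eq_abs, abs_of_pos (by linarith)]
    exact mul_le_mul_of_nonneg_left hv' (by linarith)
  have e : z = (z - T.E.HE.q 0 w) + ((T.E.HE.q 0 w - T.E.r * tc w) + T.E.r * tc w) := by ring
  rw [e]
  refine (norm_add_le _ _).trans ?_
  have := norm_add_le (T.E.HE.q 0 w - T.E.r * tc w) (T.E.r * tc w)
  linarith

theorem Tst_contains {z : ℂ} (hz : ‖z‖ < T.E.r * T.RD - 3 * T.E.r) : z ∈ T.Tst := by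
  obtain ⟨v, hv⟩ := E_cover (T := T) z
  have hvD : v ∈ T.D0 := by
    by_contra hcon
    have hv' : T.RD < ‖tc v‖ := not_le.1 hcon
    have h0 := HS.Q_bounded hv
    rw [pow_zero, mul_one] at h0
    have h1 := T.E.q0_near v
    have hr := T.E.rpos
    have hCp := T.E.hr
    have hK := KE_le (T := T)
    have h4 : T.E.r * T.RD ≤ ‖(T.E.r : ℂ) * tc v‖ := by
      rw [norm_mul, Complex.norm_real, Real.norm_eq_abs, abs_of_pos (by linarith)]
      exact mul_le_mul_of_nonneg_left hv'.le (by linarith)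
    have e : (T.E.r : ℂ) * tc v = z - (z - T.E.HE.q 0 v) - (T.E.HE.q 0 v - T.E.r * tc v) := by ring
    rw [e] at h4
    have h5 := norm_sub_le (z - (z - T.E.HE.q 0 v)) (T.E.HE.q 0 v - T.E.r * tc v)
    have h6 := norm_sub_le z (z - T.E.HE.q 0 v)
    linarith
  exact HS.Q_mono (singleton_subset_iff.2 hvD) hv

theorem RD_big (hb : Big g) : 6 * (1 + ‖c‖) * T.E.r ≤ (‖c‖ - 1) * (T.E.r * T.RD) := by
  have h1 := hb.hgap
  have h2 := hb.hWdK
  have h3 := T.tc1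
  have hr := T.E.rpos
  have hc := T.hc
  have h4 : 0 ≤ (T.s : ℝ) * T.E.r := by positivity
  have h5 : T.E.r ≤ ‖c‖ * T.E.r := by nlinarith
  nlinarith

/-- F1 -/
theorem F1 (hb : Big g) : (fun w => c * w) '' T.Tst = T.Tst ∪ ⋃ v ∈ (T.LR 0).I, T.HR.Q 0 {v} := by
  have hc := T.hc
  have hc0 : c ≠ 0 := by
    intro h
    rw [h, norm_zero] at hc
    linarith
  have hr := T.E.rpos
  apply Subset.antisymm
  · rintro _ ⟨z1, hz1, rfl⟩
    by_cases h : c * z1 ∈ T.Tst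
    · exact Or.inl h
    · right
      obtain ⟨v, hv, h1⟩ := cover_ring hb h hz1 rfl
      simp only [mem_iUnion, exists_prop]
      exact ⟨v, hv, h1⟩
  · rintro z (hz | hz)
    · refine ⟨z / c, ?_, by field_simp⟩
      apply Tst_contains
      have h1 := Tst_bound hz
      rw [norm_div, div_lt_iff₀ (by linarith)]
      have h2 := RD_big hb
      have h3 : 0 < ‖c‖ * T.E.r := by positivity
      nlinarith
    · simp only [mem_iUnion, exists_prop] at hz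
      obtain ⟨v, hv, hz⟩ := hz
      exact ⟨z / c, ring_sub hz hv, by field_simp⟩

theorem F4 {v : Z2} (hv : v ∈ (T.LR 0).I) :
    Disjoint (interior T.Tst) (interior (T.HR.Q 0 {v})) := by
  rw [Set.disjoint_left]
  intro z hz hz'
  have hsub : ({v} : Set Z2) ⊆ T.HR.I 0 := singleton_subset_iff.2 hv
  obtain ⟨N, -, -, v1, hv1, w, hd, hwI, h1, -⟩ := (HR_fat (T := T)).exists_center_near
    (n := 0) (X := {v}) hsub (interior_subset hz') isOpen_interior hz 0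
  have h2 : T.HR.q N w ∈ T.Tst := interior_subset h1
  have hr := T.E.rpos
  have hsN := spow_pos (T := T) N
  obtain ⟨w', hw', h3⟩ := HS.Q_sharp h2 N (Nat.zero_le _) (T.E.r * (T.E.m⁻¹) ^ N) (by positivity)
  have h4 : T.sI.op (T.E.X N w') ∈ T.NF N := Or.inl ⟨w', hw', rfl⟩
  have h5 := (invR (T := T) N).cl w hwI _ h4
  change T.R.c1 ≤ ‖T.pR N w - F.pr (ic (T.sI.op (T.E.X N w')))‖ at h5
  rw [pr_sI, pR_eq, T.E.pr_X, ← mul_sub, norm_mul, norm_pow, T.E.norm_mu] at h5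
  rw [sE] at h3
  have h6 : T.E.HE.κ = T.E.kap := rfl
  have h7 := T.E.kapE T.hBE
  have h8 : ‖T.HR.q N w - T.E.HE.q N w'‖ ≤ (24 / 10 * T.E.r) * (T.E.m⁻¹) ^ N := by
    refine h3.trans ?_
    rw [h6]
    have := mul_le_mul_of_nonneg_right h7 hsN.le
    linarith
  have h9 : T.E.m ^ N * ‖T.HR.q N w - T.E.HE.q N w'‖ ≤ 24 / 10 * T.E.r := by
    have h10 := mul_le_mul_of_nonneg_left h8 (pow_pos T.E.mpos N).le
    have h11 : T.E.m ^ N * ((24 / 10 * T.E.r) * (T.E.m⁻¹) ^ N) = 24 / 10 * T.E.r := by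
      rw [inv_pow]
      have := T.E.mpos
      field_simp
    linarith
  have h12 := T.tc1
  have hc := T.hc
  have h13 : 0 < ‖c‖ * T.E.r := by positivity
  linarith

theorem Tst_tile : IsCompact T.Tst ∧ IsConnected T.Tst ∧ closure (interior T.Tst) = T.Tst := by
  have hsub : T.D0 ⊆ T.E.HE.I 0 := by rw [T.E.HE_I]; exact subset_univ _
  exact ⟨HS.Q_compact D0_finite, HS.Q_connected D0_finite hsub ⟨0, D0_zero⟩ D0_conn,
    HE_fat.closure_interior D0_finite hsub⟩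

theorem zero_int (hb : Big g) : (0 : ℂ) ∈ interior T.Tst := by
  rw [mem_interior]
  refine ⟨Metric.ball 0 (T.E.r * T.RD - 3 * T.E.r), ?_, Metric.isOpen_ball, ?_⟩
  · intro z hz
    rw [mem_ball_zero_iff] at hz
    exact Tst_contains hz
  · apply Metric.mem_ball_self
    have h1 := RD_big hb
    have hc := T.hc
    have hr := T.E.rpos
    have hRD := RD_pos (T := T)
    have h2 : 0 < T.E.r * T.RD := by positivity
    by_contra hcon
    push Not at hcon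
    have h3 : (‖c‖ - 1) * (T.E.r * T.RD) ≤ (‖c‖ - 1) * (3 * T.E.r) :=
      mul_le_mul_of_nonneg_left (by linarith) (by linarith)
    have h4 : 0 < ‖c‖ * T.E.r := by positivity
    nlinarith

theorem Q_tile {n : ℕ} {v : Z2} (hv : v ∈ (T.LR n).I) :
    IsCompact (T.HR.Q n {v}) ∧ IsConnected (T.HR.Q n {v}) ∧
      closure (interior (T.HR.Q n {v})) = T.HR.Q n {v} :=
  ⟨HS.Q_compact (finite_singleton v),
    HS.Q_connected (finite_singleton v) (singleton_subset_iff.2 hv) (singleton_nonempty v)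
      (HS.conn_singleton v),
    HR_fat.closure_interior (finite_singleton v) (singleton_subset_iff.2 hv)⟩

theorem F2 (n : ℕ) {v : Z2} (hv : v ∈ (T.LR n).I) :
    ∃ S ⊆ (T.LR (n + 1)).I, T.HR.Q n {v} = ⋃ u ∈ S, T.HR.Q (n + 1) {u} :=
  ⟨{u | T.HR.ch n v u}, fun _ hu => (T.HR.P0 _ _ _ hu).2, HS.Q_children hv⟩

theorem F2' (n : ℕ) {u : Z2} (hu : u ∈ (T.LR (n + 1)).I) :
    ∃ v ∈ (T.LR n).I, T.HR.Q (n + 1) {u} ⊆ T.HR.Q n {v} := by
  obtain ⟨v, hv⟩ := T.HR.Pt n u hu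
  exact ⟨v, (T.HR.P0 _ _ _ hv).1, HS.Q_desc_subset (HS.Desc.step (HS.Desc.refl _ _) hv)⟩

end Two

end Pool.Agent.H82
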