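import Pool.Agent.H82.Walk

set_option autoImplicit false

open Set

namespace Pool.Agent.H82

/-! ### Level zero: the digital disc -/

theorem normsq_tc (u : Z2) : ‖tc u‖ ^ 2 = (u.1 : ℝ) ^ 2 + (u.2 : ℝ) ^ 2 := by
  rw [Complex.sq_norm, Complex.normSq_apply]; simp [tc]; ring

theorem line_path {P : Z2 → Prop} {e : Z2} (he : n1 e = 1) :
    ∀ (L : ℕ) (q : Z2), (∀ j ≤ L, P (q + (j : ℤ) • e)) → Pth P L q (q + (L : ℤ) • e) := by
  intro L
  induction L with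
  | zero =>
    intro q h
    have := h 0 le_rfl
    simp only [Nat.cast_zero, zero_smul, add_zero] at this ⊢
    exact Pth.refl this
  | succ L ih =>
    intro q h
    have h0 := h 0 (Nat.zero_le _)
    simp only [Nat.cast_zero, zero_smul, add_zero] at h0
    have h1 := ih (q + e) (by
      intro j hj
      have := h (j + 1) (by omega)
      have e1 : q + e + (j : ℤ) • e = q + ((j + 1 : ℕ) : ℤ) • e := by
        push_cast; rw [add_smul, one_smul]; abel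
      rw [e1]; exact this)
    have e2 : q + e + (L : ℤ) • e = q + ((L + 1 : ℕ) : ℤ) • e := by
      push_cast; rw [add_smul, one_smul]; abel
    rw [e2] at h1
    refine Pth.step h0 ?_ h1
    unfold adj
    have : q - (q + e) = -e := by abel
    rw [this, n1_neg, he]

/-- a lattice direction well aligned with `q` -/
theorem exists_dir (q : Z2) : ∃ e : Z2, n1 e = 1 ∧ (e.1 : ℝ) ^ 2 + (e.2 : ℝ) ^ 2 = 1 ∧
    0 ≤ (q.1 : ℝ) * e.1 + q.2 * e.2 ∧ ‖tc q‖ ^ 2 ≤ 2 * ((q.1 : ℝ) * e.1 + q.2 * e.2) ^ 2 := by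
  rw [normsq_tc]
  by_cases h : (q.2 : ℝ) ^ 2 ≤ (q.1 : ℝ) ^ 2
  · by_cases h1 : 0 ≤ (q.1 : ℝ)
    · refine ⟨(1, 0), by simp [n1], by simp, by simpa using h1, ?_⟩
      simp only [Int.cast_one, Int.cast_zero]
      nlinarith
    · push Not at h1
      refine ⟨(-1, 0), by simp [n1], by simp, by simp; exact_mod_cast h1.le, ?_⟩
      simp only [Int.cast_neg, Int.cast_one, Int.cast_zero]
      nlinarith
  · push Not at h
    by_cases h1 : 0 ≤ (q.2 : ℝ)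
    · refine ⟨(0, 1), by simp [n1], by simp, by simpa using h1, ?_⟩
      simp only [Int.cast_one, Int.cast_zero]
      nlinarith
    · push Not at h1
      refine ⟨(0, -1), by simp [n1], by simp, by simp; exact_mod_cast h1.le, ?_⟩
      simp only [Int.cast_neg, Int.cast_one, Int.cast_zero]
      nlinarith

theorem normsq_line (q e : Z2) (he : (e.1 : ℝ) ^ 2 + (e.2 : ℝ) ^ 2 = 1) (j : ℤ) :
    ‖tc (q + j • e)‖ ^ 2 = ‖tc q‖ ^ 2 + 2 * j * ((q.1 : ℝ) * e.1 + q.2 * e.2) + (j : ℝ) ^ 2 := by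
  rw [normsq_tc, normsq_tc]
  simp only [Prod.fst_add, Prod.snd_add, Prod.smul_fst, Prod.smul_snd, smul_eq_mul, Int.cast_add,
    Int.cast_mul]
  have : (j : ℝ) ^ 2 = (j : ℝ) ^ 2 * ((e.1 : ℝ) ^ 2 + (e.2 : ℝ) ^ 2) := by rw [he, mul_one]
  rw [this]
  ring

theorem exists_dec {q : Z2} (hq : q ≠ 0) : ∃ q', adj q q' ∧ n1 q' < n1 q ∧ ‖tc q'‖ ≤ ‖tc q‖ := by
  obtain ⟨a, b⟩ := q
  have key : ∀ x y x' y' : ℤ, x' ^ 2 ≤ x ^ 2 → y' ^ 2 ≤ y ^ 2 → ‖tc (x', y')‖ ≤ ‖tc (x, y)‖ := by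
    intro x y x' y' h1 h2
    have h3 : ‖tc (x', y')‖ ^ 2 ≤ ‖tc (x, y)‖ ^ 2 := by
      rw [normsq_tc, normsq_tc]
      have h1' : (x' : ℝ) ^ 2 ≤ (x : ℝ) ^ 2 := by exact_mod_cast h1
      have h2' : (y' : ℝ) ^ 2 ≤ (y : ℝ) ^ 2 := by exact_mod_cast h2
      simp only
      linarith
    exact le_of_sq_le_sq h3 (norm_nonneg _)
  by_cases ha : 0 < a
  · exact ⟨(a - 1, b), by simp [adj, n1], by simp only [n1]; omega, key _ _ _ _ (by nlinarith) le_rfl⟩
  by_cases ha' : a < 0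
  · exact ⟨(a + 1, b), by simp [adj, n1], by simp only [n1]; omega, key _ _ _ _ (by nlinarith) le_rfl⟩
  by_cases hb : 0 < b
  · exact ⟨(a, b - 1), by simp [adj, n1], by simp only [n1]; omega, key _ _ _ _ le_rfl (by nlinarith)⟩
  by_cases hb' : b < 0
  · exact ⟨(a, b + 1), by simp [adj, n1], by simp only [n1]; omega, key _ _ _ _ le_rfl (by nlinarith)⟩
  · exfalso
    apply hq
    have : a = 0 := by omega
    have : b = 0 := by omega
    simp [*]

theorem rtg_symm {X : Set Z2} {x y : Z2}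
    (h : Relation.ReflTransGen (fun a b => adj a b ∧ a ∈ X ∧ b ∈ X) x y) :
    Relation.ReflTransGen (fun a b => adj a b ∧ a ∈ X ∧ b ∈ X) y x := by
  induction h with
  | refl => exact Relation.ReflTransGen.refl
  | tail _ hbc ih => exact Relation.ReflTransGen.head ⟨adj_symm hbc.1, hbc.2.2, hbc.2.1⟩ ih

namespace Two
variable {c : ℂ} {F : Lift c} {T : Two F}

theorem mem_D0 {u : Z2} : u ∈ T.D0 ↔ ‖tc u‖ ≤ T.RD := Iff.rfl

theorem D0_conn : HS.Conn T.D0 := by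
  have key : ∀ k, ∀ q : Z2, n1 q = k → q ∈ T.D0 →
      Relation.ReflTransGen (fun a b => adj a b ∧ a ∈ T.D0 ∧ b ∈ T.D0) q 0 := by
    intro k
    induction k using Nat.strong_induction_on with
    | _ k ih =>
      intro q hk hq
      by_cases h0 : q = 0
      · rw [h0]
      · obtain ⟨q', h1, h2, h3⟩ := exists_dec h0
        have hq' : q' ∈ T.D0 := h3.trans hq
        exact Relation.ReflTransGen.head ⟨h1, hq, hq'⟩ (ih _ (by omega) q' rfl hq')
  intro u hu v hv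
  exact (key _ u rfl hu).trans (rtg_symm (key _ v rfl hv))

theorem D0_finite : T.D0.Finite := by
  apply (n1_ball_finite 0 ⌈3 / 2 * T.RD⌉₊).subset
  intro u hu
  have h1 := n1_le u
  have h2 : ‖tc u‖ ≤ T.RD := hu
  rw [mem_ofPred_eq, sub_zero]
  have : (n1 u : ℝ) ≤ 3 / 2 * T.RD := by linarith
  exact_mod_cast this.trans (Nat.le_ceil _)

theorem RD_pos : 0 < T.RD := by
  have h1 := T.tRD0
  have h2 := T.hc
  by_contra h
  push Not at h
  nlinarith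

theorem D0_zero : (0 : Z2) ∈ T.D0 := by
  rw [mem_D0, tc_zero, norm_zero]
  exact RD_pos.le

/-- outward walks -/
theorem base_out (hL : 2 * T.Φ ≤ T.L0) : Base0 T T.D0 := by
  intro q hq
  have hq' : T.RD < ‖tc q‖ := not_le.1 hq
  obtain ⟨e, he, he2, hd0, hd⟩ := exists_dir q
  set D := (q.1 : ℝ) * e.1 + q.2 * e.2 with hD
  have hRD := RD_pos (T := T)
  have hnp : 0 ≤ ‖tc q‖ := norm_nonneg _
  have hDq : 7 / 10 * ‖tc q‖ ≤ D := by
    apply le_of_sq_le_sq _ hd0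
    nlinarith
  have hgrow : ∀ j : ℕ, ‖tc q‖ + 7 / 10 * j ≤ ‖tc (q + (j : ℤ) • e)‖ := by
    intro j
    apply le_of_sq_le_sq _ (norm_nonneg _)
    rw [normsq_line q e he2]
    push_cast
    have hj : (0 : ℝ) ≤ j := Nat.cast_nonneg j
    nlinarith
  refine ⟨2 * T.Φ, hL, q + ((2 * T.Φ : ℕ) : ℤ) • e, ⟨?_, ?_⟩, ?_⟩
  · rw [mem_D0, not_le]
    have := hgrow (2 * T.Φ)
    have h2 : (0 : ℝ) ≤ ((2 * T.Φ : ℕ) : ℝ) := Nat.cast_nonneg _
    linarith
  · intro y hy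
    have hy' : ‖tc y‖ ≤ T.RD := hy
    have h1 := hgrow (2 * T.Φ)
    have h2 := norm_tc_le (q + ((2 * T.Φ : ℕ) : ℤ) • e - y)
    rw [tc_sub] at h2
    have h3 := norm_sub_norm_le (tc (q + ((2 * T.Φ : ℕ) : ℤ) • e)) (tc y)
    push_cast at h1
    have h4 : (T.Φ : ℝ) ≤ n1 (q + ((2 * T.Φ : ℕ) : ℤ) • e - y) := by
      have hj : (0 : ℝ) ≤ T.Φ := Nat.cast_nonneg _
      push_cast at h2 h3 ⊢
      linarith
    exact_mod_cast h4
  · apply line_path he
    intro j _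
    rw [mem_D0, not_le]
    have := hgrow j
    have hj : (0 : ℝ) ≤ j := Nat.cast_nonneg j
    linarith

/-- inward walks -/
theorem base_in (hL : 2 * T.Φ ≤ T.L0) (hRDΦ : 7 * T.Φ ≤ T.RD) : Base0 T T.D0ᶜ := by
  intro q hq
  have hq' : ‖tc q‖ ≤ T.RD := not_not.1 hq
  have hj : (0 : ℝ) ≤ T.Φ := Nat.cast_nonneg _
  have hfin : ∀ q' : Z2, ‖tc q'‖ ≤ T.RD - T.Φ → q' ∉ T.D0ᶜ ∧ ∀ y ∈ T.D0ᶜ, T.Φ ≤ n1 (q' - y) := by
    intro q' h
    refine ⟨not_not.2 (show ‖tc q'‖ ≤ T.RD by linarith), ?_⟩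
    intro y hy
    have hy' : T.RD < ‖tc y‖ := not_le.1 hy
    have h2 := norm_tc_le (q' - y)
    rw [tc_sub, norm_sub_rev] at h2
    have h3 := norm_sub_norm_le (tc y) (tc q')
    have h4 : (T.Φ : ℝ) ≤ n1 (q' - y) := by linarith
    exact_mod_cast h4
  by_cases hsmall : ‖tc q‖ ≤ T.RD - T.Φ
  · exact ⟨0, Nat.zero_le _, q, hfin q hsmall, Pth.refl hq⟩
  · push Not at hsmall
    obtain ⟨e, he, he2, hd0, hd⟩ := exists_dir q
    set D := (q.1 : ℝ) * e.1 + q.2 * e.2 with hD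
    have hnp : 0 ≤ ‖tc q‖ := norm_nonneg _
    have hDq : 7 / 10 * ‖tc q‖ ≤ D := by
      apply le_of_sq_le_sq _ hd0
      nlinarith
    have hne : n1 (-e) = 1 := by rw [n1_neg, he]
    have hne2 : (((-e).1 : ℤ) : ℝ) ^ 2 + (((-e).2 : ℤ) : ℝ) ^ 2 = 1 := by
      simp only [Prod.fst_neg, Prod.snd_neg, Int.cast_neg]
      nlinarith
    have hline : ∀ j : ℕ, ‖tc (q + (j : ℤ) • (-e))‖ ^ 2 = ‖tc q‖ ^ 2 - 2 * j * D + (j : ℝ) ^ 2 := by
      intro j
      rw [normsq_line q (-e) hne2]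
      simp only [Prod.fst_neg, Prod.snd_neg, Int.cast_neg]
      rw [hD]
      push_cast
      ring
    have hqΦ : 6 * (T.Φ : ℝ) ≤ ‖tc q‖ := by linarith
    refine ⟨2 * T.Φ, hL, q + ((2 * T.Φ : ℕ) : ℤ) • (-e), hfin _ ?_, ?_⟩
    · have h1 : ‖tc (q + ((2 * T.Φ : ℕ) : ℤ) • (-e))‖ ≤ ‖tc q‖ - T.Φ := by
        apply le_of_sq_le_sq _ (by linarith)
        rw [hline]
        push_cast
        nlinarith
      linarith
    · apply line_path hne
      intro j hj2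
      apply not_not.2
      change ‖tc (q + (j : ℤ) • (-e))‖ ≤ T.RD
      refine le_trans ?_ hq'
      apply le_of_sq_le_sq _ hnp
      rw [hline]
      have h3 : (j : ℝ) ≤ 2 * T.Φ := by exact_mod_cast hj2
      have h4 : (0 : ℝ) ≤ j := Nat.cast_nonneg j
      nlinarith

end Two

end Pool.Agent.H82
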