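import Pool.Agent.H82.Local

set_option autoImplicit false

open Set

namespace Pool.Agent.H82
namespace Cf
variable {c : ℂ} {F : Lift c} (C : Cf F)

/-- no obstacles -/
def emp (F : Lift c) : ℕ → Set (Fin F.d → ℤ) := fun _ => ∅

theorem emp_ok : C.NFok (emp F) := by
  refine ⟨fun b hb => absurd hb (notMem_empty b), fun n => ⟨fun b hb => absurd hb (notMem_empty b),
    fun b hb => absurd hb (notMem_empty b)⟩⟩

/-- positions of the obstacle-free system -/
noncomputable def X (n : ℕ) (u : Z2) : Fin F.d → ℤ := (C.lev (emp F) n).x u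

noncomputable def HE : HS := C.hs C.emp_ok

theorem e_univ (n : ℕ) : (C.lev (emp F) n).I = univ := by
  induction n with
  | zero =>
    rw [eq_univ_iff_forall]
    intro u b hb
    exact absurd hb (notMem_empty b)
  | succ n ih =>
    rw [eq_univ_iff_forall]
    intro u
    obtain ⟨v, hv⟩ := (C.emp_ok.inv n).dense u
    have hvI : v ∈ (C.lev (emp F) n).I := by rw [ih]; exact mem_univ v
    have hmp := C.mpos
    obtain ⟨v', hv', h1, -⟩ := (C.emp_ok.inv n).ownNear (C.emp_ok.rel n) hvI (u := u) (by linarith)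
    exact ⟨_, h1⟩

theorem e_mem (n : ℕ) (v : Z2) : v ∈ (C.lev (emp F) n).I := by rw [e_univ]; exact mem_univ v

theorem X_succ_cen (n : ℕ) (v : Z2) :
    C.X (n + 1) (C.cen (C.lev (emp F) n).x v) = C.A (C.X n v) :=
  (C.emp_ok.inv n).y_exact (C.emp_ok.rel n) (C.e_mem n v)

theorem A_zero : C.A 0 = 0 := by
  have := C.A_add 0 0
  rw [add_zero] at this
  exact left_eq_add.1 this

theorem A_neg (a : Fin F.d → ℤ) : C.A (-a) = - C.A a := by
  have := C.A_add a (-a)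
  rw [add_neg_cancel, C.A_zero] at this
  exact (neg_eq_of_add_eq_zero_right this.symm).symm

theorem g_zero : C.g 0 = 0 := by
  have := C.g_add 0 0
  rw [add_zero] at this
  exact left_eq_add.1 this

theorem g_neg (a : Fin F.d → ℤ) : C.g (-a) = - C.g a := by
  have := C.g_add a (-a)
  rw [add_neg_cancel, C.g_zero] at this
  exact (neg_eq_of_add_eq_zero_right this.symm).symm

theorem X_zero (n : ℕ) : C.X n 0 = 0 := by
  induction n with
  | zero =>
    change rnd (F.em (C.r * tc 0)) = 0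
    rw [tc_zero, mul_zero, map_zero]
    have := rnd_ic (0 : Fin F.d → ℤ)
    rwa [ic_zero] at this
  | succ n ih =>
    have h := C.X_succ_cen n 0
    have h1 : C.cen (C.lev (emp F) n).x 0 = 0 := by
      change C.g (C.X n 0) = 0
      rw [ih, g_zero]
    rw [h1, ih, A_zero] at h
    exact h

theorem HE_I (n : ℕ) : C.HE.I n = univ := C.e_univ n

theorem HE_anc (n : ℕ) (w : Z2) : ∃ v, C.HE.Desc 0 v n w := by
  obtain ⟨v, -, h⟩ := HS.Desc.anc (H := C.HE) (w := w) (by rw [HE_I]; exact mem_univ w) 0 (Nat.zero_le n)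
  exact ⟨v, h⟩

theorem W_compl (Y : Set Z2) (n : ℕ) (w : Z2) : w ∈ C.HE.W 0 Yᶜ n ↔ w ∉ C.HE.W 0 Y n := by
  constructor
  · rintro ⟨v, hv, h⟩ ⟨v', hv', h'⟩
    exact hv (h.uniq h' ▸ hv')
  · intro h
    obtain ⟨v, hv⟩ := C.HE_anc n w
    exact ⟨v, fun hvY => h ⟨v, hvY, hv⟩, hv⟩

theorem W_succ (Y : Set Z2) (n : ℕ) {v w : Z2} (h : C.HE.ch n v w) :
    w ∈ C.HE.W 0 Y (n + 1) ↔ v ∈ C.HE.W 0 Y n := by
  constructor
  · rintro ⟨v0, hv0, hd⟩
    obtain ⟨u, h1, h2⟩ := hd.split n (Nat.zero_le _) (Nat.le_succ n)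
    obtain ⟨a, h3, h4⟩ := h2.head (Nat.lt_succ_self n)
    have := h4.eq_self
    subst this
    have := C.HE.Pu _ _ _ _ h3 h
    subst this
    exact ⟨v0, hv0, h1⟩
  · rintro ⟨v0, hv0, hd⟩
    exact ⟨v0, hv0, HS.Desc.step hd h⟩

theorem HE_parent (n : ℕ) (w : Z2) : ∃ v, C.HE.ch n v w :=
  C.HE.Pt n w (by rw [HE_I]; exact mem_univ w)

theorem HE_ch_iff (n : ℕ) (v w : Z2) : C.HE.ch n v w ↔
    own (C.Al (C.lev (emp F) n) ∅) (C.Cen (C.lev (emp F) n)) C.B w =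
      some (C.cen (C.lev (emp F) n).x v) := by
  constructor
  · intro h; exact h.2
  · intro h; exact ⟨C.e_mem n v, h⟩

theorem HE_ch_cen (n : ℕ) (v : Z2) : C.HE.ch n v (C.cen (C.lev (emp F) n).x v) :=
  ⟨C.e_mem n v, (C.emp_ok.inv n).own_self (C.emp_ok.rel n) (C.e_mem n v)⟩

theorem HE_ch_dist {n : ℕ} {v w : Z2} (h : C.HE.ch n v w) :
    n1 (w - C.cen (C.lev (emp F) n).x v) ≤ C.B := chl_dist h

/-- the owner is a nearest centre -/
theorem HE_ch_near {n : ℕ} {v w : Z2} (h : C.HE.ch n v w) (v' : Z2)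
    (hw : (n1 (w - C.cen (C.lev (emp F) n).x v') : ℝ) ≤ 12 / 10 * C.m) :
    n1 (w - C.cen (C.lev (emp F) n).x v) ≤ n1 (w - C.cen (C.lev (emp F) n).x v') := by
  obtain ⟨v2, hv2, h1, h2⟩ := (C.emp_ok.inv n).ownNear (C.emp_ok.rel n) (C.e_mem n v') hw
  have : v = v2 := (C.emp_ok.inv n).cen_inj (Option.some_injective _ (h.2.symm.trans h1))
  subst this
  exact h2

theorem HE_child_dist {n : ℕ} {v w : Z2} (h : C.HE.ch n v w) :
    ‖F.pr (ic (C.X (n + 1) w)) - C.mu * F.pr (ic (C.X n v))‖ ≤ 101 / 100 * C.r * C.B := by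
  have h1 := (C.emp_ok.inv n).child_dist (C.emp_ok.rel n) (u := w) (C.e_mem n v)
  refine h1.trans ?_
  have h2 : (n1 (w - C.cen (C.lev (emp F) n).x v) : ℝ) ≤ C.B := by exact_mod_cast C.HE_ch_dist h
  exact mul_le_mul_of_nonneg_left h2 (by linarith [C.rpos])

theorem HE_child_om {n : ℕ} {v w : Z2} (h : C.HE.ch n v w) :
    ‖F.om (ic (C.X (n + 1) w) - ic (C.A (C.X n v)))‖ ≤ C.S * C.B := by
  rw [← C.X_succ_cen]
  have h1 := (C.emp_ok.inv (n + 1)).b w (C.cen (C.lev (emp F) n).x v)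
  refine h1.trans ?_
  have h2 : (n1 (w - C.cen (C.lev (emp F) n).x v) : ℝ) ≤ C.B := by exact_mod_cast C.HE_ch_dist h
  apply mul_le_mul_of_nonneg_left h2
  rw [C.hS]
  have := C.Co1
  have := C.hLw
  have := C.rpos
  have := C.Cp1
  positivity

/-- global position of obstacle-free sites -/
theorem HE_q (n : ℕ) (w : Z2) : C.HE.q n w = F.pr (ic (C.X n w)) / C.mu ^ n := rfl

theorem pr_X (n : ℕ) (w : Z2) : F.pr (ic (C.X n w)) = C.mu ^ n * C.HE.q n w := by
  rw [HE_q]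
  have := C.mu_ne
  field_simp

theorem q0_near (v : Z2) : ‖C.HE.q 0 v - C.r * tc v‖ ≤ C.Cp / 2 := by
  rw [HE_q, pow_zero, div_one]
  change ‖F.pr (ic (rnd (F.em (C.r * tc v)))) - C.r * tc v‖ ≤ _
  have h := pr_er (C := C) (F.em (C.r * tc v))
  have e : F.pr (ic (rnd (F.em (C.r * tc v)))) - C.r * tc v =
      F.pr (er (F := F) (F.em (C.r * tc v))) := by
    rw [er, map_sub, F.pr_em]
  rw [e]; exact h

theorem kapE (hB : (C.B : ℝ) ≤ 13 / 10 * C.m) : C.kap ≤ 14 / 10 * C.r := by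
  have h1 := C.m1000
  have h2 := C.rpos
  rw [kap, div_le_iff₀ (by linarith)]
  have : C.r * C.B ≤ C.r * (13 / 10 * C.m) := mul_le_mul_of_nonneg_left hB (by linarith)
  nlinarith

theorem q_anc {n : ℕ} {v w : Z2} (h : C.HE.Desc 0 v n w) : ‖C.HE.q n w - C.HE.q 0 v‖ ≤ C.kap := by
  have h1 := h.dist
  refine h1.trans ?_
  change C.kap * ((C.m⁻¹) ^ 0 - (C.m⁻¹) ^ n) ≤ C.kap
  have h2 := C.kap_nonneg
  have h3 : 0 ≤ (C.m⁻¹) ^ n := by have := C.mpos; positivity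
  rw [pow_zero]
  nlinarith

end Cf

end Pool.Agent.H82
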