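import Pool.Agent.H82.Code
import Pool.Agent.H82.Assemble

set_option autoImplicit false

open Set

namespace Pool.Agent.H82
namespace Two
variable {c : ℂ} {F : Lift c} (T : Two F)

theorem tiling (hk : 0 < T.R.k) {g : T.Geo} (hb : Big g) :
    ∃ T : Set (Set ℂ),
        (∀ t ∈ T, IsCompact t ∧ IsConnected t ∧ closure (interior t) = t) ∧
        ⋃₀ T = Set.univ ∧
        (∀ t ∈ T, ∀ s ∈ T, t ≠ s → Disjoint (interior t) (interior s)) ∧
        (∃ F : Finset (Set ℂ), ∀ t ∈ T, ∃ P ∈ F, ∃ z : ℂ, t = (fun w => w + z) '' P) ∧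
        (∀ t ∈ T, ∃ S ⊆ T, (fun w => c * w) '' t = ⋃₀ S) :=
  assemble c T.hc T.R.k hk T.Tst (fun n => (T.LR n).I) (fun n v => T.HR.Q n {v})
    Tst_tile (zero_int hb) (fun n v hv => Q_tile hv) (F1 hb) (fun n v hv => F2 n hv)
    (fun n u hu => F2' n hu)
    (fun n v hv v' _ hne => (HR_fat (T := T)).disjoint hv hne)
    (fun v hv => F4 hv) ring_shapes

end Two
end Pool.Agent.H82
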