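import Pool.Agent.H82.Basic

set_option autoImplicit false

open Set Topology

namespace Pool.Agent.H82

theorem connected_iInter {Y : ℕ → Set ℂ} (hanti : Antitone Y) (hc : ∀ n, IsCompact (Y n))
    (hconn : ∀ n, IsConnected (Y n)) : IsConnected (⋂ n, Y n) := by
  have hcl : ∀ n, IsClosed (Y n) := fun n => (hc n).isClosed
  have hne : (⋂ n, Y n).Nonempty :=
    IsCompact.nonempty_iInter_of_sequence_nonempty_isCompact_isClosed Y
      (fun n => hanti (Nat.le_succ n)) (fun n => (hconn n).nonempty) (hc 0) hcl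
  have hScpt : IsCompact (⋂ n, Y n) :=
    (hc 0).of_isClosed_subset (isClosed_iInter hcl) (iInter_subset _ 0)
  refine ⟨hne, ?_⟩
  intro u v hu hv hsub hnu hnv
  by_contra hcon
  have hcon' : ∀ x ∈ ⋂ n, Y n, x ∈ u → x ∈ v → False := by
    intro x hx h1 h2
    exact hcon ⟨x, hx, h1, h2⟩
  have hA : IsCompact ((⋂ n, Y n) \ v) := hScpt.diff hv
  have hB : IsCompact ((⋂ n, Y n) \ u) := hScpt.diff hu
  have hdisj : Disjoint ((⋂ n, Y n) \ v) ((⋂ n, Y n) \ u) := by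
    rw [Set.disjoint_left]
    rintro x ⟨h1, h2⟩ ⟨_, h3⟩
    rcases hsub h1 with h | h
    · exact h3 h
    · exact h2 h
  obtain ⟨U, V, hU, hV, hAU, hBV, hUV⟩ := SeparatedNhds.of_isCompact_isCompact hA hB hdisj
  have hcov : ∀ x ∈ ⋂ n, Y n, U ∪ V ∈ 𝓝 x := by
    intro x hx
    by_cases hxv : x ∈ v
    · have : x ∈ V := hBV ⟨hx, fun hxu => hcon' x hx hxu hxv⟩
      exact Filter.mem_of_superset (hV.mem_nhds this) subset_union_right
    · exact Filter.mem_of_superset (hU.mem_nhds (hAU ⟨hx, hxv⟩)) subset_union_left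
  obtain ⟨n, hn⟩ := exists_subset_nhds_of_isCompact' (V := Y)
    (hanti.directed_ge) hc hcl hcov
  obtain ⟨x, hx, hxu⟩ := hnu
  obtain ⟨y, hy, hyv⟩ := hnv
  have hx' : x ∈ Y n := mem_iInter.1 hx n
  have hy' : y ∈ Y n := mem_iInter.1 hy n
  have hxU : x ∈ U := hAU ⟨hx, fun h => hcon' x hx hxu h⟩
  have hyV : y ∈ V := hBV ⟨hy, fun h => hcon' y hy h hyv⟩
  obtain ⟨w, _, hw1, hw2⟩ := (hconn n).isPreconnected U V hU hV hn ⟨x, hx', hxU⟩ ⟨y, hy', hyV⟩
  exact Set.disjoint_left.1 hUV hw1 hw2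

theorem rtg_mono {α : Type*} {r p : α → α → Prop} (h : ∀ a b, r a b → p a b) {a b : α}
    (hab : Relation.ReflTransGen r a b) : Relation.ReflTransGen p a b :=
  Relation.ReflTransGen.mono (fun a b => h a b) a b hab

/-- abstract hierarchical system of sites, in global coordinates -/
structure HS where
  s : ℝ
  κ : ℝ
  K : ℝ
  K2 : ℝ
  K3 : ℝ
  ρ : ℝ
  I : ℕ → Set Z2
  q : ℕ → Z2 → ℂ
  ch : ℕ → Z2 → Z2 → Prop
  hs : 0 < s
  hs' : s ≤ 1 / 2
  hκ : 0 ≤ κ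
  hκK : κ < K
  hK2 : K2 ≤ K
  hK3 : K3 ≤ K
  hK3' : 0 ≤ K3
  hρ : 0 < ρ
  hρK : ρ ≤ K
  hρ3 : K3 * s ≤ ρ / 2
  P0 : ∀ n v u, ch n v u → v ∈ I n ∧ u ∈ I (n + 1)
  Pt : ∀ n u, u ∈ I (n + 1) → ∃ v, ch n v u
  Pu : ∀ n v v' u, ch n v u → ch n v' u → v = v'
  P1 : ∀ n v u, ch n v u → ‖q (n + 1) u - q n v‖ ≤ κ * (s ^ n - s ^ (n + 1))
  P2 : ∀ n u u', adj u u' → ‖q n u - q n u'‖ ≤ K2 * s ^ n
  Pf : ∀ n z R, {v : Z2 | ‖q n v - z‖ ≤ R}.Finite
  P3 : ∀ n v, v ∈ I n → (∃ u, ch n v u) ∧ ∀ u u', ch n v u → ch n v u' →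
    Relation.ReflTransGen (fun a b => adj a b ∧ ch n v a ∧ ch n v b) u u'
  P4 : ∀ n v v', v ∈ I n → v' ∈ I n → adj v v' → ∃ u u', ch n v u ∧ ch n v' u' ∧ adj u u'

namespace HS
variable (H : HS)

/-- descendants -/
inductive Desc : ℕ → Z2 → ℕ → Z2 → Prop
  | refl (n : ℕ) (v : Z2) : Desc n v n v
  | step {n : ℕ} {v : Z2} {N : ℕ} {u w : Z2} : Desc n v N u → H.ch N u w → Desc n v (N + 1) w

variable {H}

theorem Desc.le {n N : ℕ} {v w : Z2} (h : H.Desc n v N w) : n ≤ N := by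
  induction h with
  | refl => exact le_rfl
  | step _ _ ih => exact ih.trans (Nat.le_succ _)

theorem Desc.trans {n N N' : ℕ} {v u w : Z2} (h : H.Desc n v N u) (h' : H.Desc N u N' w) :
    H.Desc n v N' w := by
  induction h' with
  | refl => exact h
  | step _ h2 ih => exact Desc.step ih h2

theorem Desc.mem {n N : ℕ} {v w : Z2} (hv : v ∈ H.I n) (h : H.Desc n v N w) : w ∈ H.I N := by
  cases h with
  | refl => exact hv
  | step _ h2 => exact (H.P0 _ _ _ h2).2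

theorem Desc.eq_self {n : ℕ} {v w : Z2} (h : H.Desc n v n w) : w = v := by
  generalize hN : n = N at h
  cases h with
  | refl => rfl
  | step h1 _ =>
    have := h1.le
    omega

theorem Desc.head {n N : ℕ} {v w : Z2} (h : H.Desc n v N w) (hn : n < N) :
    ∃ u, H.ch n v u ∧ H.Desc (n + 1) u N w := by
  induction h with
  | refl => exact absurd hn (lt_irrefl _)
  | @step N u w h1 h2 ih =>
    rcases (h1.le).lt_or_eq with h | h
    · obtain ⟨u', h3, h4⟩ := ih h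
      exact ⟨u', h3, Desc.step h4 h2⟩
    · subst h
      have := h1.eq_self
      subst this
      exact ⟨w, h2, Desc.refl _ _⟩

theorem Desc.uniq {n N : ℕ} {v v' w : Z2} (h : H.Desc n v N w) (h' : H.Desc n v' N w) :
    v = v' := by
  induction h with
  | refl => exact h'.eq_self
  | @step N u w h1 h2 ih =>
    have hle := h1.le
    generalize hN : N + 1 = N1 at h'
    cases h' with
    | refl => omega
    | @step N2 u' _ h3 h4 =>
      have : N2 = N := by omega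
      subst this
      have := H.Pu _ _ _ _ h2 h4
      subst this
      exact ih h3

theorem Desc.anc {N : ℕ} : ∀ {w : Z2} (_ : w ∈ H.I N) (n : ℕ) (_ : n ≤ N),
    ∃ v, v ∈ H.I n ∧ H.Desc n v N w := by
  induction N with
  | zero =>
    intro w hw n hn
    have : n = 0 := by omega
    subst this
    exact ⟨w, hw, Desc.refl _ _⟩
  | succ N ih =>
    intro w hw n hn
    rcases hn.lt_or_eq with h | h
    · obtain ⟨u, hu⟩ := H.Pt N w hw
      obtain ⟨v, hv, h1⟩ := ih (H.P0 _ _ _ hu).1 n (by omega)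
      exact ⟨v, hv, Desc.step h1 hu⟩
    · subst h
      exact ⟨w, hw, Desc.refl _ _⟩

theorem Desc.split {n N' : ℕ} {v w : Z2} (h : H.Desc n v N' w) :
    ∀ N, n ≤ N → N ≤ N' → ∃ u, H.Desc n v N u ∧ H.Desc N u N' w := by
  induction h with
  | refl =>
    intro N h1 h2
    have : N = n := by omega
    subst this
    exact ⟨v, Desc.refl _ _, Desc.refl _ _⟩
  | @step N0 u w h1 h2 ih =>
    intro N h3 h4
    rcases h4.lt_or_eq with h | h
    · obtain ⟨u', h5, h6⟩ := ih N h3 (by omega)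
      exact ⟨u', h5, Desc.step h6 h2⟩
    · subst h
      exact ⟨w, Desc.step h1 h2, Desc.refl _ _⟩

theorem Desc.dist {n N : ℕ} {v w : Z2} (h : H.Desc n v N w) :
    ‖H.q N w - H.q n v‖ ≤ H.κ * (H.s ^ n - H.s ^ N) := by
  induction h with
  | refl => simp
  | @step N u w h1 h2 ih =>
    have h3 := H.P1 _ _ _ h2
    have h4 : H.q (N + 1) w - H.q n v = (H.q (N + 1) w - H.q N u) + (H.q N u - H.q n v) := by ring
    rw [h4]
    have h5 := norm_add_le (H.q (N + 1) w - H.q N u) (H.q N u - H.q n v)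
    nlinarith

theorem exists_desc {n : ℕ} {v : Z2} (hv : v ∈ H.I n) : ∀ N, n ≤ N → ∃ w, H.Desc n v N w := by
  intro N hN
  induction N, hN using Nat.le_induction with
  | base => exact ⟨v, Desc.refl _ _⟩
  | succ N hN ih =>
    obtain ⟨w, hw⟩ := ih
    obtain ⟨u, hu⟩ := (H.P3 N w (hw.mem hv)).1
    exact ⟨u, Desc.step hw hu⟩

variable (H)

/-- level `N` descendants of a set of level `n` sites -/
def W (n : ℕ) (X : Set Z2) (N : ℕ) : Set Z2 := {w | ∃ v ∈ X, H.Desc n v N w}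

/-- limit set -/
def Q (n : ℕ) (X : Set Z2) : Set ℂ :=
  {z | ∀ N, n ≤ N → ∃ w ∈ H.W n X N, ‖z - H.q N w‖ ≤ H.K * H.s ^ N}

/-- finite-level approximations -/
def Y (n : ℕ) (X : Set Z2) (N : ℕ) : Set ℂ := ⋃ w ∈ H.W n X N, Metric.closedBall (H.q N w) (H.K * H.s ^ N)

variable {H}

theorem hK0 : 0 < H.K := lt_of_le_of_lt H.hκ H.hκK

theorem spos (n : ℕ) : 0 < H.s ^ n := pow_pos H.hs n

theorem spow_le {n N : ℕ} (h : n ≤ N) : H.s ^ N ≤ H.s ^ n :=
  pow_le_pow_of_le_one H.hs.le (by linarith [H.hs']) h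

theorem W_finite {n N : ℕ} {X : Set Z2} (hX : X.Finite) : (H.W n X N).Finite := by
  have : H.W n X N = ⋃ v ∈ X, {w | H.Desc n v N w} := by
    ext w; simp [W]
  rw [this]
  apply hX.biUnion
  intro v _
  apply (H.Pf N (H.q n v) (H.κ * (H.s ^ n - H.s ^ N))).subset
  intro w hw
  exact Desc.dist hw

theorem W_nonempty {n N : ℕ} {X : Set Z2} (hX : X.Nonempty) (hXI : X ⊆ H.I n) (hN : n ≤ N) :
    (H.W n X N).Nonempty := by
  obtain ⟨v, hv⟩ := hX
  obtain ⟨w, hw⟩ := exists_desc (hXI hv) N hN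
  exact ⟨w, v, hv, hw⟩

theorem mem_Q_iff {n : ℕ} {X : Set Z2} {z : ℂ} : z ∈ H.Q n X ↔ ∀ N, n ≤ N → z ∈ H.Y n X N := by
  simp only [Q, Y, mem_ofPred_eq, mem_iUnion, Metric.mem_closedBall, exists_prop, dist_eq_norm]

theorem Q_eq_iInter {n : ℕ} {X : Set Z2} : H.Q n X = ⋂ i : ℕ, H.Y n X (n + i) := by
  ext z
  rw [mem_Q_iff, mem_iInter]
  constructor
  · intro h i; exact h _ (by omega)
  · intro h N hN
    have := h (N - n)
    rwa [Nat.add_sub_cancel' hN] at this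

theorem Y_compact {n N : ℕ} {X : Set Z2} (hX : X.Finite) : IsCompact (H.Y n X N) :=
  (W_finite hX).isCompact_biUnion (fun _ _ => isCompact_closedBall _ _)

theorem Y_succ_subset {n N : ℕ} {X : Set Z2} (hn : n ≤ N) : H.Y n X (N + 1) ⊆ H.Y n X N := by
  intro z hz
  simp only [Y, mem_iUnion, Metric.mem_closedBall, exists_prop, dist_eq_norm] at hz ⊢
  obtain ⟨w, ⟨v, hv, hw⟩, h1⟩ := hz
  obtain ⟨u, h2, h3⟩ := hw.split N hn (Nat.le_succ N)
  refine ⟨u, ⟨v, hv, h2⟩, ?_⟩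
  have h4 := h3.dist
  have h5 : z - H.q N u = (z - H.q (N + 1) w) + (H.q (N + 1) w - H.q N u) := by ring
  rw [h5]
  have h6 := norm_add_le (z - H.q (N + 1) w) (H.q (N + 1) w - H.q N u)
  have h7 : H.s ^ (N + 1) ≤ H.s ^ N := spow_le (Nat.le_succ N)
  have h8 := H.hκK
  nlinarith

theorem Y_antitone {n : ℕ} {X : Set Z2} : Antitone (fun i : ℕ => H.Y n X (n + i)) :=
  antitone_nat_of_succ_le (fun i => Y_succ_subset (Nat.le_add_right n i))

theorem Q_compact {n : ℕ} {X : Set Z2} (hX : X.Finite) : IsCompact (H.Q n X) := by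
  rw [Q_eq_iInter]
  have h : ∀ i : ℕ, IsCompact (H.Y n X (n + i)) := fun i => Y_compact hX
  exact (h 0).of_isClosed_subset (isClosed_iInter (fun i => (h i).isClosed)) (iInter_subset _ 0)

/-- connectedness of a set of sites by allowed steps -/
def Conn (X : Set Z2) : Prop := ∀ u ∈ X, ∀ v ∈ X,
  Relation.ReflTransGen (fun a b => adj a b ∧ a ∈ X ∧ b ∈ X) u v

theorem W_conn_succ {n N : ℕ} {X : Set Z2} (hXI : X ⊆ H.I n)
    (hc : Conn (H.W n X N)) (hn : n ≤ N) : Conn (H.W n X (N + 1)) := by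
  have hWI : ∀ w ∈ H.W n X N, w ∈ H.I N := by
    rintro w ⟨v, hv, hw⟩
    exact hw.mem (hXI hv)
  -- children of elements of `W` are in the next `W`
  have hch : ∀ w ∈ H.W n X N, ∀ u, H.ch N w u → u ∈ H.W n X (N + 1) := by
    rintro w ⟨v, hv, hw⟩ u hu
    exact ⟨v, hv, Desc.step hw hu⟩
  have hfib : ∀ w ∈ H.W n X N, ∀ u u', H.ch N w u → H.ch N w u' →
      Relation.ReflTransGen (fun a b => adj a b ∧ a ∈ H.W n X (N + 1) ∧ b ∈ H.W n X (N + 1)) u u' := by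
    intro w hw u u' hu hu'
    refine rtg_mono ?_ ((H.P3 N w (hWI w hw)).2 u u' hu hu')
    rintro a b ⟨h1, h2, h3⟩
    exact ⟨h1, hch w hw a h2, hch w hw b h3⟩
  intro u hu u' hu'
  obtain ⟨v, hv, hd⟩ := hu
  obtain ⟨v', hv', hd'⟩ := hu'
  obtain ⟨w, hw1, hw2⟩ := hd.split N hn (Nat.le_succ N)
  obtain ⟨w', hw1', hw2'⟩ := hd'.split N hn (Nat.le_succ N)
  have hcw : H.ch N w u := by
    obtain ⟨a, h1, h2⟩ := hw2.head (Nat.lt_succ_self N)
    rw [h2.eq_self]; exact h1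
  have hcw' : H.ch N w' u' := by
    obtain ⟨a, h1, h2⟩ := hw2'.head (Nat.lt_succ_self N)
    rw [h2.eq_self]; exact h1
  have hWw : w ∈ H.W n X N := ⟨v, hv, hw1⟩
  have hWw' : w' ∈ H.W n X N := ⟨v', hv', hw1'⟩
  have hpath := hc w hWw w' hWw'
  -- induct along the path
  have key : ∀ x, Relation.ReflTransGen (fun a b => adj a b ∧ a ∈ H.W n X N ∧ b ∈ H.W n X N) w x →
      ∀ y, H.ch N x y →
      Relation.ReflTransGen (fun a b => adj a b ∧ a ∈ H.W n X (N + 1) ∧ b ∈ H.W n X (N + 1)) u y := by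
    intro x hx
    induction hx with
    | refl => intro y hy; exact hfib w hWw u y hcw hy
    | @tail b c' _ h2 ih =>
      intro y hy
      obtain ⟨h3, h4, h5⟩ := h2
      obtain ⟨a1, a2, h6, h7, h8⟩ := H.P4 N b c' (hWI b h4) (hWI c' h5) h3
      exact ((ih a1 h6).tail ⟨h8, hch b h4 a1 h6, hch c' h5 a2 h7⟩).trans (hfib c' h5 a2 y h7 hy)
  exact key w' hpath u' hcw'

theorem W_self {n : ℕ} {X : Set Z2} : H.W n X n = X := by
  ext w
  constructor
  · rintro ⟨v, hv, hw⟩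
    rw [hw.eq_self]; exact hv
  · intro hw; exact ⟨w, hw, Desc.refl _ _⟩

theorem W_conn {n : ℕ} {X : Set Z2} (hXI : X ⊆ H.I n) (hc : Conn X) :
    ∀ N, n ≤ N → Conn (H.W n X N) := by
  intro N hN
  induction N, hN using Nat.le_induction with
  | base => rw [W_self]; exact hc
  | succ N hN ih => exact W_conn_succ hXI ih hN

theorem Y_connected {n : ℕ} {X : Set Z2} (hXI : X ⊆ H.I n) (hne : X.Nonempty) (hc : Conn X)
    (N : ℕ) (hN : n ≤ N) : IsConnected (H.Y n X N) := by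
  have hpos : 0 ≤ H.K * H.s ^ N := (mul_pos hK0 (spos N)).le
  apply IsConnected.biUnion_of_reflTransGen (W_nonempty hne hXI hN)
  · intro w _
    exact (convex_closedBall _ _).isConnected ⟨_, Metric.mem_closedBall_self hpos⟩
  · intro w hw w' hw'
    refine rtg_mono ?_ (W_conn hXI hc N hN w hw w' hw')
    rintro a b ⟨h1, h2, -⟩
    refine ⟨⟨H.q N b, ?_, Metric.mem_closedBall_self hpos⟩, h2⟩
    rw [Metric.mem_closedBall, dist_eq_norm, norm_sub_rev]
    exact (H.P2 N a b h1).trans (mul_le_mul_of_nonneg_right H.hK2 (spos N).le)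

theorem Q_connected {n : ℕ} {X : Set Z2} (hX : X.Finite) (hXI : X ⊆ H.I n) (hne : X.Nonempty)
    (hc : Conn X) : IsConnected (H.Q n X) := by
  rw [Q_eq_iInter]
  exact connected_iInter Y_antitone (fun i => Y_compact hX)
    (fun i => Y_connected hXI hne hc _ (by omega))

theorem conn_singleton (v : Z2) : Conn {v} := by
  intro a ha b hb
  rw [mem_singleton_iff] at ha hb
  subst ha; subst hb
  exact Relation.ReflTransGen.refl

/-- sharp closeness -/
theorem Q_sharp {n : ℕ} {X : Set Z2} {z : ℂ} (hz : z ∈ H.Q n X) (N : ℕ) (hN : n ≤ N)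
    (ε : ℝ) (hε : 0 < ε) : ∃ w ∈ H.W n X N, ‖z - H.q N w‖ ≤ H.κ * H.s ^ N + ε := by
  have hs1 : H.s < 1 := by linarith [H.hs']
  have hKp := hK0 (H := H)
  obtain ⟨i, hi⟩ := exists_pow_lt_of_lt_one (show 0 < ε / H.K by positivity) hs1
  obtain ⟨w, ⟨v, hv, hw⟩, h1⟩ := hz (N + i) (by omega)
  obtain ⟨u, h2, h3⟩ := hw.split N hN (by omega)
  refine ⟨u, ⟨v, hv, h2⟩, ?_⟩
  have h4 := h3.dist
  have h5 : z - H.q N u = (z - H.q (N + i) w) + (H.q (N + i) w - H.q N u) := by ring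
  rw [h5]
  have h6 := norm_add_le (z - H.q (N + i) w) (H.q (N + i) w - H.q N u)
  have h7 : H.s ^ (N + i) ≤ H.s ^ i := spow_le (by omega)
  have h8 : H.K * H.s ^ i ≤ ε := by
    have := mul_le_mul_of_nonneg_left hi.le hKp.le
    rwa [mul_div_cancel₀ _ hKp.ne'] at this
  have h9 : H.K * H.s ^ (N + i) ≤ H.K * H.s ^ i := mul_le_mul_of_nonneg_left h7 hKp.le
  have h10 : 0 ≤ H.κ * H.s ^ (N + i) := mul_nonneg H.hκ (spos _).le
  nlinarith

theorem Q_bounded {n : ℕ} {v : Z2} {z : ℂ} (hz : z ∈ H.Q n {v}) :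
    ‖z - H.q n v‖ ≤ H.K * H.s ^ n := by
  obtain ⟨w, ⟨v', hv', hw⟩, h⟩ := hz n le_rfl
  rw [mem_singleton_iff] at hv'
  subst hv'
  rw [hw.eq_self] at h
  exact h

theorem Q_mono {n : ℕ} {X X' : Set Z2} (h : X ⊆ X') : H.Q n X ⊆ H.Q n X' := by
  intro z hz N hN
  obtain ⟨w, ⟨v, hv, hw⟩, h1⟩ := hz N hN
  exact ⟨w, ⟨v, h hv, hw⟩, h1⟩

/-- pigeonhole: membership from arbitrarily deep approximations with any bound -/
theorem mem_Q_of_frequent {n : ℕ} {X : Set Z2} {z : ℂ} {K' : ℝ} (hK' : 0 ≤ K')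
    (h : ∀ N, n ≤ N → ∃ N', N ≤ N' ∧ ∃ w ∈ H.W n X N', ‖z - H.q N' w‖ ≤ K' * H.s ^ N') :
    z ∈ H.Q n X := by
  intro N hN
  have hs1 : H.s < 1 := by linarith [H.hs']
  have hgap : 0 < (H.K - H.κ) * H.s ^ N := mul_pos (by linarith [H.hκK]) (spos N)
  obtain ⟨i, hi⟩ := exists_pow_lt_of_lt_one
    (show 0 < (H.K - H.κ) * H.s ^ N / (K' + 1) by positivity) hs1
  obtain ⟨N', hN', w, ⟨v, hv, hw⟩, h1⟩ := h (N + i) (by omega)
  obtain ⟨u, h2, h3⟩ := hw.split N hN (by omega)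
  refine ⟨u, ⟨v, hv, h2⟩, ?_⟩
  have h4 := h3.dist
  have h5 : z - H.q N u = (z - H.q N' w) + (H.q N' w - H.q N u) := by ring
  rw [h5]
  have h6 := norm_add_le (z - H.q N' w) (H.q N' w - H.q N u)
  have h7 : H.s ^ N' ≤ H.s ^ i := spow_le (by omega)
  have h8 : (K' + 1) * H.s ^ i ≤ (H.K - H.κ) * H.s ^ N := by
    have := mul_le_mul_of_nonneg_left hi.le (show 0 ≤ K' + 1 by linarith)
    rwa [mul_div_cancel₀ _ (show K' + 1 ≠ 0 by linarith)] at this
  have h9 : K' * H.s ^ N' ≤ (K' + 1) * H.s ^ i :=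
    mul_le_mul (by linarith) h7 (spos _).le (by linarith)
  have h10 : 0 ≤ H.κ * H.s ^ N' := mul_nonneg H.hκ (spos _).le
  nlinarith

theorem Q_biUnion {n : ℕ} {X : Set Z2} (hX : X.Finite) : H.Q n X = ⋃ v ∈ X, H.Q n {v} := by
  apply Subset.antisymm
  · intro z hz
    have h : ∀ N : ℕ, ∃ v ∈ X, n ≤ N → ∃ w, H.Desc n v N w ∧ ‖z - H.q N w‖ ≤ H.K * H.s ^ N := by
      intro N
      by_cases hN : n ≤ N
      · obtain ⟨w, ⟨v, hv, hw⟩, h1⟩ := hz N hN
        exact ⟨v, hv, fun _ => ⟨w, hw, h1⟩⟩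
      · obtain ⟨w, ⟨v, hv, hw⟩, h1⟩ := hz n le_rfl
        exact ⟨v, hv, fun h => absurd h hN⟩
    choose f hfX hf using h
    have := hX.to_subtype
    obtain ⟨v, hv⟩ := Finite.exists_infinite_fiber (fun N : ℕ => (⟨f N, hfX N⟩ : X))
    have hinf : (Set.Infinite ((fun N : ℕ => (⟨f N, hfX N⟩ : X)) ⁻¹' {v})) := by
      exact Set.infinite_coe_iff.1 hv
    simp only [mem_iUnion, exists_prop]
    refine ⟨v.1, v.2, ?_⟩
    apply mem_Q_of_frequent (hK0 (H := H)).le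
    intro N _
    obtain ⟨N', hN', h2⟩ := hinf.exists_gt (max N n)
    have h3 : f N' = v.1 := by
      have := hN'
      simp only [mem_preimage, mem_singleton_iff] at this
      rw [← this]
    have h4 : N < N' := lt_of_le_of_lt (le_max_left _ _) h2
    have h5 : n < N' := lt_of_le_of_lt (le_max_right _ _) h2
    obtain ⟨w, hw, h6⟩ := hf N' h5.le
    rw [h3] at hw
    exact ⟨N', h4.le, w, ⟨v.1, mem_singleton _, hw⟩, h6⟩
  · intro z hz
    simp only [mem_iUnion, exists_prop] at hz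
    obtain ⟨v, hv, hz⟩ := hz
    exact Q_mono (singleton_subset_iff.2 hv) hz

theorem ch_finite (n : ℕ) (v : Z2) : {u | H.ch n v u}.Finite := by
  apply (H.Pf (n + 1) (H.q n v) (H.κ * (H.s ^ n - H.s ^ (n + 1)))).subset
  intro u hu
  exact H.P1 _ _ _ hu

theorem Q_children {n : ℕ} {v : Z2} (hv : v ∈ H.I n) :
    H.Q n {v} = ⋃ u ∈ {u | H.ch n v u}, H.Q (n + 1) {u} := by
  rw [← Q_biUnion (ch_finite n v)]
  ext z
  constructor
  · intro hz N hN
    obtain ⟨w, ⟨v', hv', hw⟩, h1⟩ := hz N (by omega)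
    rw [mem_singleton_iff] at hv'
    subst hv'
    obtain ⟨u, h2, h3⟩ := hw.head (by omega)
    exact ⟨w, ⟨u, h2, h3⟩, h1⟩
  · intro hz
    apply mem_Q_of_frequent (hK0 (H := H)).le
    intro N hN
    obtain ⟨w, ⟨u, hu, hw⟩, h1⟩ := hz (N + 1) (by omega)
    exact ⟨N + 1, by omega, w, ⟨v, mem_singleton _,
      (Desc.step (Desc.refl _ _) hu).trans hw⟩, h1⟩

theorem Q_desc_subset {n N : ℕ} {v w : Z2} (h : H.Desc n v N w) : H.Q N {w} ⊆ H.Q n {v} := by
  intro z hz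
  apply mem_Q_of_frequent (hK0 (H := H)).le
  intro N' hN'
  obtain ⟨w', ⟨w'', hw'', hw'⟩, h1⟩ := hz (max N N') (le_max_left _ _)
  rw [mem_singleton_iff] at hw''
  subst hw''
  exact ⟨max N N', le_max_right _ _, w', ⟨v, mem_singleton _, h.trans hw'⟩, h1⟩

/-- E6: criterion for membership in a level `0` limit set. -/
theorem exists_mem_Q {X : Set Z2} {z : ℂ} {K' : ℝ} (hK' : 0 ≤ K')
    (h : ∀ N, ∃ v ∈ X, ∃ w, H.Desc 0 v N w ∧ ‖z - H.q N w‖ ≤ K' * H.s ^ N) :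
    ∃ v ∈ X, z ∈ H.Q 0 {v} := by
  have hfin : (X ∩ {v | ‖H.q 0 v - z‖ ≤ K' + H.κ}).Finite := (H.Pf 0 z _).subset inter_subset_right
  have h' : z ∈ H.Q 0 (X ∩ {v | ‖H.q 0 v - z‖ ≤ K' + H.κ}) := by
    apply mem_Q_of_frequent hK'
    intro N _
    obtain ⟨v, hv, w, hw, h1⟩ := h N
    refine ⟨N, le_rfl, w, ⟨v, ⟨hv, ?_⟩, hw⟩, h1⟩
    have h2 := hw.dist
    have h3 : H.q 0 v - z = -(H.q N w - H.q 0 v) - (z - H.q N w) := by ring
    have h4 := norm_sub_le (-(H.q N w - H.q 0 v)) (z - H.q N w)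
    rw [norm_neg] at h4
    rw [mem_ofPred_eq, h3]
    have h5 : H.s ^ N ≤ 1 := by simpa using spow_le (H := H) (Nat.zero_le N)
    have h6 := spos (H := H) N
    have h7 := H.hκ
    rw [pow_zero] at h2
    nlinarith
  rw [Q_biUnion hfin] at h'
  simp only [mem_iUnion, exists_prop] at h'
  obtain ⟨v, hv, hz⟩ := h'
  exact ⟨v, hv.1, hz⟩

/-- fatness and density -/
structure Fat (H : HS) : Prop where
  P5 : ∀ n v, v ∈ H.I n → ∀ N, n < N → ∀ w, ‖H.q N w - H.q n v‖ ≤ H.ρ * H.s ^ n → H.Desc n v N w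
  P6 : ∀ N z, ∃ w, ‖z - H.q N w‖ ≤ H.K3 * H.s ^ N

theorem Fat.ball_subset (hF : H.Fat) {n : ℕ} {v : Z2} (hv : v ∈ H.I n) :
    Metric.closedBall (H.q n v) (H.ρ / 2 * H.s ^ n) ⊆ H.Q n {v} := by
  intro z hz N hN
  rw [Metric.mem_closedBall, dist_eq_norm] at hz
  have hρ := H.hρ
  rcases hN.eq_or_lt with h | h
  · subst h
    refine ⟨v, ⟨v, mem_singleton _, Desc.refl _ _⟩, hz.trans ?_⟩
    apply mul_le_mul_of_nonneg_right _ (spos n).le
    linarith [H.hρK]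
  · obtain ⟨w, hw⟩ := hF.P6 N z
    refine ⟨w, ⟨v, mem_singleton _, hF.P5 n v hv N h w ?_⟩,
      hw.trans (mul_le_mul_of_nonneg_right H.hK3 (spos N).le)⟩
    have h1 : H.q N w - H.q n v = (z - H.q n v) - (z - H.q N w) := by ring
    rw [h1]
    have h2 := norm_sub_le (z - H.q n v) (z - H.q N w)
    have h3 : H.s ^ N ≤ H.s ^ (n + 1) := spow_le h
    have h4 : H.K3 * H.s ^ N ≤ H.K3 * H.s ^ (n + 1) := mul_le_mul_of_nonneg_left h3 H.hK3'
    have h5 : H.K3 * H.s ^ (n + 1) ≤ H.ρ / 2 * H.s ^ n := by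
      rw [pow_succ']
      have := mul_le_mul_of_nonneg_right H.hρ3 (spos (H := H) n).le
      linarith
    linarith

theorem Fat.center_interior (hF : H.Fat) {n : ℕ} {v : Z2} (hv : v ∈ H.I n) :
    H.q n v ∈ interior (H.Q n {v}) := by
  rw [mem_interior]
  refine ⟨Metric.ball (H.q n v) (H.ρ / 2 * H.s ^ n),
    Metric.ball_subset_closedBall.trans (hF.ball_subset hv), Metric.isOpen_ball, ?_⟩
  exact Metric.mem_ball_self (mul_pos (by linarith [H.hρ]) (spos n))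

theorem Fat.exists_center_near (hF : H.Fat) {n : ℕ} {X : Set Z2} (hX : X ⊆ H.I n) {z : ℂ}
    (hz : z ∈ H.Q n X) {O : Set ℂ} (hO : IsOpen O) (hzO : z ∈ O) (N0 : ℕ) :
    ∃ N, N0 ≤ N ∧ n ≤ N ∧ ∃ v ∈ X, ∃ w, H.Desc n v N w ∧ w ∈ H.I N ∧ H.q N w ∈ O ∧
      H.q N w ∈ interior (H.Q n {v}) := by
  obtain ⟨ε, hε, hb⟩ := Metric.isOpen_iff.1 hO z hzO
  have hs1 : H.s < 1 := by linarith [H.hs']
  have hKp := hK0 (H := H)
  obtain ⟨i, hi⟩ := exists_pow_lt_of_lt_one (show 0 < ε / H.K by positivity) hs1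
  have hni : n ≤ max (max n N0) i := le_trans (le_max_left _ _) (le_max_left _ _)
  obtain ⟨w, ⟨v, hv, hw⟩, h1⟩ := hz (max (max n N0) i) hni
  have hwI := hw.mem (hX hv)
  refine ⟨max (max n N0) i, le_trans (le_max_right _ _) (le_max_left _ _), hni, v, hv, w, hw,
    hwI, ?_, ?_⟩
  · apply hb
    rw [Metric.mem_ball, dist_eq_norm, norm_sub_rev]
    refine lt_of_le_of_lt h1 ?_
    have h2 : H.s ^ (max (max n N0) i) ≤ H.s ^ i := spow_le (le_max_right _ _)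
    have h3 : H.K * H.s ^ i < ε := by
      have := mul_lt_mul_of_pos_left hi hKp
      rwa [mul_div_cancel₀ _ hKp.ne'] at this
    exact lt_of_le_of_lt (mul_le_mul_of_nonneg_left h2 hKp.le) h3
  · exact interior_mono (Q_desc_subset hw) (hF.center_interior hwI)

theorem Fat.closure_interior (hF : H.Fat) {n : ℕ} {X : Set Z2} (hfin : X.Finite)
    (hX : X ⊆ H.I n) : closure (interior (H.Q n X)) = H.Q n X := by
  apply Subset.antisymm
  · exact closure_minimal interior_subset (Q_compact hfin).isClosed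
  · intro z hz
    rw [mem_closure_iff]
    intro O hO hzO
    obtain ⟨N, -, -, v, hv, w, -, -, h1, h2⟩ := hF.exists_center_near hX hz hO hzO 0
    exact ⟨_, h1, interior_mono (Q_mono (singleton_subset_iff.2 hv)) h2⟩

theorem Fat.center_mem (hF : H.Fat) {n N : ℕ} {X : Set Z2} (hN : n ≤ N)
    {w : Z2} (hw : w ∈ H.I N) (h : H.q N w ∈ H.Q n X) : ∃ v ∈ X, H.Desc n v N w := by
  have hs1 : H.s < 1 := by linarith [H.hs']
  have hKp := hK0 (H := H)
  have hρ := H.hρ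
  have hp : 0 < H.ρ * H.s ^ N / H.K := div_pos (mul_pos hρ (spos N)) hKp
  obtain ⟨i, hi⟩ := exists_pow_lt_of_lt_one hp hs1
  obtain ⟨w', ⟨v, hv, hw'⟩, h1⟩ := h (N + 1 + i) (by omega)
  have h2 : H.s ^ (N + 1 + i) ≤ H.s ^ i := spow_le (by omega)
  have h3 : H.K * H.s ^ i ≤ H.ρ * H.s ^ N := by
    have := mul_le_mul_of_nonneg_left hi.le hKp.le
    rwa [mul_div_cancel₀ _ hKp.ne'] at this
  have h4 : H.Desc N w (N + 1 + i) w' := by
    apply hF.P5 N w hw _ (by omega)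
    rw [norm_sub_rev]
    exact h1.trans ((mul_le_mul_of_nonneg_left h2 hKp.le).trans h3)
  obtain ⟨u, h5, h6⟩ := hw'.split N hN (by omega)
  have := h6.uniq h4
  subst this
  exact ⟨v, hv, h5⟩

theorem Fat.disjoint (hF : H.Fat) {n : ℕ} {v v' : Z2} (hv : v ∈ H.I n)
    (hne : v ≠ v') : Disjoint (interior (H.Q n {v})) (interior (H.Q n {v'})) := by
  rw [Set.disjoint_left]
  intro z hz hz'
  obtain ⟨N, -, hnN, v1, hv1, w, hd, hwI, h1, -⟩ := hF.exists_center_near (X := {v})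
    (singleton_subset_iff.2 hv) (interior_subset hz) isOpen_interior hz' 0
  rw [mem_singleton_iff] at hv1
  subst hv1
  obtain ⟨v2, hv2, hd2⟩ := hF.center_mem hnN hwI (interior_subset h1)
  rw [mem_singleton_iff] at hv2
  subst hv2
  exact hne (hd.uniq hd2)

end HS

end Pool.Agent.H82
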