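import Pool.Agent.H82.Basic

set_option autoImplicit false

open Polynomial

namespace Pool.Agent.H82

theorem root_data (c : ℂ) (hc : IsIntegral ℤ c) : ∃ (n : ℕ) (pc : Fin (n + 1) → ℤ)
    (f : Fin (n + 1) → ℂ), Function.Injective f ∧ (∃ j, f j = c) ∧
    (∀ β, aeval β (minpoly ℚ c) = 0 ↔ ∃ j, f j = β) ∧
    (∀ j, f j ^ (n + 1) + ∑ i : Fin (n + 1), (pc i : ℂ) * f j ^ (i : ℕ) = 0) := by
  classical
  set p := minpoly ℤ c with hp
  have hmonic : p.Monic := minpoly.monic hc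
  have hdeg : 0 < p.natDegree := minpoly.natDegree_pos hc
  obtain ⟨n, hn⟩ : ∃ n, p.natDegree = n + 1 := ⟨p.natDegree - 1, by omega⟩
  have hcQ : IsIntegral ℚ c := hc.tower_top
  have hQ : minpoly ℚ c = p.map (algebraMap ℤ ℚ) := minpoly.isIntegrallyClosed_eq_field_fractions' ℚ hc
  have hsep : (minpoly ℚ c).Separable := (minpoly.irreducible hcQ).separable
  have hdegQ : (minpoly ℚ c).natDegree = n + 1 := by
    rw [hQ, hmonic.natDegree_map, hn]
  have hcard : Fintype.card ((minpoly ℚ c).rootSet ℂ) = n + 1 := by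
    rw [card_rootSet_eq_natDegree hsep (IsAlgClosed.splits _), hdegQ]
  have haux : ∀ β : ℂ, aeval β (minpoly ℚ c) = 0 →
      β ^ (n + 1) + ∑ i : Fin (n + 1), ((p.coeff i : ℤ) : ℂ) * β ^ (i : ℕ) = 0 := by
    intro β h1
    rw [hQ, aeval_map_algebraMap] at h1
    rw [aeval_eq_sum_range, hn, Finset.sum_range_succ] at h1
    have h2 : p.coeff (n + 1) = 1 := by
      rw [← hn]; exact hmonic.coeff_natDegree
    rw [h2, one_smul] at h1
    rw [add_comm, ← h1]
    congr 1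
    rw [← Fin.sum_univ_eq_sum_range (fun i => p.coeff i • β ^ i) (n + 1)]
    apply Finset.sum_congr rfl
    intro i _
    rw [zsmul_eq_mul]
  have e : Fin (n + 1) ≃ (minpoly ℚ c).rootSet ℂ := (Fintype.equivFinOfCardEq hcard).symm
  have hne : minpoly ℚ c ≠ 0 := minpoly.ne_zero hcQ
  have hroot : ∀ β, aeval β (minpoly ℚ c) = 0 ↔ ∃ j, (e j : ℂ) = β := by
    intro β
    constructor
    · intro h
      have hm : β ∈ (minpoly ℚ c).rootSet ℂ := mem_rootSet.2 ⟨hne, h⟩
      exact ⟨e.symm ⟨β, hm⟩, by simp⟩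
    · rintro ⟨j, rfl⟩
      exact (mem_rootSet.1 (e j).2).2
  refine ⟨n, fun i => p.coeff i, fun j => e j, ?_, ?_, hroot, ?_⟩
  · intro i j hij
    exact e.injective (Subtype.ext hij)
  · exact (hroot c).1 (minpoly.aeval ℚ c)
  · intro j
    exact haux _ ((hroot _).2 ⟨j, rfl⟩)

/-- evaluation of a coefficient vector -/
noncomputable def ev {n : ℕ} (β : ℂ) : (Fin (n + 1) → ℝ) →ₗ[ℝ] ℂ where
  toFun t := ∑ i, (t i : ℂ) * β ^ (i : ℕ)
  map_add' s t := by
    rw [← Finset.sum_add_distrib]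
    apply Finset.sum_congr rfl
    intro i _
    rw [Pi.add_apply]; push_cast; ring
  map_smul' a t := by
    rw [RingHom.id_apply, Finset.smul_sum]
    apply Finset.sum_congr rfl
    intro i _
    rw [Pi.smul_apply, Complex.real_smul, smul_eq_mul]; push_cast; ring

theorem ev_apply {n : ℕ} (β : ℂ) (t : Fin (n + 1) → ℝ) : ev β t = ∑ i, (t i : ℂ) * β ^ (i : ℕ) := rfl

/-- companion map, any coefficient ring -/
def comp {n : ℕ} {R : Type*} [CommRing R] (pc : Fin (n + 1) → R) (t : Fin (n + 1) → R) : Fin (n + 1) → R :=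
  fun i => (Fin.cons 0 (fun i : Fin n => t i.castSucc) : Fin (n + 1) → R) i - t (Fin.last n) * pc i

/-- companion map over the reals -/
def compL {n : ℕ} (pc : Fin (n + 1) → ℝ) : (Fin (n + 1) → ℝ) →ₗ[ℝ] (Fin (n + 1) → ℝ) where
  toFun t := comp pc t
  map_add' s t := by
    ext i
    simp only [comp, Pi.add_apply]
    refine Fin.cases ?_ (fun i => ?_) i
    · simp only [Fin.cons_zero]; ring
    · simp only [Fin.cons_succ]; ring
  map_smul' a t := by
    ext i
    simp only [comp, Pi.smul_apply, RingHom.id_apply, smul_eq_mul]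
    refine Fin.cases ?_ (fun i => ?_) i
    · simp only [Fin.cons_zero]; ring
    · simp only [Fin.cons_succ]; ring

theorem compL_apply {n : ℕ} (pc : Fin (n + 1) → ℝ) (t : Fin (n + 1) → ℝ) : compL pc t = comp pc t := rfl

theorem comp_ic {n : ℕ} (pc t : Fin (n + 1) → ℤ) : comp (ic pc) (ic t) = ic (comp pc t) := by
  ext i
  simp only [comp, ic]
  refine Fin.cases ?_ (fun i => ?_) i
  · simp only [Fin.cons_zero]; push_cast; ring
  · simp only [Fin.cons_succ]; push_cast; ring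

theorem ev_comp {n : ℕ} (pc : Fin (n + 1) → ℝ) (β : ℂ)
    (hβ : β ^ (n + 1) + ∑ i : Fin (n + 1), (pc i : ℂ) * β ^ (i : ℕ) = 0) (t : Fin (n + 1) → ℝ) :
    ev β (compL pc t) = β * ev β t := by
  rw [ev_apply, ev_apply, compL_apply]
  have h1 : ∀ i : Fin (n + 1), ((comp pc t i : ℝ) : ℂ) * β ^ (i : ℕ) =
      ((Fin.cons 0 (fun i : Fin n => t i.castSucc) : Fin (n + 1) → ℝ) i : ℂ) * β ^ (i : ℕ) -
      (t (Fin.last n) : ℂ) * ((pc i : ℂ) * β ^ (i : ℕ)) := by
    intro i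
    rw [comp]; push_cast; ring
  simp only [h1]
  rw [Finset.sum_sub_distrib, ← Finset.mul_sum, eq_neg_of_add_eq_zero_right hβ, Fin.sum_univ_succ,
    Fin.sum_univ_castSucc (f := fun i : Fin (n + 1) => (t i : ℂ) * β ^ (i : ℕ))]
  simp only [Fin.cons_zero, Fin.cons_succ, Fin.val_succ, Fin.val_castSucc, Fin.val_last,
    Complex.ofReal_zero, zero_mul, zero_add, mul_add, Finset.mul_sum]
  rw [mul_neg, sub_neg_eq_add]
  congr 1
  · apply Finset.sum_congr rfl
    intro i _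
    ring
  · ring

theorem ev_conj {n : ℕ} (β : ℂ) (t : Fin (n + 1) → ℝ) :
    ev ((starRingEnd ℂ) β) t = (starRingEnd ℂ) (ev β t) := by
  rw [ev_apply, ev_apply, map_sum]
  apply Finset.sum_congr rfl
  intro i _
  rw [map_mul, map_pow, Complex.conj_ofReal]

section core
variable {n : ℕ} {f : Fin (n + 1) → ℂ} (hf : Function.Injective f)

include hf in
theorem uniq_vec {v w : Fin (n + 1) → ℂ}
    (h : ∀ j, ∑ i, v i * f j ^ (i : ℕ) = ∑ i, w i * f j ^ (i : ℕ)) : v = w := by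
  have h1 : v - w = 0 := by
    apply Matrix.eq_zero_of_forall_index_sum_mul_pow_eq_zero hf
    intro j
    simp only [Pi.sub_apply, sub_mul, Finset.sum_sub_distrib, h j, sub_self]
  exact sub_eq_zero.1 h1

include hf in
theorem exists_dual : ∃ b : Fin (n + 1) → Fin (n + 1) → ℂ,
    ∀ j l, ∑ i, b j i * f l ^ (i : ℕ) = if l = j then 1 else 0 := by
  classical
  let L : (Fin (n + 1) → ℂ) →ₗ[ℂ] (Fin (n + 1) → ℂ) :=
    { toFun := fun v l => ∑ i, v i * f l ^ (i : ℕ)
      map_add' := by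
        intro v w
        ext l
        simp only [Pi.add_apply, add_mul, Finset.sum_add_distrib]
      map_smul' := by
        intro a v
        ext l
        simp only [Pi.smul_apply, smul_eq_mul, RingHom.id_apply, Finset.mul_sum, mul_assoc] }
  have hinj : Function.Injective L := by
    intro v w hvw
    apply uniq_vec hf
    intro j
    exact congrFun hvw j
  have hsurj : Function.Surjective L := LinearMap.injective_iff_surjective.1 hinj
  choose b hb using fun j : Fin (n + 1) => hsurj (Pi.single j (1 : ℂ))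
  refine ⟨b, fun j l => ?_⟩
  have := congrFun (hb j) l
  change ∑ i, b j i * f l ^ (i : ℕ) = _ at this
  rw [this, Pi.single_apply]

include hf in
/-- expansion of a vector in the dual basis -/
theorem expand {b : Fin (n + 1) → Fin (n + 1) → ℂ}
    (hb : ∀ j l, ∑ i, b j i * f l ^ (i : ℕ) = if l = j then 1 else 0) (t : Fin (n + 1) → ℝ)
    (i : Fin (n + 1)) : (t i : ℂ) = ∑ j, ev (f j) t * b j i := by
  have h : (fun i => (t i : ℂ)) = fun i => ∑ j, ev (f j) t * b j i := by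
    apply uniq_vec hf
    intro l
    have h1 : ∑ i, (∑ j, ev (f j) t * b j i) * f l ^ (i : ℕ) =
        ∑ j, ev (f j) t * ∑ i, b j i * f l ^ (i : ℕ) := by
      simp only [Finset.sum_mul, Finset.mul_sum]
      rw [Finset.sum_comm]
      apply Finset.sum_congr rfl
      intro j _
      apply Finset.sum_congr rfl
      intro i _
      ring
    rw [h1]
    simp only [hb, mul_ite, mul_one, mul_zero, Finset.sum_ite_eq, Finset.mem_univ, if_true]
    rfl
  exact congrFun h i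

theorem ev_norm (β : ℂ) (t : Fin (n + 1) → ℝ) : ‖ev β t‖ ≤ (∑ i : Fin (n + 1), ‖β‖ ^ (i : ℕ)) * ‖t‖ := by
  rw [ev_apply, Finset.sum_mul]
  refine (norm_sum_le _ _).trans ?_
  apply Finset.sum_le_sum
  intro i _
  rw [norm_mul, norm_pow, mul_comm]
  apply mul_le_mul_of_nonneg_left _ (by positivity)
  rw [Complex.norm_real]
  exact norm_le_pi_norm t i

theorem ev_pow (pc : Fin (n + 1) → ℝ) (β : ℂ)
    (hβ : β ^ (n + 1) + ∑ i : Fin (n + 1), (pc i : ℂ) * β ^ (i : ℕ) = 0) (k : ℕ)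
    (t : Fin (n + 1) → ℝ) : ev β ((compL pc ^ k) t) = β ^ k * ev β t := by
  induction k with
  | zero => simp
  | succ k ih =>
    rw [pow_succ', Module.End.mul_apply, ev_comp pc β hβ, ih, pow_succ']
    ring

include hf in
/-- contraction on the kernel of evaluation at `c` -/
theorem contr_core {c : ℂ} (hc : 0 < ‖c‖) (pc : Fin (n + 1) → ℝ)
    (hroot : ∀ j, f j ^ (n + 1) + ∑ i : Fin (n + 1), (pc i : ℂ) * f j ^ (i : ℕ) = 0)
    (hsmall : ∀ j, f j ≠ c → f j ≠ (starRingEnd ℂ) c → ‖f j‖ < ‖c‖) (ε : ℝ) (hε : 0 < ε) :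
    ∃ k₀ : ℕ, ∀ k ≥ k₀, ∀ t : Fin (n + 1) → ℝ, ev c t = 0 →
      ‖(compL pc ^ k) t‖ ≤ ε * ‖c‖ ^ k * ‖t‖ := by
  classical
  obtain ⟨b, hb⟩ := exists_dual hf
  -- largest small root
  obtain ⟨ρ, hρ0, hρc, hρ⟩ : ∃ ρ : ℝ, 0 ≤ ρ ∧ ρ < ‖c‖ ∧
      ∀ j, f j ≠ c → f j ≠ (starRingEnd ℂ) c → ‖f j‖ ≤ ρ := by
    obtain ⟨j0, -, hj0⟩ := Finset.exists_max_image Finset.univ
      (fun j => if f j = c ∨ f j = (starRingEnd ℂ) c then (0 : ℝ) else ‖f j‖) ⟨0, Finset.mem_univ _⟩
    refine ⟨if f j0 = c ∨ f j0 = (starRingEnd ℂ) c then (0 : ℝ) else ‖f j0‖, ?_, ?_, ?_⟩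
    · split_ifs
      · exact le_rfl
      · exact norm_nonneg _
    · split_ifs with h
      · exact hc
      · push Not at h
        exact hsmall j0 h.1 h.2
    · intro j h1 h2
      have := hj0 j (Finset.mem_univ j)
      rw [if_neg (by push Not; exact ⟨h1, h2⟩)] at this
      exact this
  set C' : ℝ := ∑ j, (∑ i : Fin (n + 1), ‖f j‖ ^ (i : ℕ)) * ‖b j‖ with hC'
  have hC'0 : 0 ≤ C' := by positivity
  have hq : ρ / ‖c‖ < 1 := by rw [div_lt_one hc]; exact hρc
  have hq0 : 0 ≤ ρ / ‖c‖ := by positivity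
  obtain ⟨k₀, hk₀⟩ := exists_pow_lt_of_lt_one (show 0 < ε / (C' + 1) by positivity) hq
  refine ⟨k₀, fun k hk t ht => ?_⟩
  have ht' : ev ((starRingEnd ℂ) c) t = 0 := by rw [ev_conj, ht, map_zero]
  have h1 : ‖(compL pc ^ k) t‖ ≤ ρ ^ k * C' * ‖t‖ := by
    rw [pi_norm_le_iff_of_nonneg (by positivity)]
    intro i
    have h2 : ‖((compL pc ^ k) t) i‖ = ‖((((compL pc ^ k) t) i : ℝ) : ℂ)‖ := (Complex.norm_real _).symm
    rw [h2, expand hf hb ((compL pc ^ k) t) i]
    refine (norm_sum_le _ _).trans ?_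
    rw [hC', Finset.mul_sum, Finset.sum_mul]
    apply Finset.sum_le_sum
    intro j _
    rw [ev_pow pc (f j) (hroot j), norm_mul, norm_mul, norm_pow]
    by_cases hj : f j = c ∨ f j = (starRingEnd ℂ) c
    · have h3 : ev (f j) t = 0 := by
        rcases hj with h | h
        · rw [h]; exact ht
        · rw [h]; exact ht'
      rw [h3, norm_zero, mul_zero, zero_mul]
      positivity
    · push Not at hj
      have h3 := hρ j hj.1 hj.2
      have h4 : ‖f j‖ ^ k ≤ ρ ^ k := pow_le_pow_left₀ (norm_nonneg _) h3 k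
      have h5 := ev_norm (f j) t
      have h6 := norm_le_pi_norm (b j) i
      calc ‖f j‖ ^ k * ‖ev (f j) t‖ * ‖b j i‖ ≤
            ρ ^ k * ((∑ i : Fin (n + 1), ‖f j‖ ^ (i : ℕ)) * ‖t‖) * ‖b j‖ := by
            apply mul_le_mul _ h6 (norm_nonneg _) (by positivity)
            exact mul_le_mul h4 h5 (norm_nonneg _) (by positivity)
        _ = _ := by ring
  refine h1.trans ?_
  apply mul_le_mul_of_nonneg_right _ (norm_nonneg _)
  have h2 : (ρ / ‖c‖) ^ k ≤ (ρ / ‖c‖) ^ k₀ := pow_le_pow_of_le_one hq0 hq.le hk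
  have h3 : (ρ / ‖c‖) ^ k * (C' + 1) ≤ ε := by
    rw [lt_div_iff₀ (by positivity)] at hk₀
    have := mul_le_mul_of_nonneg_right h2 (show 0 ≤ C' + 1 by linarith)
    linarith
  have h4 : ρ ^ k = (ρ / ‖c‖) ^ k * ‖c‖ ^ k := by
    rw [div_pow]; field_simp
  rw [h4]
  have h5 : (ρ / ‖c‖) ^ k * C' ≤ ε := by
    have : 0 ≤ (ρ / ‖c‖) ^ k := by positivity
    linarith
  have h6 := mul_le_mul_of_nonneg_right h5 (show 0 ≤ ‖c‖ ^ k by positivity)
  linarith

end core

end Pool.Agent.H82
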