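import Pool.Agent.H82.LiftCore

set_option autoImplicit false

open Polynomial ComplexConjugate

namespace Pool.Agent.H82

theorem conj_root (c : ℂ) (β : ℂ) (h : aeval β (minpoly ℚ c) = 0) :
    aeval ((starRingEnd ℂ) β) (minpoly ℚ c) = 0 := by
  have h1 : aeval ((Complex.conjAe.toAlgHom.restrictScalars ℚ) β) (minpoly ℚ c) =
      (Complex.conjAe.toAlgHom.restrictScalars ℚ) (aeval β (minpoly ℚ c)) :=
    Polynomial.aeval_algHom_apply _ _ _
  rw [h, map_zero] at h1
  exact h1

section
variable {n : ℕ} {f : Fin (n + 1) → ℂ} (hf : Function.Injective f)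

include hf in
theorem dual_conj {b : Fin (n + 1) → Fin (n + 1) → ℂ}
    (hb : ∀ j l, ∑ i, b j i * f l ^ (i : ℕ) = if l = j then 1 else 0)
    (hcl : ∀ l, ∃ l', f l' = (starRingEnd ℂ) (f l)) {j0 j1 : Fin (n + 1)}
    (h01 : f j1 = (starRingEnd ℂ) (f j0)) (i : Fin (n + 1)) :
    b j1 i = (starRingEnd ℂ) (b j0 i) := by
  have h : b j1 = fun i => (starRingEnd ℂ) (b j0 i) := by
    apply uniq_vec hf
    intro l
    obtain ⟨l', hl'⟩ := hcl l
    have h1 : ∑ i, (starRingEnd ℂ) (b j0 i) * f l ^ (i : ℕ) =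
        (starRingEnd ℂ) (∑ i, b j0 i * f l' ^ (i : ℕ)) := by
      rw [map_sum]
      apply Finset.sum_congr rfl
      intro i _
      rw [map_mul, map_pow, hl', Complex.conj_conj]
    rw [h1, hb, hb]
    have h2 : l = j1 ↔ l' = j0 := by
      constructor
      · rintro rfl
        apply hf
        rw [hl', h01, Complex.conj_conj]
      · rintro rfl
        apply hf
        rw [h01, hl', Complex.conj_conj]
    by_cases h3 : l = j1
    · rw [if_pos h3, if_pos (h2.1 h3), map_one]
    · rw [if_neg h3, if_neg (fun h => h3 (h2.2 h)), map_zero]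
  exact congrFun h i

end

/-- the embedding, nonreal case -/
noncomputable def emb {n : ℕ} (b : Fin (n + 1) → ℂ) : ℂ →ₗ[ℝ] (Fin (n + 1) → ℝ) where
  toFun z i := 2 * (z * b i).re
  map_add' z w := by
    ext i
    simp only [Pi.add_apply, add_mul, Complex.add_re]
    ring
  map_smul' a z := by
    ext i
    simp only [Pi.smul_apply, RingHom.id_apply, smul_eq_mul, Complex.real_smul, mul_assoc,
      Complex.re_ofReal_mul]
    ring

theorem emb_apply {n : ℕ} (b : Fin (n + 1) → ℂ) (z : ℂ) (i : Fin (n + 1)) :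
    emb b z i = 2 * (z * b i).re := rfl

theorem emb_cast {n : ℕ} (b : Fin (n + 1) → ℂ) (z : ℂ) (i : Fin (n + 1)) :
    ((emb b z i : ℝ) : ℂ) = z * b i + (starRingEnd ℂ) z * (starRingEnd ℂ) (b i) := by
  rw [emb_apply, ← map_mul, Complex.add_conj]

theorem lift_nonreal (c : ℂ) (hint : IsIntegral ℤ c) (hc : 1 < ‖c‖)
    (hconj : ∀ μ : ℂ, Polynomial.aeval μ (minpoly ℚ c) = 0 → μ ≠ c →
        μ ≠ (starRingEnd ℂ) c → ‖μ‖ < ‖c‖) (hr : (starRingEnd ℂ) c ≠ c) : Nonempty (Lift c) := by
  classical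
  obtain ⟨n, pc, f, hf, ⟨j0, hj0⟩, hall, hroot⟩ := root_data c hint
  have hroot' : ∀ j, f j ^ (n + 1) + ∑ i : Fin (n + 1), ((ic pc i : ℝ) : ℂ) * f j ^ (i : ℕ) = 0 := by
    intro j
    have := hroot j
    simpa [ic] using this
  have hcl : ∀ l, ∃ l', f l' = (starRingEnd ℂ) (f l) := fun l =>
    (hall _).1 (conj_root c _ ((hall _).2 ⟨l, rfl⟩))
  obtain ⟨j1, hj1⟩ := hcl j0
  have hj1' : f j1 = (starRingEnd ℂ) c := by rw [hj1, hj0]
  have h01 : j0 ≠ j1 := by
    rintro rfl
    exact hr (by rw [← hj1', hj0])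
  obtain ⟨b, hb⟩ := exists_dual hf
  have hbc := dual_conj hf hb hcl hj1
  have hev : ∀ z l, ev (f l) (emb (b j0) z) =
      z * (if l = j0 then 1 else 0) + (starRingEnd ℂ) z * (if l = j1 then 1 else 0) := by
    intro z l
    rw [ev_apply, ← hb j0 l, ← hb j1 l, Finset.mul_sum, Finset.mul_sum, ← Finset.sum_add_distrib]
    apply Finset.sum_congr rfl
    intro i _
    rw [emb_cast, hbc i]
    ring
  refine ⟨{ d := n + 1, M := compL (ic pc), Mi := comp pc, Mi_spec := ?_, pr := ev c, em := emb (b j0), pr_em := ?_, pr_M := ?_, M_em := ?_, contr := ?_ }⟩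
  · intro a
    rw [compL_apply, comp_ic]
  · intro z
    have := hev z j0
    rw [hj0, if_pos rfl, if_neg h01] at this
    rw [this]; ring
  · intro t
    have h1 := hroot' j0
    rw [hj0] at h1
    exact ev_comp (ic pc) c h1 t
  · intro z
    have h : (fun i => ((compL (ic pc) (emb (b j0) z) i : ℝ) : ℂ)) = fun i => ((emb (b j0) (c * z) i : ℝ) : ℂ) := by
      apply uniq_vec hf
      intro l
      have h1 := ev_comp (ic pc) (f l) (hroot' l) (emb (b j0) z)
      rw [hev] at h1
      have h2 := hev (c * z) l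
      rw [ev_apply] at h1 h2
      rw [h1, h2, map_mul]
      by_cases h3 : l = j0
      · subst h3
        rw [if_pos rfl, if_neg h01, hj0]; ring
      · rw [if_neg h3]
        by_cases h4 : l = j1
        · subst h4
          rw [if_pos rfl, hj1']; ring
        · rw [if_neg h4]; ring
    ext i
    exact Complex.ofReal_injective (congrFun h i)
  · intro ε hε
    exact contr_core hf (by linarith) (ic pc) hroot'
      (fun j h1 h2 => hconj _ ((hall _).2 ⟨j, rfl⟩) h1 h2) ε hε

/-- first block -/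
def lft {m : ℕ} {R : Type*} (t : Fin (m + m) → R) : Fin m → R := fun i => t (Fin.castAdd m i)

/-- second block -/
def rgt {m : ℕ} {R : Type*} (t : Fin (m + m) → R) : Fin m → R := fun i => t (Fin.natAdd m i)

theorem lft_append {m : ℕ} {R : Type*} (a b : Fin m → R) : lft (Fin.append a b) = a := by
  ext i
  exact Fin.append_left a b i

theorem rgt_append {m : ℕ} {R : Type*} (a b : Fin m → R) : rgt (Fin.append a b) = b := by
  ext i
  exact Fin.append_right a b i

theorem lft_add {m : ℕ} (s t : Fin (m + m) → ℝ) : lft (s + t) = lft s + lft t := rfl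
theorem rgt_add {m : ℕ} (s t : Fin (m + m) → ℝ) : rgt (s + t) = rgt s + rgt t := rfl
theorem lft_smul {m : ℕ} (a : ℝ) (t : Fin (m + m) → ℝ) : lft (a • t) = a • lft t := rfl
theorem rgt_smul {m : ℕ} (a : ℝ) (t : Fin (m + m) → ℝ) : rgt (a • t) = a • rgt t := rfl

theorem blk_ext {m : ℕ} {R : Type*} {s t : Fin (m + m) → R} (h1 : lft s = lft t) (h2 : rgt s = rgt t) :
    s = t := by
  ext i
  refine Fin.addCases (fun i => ?_) (fun i => ?_) i
  · exact congrFun h1 i
  · exact congrFun h2 i

theorem norm_lft {m : ℕ} (t : Fin (m + m) → ℝ) : ‖lft t‖ ≤ ‖t‖ := by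
  rw [pi_norm_le_iff_of_nonneg (norm_nonneg _)]
  intro i
  exact norm_le_pi_norm t (Fin.castAdd m i)

theorem norm_rgt {m : ℕ} (t : Fin (m + m) → ℝ) : ‖rgt t‖ ≤ ‖t‖ := by
  rw [pi_norm_le_iff_of_nonneg (norm_nonneg _)]
  intro i
  exact norm_le_pi_norm t (Fin.natAdd m i)

theorem norm_blk {m : ℕ} (t : Fin (m + m) → ℝ) (r : ℝ) (hr : 0 ≤ r) (h1 : ‖lft t‖ ≤ r)
    (h2 : ‖rgt t‖ ≤ r) : ‖t‖ ≤ r := by
  rw [pi_norm_le_iff_of_nonneg hr]
  intro i
  refine Fin.addCases (fun i => ?_) (fun i => ?_) i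
  · exact (norm_le_pi_norm (lft t) i).trans h1
  · exact (norm_le_pi_norm (rgt t) i).trans h2

/-- blockwise linear map -/
def blkL {m : ℕ} (L : (Fin m → ℝ) →ₗ[ℝ] (Fin m → ℝ)) : (Fin (m + m) → ℝ) →ₗ[ℝ] (Fin (m + m) → ℝ) where
  toFun t := Fin.append (L (lft t)) (L (rgt t))
  map_add' s t := by
    apply blk_ext
    · simp only [lft_add, lft_append, map_add]
    · simp only [rgt_add, rgt_append, map_add]
  map_smul' a t := by
    apply blk_ext
    · simp only [RingHom.id_apply, lft_smul, lft_append, map_smul]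
    · simp only [RingHom.id_apply, rgt_smul, rgt_append, map_smul]

theorem blkL_apply {m : ℕ} (L : (Fin m → ℝ) →ₗ[ℝ] (Fin m → ℝ)) (t : Fin (m + m) → ℝ) :
    blkL L t = Fin.append (L (lft t)) (L (rgt t)) := rfl

theorem blkL_pow {m : ℕ} (L : (Fin m → ℝ) →ₗ[ℝ] (Fin m → ℝ)) (k : ℕ) (t : Fin (m + m) → ℝ) :
    ((blkL L) ^ k) t = Fin.append ((L ^ k) (lft t)) ((L ^ k) (rgt t)) := by
  induction k with
  | zero =>
    apply blk_ext
    · rw [lft_append]; simp
    · rw [rgt_append]; simp
  | succ k ih =>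
    rw [pow_succ', Module.End.mul_apply, ih, blkL_apply, lft_append, rgt_append, pow_succ',
      Module.End.mul_apply, Module.End.mul_apply]

/-- projection, real case -/
noncomputable def prR {m : ℕ} (P : (Fin m → ℝ) →ₗ[ℝ] ℂ) : (Fin (m + m) → ℝ) →ₗ[ℝ] ℂ where
  toFun t := P (lft t) + Complex.I * P (rgt t)
  map_add' s t := by
    rw [lft_add, rgt_add, map_add, map_add]; ring
  map_smul' a t := by
    rw [lft_smul, rgt_smul, map_smul, map_smul, RingHom.id_apply]
    simp only [Complex.real_smul]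
    ring

theorem prR_apply {m : ℕ} (P : (Fin m → ℝ) →ₗ[ℝ] ℂ) (t : Fin (m + m) → ℝ) :
    prR P t = P (lft t) + Complex.I * P (rgt t) := rfl

/-- embedding, real case -/
def emR {m : ℕ} (b : Fin m → ℝ) : ℂ →ₗ[ℝ] (Fin (m + m) → ℝ) where
  toFun z := Fin.append (z.re • b) (z.im • b)
  map_add' z w := by
    apply blk_ext
    · rw [lft_add, lft_append, lft_append, lft_append, Complex.add_re, add_smul]
    · rw [rgt_add, rgt_append, rgt_append, rgt_append, Complex.add_im, add_smul]
  map_smul' a z := by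
    apply blk_ext
    · rw [RingHom.id_apply, lft_smul, lft_append, lft_append, Complex.real_smul,
        Complex.re_ofReal_mul, mul_smul]
    · rw [RingHom.id_apply, rgt_smul, rgt_append, rgt_append, Complex.real_smul,
        Complex.im_ofReal_mul, mul_smul]

theorem emR_apply {m : ℕ} (b : Fin m → ℝ) (z : ℂ) :
    emR b z = Fin.append (z.re • b) (z.im • b) := rfl

theorem lift_real (c : ℂ) (hint : IsIntegral ℤ c) (hc : 1 < ‖c‖)
    (hconj : ∀ μ : ℂ, Polynomial.aeval μ (minpoly ℚ c) = 0 → μ ≠ c →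
        μ ≠ (starRingEnd ℂ) c → ‖μ‖ < ‖c‖) (hr : (starRingEnd ℂ) c = c) : Nonempty (Lift c) := by
  classical
  obtain ⟨n, pc, f, hf, ⟨j0, hj0⟩, hall, hroot⟩ := root_data c hint
  have hroot' : ∀ j, f j ^ (n + 1) + ∑ i : Fin (n + 1), ((ic pc i : ℝ) : ℂ) * f j ^ (i : ℕ) = 0 := by
    intro j
    have := hroot j
    simpa [ic] using this
  have hcl : ∀ l, ∃ l', f l' = (starRingEnd ℂ) (f l) := fun l =>
    (hall _).1 (conj_root c _ ((hall _).2 ⟨l, rfl⟩))
  have hj1 : f j0 = (starRingEnd ℂ) (f j0) := by rw [hj0, hr]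
  obtain ⟨b, hb⟩ := exists_dual hf
  have hbc := dual_conj hf hb hcl hj1
  obtain ⟨β, hβ⟩ : ∃ β : Fin (n + 1) → ℝ, ∀ i, (β i : ℂ) = b j0 i := by
    choose β hβ using fun i => Complex.conj_eq_iff_real.1 (hbc i).symm
    exact ⟨β, fun i => (hβ i).symm⟩
  have hev : ∀ l, ev (f l) β = if l = j0 then 1 else 0 := by
    intro l
    rw [ev_apply, ← hb j0 l]
    apply Finset.sum_congr rfl
    intro i _
    rw [hβ i]
  have hcr : c = ((c.re : ℝ) : ℂ) := (Complex.conj_eq_iff_re.1 hr).symm
  have hcim : c.im = 0 := Complex.conj_eq_iff_im.1 hr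
  have hMβ : compL (ic pc) β = c.re • β := by
    have h : (fun i => ((compL (ic pc) β i : ℝ) : ℂ)) = fun i => (((c.re • β) i : ℝ) : ℂ) := by
      apply uniq_vec hf
      intro l
      have h1 := ev_comp (ic pc) (f l) (hroot' l) β
      rw [hev] at h1
      have h2 : ev (f l) (c.re • β) = (c.re : ℂ) * (if l = j0 then 1 else 0) := by
        rw [map_smul, hev, Complex.real_smul]
      rw [ev_apply] at h1 h2
      rw [h1, h2]
      by_cases h3 : l = j0
      · subst h3
        rw [if_pos rfl, hj0, ← hcr]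
      · rw [if_neg h3]; ring
    ext i
    exact Complex.ofReal_injective (congrFun h i)
  have hrc := hroot' j0
  rw [hj0] at hrc
  have hevc : ev c β = 1 := by
    have := hev j0
    rw [hj0, if_pos rfl] at this
    exact this
  refine ⟨{ d := (n + 1) + (n + 1), M := blkL (compL (ic pc)),
            Mi := fun a => Fin.append (comp pc (lft a)) (comp pc (rgt a)), Mi_spec := ?_,
            pr := prR (ev c), em := emR β, pr_em := ?_, pr_M := ?_, M_em := ?_, contr := ?_ }⟩
  · intro a
    rw [blkL_apply]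
    apply blk_ext
    · rw [lft_append]
      change compL (ic pc) (ic (lft a)) = ic (lft (Fin.append _ _))
      rw [lft_append, compL_apply, comp_ic]
    · rw [rgt_append]
      change compL (ic pc) (ic (rgt a)) = ic (rgt (Fin.append _ _))
      rw [rgt_append, compL_apply, comp_ic]
  · intro z
    rw [prR_apply, emR_apply, lft_append, rgt_append, map_smul, map_smul, hevc, Complex.real_smul,
      Complex.real_smul, mul_one, mul_one, mul_comm Complex.I]
    exact Complex.re_add_im z
  · intro t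
    rw [prR_apply, prR_apply, blkL_apply, lft_append, rgt_append, ev_comp _ _ hrc, ev_comp _ _ hrc]
    ring
  · intro z
    rw [blkL_apply, emR_apply, emR_apply, lft_append, rgt_append, map_smul, map_smul, hMβ]
    have h1 : (c * z).re = z.re * c.re := by rw [Complex.mul_re, hcim]; ring
    have h2 : (c * z).im = z.im * c.re := by rw [Complex.mul_im, hcim]; ring
    rw [h1, h2, mul_smul, mul_smul]
  · intro ε hε
    obtain ⟨k₀, hk₀⟩ := contr_core hf (by linarith) (ic pc) hroot'
      (fun j h1 h2 => hconj _ ((hall _).2 ⟨j, rfl⟩) h1 h2) ε hε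
    refine ⟨k₀, fun k hk t ht => ?_⟩
    have hreal : ∀ s : Fin (n + 1) → ℝ, (ev c s).im = 0 := by
      intro s
      have := ev_conj c s
      rw [hr] at this
      exact Complex.conj_eq_iff_im.1 this.symm
    rw [prR_apply] at ht
    have hL : ev c (lft t) = 0 := by
      apply Complex.ext
      · have := congrArg Complex.re ht
        simpa [hreal] using this
      · rw [hreal]; rfl
    have hR : ev c (rgt t) = 0 := by
      apply Complex.ext
      · have := congrArg Complex.im ht
        simpa [hreal] using this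
      · rw [hreal]; rfl
    rw [blkL_pow]
    apply norm_blk
    · positivity
    · rw [lft_append]
      refine (hk₀ k hk _ hL).trans ?_
      apply mul_le_mul_of_nonneg_left (norm_lft t)
      positivity
    · rw [rgt_append]
      refine (hk₀ k hk _ hR).trans ?_
      apply mul_le_mul_of_nonneg_left (norm_rgt t)
      positivity

theorem exists_lift (c : ℂ) (hint : IsIntegral ℤ c) (hc : 1 < ‖c‖)
    (hconj : ∀ μ : ℂ, Polynomial.aeval μ (minpoly ℚ c) = 0 → μ ≠ c →
        μ ≠ (starRingEnd ℂ) c → ‖μ‖ < ‖c‖) : Nonempty (Lift c) := by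
  by_cases hr : (starRingEnd ℂ) c = c
  · exact lift_real c hint hc hconj hr
  · exact lift_nonreal c hint hc hconj hr

end Pool.Agent.H82
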