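import Pool.Agent.H82.Sys

set_option autoImplicit false

open Set

namespace Pool.Agent.H82
namespace Cf
variable {c : ℂ} {F : Lift c} {C : Cf F}

section loc
variable {l l' : Lev F.d} {N N' M M' : Set (Fin F.d → ℤ)}

/-- hypotheses of the locality lemma: `l` (obstacles `N`, next obstacles `N'`) near `v₀` agrees
with `l'` (obstacles `M`, next obstacles `M'`) near `v₀ + t`, after translation by `τ` -/
structure LocHyp (C : Cf F) (l l' : Lev F.d) (N' M' : Set (Fin F.d → ℤ)) (v₀ t : Z2)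
    (τ : Fin F.d → ℤ) (R : ℕ) : Prop where
  hv : v₀ ∈ l.I
  hE : ∀ w, n1 (w - v₀) ≤ R → l'.x (w + t) = l.x w + τ ∧ (w ∈ l.I ↔ w + t ∈ l'.I)
  hNE : ∀ b, ‖F.pr (ic b) - C.mu * F.pr (ic (l.x v₀))‖ ≤ 10 * C.r * R + C.c1 →
    (b ∈ N' ↔ b + C.A τ ∈ M')

variable {v₀ t : Z2} {τ : Fin F.d → ℤ} {R : ℕ}

theorem cen_shift (hx : ∀ w, n1 (w - v₀) ≤ R → l'.x (w + t) = l.x w + τ) (w : Z2)
    (hw : n1 (w - v₀) ≤ R) : C.cen l'.x (w + t) = C.cen l.x w + C.g τ := by
  rw [cen, cen, hx w hw, g_add]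

theorem V_shift (hx : ∀ w, n1 (w - v₀) ≤ R → l'.x (w + t) = l.x w + τ) (w : Z2)
    (hw : n1 (w - v₀) ≤ R) : C.V l'.x (w + t) = C.V l.x w +
      (C.mu * F.pr (ic τ) - C.r * tc (C.g τ)) := by
  rw [V, V, cen_shift hx w hw, hx w hw, ic_add, map_add, tc_add]
  ring

theorem LocHyp.mR (_ : LocHyp C l l' N' M' v₀ t τ R) : (0 : ℝ) ≤ R := Nat.cast_nonneg R

/-- a centre within `14 R` (Euclidean, scaled) of `cen v₀` has index within `R` of `v₀` -/
theorem Inv.index_near (h : C.Inv l N) (w v : Z2)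
    (hd : ‖tc (C.cen l.x w) - tc (C.cen l.x v)‖ ≤ 8 * R) : n1 (w - v) ≤ R := by
  have h1 := h.near_low w v
  have h2 := n1_le (C.cen l.x w - C.cen l.x v)
  rw [tc_sub] at h2
  have hm := C.m1000
  have h3 : (149 / 150 * C.m) * n1 (w - v) ≤ 12 * R := by linarith
  have h4 : (0 : ℝ) ≤ n1 (w - v) := Nat.cast_nonneg _
  have h5 : (100 : ℝ) * n1 (w - v) ≤ (149 / 150 * C.m) * n1 (w - v) :=
    mul_le_mul_of_nonneg_right (by linarith) h4
  have h6 : (n1 (w - v) : ℝ) ≤ R := by linarith [(Nat.cast_nonneg R : (0 : ℝ) ≤ R)]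
  exact_mod_cast h6

theorem Inv.index_near' (h : C.Inv l N) (w v : Z2)
    (hd : ‖F.pr (ic (C.A (l.x w))) - F.pr (ic (C.A (l.x v)))‖ ≤ 9 * C.r * R) : n1 (w - v) ≤ R := by
  rw [C.pr_A, C.pr_A, ← mul_sub, norm_mul, C.norm_mu] at hd
  have h1 := h.pr_low' w v
  have hm := C.m1000
  have hr := C.rpos
  have h4 : (0 : ℝ) ≤ n1 (w - v) := Nat.cast_nonneg _
  have h2 : C.m * (66 / 100 * C.r * n1 (w - v)) ≤ 9 * C.r * R :=
    (mul_le_mul_of_nonneg_left h1 (by linarith)).trans hd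
  have h3 : C.r * (C.m * (66 / 100 * n1 (w - v))) ≤ C.r * (9 * R) := by linarith
  have h5 := le_of_mul_le_mul_left h3 (by linarith)
  have h6 : 100 * (66 / 100 * (n1 (w - v) : ℝ)) ≤ C.m * (66 / 100 * n1 (w - v)) :=
    mul_le_mul_of_nonneg_right (by linarith) (by positivity)
  have h7 : (n1 (w - v) : ℝ) ≤ R := by linarith [(Nat.cast_nonneg R : (0 : ℝ) ≤ R)]
  exact_mod_cast h7

theorem LocHyp.hh_shift (H : LocHyp C l l' N' M' v₀ t τ R) (h : C.Inv l N) (h' : C.Inv l' M)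
    {u : Z2} (hu : n1 (u - C.cen l.x v₀) ≤ 2 * R) :
    C.hh l'.x (u + C.g τ) = C.hh l.x u + C.mu * F.pr (ic τ) := by
  have hx : ∀ w, n1 (w - v₀) ≤ R → l'.x (w + t) = l.x w + τ := fun w hw => (H.hE w hw).1
  have hu' : ‖tc u - tc (C.cen l.x v₀)‖ ≤ 2 * R := by
    rw [← tc_sub]
    refine (norm_tc_le _).trans ?_
    exact_mod_cast hu
  have h0 : n1 (v₀ - v₀) ≤ R := by rw [sub_self, n1_zero]; exact Nat.zero_le _
  have hc0 := cen_shift (C := C) hx v₀ h0
  have key : mc univ (fun v => tc (C.cen l'.x v)) (fun v => F.em (C.V l'.x v)) 1 (tc (u + C.g τ)) =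
      mc univ (fun v => tc (C.cen l.x v)) (fun v => F.em (C.V l.x v)) 1 (tc u) +
      F.em (C.mu * F.pr (ic τ) - C.r * tc (C.g τ)) := by
    apply mc_local (by norm_num : (0 : ℝ) ≤ 1) (fun b _ b' _ => h.U_lip b b')
      (fun b _ b' _ => h'.U_lip b b') (tc u) (tc (u + C.g τ)) (2 * R) v₀ (mem_univ _) hu' (v₀ + t)
      (mem_univ _)
    · rw [hc0, tc_add, tc_add]
      rw [add_sub_add_right_eq_sub]
      exact hu'
    · intro w _ hw
      have h1 : n1 (w - v₀) ≤ R := by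
        apply h.index_near
        have : tc (C.cen l.x w) - tc (C.cen l.x v₀) =
          (tc u - tc (C.cen l.x v₀)) - (tc u - tc (C.cen l.x w)) := by ring
        rw [this]
        have := norm_sub_le (tc u - tc (C.cen l.x v₀)) (tc u - tc (C.cen l.x w))
        linarith
      refine ⟨w + t, mem_univ _, ?_, ?_⟩
      · rw [V_shift hx w h1, map_add]
      · rw [cen_shift hx w h1, tc_add, tc_add, add_sub_add_right_eq_sub]
    · intro w' _ hw'
      have h1 : n1 (w' - (v₀ + t)) ≤ R := by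
        apply h'.index_near
        rw [hc0]
        have : tc (C.cen l'.x w') - tc (C.cen l.x v₀ + C.g τ) =
          (tc u - tc (C.cen l.x v₀)) - (tc (u + C.g τ) - tc (C.cen l'.x w')) := by
          rw [tc_add, tc_add]; ring
        rw [this]
        have := norm_sub_le (tc u - tc (C.cen l.x v₀)) (tc (u + C.g τ) - tc (C.cen l'.x w'))
        linarith
      have h2 : n1 ((w' - t) - v₀) ≤ R := by
        have : w' - t - v₀ = w' - (v₀ + t) := by abel
        rw [this]; exact h1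
      have h3 := V_shift (C := C) hx (w' - t) h2
      have h4 := cen_shift (C := C) hx (w' - t) h2
      rw [sub_add_cancel] at h3 h4
      refine ⟨w' - t, mem_univ _, ?_, ?_⟩
      · rw [h3, map_add]; abel
      · rw [h4, tc_add, tc_add, add_sub_add_right_eq_sub]
  rw [hh, hh, U, U, key, map_add, F.pr_em, tc_add]
  ring

theorem LocHyp.y_shift (H : LocHyp C l l' N' M' v₀ t τ R) (h : C.Inv l N) (h' : C.Inv l' M)
    (hN : C.NFrel N N') (hM : C.NFrel M M')
    {u : Z2} (hu : n1 (u - C.cen l.x v₀) ≤ 2 * R) :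
    C.y l' M' (u + C.g τ) = C.y l N' u + C.A τ := by
  have hx : ∀ w, n1 (w - v₀) ≤ R → l'.x (w + t) = l.x w + τ := fun w hw => (H.hE w hw).1
  have h0 : n1 (v₀ - v₀) ≤ R := by rw [sub_self, n1_zero]; exact Nat.zero_le _
  have hhh := H.hh_shift h h' hu
  have hr := C.rpos
  have hCp := C.hr
  have hR : (0 : ℝ) ≤ R := Nat.cast_nonneg R
  have hc1 : 0 ≤ C.c1 := by linarith [C.hc1, C.k1n]
  -- distance to the base data point
  have hz : ‖C.hh l.x u - F.pr (ic (C.A (l.x v₀)))‖ ≤ 202 / 100 * C.r * R := by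
    rw [C.pr_A, ← h.hh_cen]
    refine (h.hh_up _ _).trans ?_
    have h1 : (n1 (u - C.cen l.x v₀) : ℝ) ≤ 2 * R := by exact_mod_cast hu
    have h2 : (C.r + C.Cp) * (n1 (u - C.cen l.x v₀) : ℝ) ≤ (101 / 100 * C.r) * (2 * R) :=
      mul_le_mul (by linarith) h1 (Nat.cast_nonneg _) (by linarith)
    linarith
  have hxA : ∀ w, n1 (w - v₀) ≤ R → C.A (l'.x (w + t)) = C.A (l.x w) + C.A τ := by
    intro w hw; rw [hx w hw, C.A_add]
  have hb0' : C.A (l'.x (v₀ + t)) ∈ C.Dat l' M' := Or.inr ⟨_, ((H.hE v₀ h0).2).1 H.hv, rfl⟩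
  have key : C.Wf l' M' (C.hh l'.x (u + C.g τ)) = C.Wf l N' (C.hh l.x u) + F.om (ic (C.A τ)) := by
    apply mc_local C.hLw.le (h.dat_lip hN) (h'.dat_lip hM) (C.hh l.x u) (C.hh l'.x (u + C.g τ))
      (202 / 100 * C.r * R) (C.A (l.x v₀)) (Or.inr ⟨v₀, H.hv, rfl⟩) hz (C.A (l'.x (v₀ + t))) hb0'
    · rw [hhh, hxA v₀ h0, ic_add, map_add, C.pr_A τ]
      have : C.hh l.x u + C.mu * F.pr (ic τ) - (F.pr (ic (C.A (l.x v₀))) + C.mu * F.pr (ic τ)) =
        C.hh l.x u - F.pr (ic (C.A (l.x v₀))) := by ring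
      rw [this]; exact hz
    · intro b hb hd
      have hbd : ‖F.pr (ic b) - F.pr (ic (C.A (l.x v₀)))‖ ≤ 9 * C.r * R := by
        have : F.pr (ic b) - F.pr (ic (C.A (l.x v₀))) =
          (C.hh l.x u - F.pr (ic (C.A (l.x v₀)))) - (C.hh l.x u - F.pr (ic b)) := by ring
        rw [this]
        have := norm_sub_le (C.hh l.x u - F.pr (ic (C.A (l.x v₀)))) (C.hh l.x u - F.pr (ic b))
        have h3 : 0 ≤ C.r * R := by positivity
        linarith
      refine ⟨b + C.A τ, ?_, ?_, ?_⟩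
      · rcases hb with hb | ⟨w, hw, rfl⟩
        · left
          refine (H.hNE b ?_).1 hb
          rw [← C.pr_A]
          have h3 : 0 ≤ C.r * R := by positivity
          linarith
        · right
          have h1 := h.index_near' w v₀ hbd
          refine ⟨w + t, ((H.hE w h1).2).1 hw, ?_⟩
          simp only
          rw [hxA w h1]
      · rw [ic_add, map_add]
      · rw [hhh, ic_add, map_add, C.pr_A τ]
        congr 1
        ring
    · intro b' hb' hd
      have hbd : ‖F.pr (ic b') - F.pr (ic (C.A (l'.x (v₀ + t))))‖ ≤ 9 * C.r * R := by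
        have : F.pr (ic b') - F.pr (ic (C.A (l'.x (v₀ + t)))) =
          (C.hh l.x u - F.pr (ic (C.A (l.x v₀)))) - (C.hh l'.x (u + C.g τ) - F.pr (ic b')) := by
          rw [hhh, hxA v₀ h0, ic_add, map_add, C.pr_A τ]; ring
        rw [this]
        have := norm_sub_le (C.hh l.x u - F.pr (ic (C.A (l.x v₀))))
          (C.hh l'.x (u + C.g τ) - F.pr (ic b'))
        have h3 : 0 ≤ C.r * R := by positivity
        linarith
      refine ⟨b' - C.A τ, ?_, ?_, ?_⟩
      · rcases hb' with hb' | ⟨w, hw, rfl⟩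
        · left
          refine (H.hNE _ ?_).2 (by rwa [sub_add_cancel])
          rw [ic_sub, map_sub]
          have : F.pr (ic b') - F.pr (ic (C.A τ)) - C.mu * F.pr (ic (l.x v₀)) =
            F.pr (ic b') - F.pr (ic (C.A (l'.x (v₀ + t)))) := by
            rw [hxA v₀ h0, ic_add, map_add, C.pr_A (l.x v₀)]; ring
          rw [this]
          have h3 : 0 ≤ C.r * R := by positivity
          linarith
        · right
          have h1 := h'.index_near' w (v₀ + t) hbd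
          have h2 : n1 ((w - t) - v₀) ≤ R := by
            have : w - t - v₀ = w - (v₀ + t) := by abel
            rw [this]; exact h1
          have h3 := hxA (w - t) h2
          have h4 := (H.hE (w - t) h2).2
          rw [sub_add_cancel] at h3 h4
          refine ⟨w - t, h4.2 hw, ?_⟩
          simp only
          rw [h3]; abel
      · rw [ic_sub, map_sub]
      · rw [hhh, ic_sub, map_sub, C.pr_A τ]
        congr 1
        ring
  rw [y, y, key, hhh]
  have : F.em (C.hh l.x u + C.mu * F.pr (ic τ)) + F.om (C.Wf l N' (C.hh l.x u) + F.om (ic (C.A τ))) =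
      (F.em (C.hh l.x u) + F.om (C.Wf l N' (C.hh l.x u))) + ic (C.A τ) := by
    rw [map_add, map_add, F.om_om, ← C.pr_A]
    nth_rewrite 3 [F.decomp (ic (C.A τ))]
    abel
  rw [this, rnd_add_ic]

theorem LocHyp.al_shift (H : LocHyp C l l' N' M' v₀ t τ R) (h : C.Inv l N) (h' : C.Inv l' M)
    (hN : C.NFrel N N') (hM : C.NFrel M M')
    {u : Z2} (hu : n1 (u - C.cen l.x v₀) ≤ 2 * R) :
    u ∈ C.Al l N' ↔ u + C.g τ ∈ C.Al l' M' := by
  have hy := H.y_shift h h' hN hM hu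
  have hr := C.rpos
  have hR : (0 : ℝ) ≤ R := Nat.cast_nonneg R
  have h1 := h.child_dist hN (u := u) H.hv
  have h2 : (n1 (u - C.cen l.x v₀) : ℝ) ≤ 2 * R := by exact_mod_cast hu
  have h3 : ‖F.pr (ic (C.y l N' u)) - C.mu * F.pr (ic (l.x v₀))‖ ≤ 202 / 100 * C.r * R := by
    refine h1.trans ?_
    have := mul_le_mul_of_nonneg_left h2 (show 0 ≤ 101 / 100 * C.r by linarith)
    linarith
  have hrR : 0 ≤ C.r * R := by positivity
  constructor
  · intro hal b' hb'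
    by_contra hcon
    push Not at hcon
    rw [hy, ic_add, map_add] at hcon
    have e1 : F.pr (ic (C.y l N' u)) + F.pr (ic (C.A τ)) - F.pr (ic b') =
        F.pr (ic (C.y l N' u)) - F.pr (ic (b' - C.A τ)) := by
      rw [ic_sub, map_sub]; ring
    rw [e1] at hcon
    have h4 : b' - C.A τ ∈ N' := by
      refine (H.hNE _ ?_).2 (by rwa [sub_add_cancel])
      have e2 : F.pr (ic (b' - C.A τ)) - C.mu * F.pr (ic (l.x v₀)) =
        (F.pr (ic (C.y l N' u)) - C.mu * F.pr (ic (l.x v₀))) -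
        (F.pr (ic (C.y l N' u)) - F.pr (ic (b' - C.A τ))) := by ring
      rw [e2]
      refine (norm_sub_le _ _).trans ?_
      linarith
    have := hal _ h4
    linarith
  · intro hal b hb
    by_contra hcon
    push Not at hcon
    have h4 : b + C.A τ ∈ M' := by
      refine (H.hNE _ ?_).1 hb
      have e2 : F.pr (ic b) - C.mu * F.pr (ic (l.x v₀)) =
        (F.pr (ic (C.y l N' u)) - C.mu * F.pr (ic (l.x v₀))) -
        (F.pr (ic (C.y l N' u)) - F.pr (ic b)) := by ring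
      rw [e2]
      refine (norm_sub_le _ _).trans ?_
      linarith
    have h5 := hal _ h4
    rw [hy, ic_add, ic_add, map_add, map_add, add_sub_add_right_eq_sub] at h5
    linarith

theorem LocHyp.cen_mem_shift (H : LocHyp C l l' N' M' v₀ t τ R) (h : C.Inv l N) (h' : C.Inv l' M)
    {u : Z2} (hu : n1 (u - C.cen l.x v₀) ≤ 2 * R) :
    u ∈ C.Cen l ↔ u + C.g τ ∈ C.Cen l' := by
  have hx : ∀ w, n1 (w - v₀) ≤ R → l'.x (w + t) = l.x w + τ := fun w hw => (H.hE w hw).1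
  have h0 : n1 (v₀ - v₀) ≤ R := by rw [sub_self, n1_zero]; exact Nat.zero_le _
  have hc0 := cen_shift (C := C) hx v₀ h0
  have hR : (0 : ℝ) ≤ R := Nat.cast_nonneg R
  constructor
  · rintro ⟨w, hw, rfl⟩
    have h1 : n1 (w - v₀) ≤ R := by
      apply h.index_near
      rw [← tc_sub]
      refine (norm_tc_le _).trans ?_
      have : (n1 (C.cen l.x w - C.cen l.x v₀) : ℝ) ≤ 2 * R := by exact_mod_cast hu
      linarith
    exact ⟨w + t, ((H.hE w h1).2).1 hw, cen_shift hx w h1⟩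
  · rintro ⟨w, hw, hwc⟩
    have h1 : n1 (w - (v₀ + t)) ≤ R := by
      apply h'.index_near
      rw [hwc, hc0, tc_add, tc_add, add_sub_add_right_eq_sub, ← tc_sub]
      refine (norm_tc_le _).trans ?_
      have : (n1 (u - C.cen l.x v₀) : ℝ) ≤ 2 * R := by exact_mod_cast hu
      linarith
    have h2 : n1 ((w - t) - v₀) ≤ R := by
      have : w - t - v₀ = w - (v₀ + t) := by abel
      rw [this]; exact h1
    have h3 := cen_shift (C := C) hx (w - t) h2
    have h4 := (H.hE (w - t) h2).2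
    rw [sub_add_cancel] at h3 h4
    refine ⟨w - t, h4.2 hw, ?_⟩
    rw [hwc] at h3
    exact (add_right_cancel h3).symm

theorem LocHyp.own_shift (H : LocHyp C l l' N' M' v₀ t τ R) (h : C.Inv l N) (h' : C.Inv l' M)
    (hN : C.NFrel N N') (hM : C.NFrel M M')
    {u : Z2} (hu : n1 (u - C.cen l.x v₀) + C.B ≤ 2 * R) :
    own (C.Al l' M') (C.Cen l') C.B (u + C.g τ) =
      (own (C.Al l N') (C.Cen l) C.B u).map (fun w => w + C.g τ) := by
  apply own_equiv
  intro a ha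
  have h1 : n1 (a - C.cen l.x v₀) ≤ 2 * R := by
    have := n1_sub_le a u (C.cen l.x v₀)
    omega
  exact ⟨H.al_shift h h' hN hM h1, H.cen_mem_shift h h' h1⟩

end loc

/-! ### Equivalence of pointed levels -/

/-- abstract equivalence of obstacle patterns -/
structure NEax (C : Cf F) (N : ℕ → Set (Fin F.d → ℤ))
    (NE : ℕ → ℕ → (Fin F.d → ℤ) → ℂ → ℝ → Prop) (R0 : ℝ) : Prop where
  NE1 : ∀ n n' τ z R, NE n n' τ z R → ∀ b, ‖F.pr (ic b) - z‖ ≤ R → (b ∈ N n ↔ b + τ ∈ N n')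
  NE2 : ∀ n n' τ z R z' R', NE n n' τ z R → ‖z' - C.mu * z‖ + R' ≤ C.m * (R - R0) →
    NE (n + 1) (n' + 1) (C.A τ) z' R'

/-- pointed level equivalence -/
structure EqR (C : Cf F) (N : ℕ → Set (Fin F.d → ℤ))
    (NE : ℕ → ℕ → (Fin F.d → ℤ) → ℂ → ℝ → Prop) (R0 : ℝ) (R : ℕ) (n : ℕ) (v : Z2) (n' : ℕ)
    (v' : Z2) : Prop where
  hv : v ∈ (C.lev N n).I
  hE : ∀ w, n1 (w - v) ≤ R →
    (C.lev N n').x (w + (v' - v)) = (C.lev N n).x w + ((C.lev N n').x v' - (C.lev N n).x v) ∧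
    (w ∈ (C.lev N n).I ↔ w + (v' - v) ∈ (C.lev N n').I)
  hNE : NE n n' ((C.lev N n').x v' - (C.lev N n).x v) (F.pr (ic ((C.lev N n).x v)))
    (C.r * R + C.c1 + R0)

variable {N : ℕ → Set (Fin F.d → ℤ)} {NE : ℕ → ℕ → (Fin F.d → ℤ) → ℂ → ℝ → Prop} {R0 : ℝ} {R : ℕ}

theorem EqR.locHyp (hax : C.NEax N NE R0) {n n' : ℕ} {v v' : Z2}
    (h : C.EqR N NE R0 R n v n' v') :
    LocHyp C (C.lev N n) (C.lev N n') (N (n + 1)) (N (n' + 1)) v (v' - v)
      ((C.lev N n').x v' - (C.lev N n).x v) R := by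
  refine ⟨h.hv, h.hE, ?_⟩
  have h1 := hax.NE2 _ _ _ _ _ (C.mu * F.pr (ic ((C.lev N n).x v))) (10 * C.r * R + C.c1) h.hNE
    (by
      rw [sub_self, norm_zero]
      have hm := C.m1000
      have hr := C.rpos
      have hc1 : 0 ≤ C.c1 := by linarith [C.hc1, C.k1n]
      have hR : (0 : ℝ) ≤ R := Nat.cast_nonneg R
      have hrR : 0 ≤ C.r * R := by positivity
      nlinarith)
  exact hax.NE1 _ _ _ _ _ h1

/-- propagation to children -/
theorem EqR.child (hN : C.NFok N) (hax : C.NEax N NE R0) (hR0 : R0 ≤ R) (hB : 2 * C.B ≤ R)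
    {n n' : ℕ} {v v' u : Z2} (h : C.EqR N NE R0 R n v n' v')
    (hu : C.chl (C.lev N n) (N (n + 1)) v u) :
    ∃ u', C.chl (C.lev N n') (N (n' + 1)) v' u' ∧ C.EqR N NE R0 R (n + 1) u (n' + 1) u' ∧
      (C.lev N (n' + 1)).x u' - (C.lev N (n + 1)).x u =
        C.A ((C.lev N n').x v' - (C.lev N n).x v) := by
  have H := h.locHyp hax
  set τ := (C.lev N n').x v' - (C.lev N n).x v with hτ
  have i1 := hN.inv n
  have i2 := hN.inv n'
  have r1 := hN.rel n
  have r2 := hN.rel n'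
  have hd := chl_dist hu
  have h0 : n1 (v - v) ≤ R := by rw [sub_self, n1_zero]; exact Nat.zero_le _
  have hvv : v + (v' - v) = v' := by abel
  have hc : C.cen (C.lev N n').x v' = C.cen (C.lev N n).x v + C.g τ := by
    have := cen_shift (C := C) (fun w hw => (h.hE w hw).1) v h0
    rwa [hvv] at this
  have hv' : v' ∈ (C.lev N n').I := by
    have := ((h.hE v h0).2).1 h.hv
    rwa [hvv] at this
  -- positions near `u`
  have hy : ∀ w, n1 (w - C.cen (C.lev N n).x v) ≤ 2 * R →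
      (C.lev N (n' + 1)).x (w + C.g τ) = (C.lev N (n + 1)).x w + C.A τ := fun w hw =>
    H.y_shift i1 i2 r1 r2 hw
  have hu0 : (C.lev N (n' + 1)).x (u + C.g τ) - (C.lev N (n + 1)).x u = C.A τ := by
    rw [hy u (by omega)]; abel
  refine ⟨u + C.g τ, ⟨hv', ?_⟩, ⟨(chl_mem hu).2, ?_, ?_⟩, hu0⟩
  · rw [H.own_shift i1 i2 r1 r2 (by omega), hu.2, hc]; rfl
  · intro w hw
    have h1 : n1 (w - C.cen (C.lev N n).x v) + C.B ≤ 2 * R := by
      have := n1_sub_le w u (C.cen (C.lev N n).x v)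
      omega
    have e1 : w + (u + C.g τ - u) = w + C.g τ := by abel
    rw [hu0, e1]
    refine ⟨hy w (by omega), ?_⟩
    have h2 := H.own_shift i1 i2 r1 r2 h1
    change (∃ x, own (C.Al (C.lev N n) (N (n + 1))) (C.Cen (C.lev N n)) C.B w = some x) ↔
      (∃ x, own (C.Al (C.lev N n') (N (n' + 1))) (C.Cen (C.lev N n')) C.B (w + C.g τ) = some x)
    rw [h2]
    constructor
    · rintro ⟨x, hx⟩
      exact ⟨x + C.g τ, by rw [hx]; rfl⟩
    · rintro ⟨x, hx⟩
      rw [Option.map_eq_some_iff] at hx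
      obtain ⟨y, hy, -⟩ := hx
      exact ⟨y, hy⟩
  · rw [hu0]
    apply hax.NE2 _ _ _ _ _ _ _ h.hNE
    have h1 := i1.child_dist r1 (u := u) h.hv
    have h2 : (n1 (u - C.cen (C.lev N n).x v) : ℝ) ≤ C.B := by exact_mod_cast hd
    have hm := C.m1000
    have hr := C.rpos
    have hc1 : 0 ≤ C.c1 := by linarith [C.hc1, C.k1n]
    have hR : (0 : ℝ) ≤ R := Nat.cast_nonneg R
    have hBR : 2 * (C.B : ℝ) ≤ R := by exact_mod_cast hB
    have hrR : (R : ℝ) ≤ C.r * R := by nlinarith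
    have h3 : ‖F.pr (ic ((C.lev N (n + 1)).x u)) - C.mu * F.pr (ic ((C.lev N n).x v))‖ ≤
        101 / 100 * C.r * C.B := by
      refine h1.trans ?_
      exact mul_le_mul_of_nonneg_left h2 (by linarith)
    have h4 : 101 / 100 * C.r * C.B ≤ C.r * R := by nlinarith
    have h5 : 0 ≤ (C.m - 1000) * (C.r * R + C.c1) := by
      apply mul_nonneg (by linarith)
      have : 0 ≤ C.r * R := by positivity
      linarith
    nlinarith

/-- propagation to descendants -/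
theorem EqR.desc (hN : C.NFok N) (hax : C.NEax N NE R0) (hR0 : R0 ≤ R) (hB : 2 * C.B ≤ R)
    {n n' : ℕ} {v v' : Z2} (h : C.EqR N NE R0 R n v n' v') (i : ℕ) :
    ∀ w, (C.hs hN).Desc n v (n + i) w →
    ∃ w', (C.hs hN).Desc n' v' (n' + i) w' ∧ C.EqR N NE R0 R (n + i) w (n' + i) w' ∧
      F.pr (ic ((C.lev N (n' + i)).x w')) = F.pr (ic ((C.lev N (n + i)).x w)) +
        C.mu ^ i * (F.pr (ic ((C.lev N n').x v')) - F.pr (ic ((C.lev N n).x v))) := by
  induction i with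
  | zero =>
    intro w hw
    have : w = v := hw.eq_self
    subst this
    exact ⟨v', HS.Desc.refl _ _, h, by simp⟩
  | succ i ih =>
    intro w hw
    obtain ⟨u, h1, h2⟩ := hw.split (n + i) (by omega) (by omega)
    obtain ⟨u', h3, h4, h5⟩ := ih u h1
    have hch : C.chl (C.lev N (n + i)) (N (n + i + 1)) u w := by
      obtain ⟨a, h6, h7⟩ := h2.head (by omega)
      have := h7.eq_self
      subst this
      exact h6
    obtain ⟨w', h6, h7, h8⟩ := h4.child hN hax hR0 hB hch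
    refine ⟨w', HS.Desc.step h3 h6, h7, ?_⟩
    have h9 : F.pr (ic ((C.lev N (n' + i + 1)).x w')) - F.pr (ic ((C.lev N (n + i + 1)).x w)) =
        C.mu * (F.pr (ic ((C.lev N (n' + i)).x u')) - F.pr (ic ((C.lev N (n + i)).x u))) := by
      rw [← map_sub, ← map_sub, ← ic_sub, ← ic_sub, h8, C.pr_A]
    rw [h5] at h9
    have h10 : F.pr (ic ((C.lev N (n' + i + 1)).x w')) =
        F.pr (ic ((C.lev N (n + i + 1)).x w)) +
        (F.pr (ic ((C.lev N (n' + i + 1)).x w')) - F.pr (ic ((C.lev N (n + i + 1)).x w))) := by ring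
    change F.pr (ic ((C.lev N (n' + i + 1)).x w')) = F.pr (ic ((C.lev N (n + i + 1)).x w)) + _
    rw [h10, h9, pow_succ']
    ring

theorem EqR.shape_sub (hN : C.NFok N) (hax : C.NEax N NE R0) (hR0 : R0 ≤ R) (hB : 2 * C.B ≤ R)
    {n n' : ℕ} {v v' : Z2} (h : C.EqR N NE R0 R n v n' v') {z : ℂ}
    (hz : z ∈ (C.hs hN).Q n {v}) :
    (C.mu ^ n * z + (F.pr (ic ((C.lev N n').x v')) - F.pr (ic ((C.lev N n).x v)))) / C.mu ^ n' ∈
      (C.hs hN).Q n' {v'} := by
  intro M hM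
  obtain ⟨i, rfl⟩ := Nat.exists_eq_add_of_le hM
  obtain ⟨w, ⟨v1, hv1, hw⟩, h1⟩ := hz (n + i) (by omega)
  rw [mem_singleton_iff] at hv1
  subst hv1
  obtain ⟨w', h2, -, h3⟩ := h.desc hN hax hR0 hB i w hw
  refine ⟨w', ⟨v', mem_singleton _, h2⟩, ?_⟩
  change ‖_ - C.q N (n' + i) w'‖ ≤ (C.kap + C.r) * (C.m⁻¹) ^ (n' + i)
  change ‖z - C.q N (n + i) w‖ ≤ (C.kap + C.r) * (C.m⁻¹) ^ (n + i) at h1
  have h0 := C.mu_ne
  have hmp := C.mpos
  have e1 : (C.mu ^ n * z + (F.pr (ic ((C.lev N n').x v')) - F.pr (ic ((C.lev N n).x v1)))) / C.mu ^ n'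
      - C.q N (n' + i) w' = C.mu ^ n / C.mu ^ n' * (z - C.q N (n + i) w) := by
    rw [q, q, h3]
    field_simp
    ring
  rw [e1, norm_mul, norm_div, norm_pow, norm_pow, C.norm_mu]
  calc C.m ^ n / C.m ^ n' * ‖z - C.q N (n + i) w‖ ≤
        C.m ^ n / C.m ^ n' * ((C.kap + C.r) * (C.m⁻¹) ^ (n + i)) :=
        mul_le_mul_of_nonneg_left h1 (by positivity)
    _ = (C.kap + C.r) * (C.m⁻¹) ^ (n' + i) := by
        rw [pow_add, pow_add, inv_pow, inv_pow, inv_pow]
        field_simp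

theorem EqR.shape (hN : C.NFok N) (hax : C.NEax N NE R0) (hR0 : R0 ≤ R) (hB : 2 * C.B ≤ R)
    {n n' : ℕ} {v v' : Z2} (h : C.EqR N NE R0 R n v n' v') (h' : C.EqR N NE R0 R n' v' n v) :
    (fun w => C.mu ^ n * w) '' (C.hs hN).Q n {v} =
      (fun w => w + (F.pr (ic ((C.lev N n).x v)) - F.pr (ic ((C.lev N n').x v')))) ''
        ((fun w => C.mu ^ n' * w) '' (C.hs hN).Q n' {v'}) := by
  have h0 := C.mu_ne
  ext x
  constructor
  · rintro ⟨z, hz, rfl⟩
    refine ⟨_, ⟨_, h.shape_sub hN hax hR0 hB hz, rfl⟩, ?_⟩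
    simp only
    field_simp
    ring
  · rintro ⟨_, ⟨z, hz, rfl⟩, rfl⟩
    refine ⟨_, h'.shape_sub hN hax hR0 hB hz, ?_⟩
    simp only
    field_simp

/-- finitely many shapes from a finite code -/
theorem finite_shapes (hN : C.NFok N) (hax : C.NEax N NE R0) (hR0 : R0 ≤ R) (hB : 2 * C.B ≤ R)
    {γ : Type*} (code : ℕ → Z2 → γ)
    (hfin : {x | ∃ n v, v ∈ (C.lev N n).I ∧ x = code n v}.Finite)
    (hcode : ∀ n v n' v', v ∈ (C.lev N n).I → v' ∈ (C.lev N n').I → code n v = code n' v' →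
      C.EqR N NE R0 R n v n' v') :
    ∃ Fs : Finset (Set ℂ), ∀ n, ∀ v ∈ (C.lev N n).I, ∃ P ∈ Fs, ∃ z : ℂ,
      (fun w => c ^ (C.k * n) * w) '' (C.hs hN).Q n {v} = (fun w => w + z) '' P := by
  classical
  have hch : ∀ x ∈ {x | ∃ n v, v ∈ (C.lev N n).I ∧ x = code n v}, ∃ p : ℕ × Z2,
      p.2 ∈ (C.lev N p.1).I ∧ x = code p.1 p.2 := by
    rintro x ⟨n, v, h1, h2⟩
    exact ⟨(n, v), h1, h2⟩
  choose! f hf using hch
  refine ⟨hfin.toFinset.image (fun x => (fun w => C.mu ^ (f x).1 * w) '' (C.hs hN).Q (f x).1 {(f x).2}),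
    ?_⟩
  intro n v hv
  have hx : code n v ∈ {x | ∃ n v, v ∈ (C.lev N n).I ∧ x = code n v} := ⟨n, v, hv, rfl⟩
  obtain ⟨h1, h2⟩ := hf _ hx
  refine ⟨_, Finset.mem_image.2 ⟨code n v, hfin.mem_toFinset.2 hx, rfl⟩,
    F.pr (ic ((C.lev N n).x v)) - F.pr (ic ((C.lev N (f (code n v)).1).x (f (code n v)).2)), ?_⟩
  have h3 := EqR.shape hN hax hR0 hB (hcode _ _ _ _ hv h1 h2) (hcode _ _ _ _ h1 hv h2.symm)
  rw [← h3]
  simp only [mu, ← pow_mul]

end Cf

end Pool.Agent.H82
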