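import Pool.Agent.H82.Basic

set_option autoImplicit false

namespace Pool.Agent.H82

/-- coordinatewise McShane extension -/
noncomputable def mc {β : Type*} {d : ℕ} (S : Set β) (P : β → ℂ) (f : β → Fin d → ℝ)
    (L : ℝ) (z : ℂ) : Fin d → ℝ :=
  fun j => sInf ((fun b => f b j + L * ‖z - P b‖) '' S)

section
variable {β : Type*} {d : ℕ} {S : Set β} {P : β → ℂ} {f : β → Fin d → ℝ} {L : ℝ}

theorem coord_le (x y : Fin d → ℝ) (j : Fin d) : x j ≤ y j + ‖x - y‖ := by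
  have h := norm_le_pi_norm (x - y) j
  rw [Real.norm_eq_abs, Pi.sub_apply] at h
  have := le_abs_self (x j - y j)
  linarith

theorem mc_bdd (hL : 0 ≤ L) (hlip : ∀ b ∈ S, ∀ b' ∈ S, ‖f b - f b'‖ ≤ L * ‖P b - P b'‖)
    (z : ℂ) (j : Fin d) : BddBelow ((fun b => f b j + L * ‖z - P b‖) '' S) := by
  rcases S.eq_empty_or_nonempty with hS | ⟨b0, hb0⟩
  · rw [hS, Set.image_empty]; exact bddBelow_empty
  · refine ⟨f b0 j - L * ‖z - P b0‖, ?_⟩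
    rintro _ ⟨b, hb, rfl⟩
    have h1 := hlip b0 hb0 b hb
    have h2 := coord_le (f b0) (f b) j
    have h3 : ‖P b0 - P b‖ ≤ ‖z - P b0‖ + ‖z - P b‖ := by
      have : P b0 - P b = (z - P b) - (z - P b0) := by ring
      rw [this]
      have := norm_sub_le (z - P b) (z - P b0)
      linarith
    have h4 := mul_le_mul_of_nonneg_left h3 hL
    simp only
    nlinarith

theorem mc_le (hL : 0 ≤ L) (hlip : ∀ b ∈ S, ∀ b' ∈ S, ‖f b - f b'‖ ≤ L * ‖P b - P b'‖)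
    (z : ℂ) (j : Fin d) {b : β} (hb : b ∈ S) : mc S P f L z j ≤ f b j + L * ‖z - P b‖ :=
  csInf_le (mc_bdd hL hlip z j) ⟨b, hb, rfl⟩

theorem le_mc (hS : S.Nonempty) (z : ℂ) (j : Fin d) (x : ℝ)
    (h : ∀ b ∈ S, x ≤ f b j + L * ‖z - P b‖) : x ≤ mc S P f L z j := by
  apply le_csInf (hS.image _)
  rintro _ ⟨b, hb, rfl⟩
  exact h b hb

theorem mc_exact (hL : 0 ≤ L) (hlip : ∀ b ∈ S, ∀ b' ∈ S, ‖f b - f b'‖ ≤ L * ‖P b - P b'‖)
    {b : β} (hb : b ∈ S) : mc S P f L (P b) = f b := by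
  ext j
  apply le_antisymm
  · have := mc_le hL hlip (P b) j hb
    simpa using this
  · apply le_mc ⟨b, hb⟩
    intro b' hb'
    have h1 := coord_le (f b) (f b') j
    have h2 := hlip b hb b' hb'
    linarith

theorem mc_lip_aux (hL : 0 ≤ L) (hlip : ∀ b ∈ S, ∀ b' ∈ S, ‖f b - f b'‖ ≤ L * ‖P b - P b'‖)
    (hS : S.Nonempty) (z z' : ℂ) (j : Fin d) :
    mc S P f L z j - L * ‖z - z'‖ ≤ mc S P f L z' j := by
  apply le_mc hS
  intro b hb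
  have h1 := mc_le hL hlip z j hb
  have h2 : ‖z - P b‖ ≤ ‖z - z'‖ + ‖z' - P b‖ := by
    have : z - P b = (z - z') + (z' - P b) := by ring
    rw [this]; exact norm_add_le _ _
  have h3 := mul_le_mul_of_nonneg_left h2 hL
  linarith

theorem mc_lip (hL : 0 ≤ L) (hlip : ∀ b ∈ S, ∀ b' ∈ S, ‖f b - f b'‖ ≤ L * ‖P b - P b'‖)
    (z z' : ℂ) : ‖mc S P f L z - mc S P f L z'‖ ≤ L * ‖z - z'‖ := by
  have h0 : 0 ≤ L * ‖z - z'‖ := by positivity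
  rw [pi_norm_le_iff_of_nonneg h0]
  intro j
  rcases S.eq_empty_or_nonempty with hS | hS
  · subst hS
    simpa [mc] using h0
  · rw [Real.norm_eq_abs, Pi.sub_apply, abs_le]
    have h1 := mc_lip_aux hL hlip hS z z' j
    have h2 := mc_lip_aux hL hlip hS z' z j
    rw [norm_sub_rev z' z] at h2
    constructor <;> linarith

/-- locality, one direction -/
theorem mc_local_le (hL : 0 ≤ L)
    (hlip : ∀ b ∈ S, ∀ b' ∈ S, ‖f b - f b'‖ ≤ L / 2 * ‖P b - P b'‖)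
    {β' : Type*} {S' : Set β'} {P' : β' → ℂ} {f' : β' → Fin d → ℝ}
    (hlip' : ∀ b ∈ S', ∀ b' ∈ S', ‖f' b - f' b'‖ ≤ L * ‖P' b - P' b'‖)
    (z z' : ℂ) (ρ : ℝ) (b0 : β) (hb0 : b0 ∈ S) (hz : ‖z - P b0‖ ≤ ρ) (κ : Fin d → ℝ)
    (hcor : ∀ b ∈ S, ‖z - P b‖ ≤ 3 * ρ →
      ∃ b' ∈ S', f' b' = f b + κ ∧ ‖z' - P' b'‖ = ‖z - P b‖) (j : Fin d) :
    mc S' P' f' L z' j ≤ mc S P f L z j + κ j := by
  have hρ : 0 ≤ ρ := le_trans (norm_nonneg _) hz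
  suffices h : mc S' P' f' L z' j - κ j ≤ mc S P f L z j by linarith
  apply le_mc ⟨b0, hb0⟩
  intro b hb
  have key : ∀ b ∈ S, ‖z - P b‖ ≤ 3 * ρ →
      mc S' P' f' L z' j - κ j ≤ f b j + L * ‖z - P b‖ := by
    intro b hb hd
    obtain ⟨b', hb', h1, h2⟩ := hcor b hb hd
    have := mc_le hL hlip' z' j hb'
    rw [h1, h2, Pi.add_apply] at this
    linarith
  by_cases hd : ‖z - P b‖ ≤ 3 * ρ
  · exact key b hb hd
  · push Not at hd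
    have h0 := key b0 hb0 (by linarith)
    have h1 := coord_le (f b0) (f b) j
    have h2 := hlip b0 hb0 b hb
    have h3 : ‖P b0 - P b‖ ≤ ‖z - P b0‖ + ‖z - P b‖ := by
      have : P b0 - P b = (z - P b) - (z - P b0) := by ring
      rw [this]
      have := norm_sub_le (z - P b) (z - P b0)
      linarith
    have h4 : L / 2 * ‖P b0 - P b‖ ≤ L / 2 * (ρ + ‖z - P b‖) :=
      mul_le_mul_of_nonneg_left (by linarith) (by linarith)
    have h5 : L * ‖z - P b0‖ ≤ L * ρ := mul_le_mul_of_nonneg_left hz hL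
    have h6 : L * (3 * ρ) ≤ L * ‖z - P b‖ := mul_le_mul_of_nonneg_left hd.le hL
    nlinarith

theorem mc_local (hL : 0 ≤ L)
    (hlip : ∀ b ∈ S, ∀ b' ∈ S, ‖f b - f b'‖ ≤ L / 2 * ‖P b - P b'‖)
    {β' : Type*} {S' : Set β'} {P' : β' → ℂ} {f' : β' → Fin d → ℝ}
    (hlip' : ∀ b ∈ S', ∀ b' ∈ S', ‖f' b - f' b'‖ ≤ L / 2 * ‖P' b - P' b'‖)
    (z z' : ℂ) (ρ : ℝ) (b0 : β) (hb0 : b0 ∈ S) (hz : ‖z - P b0‖ ≤ ρ)
    (b0' : β') (hb0' : b0' ∈ S') (hz' : ‖z' - P' b0'‖ ≤ ρ) (κ : Fin d → ℝ)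
    (hcor : ∀ b ∈ S, ‖z - P b‖ ≤ 3 * ρ →
      ∃ b' ∈ S', f' b' = f b + κ ∧ ‖z' - P' b'‖ = ‖z - P b‖)
    (hcor' : ∀ b' ∈ S', ‖z' - P' b'‖ ≤ 3 * ρ →
      ∃ b ∈ S, f b = f' b' - κ ∧ ‖z - P b‖ = ‖z' - P' b'‖) :
    mc S' P' f' L z' = mc S P f L z + κ := by
  have hw : ∀ x : ℝ, 0 ≤ x → L / 2 * x ≤ L * x := by
    intro x hx; nlinarith
  have hl : ∀ b ∈ S, ∀ b' ∈ S, ‖f b - f b'‖ ≤ L * ‖P b - P b'‖ := fun b hb b' hb' =>
    (hlip b hb b' hb').trans (hw _ (norm_nonneg _))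
  have hl' : ∀ b ∈ S', ∀ b' ∈ S', ‖f' b - f' b'‖ ≤ L * ‖P' b - P' b'‖ := fun b hb b' hb' =>
    (hlip' b hb b' hb').trans (hw _ (norm_nonneg _))
  ext j
  apply le_antisymm
  · rw [Pi.add_apply]
    exact mc_local_le hL hlip hl' z z' ρ b0 hb0 hz κ hcor j
  · have := mc_local_le hL hlip' hl z' z ρ b0' hb0' hz' (-κ)
      (by
        intro b' hb' hd
        obtain ⟨b, hb, h1, h2⟩ := hcor' b' hb' hd
        exact ⟨b, hb, by rw [h1, sub_eq_add_neg], h2⟩) j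
    rw [Pi.neg_apply] at this
    rw [Pi.add_apply]
    linarith

end

end Pool.Agent.H82
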