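import Pool.Agent.H82.Final

set_option autoImplicit false

open Set Filter Topology

namespace Pool.Agent.H82

theorem exists_rot (u : ℂ) (hu : ‖u‖ = 1) (ε : ℝ) (hε : 0 < ε) : ∃ j : ℕ, 0 < j ∧ ‖u ^ j - 1‖ < ε := by
  have hmem : ∀ n : ℕ, u ^ n ∈ Metric.closedBall (0 : ℂ) 1 := by
    intro n
    rw [mem_closedBall_zero_iff, norm_pow, hu, one_pow]
  obtain ⟨a, -, φ, hφ, hlim⟩ := (isCompact_closedBall (0 : ℂ) 1).tendsto_subseq hmem
  obtain ⟨N, hN⟩ := Metric.cauchySeq_iff.1 hlim.cauchySeq ε hε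
  have h1 := hN (N + 1) (Nat.le_succ N) N le_rfl
  have h2 : φ N < φ (N + 1) := hφ (Nat.lt_succ_self N)
  refine ⟨φ (N + 1) - φ N, by omega, ?_⟩
  simp only [Function.comp, dist_eq_norm] at h1
  have e : u ^ φ (N + 1) - u ^ φ N = u ^ φ N * (u ^ (φ (N + 1) - φ N) - 1) := by
    rw [mul_sub, ← pow_add, mul_one]
    congr 2
    omega
  rw [e, norm_mul, norm_pow, hu, one_pow, one_mul] at h1
  exact h1

theorem exists_power (c : ℂ) (hc : 1 < ‖c‖) (k₀ : ℕ) (M0 : ℝ) :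
    ∃ k, k₀ ≤ k ∧ 0 < k ∧ M0 ≤ ‖c‖ ^ k ∧ ‖c ^ k - (‖c‖ ^ k : ℝ)‖ ≤ ‖c‖ ^ k / 1000 := by
  have hcp : 0 < ‖c‖ := by linarith
  obtain ⟨n, hn⟩ := pow_unbounded_of_one_lt M0 hc
  set K := max (max k₀ n) 1 with hK
  have hcc : (‖c‖ : ℂ) ≠ 0 := by exact_mod_cast hcp.ne'
  set w : ℂ := c / ‖c‖ with hw
  have hw1 : ‖w‖ = 1 := by
    rw [hw, norm_div, Complex.norm_real, Real.norm_eq_abs, abs_of_pos hcp, div_self hcp.ne']
  obtain ⟨j, hj, h1⟩ := exists_rot (w ^ K) (by rw [norm_pow, hw1, one_pow]) (1 / 1000) (by norm_num)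
  have hKj : K ≤ K * j := Nat.le_mul_of_pos_right K hj
  refine ⟨K * j, ?_, ?_, ?_, ?_⟩
  · exact le_trans (le_trans (le_max_left _ _) (le_max_left _ _)) hKj
  · exact Nat.mul_pos (lt_of_lt_of_le one_pos (le_max_right _ _)) hj
  · refine hn.le.trans ?_
    apply pow_le_pow_right₀ hc.le
    exact le_trans (le_trans (le_max_right _ _) (le_max_left _ _)) hKj
  · have e : c ^ (K * j) - ((‖c‖ ^ (K * j) : ℝ) : ℂ) = (‖c‖ : ℂ) ^ (K * j) * ((w ^ K) ^ j - 1) := by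
      rw [← pow_mul, hw, div_pow]
      push_cast
      field_simp
    rw [e, norm_mul, norm_pow, Complex.norm_real, Real.norm_eq_abs, abs_of_pos hcp]
    have h2 : 0 < ‖c‖ ^ (K * j) := pow_pos hcp _
    have := mul_le_mul_of_nonneg_left h1.le h2.le
    linarith

theorem lin_bound {d : ℕ} {V : Type*} [NormedAddCommGroup V] [NormedSpace ℝ V]
    (f : (Fin d → ℝ) →ₗ[ℝ] V) : ∃ K : ℝ, 1 ≤ K ∧ ∀ t, ‖f t‖ ≤ K * ‖t‖ := by
  refine ⟨max 1 ‖LinearMap.toContinuousLinearMap f‖, le_max_left _ _, fun t => ?_⟩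
  have h := (LinearMap.toContinuousLinearMap f).le_opNorm t
  refine h.trans ?_
  exact mul_le_mul_of_nonneg_right (le_max_right _ _) (norm_nonneg _)

theorem lin_boundC {d : ℕ} (f : ℂ →ₗ[ℝ] (Fin d → ℝ)) : ∃ K : ℝ, 1 ≤ K ∧ ∀ t, ‖f t‖ ≤ K * ‖t‖ := by
  refine ⟨max 1 ‖LinearMap.toContinuousLinearMap f‖, le_max_left _ _, fun t => ?_⟩
  have h := (LinearMap.toContinuousLinearMap f).le_opNorm t
  refine h.trans ?_
  exact mul_le_mul_of_nonneg_right (le_max_right _ _) (norm_nonneg _)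

theorem exists_RD (cn r Y : ℝ) (Φ : ℕ) (hc : 1 < cn) (hr : 0 < r) (hY : 0 ≤ Y) :
    ∃ RD : ℝ, 6 + 2 * cn ≤ RD * (cn - 1) ∧ Y ≤ (cn - 1) / 2 * (r * RD) ∧ 7 * Φ ≤ RD := by
  have h1 : 0 < cn - 1 := by linarith
  have q3 : 0 < (cn - 1) / 2 * r := by positivity
  obtain ⟨a, ha⟩ : ∃ a, a = (6 + 2 * cn) / (cn - 1) := ⟨_, rfl⟩
  obtain ⟨b, hb⟩ : ∃ b, b = Y / ((cn - 1) / 2 * r) := ⟨_, rfl⟩
  have ha0 : 0 ≤ a := by rw [ha]; positivity
  have hb0 : 0 ≤ b := by rw [hb]; positivity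
  have ha1 : a * (cn - 1) = 6 + 2 * cn := by rw [ha]; exact div_mul_cancel₀ _ h1.ne'
  have hb1 : ((cn - 1) / 2 * r) * b = Y := by rw [hb]; exact mul_div_cancel₀ _ q3.ne'
  have q5 : (0 : ℝ) ≤ 7 * Φ := by positivity
  refine ⟨a + b + 7 * Φ, ?_, ?_, by linarith⟩
  · have : 0 ≤ (b + 7 * Φ) * (cn - 1) := by positivity
    linarith
  · have : 0 ≤ ((cn - 1) / 2 * r) * (a + 7 * Φ) := by positivity
    linarith

theorem exists_Wd (cn r m a b : ℝ) (hc : 1 < cn) (hr : 0 < r) (hm : 1 ≤ m) (ha : 0 ≤ a) (hb : 0 ≤ b) :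
    ∃ Wd : ℝ, cn * (101 / 100) * r * a ≤ Wd * m ∧ cn * (101 / 100) * r * b ≤ Wd ∧
      3 * cn * r ≤ Wd := by
  have q1 : 0 ≤ cn * (101 / 100) * r * a := by positivity
  have q2 : 0 ≤ cn * (101 / 100) * r * b := by positivity
  have q3 : 0 ≤ 3 * cn * r := by positivity
  refine ⟨cn * (101 / 100) * r * a + cn * (101 / 100) * r * b + 3 * cn * r, ?_, ?_, ?_⟩
  · have : cn * (101 / 100) * r * a * 1 ≤
        (cn * (101 / 100) * r * a + cn * (101 / 100) * r * b + 3 * cn * r) * m :=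
      mul_le_mul (by linarith) hm zero_le_one (by linarith)
    linarith
  · linarith
  · linarith

theorem tiling_of_lift {c : ℂ} (hc : 1 < ‖c‖) (F : Lift c) :
    ∃ T : Set (Set ℂ),
        (∀ t ∈ T, IsCompact t ∧ IsConnected t ∧ closure (interior t) = t) ∧
        ⋃₀ T = Set.univ ∧
        (∀ t ∈ T, ∀ s ∈ T, t ≠ s → Disjoint (interior t) (interior s)) ∧
        (∃ F : Finset (Set ℂ), ∀ t ∈ T, ∃ P ∈ F, ∃ z : ℂ, t = (fun w => w + z) '' P) ∧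
        (∀ t ∈ T, ∃ S ⊆ T, (fun w => c * w) '' t = ⋃₀ S) := by
  obtain ⟨Cp, Cp1, hCp⟩ := lin_bound F.pr
  obtain ⟨Ce, Ce1, hCe⟩ := lin_boundC F.em
  obtain ⟨Co, Co1, hCo⟩ := lin_bound F.om
  obtain ⟨CM, CM1, hCM⟩ := lin_bound F.M
  obtain ⟨r, hr⟩ : ∃ r : ℝ, r = 2000 * Cp := ⟨_, rfl⟩
  have hr0 : 2000 ≤ r := by linarith
  have hc0 : 0 < ‖c‖ := by linarith
  -- E constants
  obtain ⟨SE, hSE⟩ : ∃ S : ℝ, S = Co * (1 * (r + Cp) + 1) := ⟨_, rfl⟩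
  have hSE0 : 0 < SE := by rw [hSE]; positivity
  obtain ⟨SE', hSE'⟩ : ∃ S : ℝ, S = Co * (1 * (1 + Cp) + 1) := ⟨_, rfl⟩
  have hSE'0 : 0 < SE' := by rw [hSE']; positivity
  -- R constants
  obtain ⟨C0, hC0⟩ : ∃ x : ℝ, x = CM * Co := ⟨_, rfl⟩
  have hC00 : 0 < C0 := by rw [hC0]; positivity
  obtain ⟨k1, hk1⟩ : ∃ x : ℝ, x = ‖c‖ * (101 / 100) * r * (13 / 10) := ⟨_, rfl⟩
  have hk10 : 0 < k1 := by rw [hk1]; positivity
  obtain ⟨k2, hk2⟩ : ∃ x : ℝ, x = CM * SE * (13 / 10) := ⟨_, rfl⟩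
  have hk20 : 0 < k2 := by rw [hk2]; positivity
  have hcm : 0 < (‖c‖ - 1) / (2 * ‖c‖) := div_pos (by linarith) (by linarith)
  obtain ⟨Lw, hLw0, hLw1, hLw2⟩ : ∃ Lw : ℝ, 0 < Lw ∧ CM * SE ≤ 33 / 100 * r * Lw ∧
      SE * (1 + CM) ≤ Lw / 2 * (66 / 100 * r) * ((‖c‖ - 1) / (2 * ‖c‖)) := by
    have p1 : 0 < 33 / 100 * r := by positivity
    have p2 : 0 < 33 / 100 * r * ((‖c‖ - 1) / (2 * ‖c‖)) := by positivity
    have a1 : 0 < CM * SE / (33 / 100 * r) := by positivity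
    have a2 : 0 < SE * (1 + CM) / (33 / 100 * r * ((‖c‖ - 1) / (2 * ‖c‖))) := by positivity
    refine ⟨CM * SE / (33 / 100 * r) + SE * (1 + CM) / (33 / 100 * r * ((‖c‖ - 1) / (2 * ‖c‖))),
      by linarith, ?_, ?_⟩
    · have e : 33 / 100 * r * (CM * SE / (33 / 100 * r)) = CM * SE := mul_div_cancel₀ _ p1.ne'
      have : 0 < 33 / 100 * r * (SE * (1 + CM) / (33 / 100 * r * ((‖c‖ - 1) / (2 * ‖c‖)))) := by
        positivity
      rw [mul_add, e]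
      linarith
    · have e : (33 / 100 * r * ((‖c‖ - 1) / (2 * ‖c‖))) *
          (SE * (1 + CM) / (33 / 100 * r * ((‖c‖ - 1) / (2 * ‖c‖)))) = SE * (1 + CM) :=
        mul_div_cancel₀ _ p2.ne'
      have h1 : 0 < (33 / 100 * r * ((‖c‖ - 1) / (2 * ‖c‖))) * (CM * SE / (33 / 100 * r)) := by
        positivity
      calc SE * (1 + CM) = (33 / 100 * r * ((‖c‖ - 1) / (2 * ‖c‖))) *
            (SE * (1 + CM) / (33 / 100 * r * ((‖c‖ - 1) / (2 * ‖c‖)))) := e.symm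
        _ ≤ (33 / 100 * r * ((‖c‖ - 1) / (2 * ‖c‖))) * (CM * SE / (33 / 100 * r) +
            SE * (1 + CM) / (33 / 100 * r * ((‖c‖ - 1) / (2 * ‖c‖)))) := by
              rw [mul_add]; linarith
        _ = _ := by ring
  obtain ⟨c1, hc1a, hc1b, hc1c⟩ : ∃ c1 : ℝ, 2 * k1 + 3 * r ≤ c1 ∧ ‖c‖ * r + 3 * r ≤ c1 ∧
      8 * k2 ≤ Lw * c1 := by
    refine ⟨2 * k1 + 3 * r + ‖c‖ * r + 8 * k2 / Lw, ?_, ?_, ?_⟩
    · have : 0 < ‖c‖ * r := by positivity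
      have : 0 < 8 * k2 / Lw := by positivity
      linarith
    · have : 0 < 8 * k2 / Lw := by positivity
      linarith
    · have e : Lw * (8 * k2 / Lw) = 8 * k2 := mul_div_cancel₀ _ hLw0.ne'
      have h1 : 0 < Lw * (2 * k1 + 3 * r + ‖c‖ * r) := by positivity
      calc 8 * k2 = Lw * (8 * k2 / Lw) := e.symm
        _ ≤ Lw * (2 * k1 + 3 * r + ‖c‖ * r) + Lw * (8 * k2 / Lw) := by linarith
        _ = _ := by ring
  have hc10 : 0 < c1 := by linarith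
  obtain ⟨SR, hSR⟩ : ∃ S : ℝ, S = Co * (Lw * (r + Cp) + 1) := ⟨_, rfl⟩
  have hSR0 : 0 < SR := by rw [hSR]; positivity
  obtain ⟨SR', hSR1, hSR2⟩ : ∃ S : ℝ, Co * (Lw * (1 + Cp) + 1) ≤ S ∧ Co + C0 ≤ S := by
    refine ⟨Co * (Lw * (1 + Cp) + 1) + (Co + C0), ?_, ?_⟩
    · linarith
    · have : 0 < Co * (Lw * (1 + Cp) + 1) := by positivity
      linarith
  have hSR'0 : 0 < SR' := by linarith
  obtain ⟨s, hs⟩ : ∃ s : ℕ, 2 + 101 / 100 * ‖c‖ ≤ 66 / 100 * s := by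
    obtain ⟨s, hs⟩ := exists_nat_ge ((2 + 101 / 100 * ‖c‖) * 2)
    exact ⟨s, by linarith⟩
  obtain ⟨Φ, hΦ⟩ : ∃ Φ : ℕ, c1 + 2 * r ≤ 66 / 100 * r * Φ := by
    obtain ⟨Φ, hΦ⟩ := exists_nat_ge ((c1 + 2 * r) / (66 / 100 * r))
    refine ⟨Φ, ?_⟩
    rw [div_le_iff₀ (by linarith)] at hΦ
    linarith
  -- epsilon
  obtain ⟨ε, hε0, hε1, hε2, hε3, hε4⟩ : ∃ ε : ℝ, 0 < ε ∧ ε * SE ≤ 3 / 10 * r * 1 ∧
      ε * SR ≤ 3 / 10 * r * Lw ∧ 4 * ε * SE' ≤ 1 ∧ 8 * ε * SR' ≤ Lw := by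
    have a1 : 0 < 3 / 10 * r * 1 / SE := by positivity
    have a2 : 0 < 3 / 10 * r * Lw / SR := by positivity
    have a3 : 0 < 1 / (4 * SE') := by positivity
    have a4 : 0 < Lw / (8 * SR') := by positivity
    refine ⟨min (min (3 / 10 * r * 1 / SE) (3 / 10 * r * Lw / SR)) (min (1 / (4 * SE')) (Lw / (8 * SR'))),
      lt_min (lt_min a1 a2) (lt_min a3 a4), ?_, ?_, ?_, ?_⟩
    · rw [← le_div_iff₀ hSE0]
      exact (min_le_left _ _).trans (min_le_left _ _)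
    · rw [← le_div_iff₀ hSR0]
      exact (min_le_left _ _).trans (min_le_right _ _)
    · have : min (min (3 / 10 * r * 1 / SE) (3 / 10 * r * Lw / SR)) (min (1 / (4 * SE')) (Lw / (8 * SR')))
        ≤ 1 / (4 * SE') := (min_le_right _ _).trans (min_le_left _ _)
      rw [le_div_iff₀ (by positivity)] at this
      linarith
    · have : min (min (3 / 10 * r * 1 / SE) (3 / 10 * r * Lw / SR)) (min (1 / (4 * SE')) (Lw / (8 * SR')))
        ≤ Lw / (8 * SR') := (min_le_right _ _).trans (min_le_right _ _)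
      rw [le_div_iff₀ (by positivity)] at this
      linarith
  obtain ⟨k₀, hk₀⟩ := F.contr ε hε0
  -- size of m
  obtain ⟨k, hkk₀, hk0, hM0, hmu⟩ := exists_power c hc k₀
    (1000 + 1000 * (F.d * (Ce * (r + 2 * Cp) + SE)) + 1000 * (F.d * (Ce * (r + 2 * Cp) + SR)) +
      4 * (r * F.d * Ce * (Ce * (r + 2 * Cp) + SE)) + 4 * (r * F.d * Ce * (Ce * (r + 2 * Cp) + SR)) +
      9 * ((c1 + (101 / 100 * s + 1) * r) / r))
  have hcontr := hk₀ k hkk₀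
  have p1 : 0 ≤ F.d * (Ce * (r + 2 * Cp) + SE) := by positivity
  have p2 : 0 ≤ F.d * (Ce * (r + 2 * Cp) + SR) := by positivity
  have p3 : 0 ≤ r * F.d * Ce * (Ce * (r + 2 * Cp) + SE) := by positivity
  have p4 : 0 ≤ r * F.d * Ce * (Ce * (r + 2 * Cp) + SR) := by positivity
  have p5 : 0 ≤ (c1 + (101 / 100 * s + 1) * r) / r := by positivity
  have hm : 1000 ≤ ‖c‖ ^ k := by linarith
  have hB0 : 12 / 10 * ‖c‖ ^ k ≤ (⌈12 / 10 * ‖c‖ ^ k⌉₊ : ℝ) := Nat.le_ceil _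
  have hB1 : (⌈12 / 10 * ‖c‖ ^ k⌉₊ : ℝ) ≤ 13 / 10 * ‖c‖ ^ k := by
    have := Nat.ceil_lt_add_one (show 0 ≤ 12 / 10 * ‖c‖ ^ k by linarith)
    linarith
  -- larger parameters of the ring configuration
  obtain ⟨G, hG⟩ : ∃ G : ℕ, 151 / 150 * ‖c‖ ^ k ≤ G := exists_nat_ge _
  obtain ⟨LM, hLM⟩ : ∃ LM : ℕ, LM = ⌈12 / 10 * ‖c‖ ^ k⌉₊ + 2 * Φ := ⟨_, rfl⟩
  obtain ⟨B, hB⟩ : ∃ B : ℕ, 12 / 10 * ‖c‖ ^ k + LM * G * s ≤ B := exists_nat_ge _
  obtain ⟨Wd, hWd1, hWd2, hWd3⟩ := exists_Wd ‖c‖ r (‖c‖ ^ k) ((LM + 1) * G) LM hc (by linarith)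
    (by linarith) (by positivity) (by positivity)
  have hWd0 : 0 ≤ Wd := by
    have : 0 ≤ 3 * ‖c‖ * r := by positivity
    linarith
  obtain ⟨RD, hRD1, hRD2, hRD3⟩ := exists_RD ‖c‖ r
    (3 * Wd + 2 * ‖c‖ * r + (c1 + (101 / 100 * s + 2) * r)) Φ hc (by linarith) (by positivity)
  let E : Cf F :=
    { k := k, r := r, Lw := 1, c1 := 3 * r, B := ⌈12 / 10 * ‖c‖ ^ k⌉₊, Cp := Cp, Ce := Ce, Co := Co,
      S := SE, S' := SE', k1 := 0, k2 := 0, C0 := 0, ε := ε, hCp := hCp, hCe := hCe, hCo := hCo,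
      Cp1 := Cp1, Ce1 := Ce1, Co1 := Co1, hr := by linarith, hmu := hmu, hm := hm, hε := hε0.le,
      hA := hcontr, hS := hSE, hg := by linarith, hV := by linarith, hεS := hε1,
      hS1 := le_of_eq hSE'.symm,
      hS2 := by
        rw [hSE']
        have : Co * 1 ≤ Co * (1 * (1 + Cp) + 1) := mul_le_mul_of_nonneg_left (by linarith) (by linarith)
        linarith
      k1n := le_rfl, k2n := le_rfl, C0n := le_rfl, hc1 := by linarith,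
      hk2 := by
        have : 4 * ε * SE' * (3 * r) ≤ 1 * (3 * r) := mul_le_mul_of_nonneg_right hε3 (by linarith)
        linarith
      hB := hB0, hLw := one_pos }
  let R : Cf F :=
    { k := k, r := r, Lw := Lw, c1 := c1, B := B, Cp := Cp, Ce := Ce, Co := Co,
      S := SR, S' := SR', k1 := k1, k2 := k2, C0 := C0, ε := ε, hCp := hCp, hCe := hCe, hCo := hCo,
      Cp1 := Cp1, Ce1 := Ce1, Co1 := Co1, hr := by linarith, hmu := hmu, hm := hm, hε := hε0.le,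
      hA := hcontr, hS := hSR, hg := by linarith, hV := by linarith, hεS := hε2,
      hS1 := hSR1, hS2 := hSR2, k1n := hk10.le, k2n := hk20.le, C0n := hC00.le, hc1 := hc1a,
      hk2 := by
        have := mul_le_mul_of_nonneg_right hε4 hc10.le
        linarith
      hB := by
        have : (0 : ℝ) ≤ LM * G * s := by positivity
        linarith
      hLw := hLw0 }
  let T : Two F :=
    { E := E, R := R, hk := rfl, hr := rfl, CM := CM, hCM := hCM, CM1 := CM1, hc := hc, RD := RD,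
      L0 := 2 * Φ, Φ := Φ, s := s, hBE := hB1, tC0 := le_of_eq hC0.symm, tk1 := le_of_eq hk1.symm,
      tk2 := le_of_eq hk2.symm, tH1 := hLw1, tH1' := hLw2, tRD0 := hRD1, tc1 := hc1b }
  let g : T.Geo :=
    { G := G, LM := LM, Wd := Wd, hs := hs, hG := hG, hLM := by
        change ⌈12 / 10 * ‖c‖ ^ k⌉₊ ≤ LM
        omega
      hL0 := by
        change 2 * Φ ≤ LM
        omega
      hm := by
        change c1 + (101 / 100 * s + 1) * r ≤ 12 / 100 * ‖c‖ ^ k * r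
        have h1 : (c1 + (101 / 100 * s + 1) * r) / r * r = c1 + (101 / 100 * s + 1) * r :=
          div_mul_cancel₀ _ (by linarith)
        have h2 : 9 * ((c1 + (101 / 100 * s + 1) * r) / r) ≤ ‖c‖ ^ k := by linarith
        have h3 := mul_le_mul_of_nonneg_right h2 (show 0 ≤ r by linarith)
        have h4 : 0 ≤ ‖c‖ ^ k * r := by positivity
        nlinarith
      hΦ := hΦ, hB := hB, hWd := hWd1, hWd' := hWd2 }
  have hb : Two.Big g := ⟨hRD2, hWd3, le_rfl, hRD3⟩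
  exact T.tiling hk0 hb

end Pool.Agent.H82
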