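import Pool.Agent.H82.Ezero

set_option autoImplicit false

open Set

namespace Pool.Agent.H82

/-- scaling operator used to place a copy of the obstacle-free sites -/
structure Side {c : ℂ} (F : Lift c) (CM : ℝ) where
  ν : ℂ
  op : (Fin F.d → ℤ) → (Fin F.d → ℤ)
  opE : (Fin F.d → ℝ) →ₗ[ℝ] (Fin F.d → ℝ)
  hop : ∀ a, ic (op a) = opE (ic a)
  hpr : ∀ t, F.pr (opE t) = ν * F.pr t
  hom : ∀ t, F.om (opE t) = opE (F.om t)
  hcomm : ∀ t, opE (F.M t) = F.M (opE t)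
  hbd : ∀ t, ‖opE t‖ ≤ CM * ‖t‖
  hν1 : 1 ≤ ‖ν‖
  hν2 : ‖ν‖ ≤ ‖c‖

/-- the inner side -/
def sideI {c : ℂ} (F : Lift c) (CM : ℝ) (hCM : 1 ≤ CM) (hc : 1 ≤ ‖c‖) : Side F CM where
  ν := 1
  op := id
  opE := LinearMap.id
  hop := fun _ => rfl
  hpr := fun t => by simp
  hom := fun _ => rfl
  hcomm := fun _ => rfl
  hbd := fun t => by
    have := norm_nonneg t
    simp only [LinearMap.id_coe, id_eq]
    nlinarith
  hν1 := by simp
  hν2 := by simpa using hc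

/-- the outer side -/
def sideO {c : ℂ} (F : Lift c) (CM : ℝ) (hM : ∀ t, ‖F.M t‖ ≤ CM * ‖t‖) (hc : 1 ≤ ‖c‖) : Side F CM where
  ν := c
  op := F.Mi
  opE := F.M
  hop := fun a => (F.Mi_spec a).symm
  hpr := F.pr_M
  hom := F.om_M
  hcomm := fun _ => rfl
  hbd := hM
  hν1 := hc
  hν2 := le_rfl

/-- the pair of configurations -/
structure Two {c : ℂ} (F : Lift c) where
  E : Cf F
  R : Cf F
  hk : R.k = E.k
  hr : R.r = E.r
  CM : ℝ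
  hCM : ∀ t, ‖F.M t‖ ≤ CM * ‖t‖
  CM1 : 1 ≤ CM
  hc : 1 < ‖c‖
  RD : ℝ
  L0 : ℕ
  Φ : ℕ
  s : ℕ
  hBE : (E.B : ℝ) ≤ 13 / 10 * E.m
  tC0 : CM * E.Co ≤ R.C0
  tk1 : ‖c‖ * (101 / 100) * E.r * (13 / 10) ≤ R.k1
  tk2 : CM * E.S * (13 / 10) ≤ R.k2
  tH1 : CM * E.S ≤ 33 / 100 * E.r * R.Lw
  tH1' : E.S * (1 + CM) ≤ R.Lw / 2 * (66 / 100 * E.r) * ((‖c‖ - 1) / (2 * ‖c‖))
  tRD0 : 6 + 2 * ‖c‖ ≤ RD * (‖c‖ - 1)
  tc1 : ‖c‖ * E.r + 3 * E.r ≤ R.c1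

namespace Two
variable {c : ℂ} {F : Lift c} (T : Two F)

theorem muR : T.R.mu = T.E.mu := by rw [Cf.mu, Cf.mu, T.hk]
theorem mR : T.R.m = T.E.m := by rw [Cf.m, Cf.m, T.hk]
theorem AR (a : Fin F.d → ℤ) : T.R.A a = T.E.A a := by rw [Cf.A, Cf.A, T.hk]

def D0 : Set Z2 := {u | ‖tc u‖ ≤ T.RD}

def sI : Side F T.CM := sideI F T.CM T.CM1 T.hc.le
def sO : Side F T.CM := sideO F T.CM T.hCM T.hc.le

/-- obstacles coming from one side -/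
def obs (σ : Side F T.CM) (Y : Set Z2) (n : ℕ) : Set (Fin F.d → ℤ) :=
  {b | ∃ w ∈ T.E.HE.W 0 Y n, b = σ.op (T.E.X n w)}

/-- all obstacles -/
def NF (n : ℕ) : Set (Fin F.d → ℤ) := T.obs T.sI T.D0 n ∪ T.obs T.sO T.D0ᶜ n

variable {T}

theorem side_pr (σ : Side F T.CM) (a : Fin F.d → ℤ) : F.pr (ic (σ.op a)) = σ.ν * F.pr (ic a) := by
  rw [σ.hop, σ.hpr]

theorem side_om_sub (σ : Side F T.CM) (a b : Fin F.d → ℤ) :
    ‖F.om (ic (σ.op a) - ic (σ.op b))‖ ≤ T.CM * ‖F.om (ic a - ic b)‖ := by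
  rw [σ.hop, σ.hop, ← map_sub, σ.hom]
  exact σ.hbd _

theorem side_A (σ : Side F T.CM) (a : Fin F.d → ℤ) : T.E.A (σ.op a) = σ.op (T.E.A a) := by
  apply ic_inj
  rw [T.E.A_ic, σ.hop, σ.hop, T.E.A_ic]
  generalize T.E.k = k
  induction k with
  | zero => simp
  | succ k ih => rw [pow_succ', Module.End.mul_apply, Module.End.mul_apply, ih, σ.hcomm]

theorem side_add (σ : Side F T.CM) (a b : Fin F.d → ℤ) : σ.op (a + b) = σ.op a + σ.op b := by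
  apply ic_inj
  rw [σ.hop, ic_add, map_add, ic_add, σ.hop, σ.hop]

theorem side_sub (σ : Side F T.CM) (a b : Fin F.d → ℤ) : σ.op (a - b) = σ.op a - σ.op b := by
  apply ic_inj
  rw [σ.hop, ic_sub, map_sub, ic_sub, σ.hop, σ.hop]

theorem om_X0 (w : Z2) : ‖F.om (ic (T.E.X 0 w))‖ ≤ T.E.Co / 2 := by
  change ‖F.om (ic (rnd (F.em (T.E.r * tc w))))‖ ≤ _
  have e : F.om (ic (rnd (F.em (T.E.r * tc w)))) =
      F.om (Cf.er (F := F) (F.em (T.E.r * tc w))) := by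
    rw [Cf.er, map_sub, F.om_em, sub_zero]
  rw [e]
  exact Cf.om_er _

theorem obs_H0 (σ : Side F T.CM) (Y : Set Z2) {b : Fin F.d → ℤ} (hb : b ∈ T.obs σ Y 0) :
    ‖F.om (ic b)‖ ≤ T.R.C0 := by
  obtain ⟨w, -, rfl⟩ := hb
  rw [σ.hop, σ.hom]
  refine (σ.hbd _).trans ?_
  have h1 := om_X0 (T := T) w
  have h2 := T.tC0
  have h3 := T.CM1
  have h4 := T.E.Co1
  have h5 : T.CM * ‖F.om (ic (T.E.X 0 w))‖ ≤ T.CM * (T.E.Co / 2) :=
    mul_le_mul_of_nonneg_left h1 (by linarith)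
  nlinarith

theorem obs_H2 (σ : Side F T.CM) (Y : Set Z2) (n : ℕ) {b : Fin F.d → ℤ} (hb : b ∈ T.obs σ Y (n + 1)) :
    ∃ bp ∈ T.obs σ Y n, ‖F.pr (ic b) - T.R.mu * F.pr (ic bp)‖ ≤ T.R.k1 * T.R.m ∧
    ‖F.om (ic b - ic (T.R.A bp))‖ ≤ T.R.k2 * T.R.m := by
  obtain ⟨w, hw, rfl⟩ := hb
  obtain ⟨v, hv⟩ := T.E.HE_parent n w
  refine ⟨σ.op (T.E.X n v), ⟨v, (T.E.W_succ Y n hv).1 hw, rfl⟩, ?_, ?_⟩
  · rw [side_pr, side_pr, T.muR, T.mR]
    have e : σ.ν * F.pr (ic (T.E.X (n + 1) w)) - T.E.mu * (σ.ν * F.pr (ic (T.E.X n v))) =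
      σ.ν * (F.pr (ic (T.E.X (n + 1) w)) - T.E.mu * F.pr (ic (T.E.X n v))) := by ring
    rw [e, norm_mul]
    have h1 := T.E.HE_child_dist hv
    have h2 := T.hBE
    have h3 := T.E.rpos
    have h4 := T.E.m1000
    have h5 : 101 / 100 * T.E.r * T.E.B ≤ 101 / 100 * T.E.r * (13 / 10 * T.E.m) :=
      mul_le_mul_of_nonneg_left h2 (by linarith)
    calc ‖σ.ν‖ * ‖F.pr (ic (T.E.X (n + 1) w)) - T.E.mu * F.pr (ic (T.E.X n v))‖ ≤
          ‖c‖ * (101 / 100 * T.E.r * (13 / 10 * T.E.m)) :=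
          mul_le_mul σ.hν2 (h1.trans h5) (norm_nonneg _) (norm_nonneg _)
      _ = (‖c‖ * (101 / 100) * T.E.r * (13 / 10)) * T.E.m := by ring
      _ ≤ _ := mul_le_mul_of_nonneg_right T.tk1 (by linarith)
  · rw [T.AR, side_A, T.mR]
    refine (side_om_sub σ _ _).trans ?_
    have h1 := T.E.HE_child_om hv
    have h2 := T.hBE
    have h4 := T.E.m1000
    have hS : 0 ≤ T.E.S := by
      rw [T.E.hS]
      have := T.E.Co1
      have := T.E.hLw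
      have := T.E.rpos
      have := T.E.Cp1
      positivity
    have h5 : T.E.S * T.E.B ≤ T.E.S * (13 / 10 * T.E.m) := mul_le_mul_of_nonneg_left h2 hS
    calc T.CM * ‖F.om (ic (T.E.X (n + 1) w) - ic (T.E.A (T.E.X n v)))‖ ≤
          T.CM * (T.E.S * (13 / 10 * T.E.m)) :=
          mul_le_mul_of_nonneg_left (h1.trans h5) (by linarith [T.CM1])
      _ = (T.CM * T.E.S * (13 / 10)) * T.E.m := by ring
      _ ≤ _ := mul_le_mul_of_nonneg_right T.tk2 (by linarith)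

theorem ES : 0 ≤ T.E.S := by
  rw [T.E.hS]
  have := T.E.Co1
  have := T.E.hLw
  have := T.E.rpos
  have := T.E.Cp1
  positivity

theorem X_low (n : ℕ) (w w' : Z2) :
    66 / 100 * T.E.r * n1 (w - w') ≤ ‖F.pr (ic (T.E.X n w)) - F.pr (ic (T.E.X n w'))‖ :=
  (T.E.emp_ok.inv n).pr_low' w w'

theorem X_up (n : ℕ) (w w' : Z2) :
    ‖F.pr (ic (T.E.X n w)) - F.pr (ic (T.E.X n w'))‖ ≤ 101 / 100 * T.E.r * n1 (w - w') :=
  (T.E.emp_ok.inv n).pr_up' w w'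

theorem X_om (n : ℕ) (w w' : Z2) :
    ‖F.om (ic (T.E.X n w) - ic (T.E.X n w'))‖ ≤ T.E.S * n1 (w - w') :=
  (T.E.emp_ok.inv n).b w w'

theorem obs_same (σ : Side F T.CM) (Y : Set Z2) (n : ℕ) {b b' : Fin F.d → ℤ}
    (hb : b ∈ T.obs σ Y n) (hb' : b' ∈ T.obs σ Y n) :
    ‖F.om (ic b - ic b')‖ ≤ T.R.Lw / 2 * ‖F.pr (ic b) - F.pr (ic b')‖ := by
  obtain ⟨w, -, rfl⟩ := hb
  obtain ⟨w', -, rfl⟩ := hb'
  rw [side_pr, side_pr, ← mul_sub, norm_mul]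
  refine (side_om_sub σ _ _).trans ?_
  have h1 := X_om (T := T) n w w'
  have h2 := X_low (T := T) n w w'
  have hn : (0 : ℝ) ≤ n1 (w - w') := Nat.cast_nonneg _
  have hr := T.E.rpos
  have hL := T.R.hLw
  have h3 : T.CM * ‖F.om (ic (T.E.X n w) - ic (T.E.X n w'))‖ ≤ T.CM * (T.E.S * n1 (w - w')) :=
    mul_le_mul_of_nonneg_left h1 (by linarith [T.CM1])
  have h4 := mul_le_mul_of_nonneg_right T.tH1 hn
  have h5 : 1 * (66 / 100 * T.E.r * n1 (w - w')) ≤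
      ‖σ.ν‖ * ‖F.pr (ic (T.E.X n w)) - F.pr (ic (T.E.X n w'))‖ :=
    mul_le_mul σ.hν1 h2 (by positivity) (norm_nonneg _)
  have h6 := mul_le_mul_of_nonneg_left h5 (show 0 ≤ T.R.Lw / 2 by linarith)
  nlinarith

theorem q_in {n : ℕ} {w : Z2} (hw : w ∈ T.E.HE.W 0 T.D0 n) :
    ‖T.E.HE.q n w‖ ≤ T.E.r * T.RD + 2 * T.E.r := by
  obtain ⟨v, hv, hd⟩ := hw
  have h1 := T.E.q_anc hd
  have h2 := T.E.q0_near v
  have h3 := T.E.kapE T.hBE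
  have hr := T.E.rpos
  have hCp := T.E.hr
  have hv' : ‖tc v‖ ≤ T.RD := hv
  have e : T.E.HE.q n w = (T.E.HE.q n w - T.E.HE.q 0 v) + ((T.E.HE.q 0 v - T.E.r * tc v) +
    T.E.r * tc v) := by ring
  have h4 : ‖(T.E.r : ℂ) * tc v‖ ≤ T.E.r * T.RD := by
    rw [norm_mul, Complex.norm_real, Real.norm_eq_abs, abs_of_pos (by linarith)]
    exact mul_le_mul_of_nonneg_left hv' (by linarith)
  rw [e]
  refine (norm_add_le _ _).trans ?_
  have := norm_add_le (T.E.HE.q 0 v - T.E.r * tc v) (T.E.r * tc v)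
  linarith

theorem q_out {n : ℕ} {w : Z2} (hw : w ∈ T.E.HE.W 0 T.D0ᶜ n) :
    T.E.r * T.RD - 2 * T.E.r ≤ ‖T.E.HE.q n w‖ := by
  obtain ⟨v, hv, hd⟩ := hw
  have h1 := T.E.q_anc hd
  have h2 := T.E.q0_near v
  have h3 := T.E.kapE T.hBE
  have hr := T.E.rpos
  have hCp := T.E.hr
  have hv' : T.RD < ‖tc v‖ := not_le.1 hv
  have e : (T.E.r : ℂ) * tc v = T.E.HE.q n w - (T.E.HE.q n w - T.E.HE.q 0 v) -
    (T.E.HE.q 0 v - T.E.r * tc v) := by ring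
  have h4 : T.E.r * T.RD ≤ ‖(T.E.r : ℂ) * tc v‖ := by
    rw [norm_mul, Complex.norm_real, Real.norm_eq_abs, abs_of_pos (by linarith)]
    exact mul_le_mul_of_nonneg_left hv'.le (by linarith)
  rw [e] at h4
  have h5 := norm_sub_le (T.E.HE.q n w - (T.E.HE.q n w - T.E.HE.q 0 v)) (T.E.HE.q 0 v - T.E.r * tc v)
  have h6 := norm_sub_le (T.E.HE.q n w) (T.E.HE.q n w - T.E.HE.q 0 v)
  linarith

theorem om_le_pr (n : ℕ) (w : Z2) :
    66 / 100 * T.E.r * ‖F.om (ic (T.E.X n w))‖ ≤ T.E.S * ‖F.pr (ic (T.E.X n w))‖ := by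
  have h1 := X_om (T := T) n w 0
  have h2 := X_low (T := T) n w 0
  rw [T.E.X_zero, ic_zero, sub_zero, sub_zero] at h1
  rw [T.E.X_zero, ic_zero, sub_zero, map_zero, sub_zero] at h2
  have h3 := mul_le_mul_of_nonneg_left h2 (ES (T := T))
  have h4 := mul_le_mul_of_nonneg_left h1 (show 0 ≤ 66 / 100 * T.E.r by linarith [T.E.rpos])
  linarith

theorem obs_cross (n : ℕ) {b b' : Fin F.d → ℤ}
    (hb : b ∈ T.obs T.sI T.D0 n) (hb' : b' ∈ T.obs T.sO T.D0ᶜ n) :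
    ‖F.om (ic b - ic b')‖ ≤ T.R.Lw / 2 * ‖F.pr (ic b) - F.pr (ic b')‖ := by
  obtain ⟨w, hw, rfl⟩ := hb
  obtain ⟨w', hw', rfl⟩ := hb'
  have hc := T.hc
  have hr := T.E.rpos
  have hm := T.E.mpos
  have hCM := T.CM1
  have hL := T.R.hLw
  have h1 := q_in hw
  have h2 := q_out hw'
  have o1 := om_le_pr (T := T) n w
  have o2 := om_le_pr (T := T) n w'
  have e1 : F.pr (ic (T.sI.op (T.E.X n w))) = F.pr (ic (T.E.X n w)) := rfl
  have e2 : F.pr (ic (T.sO.op (T.E.X n w'))) = c * F.pr (ic (T.E.X n w')) := side_pr T.sO _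
  have e3 : ‖F.om (ic (T.sI.op (T.E.X n w)))‖ = ‖F.om (ic (T.E.X n w))‖ := rfl
  have e4 : ‖F.om (ic (T.sO.op (T.E.X n w')))‖ ≤ T.CM * ‖F.om (ic (T.E.X n w'))‖ := by
    rw [T.sO.hop, T.sO.hom]
    exact T.sO.hbd _
  set P := ‖F.pr (ic (T.E.X n w))‖ with hP
  set P' := ‖F.pr (ic (T.E.X n w'))‖ with hP'
  have hmn : 0 < T.E.m ^ n := pow_pos hm n
  have p1 : P ≤ T.E.m ^ n * (T.E.r * T.RD + 2 * T.E.r) := by
    rw [hP, T.E.pr_X, norm_mul, norm_pow, T.E.norm_mu]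
    exact mul_le_mul_of_nonneg_left h1 hmn.le
  have p2 : T.E.m ^ n * (T.E.r * T.RD - 2 * T.E.r) ≤ P' := by
    rw [hP', T.E.pr_X, norm_mul, norm_pow, T.E.norm_mu]
    exact mul_le_mul_of_nonneg_left h2 hmn.le
  have hP0 : 0 ≤ P' := norm_nonneg _
  -- `P ≤ (1 + |c|)/2 * P'`
  have p3 : P ≤ (1 + ‖c‖) / 2 * P' := by
    have h3 : T.E.r * T.RD + 2 * T.E.r ≤ (1 + ‖c‖) / 2 * (T.E.r * T.RD - 2 * T.E.r) := by
      have := mul_le_mul_of_nonneg_left T.tRD0 (show 0 ≤ T.E.r by linarith)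
      nlinarith
    have h4 := mul_le_mul_of_nonneg_left h3 hmn.le
    have h5 := mul_le_mul_of_nonneg_left p2 (show 0 ≤ (1 + ‖c‖) / 2 by linarith)
    nlinarith
  have p4 : (‖c‖ - 1) / 2 * P' ≤ ‖F.pr (ic (T.E.X n w)) - c * F.pr (ic (T.E.X n w'))‖ := by
    have := norm_sub_norm_le (c * F.pr (ic (T.E.X n w'))) (F.pr (ic (T.E.X n w)))
    rw [norm_mul, norm_sub_rev] at this
    nlinarith
  rw [e1, e2]
  have o3 : ‖F.om (ic (T.sI.op (T.E.X n w)) - ic (T.sO.op (T.E.X n w')))‖ ≤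
      ‖F.om (ic (T.E.X n w))‖ + T.CM * ‖F.om (ic (T.E.X n w'))‖ := by
    rw [map_sub]
    refine (norm_sub_le _ _).trans ?_
    rw [e3]
    linarith
  refine o3.trans ?_
  -- multiply by `0.66 r`
  have hS := ES (T := T)
  have h66 : 0 < 66 / 100 * T.E.r := by linarith
  refine le_of_mul_le_mul_left ?_ h66
  have q1 : 66 / 100 * T.E.r * (‖F.om (ic (T.E.X n w))‖ + T.CM * ‖F.om (ic (T.E.X n w'))‖) ≤
      T.E.S * P + T.CM * (T.E.S * P') := by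
    have := mul_le_mul_of_nonneg_left o2 (show 0 ≤ T.CM by linarith)
    nlinarith
  have q2 : T.E.S * P + T.CM * (T.E.S * P') ≤ T.E.S * (1 + T.CM) * (‖c‖ * P') := by
    have h3 : P ≤ ‖c‖ * P' := by
      refine p3.trans ?_
      apply mul_le_mul_of_nonneg_right _ hP0
      linarith
    have h4 : P' ≤ ‖c‖ * P' := by nlinarith
    have h5 := mul_le_mul_of_nonneg_left h3 hS
    have h6 := mul_le_mul_of_nonneg_left h4 (show 0 ≤ T.CM * T.E.S by positivity)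
    nlinarith
  have q3 : T.E.S * (1 + T.CM) * (‖c‖ * P') ≤
      T.R.Lw / 2 * (66 / 100 * T.E.r) * ((‖c‖ - 1) / (2 * ‖c‖)) * (‖c‖ * P') :=
    mul_le_mul_of_nonneg_right T.tH1' (by positivity)
  have q4 : T.R.Lw / 2 * (66 / 100 * T.E.r) * ((‖c‖ - 1) / (2 * ‖c‖)) * (‖c‖ * P') =
      66 / 100 * T.E.r * (T.R.Lw / 2 * ((‖c‖ - 1) / 2 * P')) := by
    field_simp
  have q5 : 66 / 100 * T.E.r * (T.R.Lw / 2 * ((‖c‖ - 1) / 2 * P')) ≤
      66 / 100 * T.E.r * (T.R.Lw / 2 * ‖F.pr (ic (T.E.X n w)) - c * F.pr (ic (T.E.X n w'))‖) := by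
    apply mul_le_mul_of_nonneg_left _ h66.le
    exact mul_le_mul_of_nonneg_left p4 (by linarith)
  linarith

theorem nf_ok : T.R.NFok T.NF := by
  refine ⟨?_, ?_⟩
  · rintro b (hb | hb)
    · exact obs_H0 _ _ hb
    · exact obs_H0 _ _ hb
  · intro n
    refine ⟨?_, ?_⟩
    · rintro b (hb | hb) b' (hb' | hb')
      · exact obs_same _ _ _ hb hb'
      · exact obs_cross _ hb hb'
      · have := obs_cross _ hb' hb
        rw [← norm_neg, ← map_neg, neg_sub, norm_sub_rev]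
        exact this
      · exact obs_same _ _ _ hb hb'
    · rintro b (hb | hb)
      · obtain ⟨bp, h1, h2⟩ := obs_H2 _ _ _ hb
        exact ⟨bp, Or.inl h1, h2⟩
      · obtain ⟨bp, h1, h2⟩ := obs_H2 _ _ _ hb
        exact ⟨bp, Or.inr h1, h2⟩

end Two

end Pool.Agent.H82
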