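import Pool.Agent.H82.StepDef

set_option autoImplicit false

open Set

namespace Pool.Agent.H82

theorem Lift.decomp {c : ℂ} (F : Lift c) (t : Fin F.d → ℝ) : t = F.em (F.pr t) + F.om t := by
  rw [F.om_apply]; abel

namespace Cf
variable {c : ℂ} {F : Lift c} (C : Cf F)

section level
variable {C} {l : Lev F.d} {N : Set (Fin F.d → ℤ)}

theorem n1_nonneg' (u : Z2) : (0 : ℝ) ≤ n1 u := Nat.cast_nonneg _

theorem Cppos : 0 < C.Cp := by linarith [C.Cp1]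

theorem Inv.pr_up (h : C.Inv l N) (u v : Z2) :
    ‖F.pr (ic (l.x u)) - F.pr (ic (l.x v))‖ ≤ (C.r + 2 * C.Cp) * n1 (u - v) := by
  have h1 := h.a u v
  have h2 : F.pr (ic (l.x u)) - F.pr (ic (l.x v)) =
      (F.pr (ic (l.x u)) - F.pr (ic (l.x v)) - C.r * tc (u - v)) + C.r * tc (u - v) := by ring
  have h3 : ‖(C.r : ℂ) * tc (u - v)‖ ≤ C.r * n1 (u - v) := by
    rw [norm_mul, Complex.norm_real, Real.norm_eq_abs, abs_of_pos (by linarith [C.rpos])]
    exact mul_le_mul_of_nonneg_left (norm_tc_le _) (by linarith [C.rpos])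
  rw [h2]
  refine (norm_add_le _ _).trans ?_
  linarith

theorem Inv.pr_low (h : C.Inv l N) (u v : Z2) :
    C.r * ‖tc (u - v)‖ - 2 * C.Cp * n1 (u - v) ≤ ‖F.pr (ic (l.x u)) - F.pr (ic (l.x v))‖ := by
  have h1 := h.a u v
  have h2 : (C.r : ℂ) * tc (u - v) = (F.pr (ic (l.x u)) - F.pr (ic (l.x v))) -
      (F.pr (ic (l.x u)) - F.pr (ic (l.x v)) - C.r * tc (u - v)) := by ring
  have h3 : ‖(C.r : ℂ) * tc (u - v)‖ = C.r * ‖tc (u - v)‖ := by
    rw [norm_mul, Complex.norm_real, Real.norm_eq_abs, abs_of_pos (by linarith [C.rpos])]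
  rw [← h3, h2]
  have := norm_sub_le (F.pr (ic (l.x u)) - F.pr (ic (l.x v)))
    (F.pr (ic (l.x u)) - F.pr (ic (l.x v)) - C.r * tc (u - v))
  linarith

theorem Inv.pr_low' (h : C.Inv l N) (u v : Z2) :
    66 / 100 * C.r * n1 (u - v) ≤ ‖F.pr (ic (l.x u)) - F.pr (ic (l.x v))‖ := by
  refine le_trans ?_ (h.pr_low u v)
  have h1 := n1_le (u - v)
  have h2 := C.hr
  have h3 := C.rpos
  have h4 : (0 : ℝ) ≤ n1 (u - v) := n1_nonneg' _
  have h5 := C.Cp1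
  nlinarith

theorem Inv.pr_up' (h : C.Inv l N) (u v : Z2) :
    ‖F.pr (ic (l.x u)) - F.pr (ic (l.x v))‖ ≤ 101 / 100 * C.r * n1 (u - v) := by
  refine (h.pr_up u v).trans ?_
  have h2 := C.hr
  have h4 : (0 : ℝ) ≤ n1 (u - v) := n1_nonneg' _
  have h5 := C.Cp1
  nlinarith

theorem Inv.ic_bd (h : C.Inv l N) (u v : Z2) :
    ‖ic (l.x u) - ic (l.x v)‖ ≤ (C.Ce * (C.r + 2 * C.Cp) + C.S) * n1 (u - v) := by
  rw [F.decomp (ic (l.x u) - ic (l.x v))]
  refine (norm_add_le _ _).trans ?_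
  have h1 := C.hCe (F.pr (ic (l.x u) - ic (l.x v)))
  have h2 := h.pr_up u v
  have h3 := h.b u v
  rw [map_sub] at h1 ⊢
  have h4 := mul_le_mul_of_nonneg_left h2 (show 0 ≤ C.Ce by linarith [C.Ce1])
  nlinarith

/-- near-lattice property of the centres -/
theorem Inv.near (h : C.Inv l N) (u v : Z2) :
    ‖tc (C.cen l.x u - C.cen l.x v) - C.m * tc (u - v)‖ ≤ C.m / 300 * n1 (u - v) := by
  have hrp : 0 < C.r := by linarith [C.rpos]
  have hmp := C.mpos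
  have hn := n1_nonneg' (u - v)
  set a := l.x u - l.x v with ha
  have e0 : C.cen l.x u - C.cen l.x v = C.g a := by rw [cen, cen, ha, g_sub]
  have hica : ic a = ic (l.x u) - ic (l.x v) := ic_sub _ _
  have h1 := C.g_err a
  have h2 := h.ic_bd u v
  rw [← hica] at h2
  have h3 := h.a u v
  rw [← map_sub, ← hica] at h3
  rw [e0]
  have e1 : tc (C.g a) - C.m * tc (u - v) =
      (tc (C.g a) - C.mu * F.pr (ic a) / C.r) +
      (C.mu * (F.pr (ic a) - C.r * tc (u - v)) / C.r + (C.mu - C.m) * tc (u - v)) := by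
    have : (C.r : ℂ) ≠ 0 := by exact_mod_cast hrp.ne'
    field_simp
    ring
  rw [e1]
  have h4 : ‖C.mu * (F.pr (ic a) - C.r * tc (u - v)) / C.r‖ ≤ C.m / 1000 * n1 (u - v) := by
    rw [norm_div, norm_mul, C.norm_mu, Complex.norm_real, Real.norm_eq_abs, abs_of_pos hrp,
      div_le_iff₀ hrp]
    have h5 := mul_le_mul_of_nonneg_left h3 hmp.le
    have h6 := C.hr
    have h7 : C.m * (2 * C.Cp * n1 (u - v)) ≤ C.m * (C.r / 1000 * n1 (u - v)) := by
      apply mul_le_mul_of_nonneg_left _ hmp.le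
      apply mul_le_mul_of_nonneg_right _ hn
      linarith
    nlinarith
  have h8 : ‖(C.mu - C.m) * tc (u - v)‖ ≤ C.m / 1000 * n1 (u - v) := by
    rw [norm_mul]
    have h9 : ‖C.mu - (C.m : ℂ)‖ ≤ C.m / 1000 := by
      have := C.hmu
      simpa [mu, m] using this
    exact mul_le_mul h9 (norm_tc_le _) (norm_nonneg _) (by positivity)
  have h10 : (F.d : ℝ) * ‖ic a‖ ≤ C.m / 1000 * n1 (u - v) := by
    have h11 := mul_le_mul_of_nonneg_left h2 (Nat.cast_nonneg F.d : (0 : ℝ) ≤ F.d)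
    have h12 := mul_le_mul_of_nonneg_right C.hg hn
    rw [← C.m_eq] at h12
    linarith
  refine (norm_add_le _ _).trans ?_
  have h13 := norm_add_le (C.mu * (F.pr (ic a) - C.r * tc (u - v)) / C.r) ((C.mu - C.m) * tc (u - v))
  nlinarith

theorem abs_n1_sub_le (u : Z2) (m : ℝ) (hm : 0 ≤ m) (w : Z2)
    (h : ‖tc u - m * tc w‖ ≤ m / 300 * n1 w) : |(n1 u : ℝ) - m * n1 w| ≤ m / 150 * n1 w := by
  have h1 : |(tc u - m * tc w).re| ≤ m / 300 * n1 w := (Complex.abs_re_le_norm _).trans h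
  have h2 : |(tc u - m * tc w).im| ≤ m / 300 * n1 w := (Complex.abs_im_le_norm _).trans h
  have e1 : (tc u - m * tc w).re = (u.1 : ℝ) - m * w.1 := by simp [tc]
  have e2 : (tc u - m * tc w).im = (u.2 : ℝ) - m * w.2 := by simp [tc]
  rw [e1] at h1
  rw [e2] at h2
  rw [n1_cast u]
  have h3 : (n1 w : ℝ) = |(w.1 : ℝ)| + |(w.2 : ℝ)| := n1_cast w
  have h4 : |(u.1 : ℝ)| - m * |(w.1 : ℝ)| ≤ |(u.1 : ℝ) - m * w.1| := by
    have := abs_sub_abs_le_abs_sub (u.1 : ℝ) (m * w.1)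
    rwa [abs_mul, abs_of_nonneg hm] at this
  have h5 : m * |(w.1 : ℝ)| - |(u.1 : ℝ)| ≤ |(u.1 : ℝ) - m * w.1| := by
    have := abs_sub_abs_le_abs_sub (m * w.1) (u.1 : ℝ)
    rwa [abs_mul, abs_of_nonneg hm, abs_sub_comm] at this
  have h6 : |(u.2 : ℝ)| - m * |(w.2 : ℝ)| ≤ |(u.2 : ℝ) - m * w.2| := by
    have := abs_sub_abs_le_abs_sub (u.2 : ℝ) (m * w.2)
    rwa [abs_mul, abs_of_nonneg hm] at this
  have h7 : m * |(w.2 : ℝ)| - |(u.2 : ℝ)| ≤ |(u.2 : ℝ) - m * w.2| := by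
    have := abs_sub_abs_le_abs_sub (m * w.2) (u.2 : ℝ)
    rwa [abs_mul, abs_of_nonneg hm, abs_sub_comm] at this
  rw [abs_le]
  constructor <;> nlinarith

theorem Inv.near1 (h : C.Inv l N) (u v : Z2) :
    |(n1 (C.cen l.x u - C.cen l.x v) : ℝ) - C.m * n1 (u - v)| ≤ C.m / 150 * n1 (u - v) :=
  abs_n1_sub_le _ _ C.mpos.le _ (h.near u v)

theorem Inv.near_low (h : C.Inv l N) (u v : Z2) :
    149 / 150 * C.m * n1 (u - v) ≤ n1 (C.cen l.x u - C.cen l.x v) := by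
  have := (abs_le.1 (h.near1 u v)).1
  linarith

theorem Inv.near_up (h : C.Inv l N) (u v : Z2) :
    (n1 (C.cen l.x u - C.cen l.x v) : ℝ) ≤ 151 / 150 * C.m * n1 (u - v) := by
  have := (abs_le.1 (h.near1 u v)).2
  linarith

theorem Inv.cen_inj (h : C.Inv l N) {u v : Z2} (huv : C.cen l.x u = C.cen l.x v) : u = v := by
  have h1 := h.near_low u v
  rw [huv, sub_self, n1_zero] at h1
  have hmp := C.mpos
  have h2 : (n1 (u - v) : ℝ) ≤ 0 := by
    by_contra h3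
    push Not at h3
    have : 0 < 149 / 150 * C.m * n1 (u - v) := by positivity
    simp at h1
    linarith
  have h3 : n1 (u - v) = 0 := by
    have : (n1 (u - v) : ℝ) = 0 := le_antisymm h2 (n1_nonneg' _)
    exact_mod_cast this
  exact sub_eq_zero.1 (n1_eq_zero.1 h3)

/-- every site is close to a centre -/
theorem Inv.dense (h : C.Inv l N) (u : Z2) : ∃ v, (n1 (u - C.cen l.x v) : ℝ) ≤ 11 / 10 * C.m := by
  classical
  have hmp := C.mpos
  -- choose a minimiser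
  obtain ⟨v, hv⟩ : ∃ v, ∀ v', n1 (u - C.cen l.x v) ≤ n1 (u - C.cen l.x v') := by
    have hne : (Set.range (fun v => n1 (u - C.cen l.x v))).Nonempty := ⟨_, ⟨0, rfl⟩⟩
    obtain ⟨v, hv⟩ := Nat.sInf_mem hne
    refine ⟨v, fun v' => ?_⟩
    simp only at hv
    rw [hv]
    exact Nat.sInf_le ⟨v', rfl⟩
  refine ⟨v, ?_⟩
  by_contra hcon
  push Not at hcon
  -- moving by a unit vector changes the centre almost by `m` times it
  have hmove : ∀ e : Z2, n1 e = 1 →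
      |((C.cen l.x (v + e) - C.cen l.x v).1 : ℝ) - C.m * e.1| ≤ C.m / 300 ∧
      |((C.cen l.x (v + e) - C.cen l.x v).2 : ℝ) - C.m * e.2| ≤ C.m / 300 := by
    intro e he
    have h1 := h.near (v + e) v
    rw [add_sub_cancel_left, he] at h1
    have h2 := (Complex.abs_re_le_norm _).trans h1
    have h3 := (Complex.abs_im_le_norm _).trans h1
    have e1 : (tc (C.cen l.x (v + e) - C.cen l.x v) - C.m * tc e).re =
      ((C.cen l.x (v + e) - C.cen l.x v).1 : ℝ) - C.m * e.1 := by simp [tc]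
    have e2 : (tc (C.cen l.x (v + e) - C.cen l.x v) - C.m * tc e).im =
      ((C.cen l.x (v + e) - C.cen l.x v).2 : ℝ) - C.m * e.2 := by simp [tc]
    rw [e1] at h2
    rw [e2] at h3
    rw [Nat.cast_one, mul_one] at h2 h3
    exact ⟨h2, h3⟩
  set p := u - C.cen l.x v with hp
  have hcmp : ∀ e : Z2, n1 e = 1 → (n1 p : ℝ) ≤
      |(p.1 : ℝ) - C.m * e.1| + C.m / 300 + (|(p.2 : ℝ) - C.m * e.2| + C.m / 300) := by
    intro e he
    have h1 : n1 p ≤ n1 (u - C.cen l.x (v + e)) := hv (v + e)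
    have h2 : (n1 (u - C.cen l.x (v + e)) : ℝ) =
      |((u - C.cen l.x (v + e)).1 : ℝ)| + |((u - C.cen l.x (v + e)).2 : ℝ)| := n1_cast _
    have h3 : u - C.cen l.x (v + e) = p - (C.cen l.x (v + e) - C.cen l.x v) := by rw [hp]; abel
    have h4 : (n1 p : ℝ) ≤ n1 (u - C.cen l.x (v + e)) := by exact_mod_cast h1
    obtain ⟨h5, h6⟩ := hmove e he
    have h7 : ((u - C.cen l.x (v + e)).1 : ℝ) = ((p.1 : ℝ) - C.m * e.1) -
        (((C.cen l.x (v + e) - C.cen l.x v).1 : ℝ) - C.m * e.1) := by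
      rw [h3, Prod.fst_sub]; push_cast; ring
    have h8 : ((u - C.cen l.x (v + e)).2 : ℝ) = ((p.2 : ℝ) - C.m * e.2) -
        (((C.cen l.x (v + e) - C.cen l.x v).2 : ℝ) - C.m * e.2) := by
      rw [h3, Prod.snd_sub]; push_cast; ring
    have h9 := abs_sub ((p.1 : ℝ) - C.m * e.1)
        (((C.cen l.x (v + e) - C.cen l.x v).1 : ℝ) - C.m * e.1)
    have h10 := abs_sub ((p.2 : ℝ) - C.m * e.2)
        (((C.cen l.x (v + e) - C.cen l.x v).2 : ℝ) - C.m * e.2)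
    rw [← h7] at h9
    rw [← h8] at h10
    linarith
  have hn : (n1 p : ℝ) = |(p.1 : ℝ)| + |(p.2 : ℝ)| := n1_cast p
  have c1 := hcmp (1, 0) (by simp [n1])
  have c2 := hcmp (-1, 0) (by simp [n1])
  have c3 := hcmp (0, 1) (by simp [n1])
  have c4 := hcmp (0, -1) (by simp [n1])
  simp only [Int.cast_one, Int.cast_zero, Int.cast_neg, mul_one, mul_zero, sub_zero, mul_neg,
    sub_neg_eq_add] at c1 c2 c3 c4
  rcases abs_cases (p.1 : ℝ) with ⟨a1, a2⟩ | ⟨a1, a2⟩ <;>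
  rcases abs_cases (p.2 : ℝ) with ⟨b1, b2⟩ | ⟨b1, b2⟩ <;>
  rcases abs_cases ((p.1 : ℝ) - C.m) with ⟨d1, d2⟩ | ⟨d1, d2⟩ <;>
  rcases abs_cases ((p.1 : ℝ) + C.m) with ⟨e1, e2⟩ | ⟨e1, e2⟩ <;>
  rcases abs_cases ((p.2 : ℝ) - C.m) with ⟨f1, f2⟩ | ⟨f1, f2⟩ <;>
  rcases abs_cases ((p.2 : ℝ) + C.m) with ⟨g1, g2⟩ | ⟨g1, g2⟩ <;>
  linarith

/-- every point of the plane is close to a site position -/
theorem Inv.cover (h : C.Inv l N) (z : ℂ) : ∃ w, ‖z - F.pr (ic (l.x w))‖ ≤ C.r := by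
  have hrp : 0 < C.r := by linarith [C.rpos]
  obtain ⟨w, hw⟩ : ∃ w, ∀ w', ⌊‖z - F.pr (ic (l.x w))‖ / C.r⌋₊ ≤ ⌊‖z - F.pr (ic (l.x w'))‖ / C.r⌋₊ := by
    have hne : (Set.range (fun w => ⌊‖z - F.pr (ic (l.x w))‖ / C.r⌋₊)).Nonempty := ⟨_, ⟨0, rfl⟩⟩
    obtain ⟨v, hv⟩ := Nat.sInf_mem hne
    refine ⟨v, fun v' => ?_⟩
    simp only at hv
    rw [hv]
    exact Nat.sInf_le ⟨v', rfl⟩
  refine ⟨w, ?_⟩
  set E := ‖z - F.pr (ic (l.x w))‖ with hE
  have hE0 : 0 ≤ E := norm_nonneg _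
  by_contra hcon
  push Not at hcon
  set j := ⌊E / C.r⌋₊ with hj
  have hj1 : 1 ≤ j := by
    rw [hj, Nat.one_le_floor_iff, le_div_iff₀ hrp]
    linarith
  have hj2 : E < (j + 1) * C.r := by
    have := Nat.lt_floor_add_one (E / C.r)
    rw [← hj, div_lt_iff₀ hrp] at this
    exact this
  set q : Z2 := rz ((z - F.pr (ic (l.x w))) / C.r) with hq
  have hq1 := tc_rz' ((z - F.pr (ic (l.x w))) / C.r)
  rw [← hq] at hq1
  have h1 := h.a (w + q) w
  rw [add_sub_cancel_left] at h1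
  have hrc : (C.r : ℂ) ≠ 0 := by exact_mod_cast hrp.ne'
  have h2 : z - F.pr (ic (l.x (w + q))) =
      -(C.r * (tc q - (z - F.pr (ic (l.x w))) / C.r)) -
      (F.pr (ic (l.x (w + q))) - F.pr (ic (l.x w)) - C.r * tc q) := by
    field_simp
    ring
  have h3 : ‖(C.r : ℂ) * (tc q - (z - F.pr (ic (l.x w))) / C.r)‖ ≤ C.r * (3 / 4) := by
    rw [norm_mul, Complex.norm_real, Real.norm_eq_abs, abs_of_pos hrp]
    exact mul_le_mul_of_nonneg_left hq1 hrp.le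
  have h4 : ‖tc q‖ ≤ E / C.r + 3 / 4 := by
    have e1 : tc q = (tc q - (z - F.pr (ic (l.x w))) / C.r) + (z - F.pr (ic (l.x w))) / C.r := by ring
    rw [e1]
    refine (norm_add_le _ _).trans ?_
    have e2 : ‖(z - F.pr (ic (l.x w))) / (C.r : ℂ)‖ = E / C.r := by
      rw [norm_div, Complex.norm_real, Real.norm_eq_abs, abs_of_pos hrp]
    rw [e2]
    linarith
  have h5 := n1_le q
  have h6 : ‖z - F.pr (ic (l.x (w + q)))‖ ≤ C.r * (3 / 4) + 2 * C.Cp * n1 q := by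
    rw [h2]
    refine (norm_sub_le _ _).trans ?_
    rw [norm_neg]
    linarith
  have h7 : 2 * C.Cp * n1 q ≤ C.r / 1000 * (3 / 2 * (E / C.r + 3 / 4)) := by
    have := C.hr
    apply mul_le_mul (by linarith) (by linarith) (n1_nonneg' _) (by positivity)
  have h8 : C.r / 1000 * (3 / 2 * (E / C.r + 3 / 4)) = 3 / 2000 * E + 9 / 8000 * C.r := by
    field_simp
    ring
  have hjr : (1 : ℝ) ≤ j := by exact_mod_cast hj1
  have h9 : ‖z - F.pr (ic (l.x (w + q)))‖ / C.r < j := by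
    rw [div_lt_iff₀ hrp]
    nlinarith
  have h10 : ⌊‖z - F.pr (ic (l.x (w + q)))‖ / C.r⌋₊ < j := by
    rw [Nat.floor_lt (by positivity)]
    exact h9
  exact absurd (hw (w + q)) (not_le.2 h10)

/-- sharper covering constant -/
theorem Inv.cover' (h : C.Inv l N) (z : ℂ) : ∃ w, ‖z - F.pr (ic (l.x w))‖ ≤ 76 / 100 * C.r := by
  have hrp : 0 < C.r := by linarith [C.rpos]
  obtain ⟨w, hw⟩ := h.cover z
  set E := ‖z - F.pr (ic (l.x w))‖ with hE
  have hE0 : 0 ≤ E := norm_nonneg _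
  set q : Z2 := rz ((z - F.pr (ic (l.x w))) / C.r) with hq
  have hq1 := tc_rz' ((z - F.pr (ic (l.x w))) / C.r)
  rw [← hq] at hq1
  have h1 := h.a (w + q) w
  rw [add_sub_cancel_left] at h1
  have hrc : (C.r : ℂ) ≠ 0 := by exact_mod_cast hrp.ne'
  have h2 : z - F.pr (ic (l.x (w + q))) =
      -(C.r * (tc q - (z - F.pr (ic (l.x w))) / C.r)) -
      (F.pr (ic (l.x (w + q))) - F.pr (ic (l.x w)) - C.r * tc q) := by
    field_simp
    ring
  have h3 : ‖(C.r : ℂ) * (tc q - (z - F.pr (ic (l.x w))) / C.r)‖ ≤ C.r * (3 / 4) := by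
    rw [norm_mul, Complex.norm_real, Real.norm_eq_abs, abs_of_pos hrp]
    exact mul_le_mul_of_nonneg_left hq1 hrp.le
  have h4 : ‖tc q‖ ≤ 1 + 3 / 4 := by
    have e1 : tc q = (tc q - (z - F.pr (ic (l.x w))) / C.r) + (z - F.pr (ic (l.x w))) / C.r := by ring
    rw [e1]
    refine (norm_add_le _ _).trans ?_
    have e2 : ‖(z - F.pr (ic (l.x w))) / (C.r : ℂ)‖ = E / C.r := by
      rw [norm_div, Complex.norm_real, Real.norm_eq_abs, abs_of_pos hrp]
    rw [e2]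
    have e3 : E / C.r ≤ 1 := by rw [div_le_one hrp]; exact hw
    linarith
  have h5 := n1_le q
  refine ⟨w + q, ?_⟩
  rw [h2]
  refine (norm_sub_le _ _).trans ?_
  rw [norm_neg]
  have h6 : 2 * C.Cp * n1 q ≤ C.r / 1000 * (3 / 2 * (1 + 3 / 4)) := by
    have := C.hr
    apply mul_le_mul (by linarith) (by linarith) (n1_nonneg' _) (by positivity)
  linarith

theorem Inv.U_lip (h : C.Inv l N) (u v : Z2) :
    ‖F.em (C.V l.x u) - F.em (C.V l.x v)‖ ≤ 1 / 2 * ‖tc (C.cen l.x u) - tc (C.cen l.x v)‖ := by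
  have hrp : 0 < C.r := by linarith [C.rpos]
  have hmp := C.mpos
  have hn := n1_nonneg' (u - v)
  have hCe := C.Ce1
  set a := l.x u - l.x v with ha
  have hica : ic a = ic (l.x u) - ic (l.x v) := ic_sub _ _
  have e0 : tc (C.cen l.x u) - tc (C.cen l.x v) = tc (C.g a) := by
    rw [cen, cen, ha, g_sub, tc_sub]
  have hrc : (C.r : ℂ) ≠ 0 := by exact_mod_cast hrp.ne'
  have e1 : C.V l.x u - C.V l.x v = - (C.r * (tc (C.g a) - C.mu * F.pr (ic a) / C.r)) := by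
    rw [V, V, ← e0, hica, map_sub]
    field_simp
    ring
  have h1 := C.g_err a
  have h2 := h.ic_bd u v
  rw [← hica] at h2
  rw [← map_sub]
  refine (C.hCe _).trans ?_
  have h3 : ‖C.V l.x u - C.V l.x v‖ ≤ C.r * (F.d * ((C.Ce * (C.r + 2 * C.Cp) + C.S) * n1 (u - v))) := by
    rw [e1, norm_neg, norm_mul, Complex.norm_real, Real.norm_eq_abs, abs_of_pos hrp]
    apply mul_le_mul_of_nonneg_left _ hrp.le
    refine h1.trans ?_
    exact mul_le_mul_of_nonneg_left h2 (Nat.cast_nonneg _)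
  have h4 := mul_le_mul_of_nonneg_left h3 (show 0 ≤ C.Ce by linarith)
  refine h4.trans ?_
  have h5 := mul_le_mul_of_nonneg_right C.hV hn
  rw [← C.m_eq] at h5
  have h6 := h.near u v
  have h7 := n1_le (u - v)
  have h8 : C.m * ‖tc (u - v)‖ - C.m / 300 * n1 (u - v) ≤ ‖tc (C.cen l.x u) - tc (C.cen l.x v)‖ := by
    rw [← tc_sub]
    have e2 : (C.m : ℂ) * tc (u - v) = tc (C.cen l.x u - C.cen l.x v) -
      (tc (C.cen l.x u - C.cen l.x v) - C.m * tc (u - v)) := by ring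
    have e3 : C.m * ‖tc (u - v)‖ = ‖(C.m : ℂ) * tc (u - v)‖ := by
      rw [norm_mul, Complex.norm_real, Real.norm_eq_abs, abs_of_pos hmp]
    rw [e3, e2]
    have := norm_sub_le (tc (C.cen l.x u - C.cen l.x v))
      (tc (C.cen l.x u - C.cen l.x v) - C.m * tc (u - v))
    linarith
  nlinarith

theorem Inv.U_lip1 (h : C.Inv l N) : ∀ u ∈ (univ : Set Z2), ∀ v ∈ (univ : Set Z2),
    ‖F.em (C.V l.x u) - F.em (C.V l.x v)‖ ≤ 1 * ‖tc (C.cen l.x u) - tc (C.cen l.x v)‖ := by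
  intro u _ v _
  have := h.U_lip u v
  have h0 := norm_nonneg (tc (C.cen l.x u) - tc (C.cen l.x v))
  linarith

theorem Inv.U_lipschitz (h : C.Inv l N) (z z' : ℂ) : ‖C.U l.x z - C.U l.x z'‖ ≤ C.Cp * ‖z - z'‖ := by
  rw [U, U, ← map_sub]
  refine (C.hCp _).trans ?_
  apply mul_le_mul_of_nonneg_left _ (by linarith [C.Cp1])
  have := mc_lip (by norm_num : (0 : ℝ) ≤ 1) h.U_lip1 z z'
  rwa [one_mul] at this

theorem Inv.U_exact (h : C.Inv l N) (v : Z2) : C.U l.x (tc (C.cen l.x v)) = C.V l.x v := by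
  rw [U, mc_exact (P := fun v => tc (C.cen l.x v)) (by norm_num : (0 : ℝ) ≤ 1) h.U_lip1 (mem_univ v),
    F.pr_em]

theorem Inv.hh_cen (h : C.Inv l N) (v : Z2) : C.hh l.x (C.cen l.x v) = C.mu * F.pr (ic (l.x v)) := by
  rw [hh, h.U_exact, V]; ring

theorem Inv.hh_diff (h : C.Inv l N) (u v : Z2) :
    ‖C.hh l.x u - C.hh l.x v - C.r * tc (u - v)‖ ≤ C.Cp * n1 (u - v) := by
  have e : C.hh l.x u - C.hh l.x v - C.r * tc (u - v) = C.U l.x (tc u) - C.U l.x (tc v) := by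
    rw [hh, hh, tc_sub]; ring
  rw [e]
  refine (h.U_lipschitz _ _).trans ?_
  rw [← tc_sub]
  exact mul_le_mul_of_nonneg_left (norm_tc_le _) (by linarith [C.Cp1])

theorem Inv.hh_up (h : C.Inv l N) (u v : Z2) :
    ‖C.hh l.x u - C.hh l.x v‖ ≤ (C.r + C.Cp) * n1 (u - v) := by
  have h1 := h.hh_diff u v
  have h2 : C.hh l.x u - C.hh l.x v =
      (C.hh l.x u - C.hh l.x v - C.r * tc (u - v)) + C.r * tc (u - v) := by ring
  have h3 : ‖(C.r : ℂ) * tc (u - v)‖ ≤ C.r * n1 (u - v) := by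
    rw [norm_mul, Complex.norm_real, Real.norm_eq_abs, abs_of_pos (by linarith [C.rpos])]
    exact mul_le_mul_of_nonneg_left (norm_tc_le _) (by linarith [C.rpos])
  rw [h2]
  refine (norm_add_le _ _).trans ?_
  linarith

theorem Inv.mixed (h : C.Inv l N) {N' : Set (Fin F.d → ℤ)} (hN : C.NFrel N N') {b : Fin F.d → ℤ}
    (hb : b ∈ N') {v : Z2} (hv : v ∈ l.I) :
    ‖F.om (ic b) - F.om (ic (C.A (l.x v)))‖ ≤
      C.Lw / 2 * ‖F.pr (ic b) - F.pr (ic (C.A (l.x v)))‖ := by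
  obtain ⟨bp, hbp, h1, h2⟩ := hN.H2 b hb
  have hmp := C.mpos
  have h3 := h.cl v hv bp hbp
  have h4 := h.co v hv bp hbp
  set ρ := ‖F.pr (ic (l.x v)) - F.pr (ic bp)‖ with hρ
  have hrp := C.rpos
  have hc1 := C.hc1
  have hk1 := C.k1n
  have hk2 := C.k2n
  have hε := C.hε
  have hc1p : 0 < C.c1 := by linarith
  have e1 : F.om (ic b) - F.om (ic (C.A (l.x v))) =
      F.om (ic b - ic (C.A bp)) - (F.M ^ C.k) (F.om (ic (l.x v) - ic bp)) := by
    rw [← F.om_Mpow, map_sub (F.M ^ C.k), ← C.A_ic, ← C.A_ic, map_sub, map_sub]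
    abel
  have h5 : ‖(F.M ^ C.k) (F.om (ic (l.x v) - ic bp))‖ ≤ C.ε * C.m * (C.S' * ρ) := by
    refine (C.hA _ (F.pr_om _)).trans ?_
    rw [← C.m_eq]
    exact mul_le_mul_of_nonneg_left h4 (by positivity)
  have e2 : F.pr (ic b) - F.pr (ic (C.A (l.x v))) =
      (F.pr (ic b) - C.mu * F.pr (ic bp)) - C.mu * (F.pr (ic (l.x v)) - F.pr (ic bp)) := by
    rw [C.pr_A]; ring
  have h6 : C.m * ρ - C.k1 * C.m ≤ ‖F.pr (ic b) - F.pr (ic (C.A (l.x v)))‖ := by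
    have e3 : ‖C.mu * (F.pr (ic (l.x v)) - F.pr (ic bp))‖ = C.m * ρ := by
      rw [norm_mul, C.norm_mu]
    have e4 : C.mu * (F.pr (ic (l.x v)) - F.pr (ic bp)) = (F.pr (ic b) - C.mu * F.pr (ic bp)) -
        (F.pr (ic b) - F.pr (ic (C.A (l.x v)))) := by rw [e2]; ring
    rw [← e3, e4]
    have := norm_sub_le (F.pr (ic b) - C.mu * F.pr (ic bp)) (F.pr (ic b) - F.pr (ic (C.A (l.x v))))
    linarith
  rw [e1]
  refine (norm_sub_le _ _).trans ?_
  have h7 : C.m * ρ / 2 ≤ C.m * ρ - C.k1 * C.m := by nlinarith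
  have h8 := C.hk2
  have h9 : 0 ≤ C.Lw - 4 * C.ε * C.S' := by
    by_contra hcon
    push Not at hcon
    nlinarith
  have h10 : 4 * C.ε * C.S' * ρ + 4 * C.k2 ≤ C.Lw * ρ := by
    nlinarith
  have h11 : C.k2 * C.m + C.ε * C.m * (C.S' * ρ) ≤ C.Lw / 2 * (C.m * ρ / 2) := by
    have := mul_le_mul_of_nonneg_left h10 hmp.le
    nlinarith
  have h12 : C.Lw / 2 * (C.m * ρ / 2) ≤ C.Lw / 2 * ‖F.pr (ic b) - F.pr (ic (C.A (l.x v)))‖ :=
    mul_le_mul_of_nonneg_left (by linarith) (by linarith [C.hLw])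
  linarith

/-- the data for the transversal interpolation is `Lw / 2`-Lipschitz -/
theorem Inv.dat_lip (h : C.Inv l N) {N' : Set (Fin F.d → ℤ)} (hN : C.NFrel N N') :
    ∀ b ∈ C.Dat l N', ∀ b' ∈ C.Dat l N',
      ‖F.om (ic b) - F.om (ic b')‖ ≤ C.Lw / 2 * ‖F.pr (ic b) - F.pr (ic b')‖ := by
  have hmp := C.mpos
  rintro b (hb | ⟨v, hv, rfl⟩) b' (hb' | ⟨v', hv', rfl⟩)
  · rw [← map_sub]; exact hN.H1 b hb b' hb'
  · exact h.mixed hN hb hv'
  · rw [norm_sub_rev, norm_sub_rev (F.pr _)]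
    exact h.mixed hN hb' hv
  · simp only
    have e1 : F.om (ic (C.A (l.x v))) - F.om (ic (C.A (l.x v'))) =
        (F.M ^ C.k) (F.om (ic (l.x v) - ic (l.x v'))) := by
      rw [C.om_A, C.om_A, ← map_sub, ← map_sub]
    have h1 := C.hA (F.om (ic (l.x v) - ic (l.x v'))) (F.pr_om _)
    have h2 := h.b v v'
    have h3 := h.pr_low' v v'
    have e2 : ‖F.pr (ic (C.A (l.x v))) - F.pr (ic (C.A (l.x v')))‖ =
        C.m * ‖F.pr (ic (l.x v)) - F.pr (ic (l.x v'))‖ := by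
      rw [C.pr_A, C.pr_A, ← mul_sub, norm_mul, C.norm_mu]
    rw [e1, e2]
    rw [← C.m_eq] at h1
    refine h1.trans ?_
    have hn := n1_nonneg' (v - v')
    have hε := C.hε
    have h4 : C.ε * C.m * ‖F.om (ic (l.x v) - ic (l.x v'))‖ ≤ C.ε * C.m * (C.S * n1 (v - v')) :=
      mul_le_mul_of_nonneg_left h2 (by positivity)
    have h5 : C.Lw / 2 * (C.m * (66 / 100 * C.r * n1 (v - v'))) ≤
        C.Lw / 2 * (C.m * ‖F.pr (ic (l.x v)) - F.pr (ic (l.x v'))‖) := by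
      apply mul_le_mul_of_nonneg_left _ (by linarith [C.hLw])
      exact mul_le_mul_of_nonneg_left h3 hmp.le
    have h6 := C.hεS
    have h7 := mul_le_mul_of_nonneg_right h6 (show 0 ≤ C.m * n1 (v - v') by positivity)
    have h8 : 0 ≤ C.Lw * C.r * (C.m * n1 (v - v')) := by
      have := C.hLw
      have := C.rpos
      positivity
    nlinarith

theorem Inv.dat_lip' (h : C.Inv l N) {N' : Set (Fin F.d → ℤ)} (hN : C.NFrel N N') :
    ∀ b ∈ C.Dat l N', ∀ b' ∈ C.Dat l N',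
      ‖F.om (ic b) - F.om (ic b')‖ ≤ C.Lw * ‖F.pr (ic b) - F.pr (ic b')‖ := by
  intro b hb b' hb'
  refine (h.dat_lip hN b hb b' hb').trans ?_
  have := C.hLw
  have := norm_nonneg (F.pr (ic b) - F.pr (ic b'))
  nlinarith

theorem Inv.W_lip (h : C.Inv l N) {N' : Set (Fin F.d → ℤ)} (hN : C.NFrel N N') (z z' : ℂ) :
    ‖C.Wf l N' z - C.Wf l N' z'‖ ≤ C.Lw * ‖z - z'‖ :=
  mc_lip C.hLw.le (h.dat_lip' hN) z z'

theorem Inv.W_exact (h : C.Inv l N) {N' : Set (Fin F.d → ℤ)} (hN : C.NFrel N N')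
    {b : Fin F.d → ℤ} (hb : b ∈ C.Dat l N') : C.Wf l N' (F.pr (ic b)) = F.om (ic b) :=
  mc_exact (P := fun b => F.pr (ic b)) C.hLw.le (h.dat_lip' hN) hb

/-- the rounding error -/
noncomputable def er (t : Fin F.d → ℝ) : Fin F.d → ℝ := ic (rnd t) - t

theorem er_norm (t : Fin F.d → ℝ) : ‖er (F := F) t‖ ≤ 1 / 2 := norm_rnd_sub t

theorem pr_er (t : Fin F.d → ℝ) : ‖F.pr (er (F := F) t)‖ ≤ C.Cp / 2 := by
  refine (C.hCp _).trans ?_
  have := mul_le_mul_of_nonneg_left (er_norm (F := F) t) (show 0 ≤ C.Cp by linarith [C.Cp1])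
  linarith

theorem om_er (t : Fin F.d → ℝ) : ‖F.om (er (F := F) t)‖ ≤ C.Co / 2 := by
  refine (C.hCo _).trans ?_
  have := mul_le_mul_of_nonneg_left (er_norm (F := F) t) (show 0 ≤ C.Co by linarith [C.Co1])
  linarith

theorem y_eq (N' : Set (Fin F.d → ℤ)) (u : Z2) : ∃ e : Fin F.d → ℝ,
    ‖F.pr e‖ ≤ C.Cp / 2 ∧ ‖F.om e‖ ≤ C.Co / 2 ∧
    F.pr (ic (C.y l N' u)) = C.hh l.x u + F.pr e ∧
    F.om (ic (C.y l N' u)) = F.om (C.Wf l N' (C.hh l.x u)) + F.om e := by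
  refine ⟨er (F := F) (F.em (C.hh l.x u) + F.om (C.Wf l N' (C.hh l.x u))), pr_er _, om_er _, ?_, ?_⟩
  · have : ic (C.y l N' u) = (F.em (C.hh l.x u) + F.om (C.Wf l N' (C.hh l.x u))) +
        er (F := F) (F.em (C.hh l.x u) + F.om (C.Wf l N' (C.hh l.x u))) := by
      rw [y, er]; abel
    rw [this, map_add, map_add, F.pr_em, F.pr_om, add_zero]
  · have : ic (C.y l N' u) = (F.em (C.hh l.x u) + F.om (C.Wf l N' (C.hh l.x u))) +
        er (F := F) (F.em (C.hh l.x u) + F.om (C.Wf l N' (C.hh l.x u))) := by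
      rw [y, er]; abel
    rw [this, map_add, map_add, F.om_em, F.om_om, zero_add]

theorem Inv.y_exact (h : C.Inv l N) {N' : Set (Fin F.d → ℤ)} (hN : C.NFrel N N')
    {v : Z2} (hv : v ∈ l.I) : C.y l N' (C.cen l.x v) = C.A (l.x v) := by
  have h1 : C.A (l.x v) ∈ C.Dat l N' := Or.inr ⟨v, hv, rfl⟩
  rw [y, h.hh_cen, ← C.pr_A, h.W_exact hN h1, F.om_om, ← F.decomp, rnd_ic]

theorem Inv.step (h : C.Inv l N) {N' : Set (Fin F.d → ℤ)} (hN : C.NFrel N N') :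
    C.Inv (C.step l N') N' := by
  have hCp := C.Cp1
  have hCo := C.Co1
  have hLw := C.hLw
  have hrp := C.rpos
  refine ⟨?_, ?_, ?_, ?_⟩
  · intro u v
    change ‖F.pr (ic (C.y l N' u)) - F.pr (ic (C.y l N' v)) - C.r * tc (u - v)‖ ≤ _
    by_cases huv : u = v
    · subst huv; simp
    obtain ⟨e, he1, -, he3, -⟩ := y_eq (C := C) (l := l) N' u
    obtain ⟨e', he1', -, he3', -⟩ := y_eq (C := C) (l := l) N' v
    have h1 := h.hh_diff u v
    have hn : (1 : ℝ) ≤ n1 (u - v) := by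
      have : n1 (u - v) ≠ 0 := fun h0 => huv (sub_eq_zero.1 (n1_eq_zero.1 h0))
      exact_mod_cast Nat.one_le_iff_ne_zero.2 this
    have e1 : F.pr (ic (C.y l N' u)) - F.pr (ic (C.y l N' v)) - C.r * tc (u - v) =
        (C.hh l.x u - C.hh l.x v - C.r * tc (u - v)) + (F.pr e - F.pr e') := by
      rw [he3, he3']; ring
    rw [e1]
    refine (norm_add_le _ _).trans ?_
    have h2 := norm_sub_le (F.pr e) (F.pr e')
    nlinarith
  · intro u v
    change ‖F.om (ic (C.y l N' u) - ic (C.y l N' v))‖ ≤ _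
    by_cases huv : u = v
    · subst huv; simp
    obtain ⟨e, -, he2, -, he4⟩ := y_eq (C := C) (l := l) N' u
    obtain ⟨e', -, he2', -, he4'⟩ := y_eq (C := C) (l := l) N' v
    have hn : (1 : ℝ) ≤ n1 (u - v) := by
      have : n1 (u - v) ≠ 0 := fun h0 => huv (sub_eq_zero.1 (n1_eq_zero.1 h0))
      exact_mod_cast Nat.one_le_iff_ne_zero.2 this
    have e1 : F.om (ic (C.y l N' u) - ic (C.y l N' v)) =
        F.om (C.Wf l N' (C.hh l.x u) - C.Wf l N' (C.hh l.x v)) + (F.om e - F.om e') := by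
      rw [map_sub, he4, he4', map_sub]; abel
    rw [e1]
    refine (norm_add_le _ _).trans ?_
    have h2 := norm_sub_le (F.om e) (F.om e')
    have h3 := C.hCo (C.Wf l N' (C.hh l.x u) - C.Wf l N' (C.hh l.x v))
    have h4 := h.W_lip hN (C.hh l.x u) (C.hh l.x v)
    have h5 := h.hh_up u v
    have h6 : C.Co * ‖C.Wf l N' (C.hh l.x u) - C.Wf l N' (C.hh l.x v)‖ ≤
        C.Co * (C.Lw * ((C.r + C.Cp) * n1 (u - v))) := by
      apply mul_le_mul_of_nonneg_left _ (by linarith)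
      exact h4.trans (mul_le_mul_of_nonneg_left h5 hLw.le)
    rw [C.hS]
    nlinarith
  · rintro v ⟨w, hw⟩ b hb
    exact own_al hw b hb
  · rintro v ⟨w, hw⟩ b hb
    have h1 : C.c1 ≤ ‖F.pr (ic (C.y l N' v)) - F.pr (ic b)‖ := own_al hw b hb
    change ‖F.om (ic (C.y l N' v) - ic b)‖ ≤ C.S' * ‖F.pr (ic (C.y l N' v)) - F.pr (ic b)‖
    obtain ⟨e, he1, he2, he3, he4⟩ := y_eq (C := C) (l := l) N' v
    set ρ := ‖F.pr (ic (C.y l N' v)) - F.pr (ic b)‖ with hρ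
    have hρ1 : 1 ≤ ρ := by linarith [C.hc1, C.k1n]
    have h2 : C.Wf l N' (F.pr (ic b)) = F.om (ic b) := h.W_exact hN (Or.inl hb)
    have e1 : F.om (ic (C.y l N' v) - ic b) =
        F.om (C.Wf l N' (C.hh l.x v) - C.Wf l N' (F.pr (ic b))) + F.om e := by
      rw [map_sub, he4, h2, map_sub, F.om_om]; abel
    rw [e1]
    refine (norm_add_le _ _).trans ?_
    have h3 := C.hCo (C.Wf l N' (C.hh l.x v) - C.Wf l N' (F.pr (ic b)))
    have h4 := h.W_lip hN (C.hh l.x v) (F.pr (ic b))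
    have h5 : ‖C.hh l.x v - F.pr (ic b)‖ ≤ ρ + C.Cp / 2 := by
      have : C.hh l.x v - F.pr (ic b) = (F.pr (ic (C.y l N' v)) - F.pr (ic b)) - F.pr e := by
        rw [he3]; ring
      rw [this]
      have := norm_sub_le (F.pr (ic (C.y l N' v)) - F.pr (ic b)) (F.pr e)
      linarith
    have h6 : C.Co * ‖C.Wf l N' (C.hh l.x v) - C.Wf l N' (F.pr (ic b))‖ ≤
        C.Co * (C.Lw * (ρ + C.Cp / 2)) := by
      apply mul_le_mul_of_nonneg_left _ (by linarith)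
      exact h4.trans (mul_le_mul_of_nonneg_left h5 hLw.le)
    have h7 : C.Co * (C.Lw * (1 + C.Cp) + 1) * ρ ≤ C.S' * ρ :=
      mul_le_mul_of_nonneg_right C.hS1 (by linarith)
    have h8 : C.Lw * (ρ + C.Cp / 2) ≤ C.Lw * ((1 + C.Cp) * ρ) :=
      mul_le_mul_of_nonneg_left (by nlinarith) hLw.le
    have h9 : C.Co * (C.Lw * (ρ + C.Cp / 2)) ≤ C.Co * (C.Lw * ((1 + C.Cp) * ρ)) :=
      mul_le_mul_of_nonneg_left h8 (by linarith)
    nlinarith

theorem base_inv {N0 : Set (Fin F.d → ℤ)} (h0 : ∀ b ∈ N0, ‖F.om (ic b)‖ ≤ C.C0) :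
    C.Inv (C.base N0) N0 := by
  have hCp := C.Cp1
  have hCo := C.Co1
  have hLw := C.hLw
  have hrp := C.rpos
  have hx : ∀ u, ∃ e : Fin F.d → ℝ, ‖F.pr e‖ ≤ C.Cp / 2 ∧ ‖F.om e‖ ≤ C.Co / 2 ∧
      F.pr (ic (C.x0 u)) = C.r * tc u + F.pr e ∧ F.om (ic (C.x0 u)) = F.om e := by
    intro u
    refine ⟨er (F := F) (F.em (C.r * tc u)), pr_er _, om_er _, ?_, ?_⟩
    · have : ic (C.x0 u) = F.em (C.r * tc u) + er (F := F) (F.em (C.r * tc u)) := by
        rw [x0, er]; abel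
      rw [this, map_add, F.pr_em]
    · have : ic (C.x0 u) = F.em (C.r * tc u) + er (F := F) (F.em (C.r * tc u)) := by
        rw [x0, er]; abel
      rw [this, map_add, F.om_em, zero_add]
  refine ⟨?_, ?_, ?_, ?_⟩
  · intro u v
    change ‖F.pr (ic (C.x0 u)) - F.pr (ic (C.x0 v)) - C.r * tc (u - v)‖ ≤ _
    by_cases huv : u = v
    · subst huv; simp
    obtain ⟨e, he1, -, he3, -⟩ := hx u
    obtain ⟨e', he1', -, he3', -⟩ := hx v
    have hn : (1 : ℝ) ≤ n1 (u - v) := by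
      have : n1 (u - v) ≠ 0 := fun h0 => huv (sub_eq_zero.1 (n1_eq_zero.1 h0))
      exact_mod_cast Nat.one_le_iff_ne_zero.2 this
    have e1 : F.pr (ic (C.x0 u)) - F.pr (ic (C.x0 v)) - C.r * tc (u - v) = F.pr e - F.pr e' := by
      rw [he3, he3', tc_sub]; ring
    rw [e1]
    have h2 := norm_sub_le (F.pr e) (F.pr e')
    nlinarith
  · intro u v
    change ‖F.om (ic (C.x0 u) - ic (C.x0 v))‖ ≤ _
    by_cases huv : u = v
    · subst huv; simp
    obtain ⟨e, -, he2, -, he4⟩ := hx u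
    obtain ⟨e', -, he2', -, he4'⟩ := hx v
    have hn : (1 : ℝ) ≤ n1 (u - v) := by
      have : n1 (u - v) ≠ 0 := fun h0 => huv (sub_eq_zero.1 (n1_eq_zero.1 h0))
      exact_mod_cast Nat.one_le_iff_ne_zero.2 this
    rw [map_sub, he4, he4']
    have h2 := norm_sub_le (F.om e) (F.om e')
    rw [C.hS]
    have h3 : C.Co * 1 ≤ C.Co * (C.Lw * (C.r + C.Cp) + 1) := by
      apply mul_le_mul_of_nonneg_left _ (by linarith)
      have : 0 ≤ C.Lw * (C.r + C.Cp) := by positivity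
      linarith
    have h4 : 0 ≤ C.Co * (C.Lw * (C.r + C.Cp) + 1) := by linarith
    nlinarith
  · intro v hv b hb
    exact hv b hb
  · intro v hv b hb
    have h1 : C.c1 ≤ ‖F.pr (ic (C.x0 v)) - F.pr (ic b)‖ := hv b hb
    change ‖F.om (ic (C.x0 v) - ic b)‖ ≤ C.S' * ‖F.pr (ic (C.x0 v)) - F.pr (ic b)‖
    obtain ⟨e, -, he2, -, he4⟩ := hx v
    rw [map_sub, he4]
    have h2 := norm_sub_le (F.om e) (F.om (ic b))
    have h3 := h0 b hb
    have h4 := C.hS2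
    have h5 : 1 ≤ ‖F.pr (ic (C.x0 v)) - F.pr (ic b)‖ := by linarith [C.hc1, C.k1n]
    have h6 := C.C0n
    nlinarith

end level

/-- admissible obstacle sequence -/
structure NFok (N : ℕ → Set (Fin F.d → ℤ)) : Prop where
  H0 : ∀ b ∈ N 0, ‖F.om (ic b)‖ ≤ C.C0
  rel : ∀ n, C.NFrel (N n) (N (n + 1))

variable {C}

theorem NFok.inv {N : ℕ → Set (Fin F.d → ℤ)} (hN : C.NFok N) : ∀ n, C.Inv (C.lev N n) (N n) := by
  intro n
  induction n with
  | zero => exact base_inv hN.H0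
  | succ n ih => exact ih.step (hN.rel n)

end Cf

end Pool.Agent.H82
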