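import Pool.Agent.H82.McShane
import Pool.Agent.H82.Bfs

set_option autoImplicit false

open Set

namespace Pool.Agent.H82

/-- rounding in `ℂ` -/
noncomputable def rz (z : ℂ) : Z2 := (round z.re, round z.im)

theorem tc_rz (z : ℂ) : ‖tc (rz z) - z‖ ≤ 1 := by
  have h1 := abs_sub_round z.re
  have h2 := abs_sub_round z.im
  have h3 : ‖tc (rz z) - z‖ ≤ |(tc (rz z) - z).re| + |(tc (rz z) - z).im| :=
    Complex.norm_le_abs_re_add_abs_im _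
  have h4 : (tc (rz z) - z).re = (round z.re : ℝ) - z.re := by simp [tc, rz]
  have h5 : (tc (rz z) - z).im = (round z.im : ℝ) - z.im := by simp [tc, rz]
  rw [h4, h5, abs_sub_comm, abs_sub_comm (round z.im : ℝ)] at h3
  linarith

theorem tc_rz' (z : ℂ) : ‖tc (rz z) - z‖ ≤ 3 / 4 := by
  have h1 := abs_sub_round z.re
  have h2 := abs_sub_round z.im
  have h3 : ‖tc (rz z) - z‖ ^ 2 = ((round z.re : ℝ) - z.re) ^ 2 + ((round z.im : ℝ) - z.im) ^ 2 := by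
    rw [Complex.sq_norm, Complex.normSq_apply]
    simp only [tc, rz, Complex.sub_re, Complex.sub_im]
    ring
  have h4 : ((round z.re : ℝ) - z.re) ^ 2 ≤ (1 / 2) ^ 2 := by
    rw [← sq_abs, abs_sub_comm]
    exact pow_le_pow_left₀ (abs_nonneg _) h1 2
  have h5 : ((round z.im : ℝ) - z.im) ^ 2 ≤ (1 / 2) ^ 2 := by
    rw [← sq_abs, abs_sub_comm]
    exact pow_le_pow_left₀ (abs_nonneg _) h2 2
  have h6 := norm_nonneg (tc (rz z) - z)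
  nlinarith

variable {c : ℂ}

/-- projection onto the kernel of `pr` -/
noncomputable def Lift.om (F : Lift c) : (Fin F.d → ℝ) →ₗ[ℝ] (Fin F.d → ℝ) := LinearMap.id - F.em ∘ₗ F.pr

theorem Lift.om_apply (F : Lift c) (t : Fin F.d → ℝ) : F.om t = t - F.em (F.pr t) := rfl

theorem Lift.pr_om (F : Lift c) (t : Fin F.d → ℝ) : F.pr (F.om t) = 0 := by
  rw [F.om_apply, map_sub, F.pr_em, sub_self]

theorem Lift.om_em (F : Lift c) (z : ℂ) : F.om (F.em z) = 0 := by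
  rw [F.om_apply, F.pr_em, sub_self]

theorem Lift.om_om (F : Lift c) (t : Fin F.d → ℝ) : F.om (F.om t) = F.om t := by
  rw [F.om_apply (F.om t), F.pr_om, map_zero, sub_zero]

theorem Lift.om_M (F : Lift c) (t : Fin F.d → ℝ) : F.om (F.M t) = F.M (F.om t) := by
  rw [F.om_apply, F.om_apply, map_sub, F.pr_M, F.M_em]

theorem Lift.pr_Mpow (F : Lift c) (k : ℕ) (t : Fin F.d → ℝ) : F.pr ((F.M ^ k) t) = c ^ k * F.pr t := by
  induction k with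
  | zero => simp
  | succ k ih =>
    rw [pow_succ', Module.End.mul_apply, F.pr_M, ih, pow_succ']
    ring

theorem Lift.Mpow_em (F : Lift c) (k : ℕ) (z : ℂ) : (F.M ^ k) (F.em z) = F.em (c ^ k * z) := by
  induction k with
  | zero => simp
  | succ k ih =>
    rw [pow_succ', Module.End.mul_apply, ih, F.M_em, pow_succ']
    ring_nf

theorem Lift.om_Mpow (F : Lift c) (k : ℕ) (t : Fin F.d → ℝ) : F.om ((F.M ^ k) t) = (F.M ^ k) (F.om t) := by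
  rw [F.om_apply, F.om_apply, map_sub, F.pr_Mpow, F.Mpow_em]

theorem Lift.Mi_iter (F : Lift c) (k : ℕ) (a : Fin F.d → ℤ) : ic (F.Mi^[k] a) = (F.M ^ k) (ic a) := by
  induction k with
  | zero => simp
  | succ k ih =>
    rw [Function.iterate_succ_apply', ← F.Mi_spec, ih, pow_succ', Module.End.mul_apply]

theorem Lift.Mi_add (F : Lift c) (a b : Fin F.d → ℤ) : F.Mi (a + b) = F.Mi a + F.Mi b := by
  apply ic_inj
  rw [← F.Mi_spec, ic_add, map_add, ic_add, F.Mi_spec, F.Mi_spec]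

theorem Lift.Mi_sub (F : Lift c) (a b : Fin F.d → ℤ) : F.Mi (a - b) = F.Mi a - F.Mi b := by
  apply ic_inj
  rw [← F.Mi_spec, ic_sub, map_sub, ic_sub, F.Mi_spec, F.Mi_spec]

/-- numerical configuration of one refinement system -/
structure Cf (F : Lift c) where
  k : ℕ
  r : ℝ
  Lw : ℝ
  c1 : ℝ
  B : ℕ
  Cp : ℝ
  Ce : ℝ
  Co : ℝ
  S : ℝ
  S' : ℝ
  k1 : ℝ
  k2 : ℝ
  C0 : ℝ
  ε : ℝ
  hCp : ∀ t, ‖F.pr t‖ ≤ Cp * ‖t‖
  hCe : ∀ z, ‖F.em z‖ ≤ Ce * ‖z‖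
  hCo : ∀ t, ‖F.om t‖ ≤ Co * ‖t‖
  Cp1 : 1 ≤ Cp
  Ce1 : 1 ≤ Ce
  Co1 : 1 ≤ Co
  hr : 2000 * Cp ≤ r
  hmu : ‖c ^ k - (‖c‖ ^ k : ℝ)‖ ≤ ‖c‖ ^ k / 1000
  hm : 1000 ≤ ‖c‖ ^ k
  hε : 0 ≤ ε
  hA : ∀ t, F.pr t = 0 → ‖(F.M ^ k) t‖ ≤ ε * ‖c‖ ^ k * ‖t‖
  hS : S = Co * (Lw * (r + Cp) + 1)
  hg : F.d * (Ce * (r + 2 * Cp) + S) ≤ ‖c‖ ^ k / 1000
  hV : r * F.d * Ce * (Ce * (r + 2 * Cp) + S) ≤ 3 / 10 * ‖c‖ ^ k
  hεS : ε * S ≤ 3 / 10 * r * Lw
  hS1 : Co * (Lw * (1 + Cp) + 1) ≤ S'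
  hS2 : Co + C0 ≤ S'
  k1n : 0 ≤ k1
  k2n : 0 ≤ k2
  C0n : 0 ≤ C0
  hc1 : 2 * k1 + 3 * r ≤ c1
  hk2 : 4 * ε * S' * c1 + 4 * k2 ≤ Lw * c1
  hB : 12 / 10 * ‖c‖ ^ k ≤ B
  hLw : 0 < Lw

/-- one level -/
structure Lev (d : ℕ) where
  I : Set Z2
  x : Z2 → (Fin d → ℤ)

namespace Cf
variable {F : Lift c} (C : Cf F)

def mu : ℂ := c ^ C.k
noncomputable def m : ℝ := ‖c‖ ^ C.k
def A (a : Fin F.d → ℤ) : Fin F.d → ℤ := F.Mi^[C.k] a
noncomputable def g (a : Fin F.d → ℤ) : Z2 :=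
  ∑ i, a i • rz (C.mu * F.pr (Pi.single i 1) / C.r)
noncomputable def cen (x : Z2 → (Fin F.d → ℤ)) (v : Z2) : Z2 := C.g (x v)
noncomputable def V (x : Z2 → (Fin F.d → ℤ)) (v : Z2) : ℂ :=
  C.mu * F.pr (ic (x v)) - C.r * tc (C.cen x v)
noncomputable def U (x : Z2 → (Fin F.d → ℤ)) (z : ℂ) : ℂ :=
  F.pr (mc univ (fun v => tc (C.cen x v)) (fun v => F.em (C.V x v)) 1 z)
noncomputable def hh (x : Z2 → (Fin F.d → ℤ)) (u : Z2) : ℂ := C.r * tc u + C.U x (tc u)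
/-- data points for the interpolation of the transversal part -/
def Dat (l : Lev F.d) (N' : Set (Fin F.d → ℤ)) : Set (Fin F.d → ℤ) :=
  N' ∪ (fun v => C.A (l.x v)) '' l.I
noncomputable def Wf (l : Lev F.d) (N' : Set (Fin F.d → ℤ)) (z : ℂ) : Fin F.d → ℝ :=
  mc (C.Dat l N') (fun b => F.pr (ic b)) (fun b => F.om (ic b)) C.Lw z
noncomputable def y (l : Lev F.d) (N' : Set (Fin F.d → ℤ)) (u : Z2) : Fin F.d → ℤ :=
  rnd (F.em (C.hh l.x u) + F.om (C.Wf l N' (C.hh l.x u)))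
def Al (l : Lev F.d) (N' : Set (Fin F.d → ℤ)) : Set Z2 :=
  {u | ∀ b ∈ N', C.c1 ≤ ‖F.pr (ic (C.y l N' u)) - F.pr (ic b)‖}
def Cen (l : Lev F.d) : Set Z2 := C.cen l.x '' l.I
noncomputable def step (l : Lev F.d) (N' : Set (Fin F.d → ℤ)) : Lev F.d where
  I := {u | ∃ w, own (C.Al l N') (C.Cen l) C.B u = some w}
  x := C.y l N'
noncomputable def x0 (u : Z2) : Fin F.d → ℤ := rnd (F.em (C.r * tc u))
noncomputable def base (N0 : Set (Fin F.d → ℤ)) : Lev F.d where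
  I := {u | ∀ b ∈ N0, C.c1 ≤ ‖F.pr (ic (C.x0 u)) - F.pr (ic b)‖}
  x := C.x0
noncomputable def lev (N : ℕ → Set (Fin F.d → ℤ)) : ℕ → Lev F.d
  | 0 => C.base (N 0)
  | n + 1 => C.step (lev N n) (N (n + 1))
/-- parent relation between consecutive levels -/
def chl (l : Lev F.d) (N' : Set (Fin F.d → ℤ)) (v u : Z2) : Prop :=
  v ∈ l.I ∧ own (C.Al l N') (C.Cen l) C.B u = some (C.cen l.x v)

/-- compatible obstacles at consecutive levels -/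
structure NFrel (N N' : Set (Fin F.d → ℤ)) : Prop where
  H1 : ∀ b ∈ N', ∀ b' ∈ N', ‖F.om (ic b - ic b')‖ ≤ C.Lw / 2 * ‖F.pr (ic b) - F.pr (ic b')‖
  H2 : ∀ b ∈ N', ∃ bp ∈ N, ‖F.pr (ic b) - C.mu * F.pr (ic bp)‖ ≤ C.k1 * C.m ∧
    ‖F.om (ic b - ic (C.A bp))‖ ≤ C.k2 * C.m

/-- invariants of a level -/
structure Inv (l : Lev F.d) (N : Set (Fin F.d → ℤ)) : Prop where
  a : ∀ u v, ‖F.pr (ic (l.x u)) - F.pr (ic (l.x v)) - C.r * tc (u - v)‖ ≤ 2 * C.Cp * n1 (u - v)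
  b : ∀ u v, ‖F.om (ic (l.x u) - ic (l.x v))‖ ≤ C.S * n1 (u - v)
  cl : ∀ v ∈ l.I, ∀ b ∈ N, C.c1 ≤ ‖F.pr (ic (l.x v)) - F.pr (ic b)‖
  co : ∀ v ∈ l.I, ∀ b ∈ N, ‖F.om (ic (l.x v) - ic b)‖ ≤ C.S' * ‖F.pr (ic (l.x v)) - F.pr (ic b)‖

/-! #### elementary facts -/

theorem m_eq : C.m = ‖c‖ ^ C.k := rfl
theorem norm_mu : ‖C.mu‖ = C.m := by rw [mu, m, norm_pow]
theorem m1000 : 1000 ≤ C.m := C.hm
theorem mpos : 0 < C.m := by linarith [C.hm, C.m_eq]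
theorem rpos : 2000 ≤ C.r := by linarith [C.hr, C.Cp1]

theorem A_ic (a : Fin F.d → ℤ) : ic (C.A a) = (F.M ^ C.k) (ic a) := F.Mi_iter C.k a

theorem A_add (a b : Fin F.d → ℤ) : C.A (a + b) = C.A a + C.A b := by
  apply ic_inj
  rw [A_ic, ic_add, map_add, ic_add, A_ic, A_ic]

theorem pr_A (a : Fin F.d → ℤ) : F.pr (ic (C.A a)) = C.mu * F.pr (ic a) := by
  rw [A_ic, F.pr_Mpow]; rfl

theorem om_A (a : Fin F.d → ℤ) : F.om (ic (C.A a)) = (F.M ^ C.k) (F.om (ic a)) := by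
  rw [A_ic, F.om_Mpow]

theorem g_add (a b : Fin F.d → ℤ) : C.g (a + b) = C.g a + C.g b := by
  simp only [g, Pi.add_apply, add_smul, Finset.sum_add_distrib]

theorem g_sub (a b : Fin F.d → ℤ) : C.g (a - b) = C.g a - C.g b := by
  simp only [g, Pi.sub_apply, sub_smul, Finset.sum_sub_distrib]

theorem tc_sum {ι : Type*} (s : Finset ι) (f : ι → Z2) : tc (∑ i ∈ s, f i) = ∑ i ∈ s, tc (f i) := by
  classical
  induction s using Finset.induction_on with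
  | empty => simp
  | insert i s hi ih => rw [Finset.sum_insert hi, Finset.sum_insert hi, tc_add, ih]

theorem tc_zsmul (n : ℤ) (u : Z2) : tc (n • u) = n * tc u := by
  apply Complex.ext <;> simp [tc]

theorem ic_eq_sum {d : ℕ} (a : Fin d → ℤ) : ic a = ∑ i, (a i : ℝ) • (Pi.single i (1 : ℝ) : Fin d → ℝ) := by
  ext j
  simp [ic, Finset.sum_apply, Pi.single_apply]

theorem g_err (a : Fin F.d → ℤ) : ‖tc (C.g a) - C.mu * F.pr (ic a) / C.r‖ ≤ F.d * ‖ic a‖ := by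
  have h1 : tc (C.g a) - C.mu * F.pr (ic a) / C.r =
      ∑ i, (a i : ℂ) * (tc (rz (C.mu * F.pr (Pi.single i 1) / C.r)) -
        C.mu * F.pr (Pi.single i 1) / C.r) := by
    rw [g, tc_sum]
    simp only [tc_zsmul, mul_sub, Finset.sum_sub_distrib]
    congr 1
    conv_lhs => rw [ic_eq_sum a, map_sum, Finset.mul_sum, Finset.sum_div]
    apply Finset.sum_congr rfl
    intro i _
    rw [map_smul, Complex.real_smul]
    push_cast
    ring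
  rw [h1]
  refine (norm_sum_le _ _).trans ?_
  have h2 : ∀ i ∈ (Finset.univ : Finset (Fin F.d)), ‖(a i : ℂ) * (tc (rz (C.mu * F.pr (Pi.single i 1) / C.r)) -
        C.mu * F.pr (Pi.single i 1) / C.r)‖ ≤ ‖ic a‖ := by
    intro i _
    rw [norm_mul]
    have h3 : ‖(a i : ℂ)‖ ≤ ‖ic a‖ := by
      have := norm_le_pi_norm (ic a) i
      simpa [ic] using this
    have h4 := tc_rz (C.mu * F.pr (Pi.single i 1) / C.r)
    calc _ ≤ ‖ic a‖ * 1 := mul_le_mul h3 h4 (norm_nonneg _) (norm_nonneg _)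
      _ = _ := mul_one _
  refine (Finset.sum_le_card_nsmul _ _ _ h2).trans ?_
  simp

end Cf

end Pool.Agent.H82
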