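import Pool.Agent.H82.Step
import Pool.Agent.H82.HSys

set_option autoImplicit false

open Set

namespace Pool.Agent.H82

theorem n1_ball_finite (v0 : Z2) (k : ℕ) : {u : Z2 | n1 (u - v0) ≤ k}.Finite := by
  apply ((Set.finite_Icc (v0.1 - k) (v0.1 + k)).prod (Set.finite_Icc (v0.2 - k) (v0.2 + k))).subset
  rintro ⟨a, b⟩ h
  simp only [mem_ofPred_eq, n1, Prod.fst_sub, Prod.snd_sub] at h
  simp only [mem_prod, mem_Icc]
  omega

theorem adj_third {v v' w : Z2} (h : adj v v') (h1 : w ≠ v) (h2 : w ≠ v') :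
    3 ≤ n1 (w - v) + n1 (w - v') := by
  obtain ⟨a, b⟩ := v
  obtain ⟨a', b'⟩ := v'
  obtain ⟨x, y⟩ := w
  simp only [adj, n1, Prod.fst_sub, Prod.snd_sub, ne_eq, Prod.mk.injEq] at *
  omega

namespace Cf
variable {c : ℂ} {F : Lift c} {C : Cf F} {l : Lev F.d} {N : Set (Fin F.d → ℤ)}
  {N' : Set (Fin F.d → ℤ)}

theorem Inv.clear (h : C.Inv l N) (hN : C.NFrel N N') {v u : Z2} (hv : v ∈ l.I)
    (hu : (n1 (u - C.cen l.x v) : ℝ) ≤ 12 / 10 * C.m) : u ∈ C.Al l N' := by
  intro b hb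
  have h' := h.step hN
  have hmp := C.m1000
  have hrp := C.rpos
  have hc1 := C.hc1
  have hk1 := C.k1n
  obtain ⟨bp, hbp, h1, -⟩ := hN.H2 b hb
  have h2 := h.cl v hv bp hbp
  have h3 := h'.pr_up' u (C.cen l.x v)
  change ‖F.pr (ic (C.y l N' u)) - F.pr (ic (C.y l N' (C.cen l.x v)))‖ ≤ _ at h3
  rw [h.y_exact hN hv, C.pr_A] at h3
  have e1 : C.mu * (F.pr (ic (l.x v)) - F.pr (ic bp)) = (F.pr (ic (C.y l N' u)) - F.pr (ic b)) -
      (F.pr (ic (C.y l N' u)) - C.mu * F.pr (ic (l.x v))) +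
      (F.pr (ic b) - C.mu * F.pr (ic bp)) := by ring
  have h4 : ‖C.mu * (F.pr (ic (l.x v)) - F.pr (ic bp))‖ = C.m * ‖F.pr (ic (l.x v)) - F.pr (ic bp)‖ := by
    rw [norm_mul, C.norm_mu]
  have h5 := norm_add_le ((F.pr (ic (C.y l N' u)) - F.pr (ic b)) -
      (F.pr (ic (C.y l N' u)) - C.mu * F.pr (ic (l.x v)))) (F.pr (ic b) - C.mu * F.pr (ic bp))
  have h6 := norm_sub_le (F.pr (ic (C.y l N' u)) - F.pr (ic b))
      (F.pr (ic (C.y l N' u)) - C.mu * F.pr (ic (l.x v)))
  rw [← e1, h4] at h5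
  have h7 : C.m * C.c1 ≤ C.m * ‖F.pr (ic (l.x v)) - F.pr (ic bp)‖ :=
    mul_le_mul_of_nonneg_left h2 (by linarith)
  have h8 : 101 / 100 * C.r * n1 (u - C.cen l.x v) ≤ 101 / 100 * C.r * (12 / 10 * C.m) :=
    mul_le_mul_of_nonneg_left hu (by linarith)
  have h9 : C.m * C.c1 - C.k1 * C.m - 101 / 100 * C.r * (12 / 10 * C.m) ≤
    ‖F.pr (ic (C.y l N' u)) - F.pr (ic b)‖ := by linarith
  refine le_trans ?_ h9
  have h10 : (C.m - 1) * (2 * C.k1 + 3 * C.r) ≤ (C.m - 1) * C.c1 :=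
    mul_le_mul_of_nonneg_left hc1 (by linarith)
  nlinarith

theorem Inv.rchNear (h : C.Inv l N) (hN : C.NFrel N N') {v u : Z2} (hv : v ∈ l.I)
    (hu : (n1 (u - C.cen l.x v) : ℝ) ≤ 12 / 10 * C.m) :
    Rch (C.Al l N') (C.Cen l) (n1 (u - C.cen l.x v)) u := by
  have hmp := C.mpos
  have h0 : C.cen l.x v ∈ C.Al l N' := h.clear hN hv (by rw [sub_self, n1_zero]; simp; positivity)
  have h1 : Rch (C.Al l N') (C.Cen l) 0 (C.cen l.x v) := Rch.base h0 ⟨v, hv, rfl⟩
  have h2 : Rch (C.Al l N') (C.Cen l) (0 + n1 (u - C.cen l.x v)) u := by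
    apply h1.ball' (s := n1 (u - C.cen l.x v)) _ le_rfl
    intro a ha
    apply h.clear hN hv
    refine le_trans ?_ hu
    exact_mod_cast ha
  rwa [zero_add] at h2

theorem Inv.ownNear (h : C.Inv l N) (hN : C.NFrel N N') {v u : Z2} (hv : v ∈ l.I)
    (hu : (n1 (u - C.cen l.x v) : ℝ) ≤ 12 / 10 * C.m) :
    ∃ v' ∈ l.I, own (C.Al l N') (C.Cen l) C.B u = some (C.cen l.x v') ∧
      n1 (u - C.cen l.x v') ≤ n1 (u - C.cen l.x v) := by
  have hmp := C.mpos
  have h0 : C.cen l.x v ∈ C.Al l N' := h.clear hN hv (by rw [sub_self, n1_zero]; simp; positivity)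
  have h1 : Rch (C.Al l N') (C.Cen l) 0 (C.cen l.x v) := Rch.base h0 ⟨v, hv, rfl⟩
  have h2 : Rch (C.Al l N') (C.Cen l) (0 + n1 (u - C.cen l.x v)) u := by
    apply h1.ball' (s := n1 (u - C.cen l.x v)) _ le_rfl
    intro a ha
    apply h.clear hN hv
    refine le_trans ?_ hu
    exact_mod_cast ha
  rw [zero_add] at h2
  have h3 : n1 (u - C.cen l.x v) ≤ C.B := by
    have := C.hB
    rw [← C.m_eq] at this
    exact_mod_cast hu.trans this
  obtain ⟨w, hw, hw'⟩ := h2.own_le h3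
  obtain ⟨-, v', hv', rfl⟩ := own_ce hw
  exact ⟨v', hv', hw, hw'⟩

theorem Inv.ownExact (h : C.Inv l N) (hN : C.NFrel N N') {v u : Z2} (hv : v ∈ l.I)
    (hu : (n1 (u - C.cen l.x v) : ℝ) ≤ 46 / 100 * C.m) :
    own (C.Al l N') (C.Cen l) C.B u = some (C.cen l.x v) := by
  have hmp := C.mpos
  obtain ⟨v', hv', h1, h2⟩ := h.ownNear hN hv (hu.trans (by linarith))
  rw [h1]
  by_cases hvv : v' = v
  · rw [hvv]
  · exfalso
    have h3 := h.near_low v' v
    have hn : (1 : ℝ) ≤ n1 (v' - v) := by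
      have : n1 (v' - v) ≠ 0 := fun h0 => hvv (sub_eq_zero.1 (n1_eq_zero.1 h0))
      exact_mod_cast Nat.one_le_iff_ne_zero.2 this
    have h4 := n1_sub_le (C.cen l.x v') u (C.cen l.x v)
    rw [n1_sub_comm (C.cen l.x v') u] at h4
    have h5 : (n1 (C.cen l.x v' - C.cen l.x v) : ℝ) ≤
        n1 (u - C.cen l.x v') + n1 (u - C.cen l.x v) := by exact_mod_cast h4
    have h6 : (n1 (u - C.cen l.x v') : ℝ) ≤ n1 (u - C.cen l.x v) := by exact_mod_cast h2
    nlinarith

theorem Inv.own_self (h : C.Inv l N) (hN : C.NFrel N N') {v : Z2} (hv : v ∈ l.I) :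
    own (C.Al l N') (C.Cen l) C.B (C.cen l.x v) = some (C.cen l.x v) := by
  apply h.ownExact hN hv
  rw [sub_self, n1_zero]
  have := C.mpos
  simp
  positivity

theorem Inv.child_dist (h : C.Inv l N) (hN : C.NFrel N N') {v u : Z2} (hv : v ∈ l.I) :
    ‖F.pr (ic (C.y l N' u)) - C.mu * F.pr (ic (l.x v))‖ ≤
      101 / 100 * C.r * n1 (u - C.cen l.x v) := by
  have h3 := (h.step hN).pr_up' u (C.cen l.x v)
  change ‖F.pr (ic (C.y l N' u)) - F.pr (ic (C.y l N' (C.cen l.x v)))‖ ≤ _ at h3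
  rwa [h.y_exact hN hv, C.pr_A] at h3

theorem Inv.child_dist_low (h : C.Inv l N) (hN : C.NFrel N N') {v u : Z2} (hv : v ∈ l.I) :
    66 / 100 * C.r * n1 (u - C.cen l.x v) ≤
    ‖F.pr (ic (C.y l N' u)) - C.mu * F.pr (ic (l.x v))‖ := by
  have h3 := (h.step hN).pr_low' u (C.cen l.x v)
  change _ ≤ ‖F.pr (ic (C.y l N' u)) - F.pr (ic (C.y l N' (C.cen l.x v)))‖ at h3
  rwa [h.y_exact hN hv, C.pr_A] at h3

/-- position estimate near any centre, whether or not it is a site -/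
theorem Inv.any_dist (h : C.Inv l N) (hN : C.NFrel N N') (v u : Z2) :
    ‖F.pr (ic (C.y l N' u)) - C.mu * F.pr (ic (l.x v))‖ ≤
      101 / 100 * C.r * n1 (u - C.cen l.x v) + C.Cp := by
  have h3 := (h.step hN).pr_up' u (C.cen l.x v)
  change ‖F.pr (ic (C.y l N' u)) - F.pr (ic (C.y l N' (C.cen l.x v)))‖ ≤ _ at h3
  obtain ⟨e, he1, -, he3, -⟩ := y_eq (C := C) (l := l) N' (C.cen l.x v)
  have e1 : F.pr (ic (C.y l N' u)) - C.mu * F.pr (ic (l.x v)) =
      (F.pr (ic (C.y l N' u)) - F.pr (ic (C.y l N' (C.cen l.x v)))) + F.pr e := by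
    rw [he3, h.hh_cen]; ring
  rw [e1]
  refine (norm_add_le _ _).trans ?_
  have := C.Cp1
  linarith

theorem chl_of_own {v u : Z2} (hv : v ∈ l.I)
    (h : own (C.Al l N') (C.Cen l) C.B u = some (C.cen l.x v)) : C.chl l N' v u := ⟨hv, h⟩

theorem chl_mem {v u : Z2} (h : C.chl l N' v u) : v ∈ l.I ∧ u ∈ (C.step l N').I :=
  ⟨h.1, _, h.2⟩

theorem exists_chl {u : Z2} (h : u ∈ (C.step l N').I) : ∃ v, C.chl l N' v u := by
  obtain ⟨w, hw⟩ := h
  obtain ⟨-, v, hv, rfl⟩ := own_ce hw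
  exact ⟨v, hv, hw⟩

theorem Inv.chl_uniq (h : C.Inv l N) {v v' u : Z2} (h1 : C.chl l N' v u) (h2 : C.chl l N' v' u) :
    v = v' := by
  have := h1.2.symm.trans h2.2
  exact h.cen_inj (Option.some_injective _ this)

theorem chl_dist {v u : Z2} (h : C.chl l N' v u) : n1 (u - C.cen l.x v) ≤ C.B := own_dist h.2

theorem Inv.fibre (h : C.Inv l N) (hN : C.NFrel N N') {v : Z2} (hv : v ∈ l.I) :
    (∃ u, C.chl l N' v u) ∧ ∀ u u', C.chl l N' v u → C.chl l N' v u' →
    Relation.ReflTransGen (fun a b => adj a b ∧ C.chl l N' v a ∧ C.chl l N' v b) u u' := by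
  refine ⟨⟨_, hv, h.own_self hN hv⟩, ?_⟩
  intro u u' hu hu'
  have h1 : ∀ u, C.chl l N' v u →
      Relation.ReflTransGen (fun a b => adj a b ∧ C.chl l N' v a ∧ C.chl l N' v b) u
        (C.cen l.x v) := by
    intro u hu
    refine rtg_mono ?_ (own_conn le_rfl hu.2)
    rintro a b ⟨h1, h2, h3⟩
    exact ⟨h1, ⟨hv, h2⟩, ⟨hv, h3⟩⟩
  refine (h1 u hu).trans ?_
  have h2 := h1 u' hu'
  have hsymm : ∀ x y, Relation.ReflTransGen
      (fun a b => adj a b ∧ C.chl l N' v a ∧ C.chl l N' v b) x y →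
      Relation.ReflTransGen (fun a b => adj a b ∧ C.chl l N' v a ∧ C.chl l N' v b) y x := by
    intro x y hxy
    induction hxy with
    | refl => exact Relation.ReflTransGen.refl
    | tail _ hbc ih => exact Relation.ReflTransGen.head ⟨adj_symm hbc.1, hbc.2.2, hbc.2.1⟩ ih
  exact hsymm _ _ h2

theorem Inv.persist (h : C.Inv l N) (hN : C.NFrel N N') {v v' : Z2} (hv : v ∈ l.I)
    (hv' : v' ∈ l.I) (hadj : adj v v') :
    ∃ u u', C.chl l N' v u ∧ C.chl l N' v' u' ∧ adj u u' := by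
  have hmp := C.mpos
  have hne : v ≠ v' := by
    rintro rfl
    simp [adj] at hadj
  set D := n1 (C.cen l.x v - C.cen l.x v') with hD
  have hD1 : (D : ℝ) ≤ 151 / 150 * C.m := by
    have := h.near_up v v'
    unfold adj at hadj
    rw [hadj] at this
    simpa using this
  -- owners along the geodesic
  have hown : ∀ w, n1 (w - C.cen l.x v) + n1 (w - C.cen l.x v') = D →
      own (C.Al l N') (C.Cen l) C.B w = some (C.cen l.x v) ∨
      own (C.Al l N') (C.Cen l) C.B w = some (C.cen l.x v') := by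
    intro w hw
    have hw' : (n1 (w - C.cen l.x v) : ℝ) + n1 (w - C.cen l.x v') = D := by exact_mod_cast hw
    have p1 : (0 : ℝ) ≤ n1 (w - C.cen l.x v) := Nat.cast_nonneg _
    have p2 : (0 : ℝ) ≤ n1 (w - C.cen l.x v') := Nat.cast_nonneg _
    obtain ⟨w1, hw1, h1, h2⟩ := h.ownNear hN hv (u := w) (by linarith)
    obtain ⟨w2, hw2, h3, h4⟩ := h.ownNear hN hv' (u := w) (by linarith)
    have h5 : w1 = w2 := h.cen_inj (Option.some_injective _ (h1.symm.trans h3))
    subst h5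
    by_cases hA : w1 = v
    · left; rw [h1, hA]
    by_cases hB : w1 = v'
    · right; rw [h1, hB]
    exfalso
    have h6 := adj_third hadj hA hB
    have h7 := h.near_low w1 v
    have h8 := h.near_low w1 v'
    have h9 := n1_sub_le (C.cen l.x w1) w (C.cen l.x v)
    have h10 := n1_sub_le (C.cen l.x w1) w (C.cen l.x v')
    rw [n1_sub_comm (C.cen l.x w1) w] at h9 h10
    have h9' : (n1 (C.cen l.x w1 - C.cen l.x v) : ℝ) ≤
      n1 (w - C.cen l.x w1) + n1 (w - C.cen l.x v) := by exact_mod_cast h9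
    have h10' : (n1 (C.cen l.x w1 - C.cen l.x v') : ℝ) ≤
      n1 (w - C.cen l.x w1) + n1 (w - C.cen l.x v') := by exact_mod_cast h10
    have h2' : (n1 (w - C.cen l.x w1) : ℝ) ≤ n1 (w - C.cen l.x v) := by exact_mod_cast h2
    have h4' : (n1 (w - C.cen l.x w1) : ℝ) ≤ n1 (w - C.cen l.x v') := by exact_mod_cast h4
    have h6' : (3 : ℝ) ≤ n1 (w1 - v) + n1 (w1 - v') := by exact_mod_cast h6
    nlinarith
  have key : ∀ k, ∀ w, n1 (w - C.cen l.x v') = k →
      n1 (w - C.cen l.x v) + n1 (w - C.cen l.x v') = D →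
      own (C.Al l N') (C.Cen l) C.B w = some (C.cen l.x v) →
      ∃ a a', adj a a' ∧ own (C.Al l N') (C.Cen l) C.B a = some (C.cen l.x v) ∧
        own (C.Al l N') (C.Cen l) C.B a' = some (C.cen l.x v') := by
    intro k
    induction k with
    | zero =>
      intro w hw _ how
      have hwc : w = C.cen l.x v' := sub_eq_zero.1 (n1_eq_zero.1 hw)
      rw [hwc, h.own_self hN hv'] at how
      exact absurd (h.cen_inj (Option.some_injective _ how)).symm hne
    | succ k ih =>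
      intro w hw hgeo how
      obtain ⟨u', hu1, hu2⟩ := nbr hw
      have h1 := n1_sub_le u' w (C.cen l.x v)
      have h2 : n1 (u' - w) = 1 := adj_symm hu1
      have h3 := n1_sub_le (C.cen l.x v) u' (C.cen l.x v')
      rw [n1_sub_comm (C.cen l.x v) u'] at h3
      have hgeo' : n1 (u' - C.cen l.x v) + n1 (u' - C.cen l.x v') = D := by omega
      rcases hown u' hgeo' with h4 | h4
      · exact ih u' hu2 hgeo' h4
      · exact ⟨w, u', hu1, how, h4⟩
  obtain ⟨a, a', h1, h2, h3⟩ := key _ (C.cen l.x v) rfl (by rw [sub_self, n1_zero, zero_add])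
    (h.own_self hN hv)
  exact ⟨a, a', ⟨hv, h2⟩, ⟨hv', h3⟩, h1⟩

/-! ### The hierarchical system -/

/-- global position -/
noncomputable def q (C : Cf F) (N : ℕ → Set (Fin F.d → ℤ)) (n : ℕ) (v : Z2) : ℂ :=
  F.pr (ic ((C.lev N n).x v)) / C.mu ^ n

theorem mu_ne (C : Cf F) : C.mu ≠ 0 := by
  have := C.mpos
  rw [← C.norm_mu] at this
  exact norm_pos_iff.1 this

theorem q_step {N : ℕ → Set (Fin F.d → ℤ)} (n : ℕ) (v u : Z2) :
    ‖C.q N (n + 1) u - C.q N n v‖ =
    ‖F.pr (ic ((C.lev N (n + 1)).x u)) - C.mu * F.pr (ic ((C.lev N n).x v))‖ * (C.m⁻¹) ^ (n + 1) := by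
  have h0 := C.mu_ne
  have e : C.q N (n + 1) u - C.q N n v =
      (F.pr (ic ((C.lev N (n + 1)).x u)) - C.mu * F.pr (ic ((C.lev N n).x v))) / C.mu ^ (n + 1) := by
    rw [q, q]
    field_simp
    ring
  rw [e, norm_div, norm_pow, C.norm_mu, inv_pow, div_eq_mul_inv]

theorem q_same {N : ℕ → Set (Fin F.d → ℤ)} (n : ℕ) (v u : Z2) :
    ‖C.q N n u - C.q N n v‖ =
    ‖F.pr (ic ((C.lev N n).x u)) - F.pr (ic ((C.lev N n).x v))‖ * (C.m⁻¹) ^ n := by
  have e : C.q N n u - C.q N n v =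
      (F.pr (ic ((C.lev N n).x u)) - F.pr (ic ((C.lev N n).x v))) / C.mu ^ n := by
    rw [q, q]
    ring
  rw [e, norm_div, norm_pow, C.norm_mu, inv_pow, div_eq_mul_inv]

theorem sm : C.m⁻¹ * C.m = 1 := inv_mul_cancel₀ C.mpos.ne'

theorem spow_succ_m (n : ℕ) : (C.m⁻¹) ^ (n + 1) * C.m = (C.m⁻¹) ^ n := by
  rw [pow_succ, mul_assoc, sm, mul_one]

/-- child displacement constant -/
noncomputable def kap (C : Cf F) : ℝ := 101 / 100 * C.r * C.B / (C.m - 1)

theorem kap_mul (C : Cf F) : C.kap * (C.m - 1) = 101 / 100 * C.r * C.B := by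
  have := C.m1000
  rw [kap, div_mul_cancel₀]
  linarith

theorem kap_nonneg (C : Cf F) : 0 ≤ C.kap := by
  have := C.m1000
  have := C.rpos
  rw [kap]
  apply div_nonneg _ (by linarith)
  positivity

theorem kap_ge (C : Cf F) : 12 / 10 * C.r ≤ C.kap := by
  have h1 := C.m1000
  have h2 := C.rpos
  have h3 := C.hB
  rw [← C.m_eq] at h3
  rw [kap, le_div_iff₀ (by linarith)]
  have : C.r * (12 / 10 * C.m) ≤ C.r * C.B := mul_le_mul_of_nonneg_left h3 (by linarith)
  nlinarith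

/-- the system attached to an obstacle sequence -/
noncomputable def hs (C : Cf F) {N : ℕ → Set (Fin F.d → ℤ)} (hN : C.NFok N) : HS where
  s := C.m⁻¹
  κ := C.kap
  K := C.kap + C.r
  K2 := 101 / 100 * C.r
  K3 := C.r
  ρ := C.r / 4
  I := fun n => (C.lev N n).I
  q := C.q N
  ch := fun n v u => C.chl (C.lev N n) (N (n + 1)) v u
  hs := inv_pos.2 C.mpos
  hs' := by
    have := C.m1000
    rw [inv_le_comm₀ (by linarith) (by norm_num)]
    linarith
  hκ := C.kap_nonneg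
  hκK := by linarith [C.rpos]
  hK2 := by linarith [C.rpos, C.kap_ge]
  hK3 := by linarith [C.kap_nonneg]
  hK3' := by linarith [C.rpos]
  hρ := by linarith [C.rpos]
  hρK := by linarith [C.rpos, C.kap_nonneg]
  hρ3 := by
    have h1 := C.m1000
    have h2 := C.rpos
    have h3 : C.m⁻¹ ≤ 1 / 8 := by
      rw [inv_le_comm₀ (by linarith) (by norm_num)]
      linarith
    have := mul_le_mul_of_nonneg_left h3 (show 0 ≤ C.r by linarith)
    linarith
  P0 := fun n v u h => chl_mem h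
  Pt := fun n u h => exists_chl h
  Pu := fun n v v' u h1 h2 => (hN.inv n).chl_uniq h1 h2
  P1 := by
    intro n v u h
    rw [q_step]
    have h1 := (hN.inv n).child_dist (hN.rel n) (u := u) h.1
    have h2 : (n1 (u - C.cen (C.lev N n).x v) : ℝ) ≤ C.B := by exact_mod_cast chl_dist h
    have hs := spow_succ_m (C := C) n
    have hp : 0 ≤ (C.m⁻¹) ^ (n + 1) := by have := C.mpos; positivity
    have hrp := C.rpos
    calc _ ≤ (101 / 100 * C.r * C.B) * (C.m⁻¹) ^ (n + 1) := by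
            apply mul_le_mul_of_nonneg_right _ hp
            refine h1.trans ?_
            exact mul_le_mul_of_nonneg_left h2 (by linarith)
      _ = C.kap * (C.m⁻¹ ^ n - C.m⁻¹ ^ (n + 1)) := by
            rw [← C.kap_mul, ← hs]; ring
  P2 := by
    intro n u u' h
    rw [q_same]
    have h1 := (hN.inv n).pr_up' u u'
    unfold adj at h
    rw [h, Nat.cast_one, mul_one] at h1
    exact mul_le_mul_of_nonneg_right h1 (by have := C.mpos; positivity)
  Pf := by
    intro n z R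
    rcases (({v : Z2 | ‖C.q N n v - z‖ ≤ R})).eq_empty_or_nonempty with h | ⟨v0, hv0⟩
    · rw [h]; exact Set.finite_empty
    · have hrp := C.rpos
      have hp : 0 < (C.m⁻¹) ^ n := by have := C.mpos; positivity
      apply (n1_ball_finite v0 ⌈2 * R / (66 / 100 * C.r * (C.m⁻¹) ^ n)⌉₊).subset
      intro v hv
      rw [mem_ofPred_eq] at hv hv0 ⊢
      have h1 : ‖C.q N n v - C.q N n v0‖ ≤ 2 * R := by
        have : C.q N n v - C.q N n v0 = (C.q N n v - z) - (C.q N n v0 - z) := by ring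
        rw [this]
        have := norm_sub_le (C.q N n v - z) (C.q N n v0 - z)
        linarith
      rw [q_same] at h1
      have h2 := (hN.inv n).pr_low' v v0
      have h3 : 66 / 100 * C.r * n1 (v - v0) * (C.m⁻¹) ^ n ≤ 2 * R :=
        (mul_le_mul_of_nonneg_right h2 hp.le).trans h1
      have h4 : (n1 (v - v0) : ℝ) ≤ 2 * R / (66 / 100 * C.r * (C.m⁻¹) ^ n) := by
        rw [le_div_iff₀ (by positivity)]
        linarith
      exact_mod_cast h4.trans (Nat.le_ceil _)
  P3 := fun n v hv => (hN.inv n).fibre (hN.rel n) hv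
  P4 := fun n v v' hv hv' hadj => (hN.inv n).persist (hN.rel n) hv hv' hadj

theorem hs_fat {N : ℕ → Set (Fin F.d → ℤ)} (hN : C.NFok N) : (C.hs hN).Fat := by
  have hm := C.m1000
  have hmp := C.mpos
  have hrp := C.rpos
  have hCp := C.hr
  have hsp : ∀ n, 0 < (C.m⁻¹) ^ n := fun n => by positivity
  -- near any centre
  have hnear : ∀ M w w', (n1 (w - C.cen (C.lev N M).x w') : ℝ) ≤ 11 / 10 * C.m →
      ‖C.q N (M + 1) w - C.q N M w'‖ ≤ 112 / 100 * C.r * (C.m⁻¹) ^ M := by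
    intro M w w' hw
    rw [q_step, ← spow_succ_m M]
    have h1 := (hN.inv M).any_dist (hN.rel M) w' w
    have h2 : 101 / 100 * C.r * n1 (w - C.cen (C.lev N M).x w') ≤ 101 / 100 * C.r * (11 / 10 * C.m) :=
      mul_le_mul_of_nonneg_left hw (by linarith)
    have h3 : ‖F.pr (ic (C.y (C.lev N M) (N (M + 1)) w)) - C.mu * F.pr (ic ((C.lev N M).x w'))‖ ≤
        112 / 100 * C.r * C.m := by
      refine h1.trans ?_
      nlinarith
    calc _ ≤ (112 / 100 * C.r * C.m) * (C.m⁻¹) ^ (M + 1) :=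
          mul_le_mul_of_nonneg_right h3 (hsp _).le
      _ = _ := by ring
  refine ⟨?_, ?_⟩
  · intro n v hv
    change v ∈ (C.lev N n).I at hv
    have key : ∀ i w, ‖C.q N (n + 1 + i) w - C.q N n v‖ ≤
        C.r / 4 * (C.m⁻¹) ^ n + C.r / 20 * (C.m⁻¹) ^ (n + i) →
        (C.hs hN).Desc n v (n + 1 + i) w := by
      intro i
      induction i with
      | zero =>
        intro w hw
        rw [add_zero, add_zero] at *
        refine HS.Desc.step (HS.Desc.refl _ _) ?_
        change C.chl (C.lev N n) (N (n + 1)) v w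
        refine ⟨hv, (hN.inv n).ownExact (hN.rel n) hv ?_⟩
        rw [q_step, ← spow_succ_m n] at hw
        have h1 := (hN.inv n).child_dist_low (hN.rel n) (u := w) hv
        change _ ≤ ‖F.pr (ic ((C.lev N (n + 1)).x w)) - C.mu * F.pr (ic ((C.lev N n).x v))‖ at h1
        have h2 : ‖F.pr (ic ((C.lev N (n + 1)).x w)) - C.mu * F.pr (ic ((C.lev N n).x v))‖ ≤
            3 / 10 * C.r * C.m := by
          refine le_of_mul_le_mul_right (hw.trans (le_of_eq ?_)) (hsp (n + 1))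
          ring
        have h3 : C.r * (66 / 100 * n1 (w - C.cen (C.lev N n).x v)) ≤ C.r * (3 / 10 * C.m) := by
          linarith
        have h4 := le_of_mul_le_mul_left h3 (by linarith)
        linarith
      | succ i ih =>
        intro w hw
        have hMpow : (C.m⁻¹) ^ (n + i) = C.m * (C.m⁻¹) ^ (n + 1 + i) := by
          have := spow_succ_m (C := C) (n + i)
          rw [← this, show n + i + 1 = n + 1 + i by ring]
          ring
        have hstep : ∀ w', (n1 (w - C.cen (C.lev N (n + 1 + i)).x w') : ℝ) ≤ 11 / 10 * C.m →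
            (C.hs hN).Desc n v (n + 1 + i) w' := by
          intro w' hw'
          apply ih
          have h1 := hnear (n + 1 + i) w w' hw'
          have h2 : C.q N (n + 1 + i) w' - C.q N n v =
              (C.q N (n + 1 + i + 1) w - C.q N n v) - (C.q N (n + 1 + i + 1) w - C.q N (n + 1 + i) w') := by
            ring
          rw [h2]
          refine (norm_sub_le _ _).trans ?_
          have h3 : ‖C.q N (n + 1 + i + 1) w - C.q N n v‖ ≤
            C.r / 4 * (C.m⁻¹) ^ n + C.r / 20 * (C.m⁻¹) ^ (n + 1 + i) := by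
            have : n + (i + 1) = n + 1 + i := by ring
            rw [this] at hw
            exact hw
          have h4 : C.r / 20 * (C.m⁻¹) ^ (n + 1 + i) + 112 / 100 * C.r * (C.m⁻¹) ^ (n + 1 + i) ≤
              C.r / 20 * (C.m * (C.m⁻¹) ^ (n + 1 + i)) := by
            have := hsp (n + 1 + i)
            have h5 : 0 < C.r * (C.m⁻¹) ^ (n + 1 + i) := by positivity
            nlinarith
          rw [hMpow]
          linarith
        obtain ⟨w', hw'⟩ := (hN.inv (n + 1 + i)).dense w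
        have hd' := hstep w' hw'
        have hI' : w' ∈ (C.lev N (n + 1 + i)).I := hd'.mem (H := C.hs hN) hv
        obtain ⟨w2, hw2, h1, h2⟩ := (hN.inv (n + 1 + i)).ownNear (hN.rel (n + 1 + i)) hI' (u := w)
          (by linarith)
        have h3 : (n1 (w - C.cen (C.lev N (n + 1 + i)).x w2) : ℝ) ≤ 11 / 10 * C.m := by
          refine le_trans ?_ hw'
          exact_mod_cast h2
        exact HS.Desc.step (hstep w2 h3) ⟨hw2, h1⟩
    intro M hM w hw
    obtain ⟨i, rfl⟩ := Nat.exists_eq_add_of_le (Nat.succ_le_of_lt hM)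
    apply key i w
    change ‖C.q N (n + 1 + i) w - C.q N n v‖ ≤ C.r / 4 * (C.m⁻¹) ^ n at hw
    have : 0 ≤ C.r / 20 * (C.m⁻¹) ^ (n + i) := by positivity
    linarith
  · intro M z
    obtain ⟨w, hw⟩ := (hN.inv M).cover (C.mu ^ M * z)
    refine ⟨w, ?_⟩
    change ‖z - C.q N M w‖ ≤ C.r * (C.m⁻¹) ^ M
    have h0 := C.mu_ne
    have e : z - C.q N M w = (C.mu ^ M * z - F.pr (ic ((C.lev N M).x w))) / C.mu ^ M := by
      rw [q]
      field_simp
    rw [e, norm_div, norm_pow, C.norm_mu, inv_pow, ← div_eq_mul_inv]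
    exact div_le_div_of_nonneg_right hw (by positivity)

end Cf

end Pool.Agent.H82
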