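import Pool.Agent.H82.Ring

set_option autoImplicit false

open Set

namespace Pool.Agent.H82
namespace Two
variable {c : ℂ} {F : Lift c} (T : Two F)

/-- geometric parameters for the walks -/
structure Geo where
  G : ℕ
  LM : ℕ
  Wd : ℝ
  hs : 2 + 101 / 100 * ‖c‖ ≤ 66 / 100 * T.s
  hG : 151 / 150 * T.E.m ≤ G
  hLM : T.E.B ≤ LM
  hL0 : T.L0 ≤ LM
  hm : T.R.c1 + (101 / 100 * T.s + 1) * T.E.r ≤ 12 / 100 * T.E.m * T.E.r
  hΦ : T.R.c1 + 2 * T.E.r ≤ 66 / 100 * T.E.r * T.Φ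
  hB : 12 / 10 * T.E.m + LM * G * T.s ≤ T.R.B
  hWd : ‖c‖ * (101 / 100) * T.E.r * ((LM + 1) * G) ≤ Wd * T.E.m
  hWd' : ‖c‖ * (101 / 100) * T.E.r * LM ≤ Wd

/-- ring levels -/
noncomputable def LR (n : ℕ) : Lev F.d := T.R.lev T.NF n

/-- ring positions -/
noncomputable def pR (n : ℕ) (u : Z2) : ℂ := F.pr (ic ((T.LR n).x u))

noncomputable def AlR (n : ℕ) : Set Z2 := T.R.Al (T.LR n) (T.NF (n + 1))
noncomputable def CeR (n : ℕ) : Set Z2 := T.R.Cen (T.LR n)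
/-- centres of the obstacle-free chart -/
noncomputable def cE (n : ℕ) (v : Z2) : Z2 := T.E.cen (T.E.lev (Cf.emp F) n).x v

variable {T}

theorem invR (n : ℕ) : T.R.Inv (T.LR n) (T.NF n) := nf_ok.inv n
theorem relR (n : ℕ) : T.R.NFrel (T.NF n) (T.NF (n + 1)) := nf_ok.rel n

theorem rR_pos : 2000 ≤ T.R.r := T.R.rpos

/-- every ring chart site near the image of `w` reaches a centre -/
def GR (σ : Side F T.CM) (n l : ℕ) (w : Z2) : Prop :=
  ∀ u, ‖T.pR (n + 1) u - σ.ν * F.pr (ic (T.E.X (n + 1) w))‖ ≤ T.E.r →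
    ∃ l' ≤ l, Rch (T.AlR n) (T.CeR n) l' u

/-- clearance around the image of `w` -/
def Clr (σ : Side F T.CM) (O : Set (Fin F.d → ℤ)) (n : ℕ) (w : Z2) : Prop :=
  ∀ b ∈ O, T.R.c1 + (101 / 100 * T.s + 1) * T.E.r ≤
    ‖σ.ν * F.pr (ic (T.E.X (n + 1) w)) - F.pr (ic b)‖

theorem GR.mono {σ : Side F T.CM} {n l l' : ℕ} {w : Z2} (h : GR σ n l w) (hl : l ≤ l') :
    GR σ n l' w := by
  intro u hu
  obtain ⟨l1, h1, h2⟩ := h u hu
  exact ⟨l1, h1.trans hl, h2⟩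

theorem gr_step (g : T.Geo) {σ : Side F T.CM} {n l : ℕ} {w w' : Z2} (hadj : adj w w')
    (h : GR σ n l w') (hcl : Clr σ (T.NF (n + 1)) n w') : GR σ n (l + T.s) w := by
  intro u hu
  have hr := T.E.rpos
  have hrR := T.hr
  obtain ⟨u', hu'⟩ := (invR (T := T) (n + 1)).cover (σ.ν * F.pr (ic (T.E.X (n + 1) w')))
  change ‖σ.ν * F.pr (ic (T.E.X (n + 1) w')) - T.pR (n + 1) u'‖ ≤ T.R.r at hu'
  rw [hrR] at hu'
  obtain ⟨l', hl', hR⟩ := h u' (by rw [norm_sub_rev]; exact hu')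
  -- the two ring sites are close
  have h1 : ‖F.pr (ic (T.E.X (n + 1) w)) - F.pr (ic (T.E.X (n + 1) w'))‖ ≤ 101 / 100 * T.E.r := by
    have := X_up (T := T) (n + 1) w w'
    unfold adj at hadj
    rwa [hadj, Nat.cast_one, mul_one] at this
  have h2 : ‖T.pR (n + 1) u - T.pR (n + 1) u'‖ ≤ (2 + 101 / 100 * ‖c‖) * T.E.r := by
    have e : T.pR (n + 1) u - T.pR (n + 1) u' =
        (T.pR (n + 1) u - σ.ν * F.pr (ic (T.E.X (n + 1) w))) +
        (σ.ν * (F.pr (ic (T.E.X (n + 1) w)) - F.pr (ic (T.E.X (n + 1) w'))) +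
        (σ.ν * F.pr (ic (T.E.X (n + 1) w')) - T.pR (n + 1) u')) := by ring
    rw [e]
    refine (norm_add_le _ _).trans ?_
    have h3 := norm_add_le (σ.ν * (F.pr (ic (T.E.X (n + 1) w)) - F.pr (ic (T.E.X (n + 1) w'))))
        (σ.ν * F.pr (ic (T.E.X (n + 1) w')) - T.pR (n + 1) u')
    have h4 : ‖σ.ν * (F.pr (ic (T.E.X (n + 1) w)) - F.pr (ic (T.E.X (n + 1) w')))‖ ≤
        ‖c‖ * (101 / 100 * T.E.r) := by
      rw [norm_mul]
      exact mul_le_mul σ.hν2 h1 (norm_nonneg _) (norm_nonneg _)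
    linarith
  have h5 := (invR (T := T) (n + 1)).pr_low' u u'
  change _ ≤ ‖T.pR (n + 1) u - T.pR (n + 1) u'‖ at h5
  rw [hrR] at h5
  have h6 : n1 (u - u') ≤ T.s := by
    have h7 : T.E.r * (66 / 100 * n1 (u - u')) ≤ T.E.r * (66 / 100 * T.s) := by
      have := mul_le_mul_of_nonneg_right g.hs (show 0 ≤ T.E.r by linarith)
      linarith
    have h8 := le_of_mul_le_mul_left h7 (by linarith)
    have h9 : (n1 (u - u') : ℝ) ≤ T.s := by linarith
    exact_mod_cast h9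
  have hball : ∀ a, n1 (a - u') ≤ T.s → a ∈ T.AlR n := by
    intro a ha b hb
    change T.R.c1 ≤ ‖T.pR (n + 1) a - F.pr (ic b)‖
    have h7 := hcl b hb
    have h8 := (invR (T := T) (n + 1)).pr_up' a u'
    change ‖T.pR (n + 1) a - T.pR (n + 1) u'‖ ≤ _ at h8
    rw [hrR] at h8
    have h9 : 101 / 100 * T.E.r * n1 (a - u') ≤ 101 / 100 * T.E.r * T.s := by
      apply mul_le_mul_of_nonneg_left _ (by linarith)
      exact_mod_cast ha
    have e : σ.ν * F.pr (ic (T.E.X (n + 1) w')) - F.pr (ic b) =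
        (σ.ν * F.pr (ic (T.E.X (n + 1) w')) - T.pR (n + 1) u') +
        (-(T.pR (n + 1) a - T.pR (n + 1) u') + (T.pR (n + 1) a - F.pr (ic b))) := by ring
    rw [e] at h7
    have h10 := norm_add_le (σ.ν * F.pr (ic (T.E.X (n + 1) w')) - T.pR (n + 1) u')
      (-(T.pR (n + 1) a - T.pR (n + 1) u') + (T.pR (n + 1) a - F.pr (ic b)))
    have h11 := norm_add_le (-(T.pR (n + 1) a - T.pR (n + 1) u')) (T.pR (n + 1) a - F.pr (ic b))
    rw [norm_neg] at h11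
    linarith
  exact ⟨l' + n1 (u - u'), by omega, hR.ball' hball h6⟩

theorem gr_geo (g : T.Geo) {σ : Side F T.CM} {n l : ℕ} {a b : Z2}
    (h : GR σ n l b)
    (hcl : ∀ w, n1 (w - a) + n1 (w - b) = n1 (a - b) → Clr σ (T.NF (n + 1)) n w) :
    GR σ n (l + n1 (a - b) * T.s) a := by
  have key : ∀ k, ∀ w, n1 (w - b) = k → n1 (w - a) + n1 (w - b) = n1 (a - b) →
      GR σ n (l + k * T.s) w := by
    intro k
    induction k with
    | zero =>
      intro w hw _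
      have : w = b := sub_eq_zero.1 (n1_eq_zero.1 hw)
      subst this
      simpa using h
    | succ k ih =>
      intro w hw hgeo
      obtain ⟨w', h1, h2⟩ := nbr hw
      have h3 := n1_sub_le w' w a
      have h4 : n1 (w' - w) = 1 := adj_symm h1
      have h5 := n1_sub_le a w' b
      rw [n1_sub_comm a w'] at h5
      have hgeo' : n1 (w' - a) + n1 (w' - b) = n1 (a - b) := by omega
      have h6 := gr_step g h1 (ih w' h2 hgeo') (hcl w' hgeo')
      have : l + (k + 1) * T.s = l + k * T.s + T.s := by ring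
      rw [this]
      exact h6
  exact key _ a rfl (by rw [sub_self, n1_zero, zero_add])

theorem cE_near_low (n : ℕ) (v w : Z2) : 149 / 150 * T.E.m * n1 (v - w) ≤ n1 (T.cE n v - T.cE n w) :=
  (T.E.emp_ok.inv n).near_low v w

theorem cE_near_up (n : ℕ) (v w : Z2) : (n1 (T.cE n v - T.cE n w) : ℝ) ≤ 151 / 150 * T.E.m * n1 (v - w) :=
  (T.E.emp_ok.inv n).near_up v w

/-- sites on a geodesic between two adjacent good centres are far from bad sites -/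
theorem clr_geo {Y : Set Z2} {n : ℕ} {q q1 w w' : Z2} (hadj : adj q q1)
    (hq : q ∉ T.E.HE.W 0 Y n) (hq1 : q1 ∉ T.E.HE.W 0 Y n)
    (hw : n1 (w - T.cE n q) + n1 (w - T.cE n q1) = n1 (T.cE n q - T.cE n q1))
    (hw' : w' ∈ T.E.HE.W 0 Y (n + 1)) : 19 / 100 * T.E.m ≤ n1 (w - w') := by
  have hm := T.E.m1000
  obtain ⟨p, hp⟩ := T.E.HE_parent n w'
  have hpY := (T.E.W_succ Y n hp).1 hw'
  have hpq : p ≠ q := by rintro rfl; exact hq hpY
  have hpq1 : p ≠ q1 := by rintro rfl; exact hq1 hpY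
  have h3 := adj_third hadj hpq hpq1
  have h3' : (3 : ℝ) ≤ n1 (p - q) + n1 (p - q1) := by exact_mod_cast h3
  have h4 := cE_near_low (T := T) n p q
  have h5 := cE_near_low (T := T) n p q1
  have h6 := cE_near_up (T := T) n q q1
  unfold adj at hadj
  rw [hadj, Nat.cast_one, mul_one] at h6
  have hw2 : (n1 (w - T.cE n q) : ℝ) + n1 (w - T.cE n q1) = n1 (T.cE n q - T.cE n q1) := by
    exact_mod_cast hw
  have p1 : (0 : ℝ) ≤ n1 (w - T.cE n q) := Nat.cast_nonneg _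
  have p2 : (0 : ℝ) ≤ n1 (w - T.cE n q1) := Nat.cast_nonneg _
  -- triangle inequalities
  have t1 : (n1 (w' - T.cE n q) : ℝ) ≤ n1 (w - w') + n1 (w - T.cE n q) := by
    have := n1_sub_le w' w (T.cE n q)
    rw [n1_sub_comm w' w] at this
    exact_mod_cast this
  have t2 : (n1 (w' - T.cE n q1) : ℝ) ≤ n1 (w - w') + n1 (w - T.cE n q1) := by
    have := n1_sub_le w' w (T.cE n q1)
    rw [n1_sub_comm w' w] at this
    exact_mod_cast this
  by_cases hA : (n1 (w' - T.cE n q) : ℝ) ≤ 12 / 10 * T.E.m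
  · by_cases hB : (n1 (w' - T.cE n q1) : ℝ) ≤ 12 / 10 * T.E.m
    · have h7 : (n1 (w' - T.cE n p) : ℝ) ≤ n1 (w' - T.cE n q) := by
        exact_mod_cast T.E.HE_ch_near hp q hA
      have h8 : (n1 (w' - T.cE n p) : ℝ) ≤ n1 (w' - T.cE n q1) := by
        exact_mod_cast T.E.HE_ch_near hp q1 hB
      have t3 : (n1 (T.cE n p - T.cE n q) : ℝ) ≤ n1 (w' - T.cE n p) + n1 (w' - T.cE n q) := by
        have := n1_sub_le (T.cE n p) w' (T.cE n q)
        rw [n1_sub_comm (T.cE n p) w'] at this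
        exact_mod_cast this
      have t4 : (n1 (T.cE n p - T.cE n q1) : ℝ) ≤ n1 (w' - T.cE n p) + n1 (w' - T.cE n q1) := by
        have := n1_sub_le (T.cE n p) w' (T.cE n q1)
        rw [n1_sub_comm (T.cE n p) w'] at this
        exact_mod_cast this
      nlinarith
    · push Not at hB
      linarith
  · push Not at hA
    linarith

theorem own_clr (g : T.Geo) (σ : Side F T.CM) {Y : Set Z2} {n : ℕ} {q q1 w : Z2} (hadj : adj q q1)
    (hq : q ∉ T.E.HE.W 0 Y n) (hq1 : q1 ∉ T.E.HE.W 0 Y n)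
    (hw : n1 (w - T.cE n q) + n1 (w - T.cE n q1) = n1 (T.cE n q - T.cE n q1)) :
    Clr σ (T.obs σ Y (n + 1)) n w := by
  rintro b ⟨w', hw', rfl⟩
  have h1 := clr_geo hadj hq hq1 hw hw'
  have h2 := X_low (T := T) (n + 1) w w'
  have hr := T.E.rpos
  rw [side_pr, ← mul_sub, norm_mul]
  refine g.hm.trans ?_
  have h3 : 12 / 100 * T.E.m * T.E.r ≤ 66 / 100 * T.E.r * n1 (w - w') := by
    have := mul_le_mul_of_nonneg_left h1 (show 0 ≤ 66 / 100 * T.E.r by linarith)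
    have h4 : 0 ≤ T.E.m * T.E.r := by have := T.E.mpos; positivity
    linarith
  have h5 : 1 * ‖F.pr (ic (T.E.X (n + 1) w)) - F.pr (ic (T.E.X (n + 1) w'))‖ ≤
      ‖σ.ν‖ * ‖F.pr (ic (T.E.X (n + 1) w)) - F.pr (ic (T.E.X (n + 1) w'))‖ :=
    mul_le_mul_of_nonneg_right σ.hν1 (norm_nonneg _)
  linarith

/-- lifting a path of good sites -/
theorem gr_path (g : T.Geo) (σ σ' : Side F T.CM) {Y Y' : Set Z2}
    (hNF : ∀ n b, b ∈ T.NF n → b ∈ T.obs σ Y n ∨ b ∈ T.obs σ' Y' n) {n l L : ℕ} {q q' : Z2}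
    (hp : Pth (fun a => a ∉ T.E.HE.W 0 Y n) L q q') (h : GR σ n l (T.cE n q'))
    (hfar : ∀ w, n1 (w - T.cE n q) ≤ (L + 1) * g.G → Clr σ (T.obs σ' Y' (n + 1)) n w) :
    GR σ n (l + L * g.G * T.s) (T.cE n q) := by
  induction hp with
  | refl _ => simpa using h
  | @step L q q1 q' hq hadj hp ih =>
    have hD : n1 (T.cE n q - T.cE n q1) ≤ g.G := by
      have h6 := cE_near_up (T := T) n q q1
      unfold adj at hadj
      rw [hadj, Nat.cast_one, mul_one] at h6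
      exact_mod_cast h6.trans g.hG
    have h1 : GR σ n (l + L * g.G * T.s) (T.cE n q1) := by
      apply ih h
      intro w hw
      apply hfar
      have := n1_sub_le w (T.cE n q1) (T.cE n q)
      rw [n1_sub_comm (T.cE n q1)] at this
      have e : (L + 1 + 1) * g.G = (L + 1) * g.G + g.G := by ring
      omega
    have h2 := gr_geo g h1 (a := T.cE n q) (by
      intro w hw b hb
      rcases hNF _ _ hb with hb | hb
      · exact own_clr g σ hadj hq hp.left hw b hb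
      · refine hfar w ?_ b hb
        have h3 : n1 (w - T.cE n q) ≤ g.G := by omega
        refine h3.trans ?_
        exact Nat.le_mul_of_pos_left _ (by omega))
    apply h2.mono
    have h3 := Nat.mul_le_mul_right T.s hD
    have e : (L + 1) * g.G * T.s = L * g.G * T.s + g.G * T.s := by ring
    omega

/-- start of a walk: near a point where all ring chart sites are sites -/
theorem gr_start (σ : Side F T.CM) {n l0 : ℕ} {q : Z2}
    (h : ∀ v, ‖T.pR n v - σ.ν * F.pr (ic (T.E.X n q))‖ ≤ T.E.r → v ∈ (T.LR n).I)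
    (hl0 : ∀ k : ℕ, (k : ℝ) ≤ 12 / 10 * T.E.m → k ≤ l0) :
    GR σ n l0 (T.cE n q) := by
  intro u hu
  have hr := T.E.rpos
  have hm := T.E.m1000
  obtain ⟨v, hv⟩ := (invR (T := T) n).cover' (σ.ν * F.pr (ic (T.E.X n q)))
  change ‖_ - T.pR n v‖ ≤ _ at hv
  rw [T.hr] at hv
  have hvI : v ∈ (T.LR n).I := by
    apply h
    rw [norm_sub_rev]
    linarith
  have h1 := (invR (T := T) n).child_dist_low (relR n) (u := u) hvI
  change _ ≤ ‖T.pR (n + 1) u - T.R.mu * T.pR n v‖ at h1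
  rw [T.hr, T.muR] at h1
  have hX : F.pr (ic (T.E.X (n + 1) (T.cE n q))) = T.E.mu * F.pr (ic (T.E.X n q)) := by
    have := T.E.X_succ_cen n q
    rw [cE, this, T.E.pr_A]
  rw [hX] at hu
  have e : T.pR (n + 1) u - T.E.mu * T.pR n v =
      (T.pR (n + 1) u - σ.ν * (T.E.mu * F.pr (ic (T.E.X n q)))) +
      T.E.mu * (σ.ν * F.pr (ic (T.E.X n q)) - T.pR n v) := by ring
  have h2 : ‖T.pR (n + 1) u - T.E.mu * T.pR n v‖ ≤ T.E.r + T.E.m * (76 / 100 * T.E.r) := by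
    rw [e]
    refine (norm_add_le _ _).trans ?_
    rw [norm_mul, T.E.norm_mu]
    have := mul_le_mul_of_nonneg_left hv (show 0 ≤ T.E.m by linarith)
    linarith
  have h3 : T.E.r * (66 / 100 * n1 (u - T.R.cen (T.LR n).x v)) ≤ T.E.r * (1 + 76 / 100 * T.E.m) := by
    linarith
  have h4 := le_of_mul_le_mul_left h3 (by linarith)
  have h5 : (n1 (u - T.R.cen (T.LR n).x v) : ℝ) ≤ 12 / 10 * T.E.m := by linarith
  refine ⟨n1 (u - T.R.cen (T.LR n).x v), hl0 _ h5, ?_⟩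
  apply (invR (T := T) n).rchNear (relR n) hvI
  rw [T.mR]
  exact h5

/-- end of a walk -/
theorem gr_end {σ : Side F T.CM} {n l : ℕ} {w : Z2} (h : GR σ n l w) (hl : l ≤ T.R.B) :
    ∀ u, ‖T.pR (n + 1) u - σ.ν * F.pr (ic (T.E.X (n + 1) w))‖ ≤ T.E.r → u ∈ (T.LR (n + 1)).I := by
  intro u hu
  obtain ⟨l', h1, h2⟩ := h u hu
  obtain ⟨x, hx, -⟩ := h2.own_le (h1.trans hl)
  exact ⟨x, hx⟩

/-- deep good sites -/
def Safe (T : Two F) (Y : Set Z2) : ℕ → Z2 → Prop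
  | 0, q => q ∉ Y ∧ ∀ y ∈ Y, T.Φ ≤ n1 (q - y)
  | n + 1, q => ∃ p, p ∉ T.E.HE.W 0 Y n ∧ q = T.cE n p

/-- level zero walks exist -/
def Base0 (T : Two F) (Y : Set Z2) : Prop :=
  ∀ q, q ∉ Y → ∃ L ≤ T.L0, ∃ q', (q' ∉ Y ∧ ∀ y ∈ Y, T.Φ ≤ n1 (q' - y)) ∧
    Pth (fun a => a ∉ Y) L q q'

theorem W_zero (Y : Set Z2) : T.E.HE.W 0 Y 0 = Y := HS.W_self

theorem exists_safe (g : T.Geo) {Y : Set Z2} (hb : Base0 T Y) (n : ℕ) {q : Z2}
    (hq : q ∉ T.E.HE.W 0 Y n) : ∃ L ≤ g.LM, ∃ q', Safe T Y n q' ∧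
      Pth (fun a => a ∉ T.E.HE.W 0 Y n) L q q' := by
  cases n with
  | zero =>
    rw [W_zero] at hq ⊢
    obtain ⟨L, hL, q', h1, h2⟩ := hb q hq
    exact ⟨L, hL.trans g.hL0, q', h1, h2⟩
  | succ n =>
    obtain ⟨p, hp⟩ := T.E.HE_parent n q
    have hpY : p ∉ T.E.HE.W 0 Y n := fun h => hq ((T.E.W_succ Y n hp).2 h)
    have ho := (T.E.HE_ch_iff n p q).1 hp
    obtain ⟨L, hL, hpath⟩ := own_path le_rfl ho
    refine ⟨L, hL.trans g.hLM, T.cE n p, ⟨p, hpY, rfl⟩, ?_⟩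
    apply hpath.mono
    intro a ha
    have h1 := (T.E.HE_ch_iff n p a).2 ha
    exact fun h => hpY ((T.E.W_succ Y n h1).1 h)

/-- zones where the other side is far -/
structure Zone (g : T.Geo) (σ σ' : Side F T.CM) (Y' : Set Z2) (Zn : ℕ → ℂ → Prop) : Prop where
  Z1 : ∀ n z z', Zn (n + 1) z → ‖z' - z‖ ≤ g.Wd * (T.E.m⁻¹) ^ n → Zn n z'
  Z2 : ∀ n z z', Zn (n + 1) z → ‖z' - z‖ ≤ g.Wd * (T.E.m⁻¹) ^ n → ∀ b ∈ T.obs σ' Y' (n + 1),
    T.R.c1 + (101 / 100 * T.s + 1) * T.E.r ≤ ‖T.E.mu ^ (n + 1) * z' - F.pr (ic b)‖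
  Z3 : ∀ z, Zn 0 z → ∀ b ∈ T.obs σ' Y' 0, T.R.c1 + T.E.r ≤ ‖z - F.pr (ic b)‖

theorem q_cE (n : ℕ) (p : Z2) : T.E.HE.q (n + 1) (T.cE n p) = T.E.HE.q n p := by
  rw [T.E.HE_q, T.E.HE_q, cE, T.E.X_succ_cen, T.E.pr_A]
  have := T.E.mu_ne
  field_simp
  ring

theorem qE_dist (n : ℕ) (w w' : Z2) :
    ‖T.E.HE.q n w - T.E.HE.q n w'‖ ≤ 101 / 100 * T.E.r * n1 (w - w') * (T.E.m⁻¹) ^ n := by
  have h := Cf.q_same (C := T.E) (N := Cf.emp F) n w' w
  change ‖T.E.HE.q n w - T.E.HE.q n w'‖ = _ at h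
  rw [h]
  have := T.E.mpos
  exact mul_le_mul_of_nonneg_right (X_up n w w') (by positivity)

theorem must (g : T.Geo) (σ σ' : Side F T.CM) {Y Y' : Set Z2}
    (hNF : ∀ n b, b ∈ T.NF n → b ∈ T.obs σ Y n ∨ b ∈ T.obs σ' Y' n) (hb : Base0 T Y)
    {Zn : ℕ → ℂ → Prop} (hZ : Zone g σ σ' Y' Zn) :
    ∀ n q, Safe T Y n q → Zn n (σ.ν * T.E.HE.q n q) →
      ∀ v, ‖T.pR n v - σ.ν * F.pr (ic (T.E.X n q))‖ ≤ T.E.r → v ∈ (T.LR n).I := by
  have hr := T.E.rpos
  have hm := T.E.m1000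
  intro n
  induction n with
  | zero =>
    rintro q ⟨hq, hq2⟩ hz v hv b hbN
    change T.R.c1 ≤ ‖T.pR 0 v - F.pr (ic b)‖
    have key : T.R.c1 + T.E.r ≤ ‖σ.ν * F.pr (ic (T.E.X 0 q)) - F.pr (ic b)‖ := by
      rcases hNF _ _ hbN with hb1 | hb1
      · obtain ⟨w, hw, rfl⟩ := hb1
        rw [W_zero] at hw
        have h1 := hq2 w hw
        have h2 := X_low (T := T) 0 q w
        rw [side_pr, ← mul_sub, norm_mul]
        have h3 : 66 / 100 * T.E.r * T.Φ ≤ 66 / 100 * T.E.r * n1 (q - w) := by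
          apply mul_le_mul_of_nonneg_left _ (by linarith)
          exact_mod_cast h1
        have h4 : 1 * ‖F.pr (ic (T.E.X 0 q)) - F.pr (ic (T.E.X 0 w))‖ ≤
            ‖σ.ν‖ * ‖F.pr (ic (T.E.X 0 q)) - F.pr (ic (T.E.X 0 w))‖ :=
          mul_le_mul_of_nonneg_right σ.hν1 (norm_nonneg _)
        have h5 := g.hΦ
        linarith
      · have h1 := hZ.Z3 _ hz b hb1
        rw [T.E.HE_q, pow_zero, div_one] at h1
        exact h1
    have e : σ.ν * F.pr (ic (T.E.X 0 q)) - F.pr (ic b) = (T.pR 0 v - F.pr (ic b)) -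
        (T.pR 0 v - σ.ν * F.pr (ic (T.E.X 0 q))) := by ring
    rw [e] at key
    have := norm_sub_le (T.pR 0 v - F.pr (ic b)) (T.pR 0 v - σ.ν * F.pr (ic (T.E.X 0 q)))
    linarith
  | succ n ih =>
    rintro q ⟨p, hp, rfl⟩ hz
    obtain ⟨L, hL, q', hs, hpath⟩ := exists_safe g hb n hp
    rw [q_cE] at hz
    have hν := σ.hν2
    have hsn : 0 < (T.E.m⁻¹) ^ n := by have := T.E.mpos; positivity
    have hLL : (L : ℝ) ≤ g.LM := by exact_mod_cast hL
    -- zone at the end of the path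
    have hz' : Zn n (σ.ν * T.E.HE.q n q') := by
      apply hZ.Z1 n _ _ hz
      rw [← mul_sub, norm_mul]
      have h1 := qE_dist (T := T) n q' p
      have h2 : (n1 (q' - p) : ℝ) ≤ g.LM := by
        rw [n1_sub_comm]
        exact le_trans (by exact_mod_cast hpath.dist) hLL
      have h3 : 101 / 100 * T.E.r * n1 (q' - p) * (T.E.m⁻¹) ^ n ≤
          101 / 100 * T.E.r * g.LM * (T.E.m⁻¹) ^ n := by
        apply mul_le_mul_of_nonneg_right _ hsn.le
        exact mul_le_mul_of_nonneg_left h2 (by linarith)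
      calc ‖σ.ν‖ * ‖T.E.HE.q n q' - T.E.HE.q n p‖ ≤
            ‖c‖ * (101 / 100 * T.E.r * g.LM * (T.E.m⁻¹) ^ n) :=
            mul_le_mul hν (h1.trans h3) (norm_nonneg _) (norm_nonneg _)
        _ = (‖c‖ * (101 / 100) * T.E.r * g.LM) * (T.E.m⁻¹) ^ n := by ring
        _ ≤ _ := mul_le_mul_of_nonneg_right g.hWd' hsn.le
    have h0 := gr_start σ (T := T) (n := n) (q := q') (l0 := ⌊12 / 10 * T.E.m⌋₊) (ih q' hs hz')
      (fun k hk => Nat.le_floor hk)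
    have h1 := gr_path g σ σ' hNF hpath h0 (by
      intro w hw b hb1
      have h2 := hZ.Z2 n _ (σ.ν * T.E.HE.q (n + 1) w) hz (by
        rw [← q_cE n p, ← mul_sub, norm_mul]
        have h3 := qE_dist (T := T) (n + 1) w (T.cE n p)
        have h4 : (n1 (w - T.cE n p) : ℝ) ≤ (g.LM + 1) * g.G := by
          have h5 : (n1 (w - T.cE n p) : ℝ) ≤ (L + 1) * g.G := by exact_mod_cast hw
          refine h5.trans ?_
          apply mul_le_mul_of_nonneg_right _ (Nat.cast_nonneg _)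
          linarith
        have hsn1 : 0 < (T.E.m⁻¹) ^ (n + 1) := by have := T.E.mpos; positivity
        have h6 : 101 / 100 * T.E.r * n1 (w - T.cE n p) * (T.E.m⁻¹) ^ (n + 1) ≤
            101 / 100 * T.E.r * ((g.LM + 1) * g.G) * (T.E.m⁻¹) ^ (n + 1) := by
          apply mul_le_mul_of_nonneg_right _ hsn1.le
          exact mul_le_mul_of_nonneg_left h4 (by linarith)
        calc ‖σ.ν‖ * ‖T.E.HE.q (n + 1) w - T.E.HE.q (n + 1) (T.cE n p)‖ ≤
              ‖c‖ * (101 / 100 * T.E.r * ((g.LM + 1) * g.G) * (T.E.m⁻¹) ^ (n + 1)) :=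
              mul_le_mul hν (h3.trans h6) (norm_nonneg _) (norm_nonneg _)
          _ = (‖c‖ * (101 / 100) * T.E.r * ((g.LM + 1) * g.G)) * (T.E.m⁻¹) ^ (n + 1) := by ring
          _ ≤ (g.Wd * T.E.m) * (T.E.m⁻¹) ^ (n + 1) := mul_le_mul_of_nonneg_right g.hWd hsn1.le
          _ = g.Wd * (T.E.m⁻¹) ^ n := by
              rw [← Cf.spow_succ_m n]; ring) b hb1
      have e : T.E.mu ^ (n + 1) * (σ.ν * T.E.HE.q (n + 1) w) = σ.ν * F.pr (ic (T.E.X (n + 1) w)) := by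
        rw [T.E.pr_X]; ring
      rw [e] at h2
      exact h2)
    apply gr_end h1
    have h2 : ((⌊12 / 10 * T.E.m⌋₊ + L * g.G * T.s : ℕ) : ℝ) ≤ T.R.B := by
      refine le_trans ?_ g.hB
      push_cast
      have h3 : ((⌊12 / 10 * T.E.m⌋₊ : ℕ) : ℝ) ≤ 12 / 10 * T.E.m := Nat.floor_le (by linarith)
      have h4 : (L : ℝ) * g.G * T.s ≤ g.LM * g.G * T.s := by
        apply mul_le_mul_of_nonneg_right _ (Nat.cast_nonneg _)
        exact mul_le_mul_of_nonneg_right hLL (Nat.cast_nonneg _)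
      linarith
    exact_mod_cast h2

end Two

end Pool.Agent.H82
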